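import Pool.Agent.LibThinT.Window
import Pool.Agent.LibThin91.F3

/-!
Almost surely there are long windows at arbitrarily large scales.
-/

namespace Pool.Agent.LibThinT

open Filter Topology MeasureTheory ProbabilityTheory
open Pool.Agent.LibMaier Pool.Agent.LibThin21 Pool.Agent.LibThin91

variable {Ω : Type*} [MeasurableSpace Ω] {μ : Measure Ω} [IsProbabilityMeasure μ] {E : Set ℕ}
  {T : ℕ → ℕ} {a : ℕ → Ω → ℕ}

lemma lamT_pos {E : Set ℕ} {T : ℕ → ℕ} {x : ℝ} (h0 : 0 < delX E T x) (h3 : delX E T x ≤ Real.exp (-3)) :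
    0 < lamT E T x := by
  unfold lamT
  have hL3 : 3 ≤ Real.log (1 / delX E T x) := by
    rw [one_div, Real.log_inv]
    have := Real.log_le_log h0 h3
    rw [Real.log_exp] at this
    linarith
  have : 0 < Real.log (1 / delX E T x) := by linarith
  positivity

/-- Almost surely such windows exist at arbitrarily large scales from any given unbounded set. -/
theorem ae_scalesT (hSum : Summable (rE E)) (hT : ∀ p : ℕ, p.Prime → p ∈ E → T p ≤ p) (hM : ModelT μ E T a) {S : Set ℝ}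
    (hS : ∃ᶠ x : ℝ in atTop, x ∈ S ∧ 1 / x ≤ delX E T x) :
    ∀ᵐ ω ∂μ, ∀ η : ℝ, 0 < η → ∃ᶠ x : ℝ in atTop, (x ∈ S ∧ 1 / x ≤ delX E T x) ∧
      ∃ m : ℕ, Real.exp ((1 - η) * x) ≤ m ∧ m ≤ Real.exp ((1 + η) * x) ∧
        sifted (fun p => a p ω) ∩ Set.Ioc m (m + ⌊(1 - η) * lamT E T x * x ^ 2⌋₊) = ∅ := by
  obtain ⟨B0, hB0⟩ := eventually_atTop.1 (delX_tendsto hT hSum (Real.exp_pos (-3)))
  -- for one `η` and one lower bound for `x`
  have hone : ∀ η : ℝ, 0 < η → ∀ A : ℝ, ∀ᵐ ω ∂μ, ∃ x : ℝ, A ≤ x ∧ (x ∈ S ∧ 1 / x ≤ delX E T x) ∧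
      ∃ m : ℕ, Real.exp ((1 - η) * x) ≤ m ∧ m ≤ Real.exp ((1 + η) * x) ∧
        sifted (fun p => a p ω) ∩ Set.Ioc m (m + ⌊(1 - η) * lamT E T x * x ^ 2⌋₊) = ∅ := by
    intro η hη A
    obtain ⟨G, hG⟩ : ∃ G : Set Ω, G = {ω | ∃ x : ℝ, A ≤ x ∧ (x ∈ S ∧ 1 / x ≤ delX E T x) ∧
      ∃ m : ℕ, Real.exp ((1 - η) * x) ≤ m ∧ m ≤ Real.exp ((1 + η) * x) ∧
        sifted (fun p => a p ω) ∩ Set.Ioc m (m + ⌊(1 - η) * lamT E T x * x ^ 2⌋₊) = ∅} := ⟨_, rfl⟩
    have hle : ∀ κ : ℝ, 0 < κ → μ.real Gᶜ ≤ κ := by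
      intro κ hκ
      obtain ⟨κ', hκ'⟩ : ∃ κ' : ℝ, κ' = min κ η := ⟨_, rfl⟩
      have hκ0 : 0 < κ' := by rw [hκ']; exact lt_min hκ hη
      have hκκ : κ' ≤ κ := by rw [hκ']; exact min_le_left _ _
      have hκη : κ' ≤ η := by rw [hκ']; exact min_le_right _ _
      obtain ⟨V, hV⟩ := scalesT hSum hT hM hκ0
      have hVx : ∀ᶠ x : ℝ in atTop, V ≤ η * x :=
        (tendsto_id.const_mul_atTop hη).eventually_ge_atTop V
      obtain ⟨x, ⟨hxS, hxd⟩, hx, hxV, hxA, hx1⟩ :=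
        (hS.and_eventually (hV.and (hVx.and ((eventually_ge_atTop (max A B0)).and
          (eventually_ge_atTop (1 : ℝ)))))).exists
      have hp := hx hxd
      have hs0 : 0 < delX E T x := lt_of_lt_of_le (by positivity) hxd
      have hlam := lamT_pos hs0 (hB0 x ((le_max_right _ _).trans hxA))
      obtain ⟨W, hW⟩ : ∃ W : Set Ω, W = {ω | ∃ m : ℕ, Real.exp (x - V) ≤ m ∧ (m : ℝ) ≤ Real.exp (x + V) ∧
        sifted (fun p => a p ω) ∩ Set.Ioc m (m + ⌊(1 - κ') * lamT E T x * x ^ 2⌋₊) = ∅} := ⟨_, rfl⟩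
      rw [← hW] at hp
      have hWm : MeasurableSet W := by
        rw [hW]
        exact measurableSet_scale hM.meas _ _ _
      have hWG : W ⊆ G := by
        rw [hW, hG]
        rintro ω ⟨m, hm1, hm2, hm3⟩
        refine ⟨x, (le_max_left _ _).trans hxA, ⟨hxS, hxd⟩, m, ?_, ?_, ?_⟩
        · refine le_trans (Real.exp_le_exp.2 ?_) hm1
          linarith
        · refine hm2.trans (Real.exp_le_exp.2 ?_)
          linarith
        · apply Set.eq_empty_of_subset_empty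
          rw [← hm3]
          rintro j ⟨hj, hj1, hj2⟩
          refine ⟨hj, hj1, hj2.trans ?_⟩
          have hfl : ⌊(1 - η) * lamT E T x * x ^ 2⌋₊ ≤ ⌊(1 - κ') * lamT E T x * x ^ 2⌋₊ := by
            apply Nat.floor_mono
            gcongr
          omega
      calc μ.real Gᶜ ≤ μ.real Wᶜ :=
            measureReal_mono (Set.compl_subset_compl.2 hWG) (measure_ne_top _ _)
        _ = 1 - μ.real W := probReal_compl_eq_one_sub hWm
        _ ≤ κ := by linarith
    have h0 : μ.real Gᶜ ≤ 0 := le_of_forall_pos_le_add fun κ hκ => by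
      rw [zero_add]
      exact hle κ hκ
    have h1 : μ.real Gᶜ = 0 := le_antisymm h0 measureReal_nonneg
    rw [measureReal_eq_zero_iff] at h1
    have h2 : ∀ᵐ ω ∂μ, ω ∈ G := by
      rw [ae_iff]
      exact h1
    rw [hG] at h2
    exact h2
  have hall' : ∀ᵐ ω ∂μ, ∀ n N : ℕ, ∃ x : ℝ, (N : ℝ) ≤ x ∧ (x ∈ S ∧ 1 / x ≤ delX E T x) ∧
      ∃ m : ℕ, Real.exp ((1 - 1 / ((n : ℝ) + 1)) * x) ≤ m ∧ m ≤ Real.exp ((1 + 1 / ((n : ℝ) + 1)) * x) ∧
        sifted (fun p => a p ω) ∩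
          Set.Ioc m (m + ⌊(1 - 1 / ((n : ℝ) + 1)) * lamT E T x * x ^ 2⌋₊) = ∅ := by
    rw [ae_all_iff]
    intro n
    rw [ae_all_iff]
    intro N
    exact hone (1 / ((n : ℝ) + 1)) (by positivity) N
  filter_upwards [hall'] with ω hω η hη
  rw [frequently_atTop]
  intro A
  obtain ⟨n, hn⟩ := exists_nat_one_div_lt hη
  obtain ⟨N, hN⟩ := exists_nat_ge (max (max A B0) 1)
  obtain ⟨x, hxN, hxS, m, hm1, hm2, hm3⟩ := hω n N
  have hx1 : 1 ≤ x := (le_max_right _ _).trans (hN.trans hxN)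
  have hx0 : 0 < x := by linarith
  have hAB : max A B0 ≤ x := (le_max_left _ _).trans (hN.trans hxN)
  have hs0 : 0 < delX E T x := lt_of_lt_of_le (by positivity) hxS.2
  have hlam := lamT_pos hs0 (hB0 x ((le_max_right _ _).trans hAB))
  refine ⟨x, (le_max_left _ _).trans hAB, hxS, m, ?_, ?_, ?_⟩
  · refine le_trans (Real.exp_le_exp.2 ?_) hm1
    apply mul_le_mul_of_nonneg_right _ hx0.le
    linarith
  · refine hm2.trans (Real.exp_le_exp.2 ?_)
    apply mul_le_mul_of_nonneg_right _ hx0.le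
    linarith
  · apply Set.eq_empty_of_subset_empty
    rw [← hm3]
    rintro j ⟨hj, hj1, hj2⟩
    refine ⟨hj, hj1, hj2.trans ?_⟩
    have hfl : ⌊(1 - η) * lamT E T x * x ^ 2⌋₊ ≤
        ⌊(1 - 1 / ((n : ℝ) + 1)) * lamT E T x * x ^ 2⌋₊ := by
      apply Nat.floor_mono
      gcongr
    omega

/-- the gaps of a set with long windows -/
theorem gaps_of_windows {B : Set ℕ} (hB : B.Infinite) {E : Set ℕ} {T : ℕ → ℕ}
    (hT : ∀ p : ℕ, p.Prime → p ∈ E → T p ≤ p) (hSum : Summable (rE E))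
    (hw : ∀ η : ℝ, 0 < η → ∃ᶠ x : ℝ in atTop, (x ∈ (Set.univ : Set ℝ) ∧ 1 / x ≤ delX E T x) ∧
      ∃ m : ℕ, Real.exp ((1 - η) * x) ≤ m ∧ m ≤ Real.exp ((1 + η) * x) ∧
        B ∩ Set.Ioc m (m + ⌊(1 - η) * lamT E T x * x ^ 2⌋₊) = ∅) {η : ℝ} (hη : 0 < η) :
    ∃ᶠ b : ℕ in atTop, b ∈ B ∧ ∃ b' ∈ B, (∀ j, b < j → j < b' → j ∉ B) ∧
        (2 * Real.exp (-Real.eulerMascheroniConstant) - η) *
          (Real.log b ^ 2 / Real.log (Real.log b)) ≤ (b' : ℝ) - b := by
  obtain ⟨g, hg⟩ : ∃ g : ℝ, g = 2 * Real.exp (-Real.eulerMascheroniConstant) := ⟨_, rfl⟩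
  have hg0 : 0 < g := by rw [hg]; positivity
  rw [← hg]
  -- room
  obtain ⟨κ, hκ0, hκ1, hκd⟩ : ∃ κ : ℝ, 0 < κ ∧ κ < 1 ∧
      (g - η) * (1 + κ) ^ 2 ≤ (1 - κ) ^ 2 * g := by
    have hcont : ContinuousAt (fun κ : ℝ => (g - η) * (1 + κ) ^ 2 - (1 - κ) ^ 2 * g) 0 := by fun_prop
    have hval : (g - η) * (1 + 0) ^ 2 - (1 - (0 : ℝ)) ^ 2 * g < 0 := by
      norm_num
      exact hη
    have hev := hcont.eventually_lt continuousAt_const hval
    have hev2 : ∀ᶠ t in 𝓝 (0 : ℝ), t < 1 :=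
      (continuousAt_id.eventually_lt continuousAt_const (by norm_num))
    obtain ⟨t, ⟨ht1, ht2⟩, ht0⟩ := ((hev.and hev2).filter_mono nhdsWithin_le_nhds |>.and
      (self_mem_nhdsWithin : Set.Ioi (0:ℝ) ∈ 𝓝[>] (0:ℝ))).exists
    exact ⟨t, ht0, ht2, by linarith⟩
  rw [frequently_atTop]
  intro N
  obtain ⟨b0, hb0B, hb0N⟩ := hB.exists_gt (max N 16)
  have h3 := hw κ hκ0
  obtain ⟨x, ⟨hxS, m, hm1, hm2, hm3⟩, hx1, hxN, hδ3⟩ := (h3.and_eventually
    ((eventually_ge_atTop (Real.exp 1)).and (((tendsto_id.const_mul_atTop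
      (show 0 < 1 - κ by linarith)).eventually_ge_atTop (Real.log b0 + 1)).and
      (delX_tendsto hT hSum (Real.exp_pos (-3)))))).exists
  have hxN' : Real.log b0 + 1 ≤ (1 - κ) * x := hxN
  have hx0 : 0 < x := lt_of_lt_of_le (Real.exp_pos 1) hx1
  have hm0 : (0 : ℝ) < m := lt_of_lt_of_le (Real.exp_pos _) hm1
  have hb0m : b0 ≤ m := by
    have h5 : (b0 : ℝ) ≤ m := by
      refine le_trans ?_ hm1
      have : (0 : ℝ) < b0 := by
        have : 0 < b0 := lt_of_le_of_lt (Nat.zero_le _) hb0N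
        exact_mod_cast this
      rw [← Real.log_le_iff_le_exp this]
      linarith
    exact_mod_cast h5
  obtain ⟨b, hbB, b', hb'B, hb0b, hbm, hmb', hcons⟩ := gap_of_window hB hb0B hb0m hm3
  have hN : N ≤ b := ((le_max_left N 16).trans hb0N.le).trans hb0b
  have h16 : 16 < b := lt_of_lt_of_le (lt_of_le_of_lt (le_max_right N 16) hb0N) hb0b
  refine ⟨b, hN, hbB, b', hb'B, hcons, ?_⟩
  -- the length of the gap
  obtain ⟨P, hP⟩ : ∃ P : ℝ, P = lamT E T x := ⟨_, rfl⟩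
  have hs0 : 0 < delX E T x := lt_of_lt_of_le (by positivity) hxS.2
  have hgap : (1 - κ) * P * x ^ 2 ≤ (b' : ℝ) - b := by
    have h4 : m + ⌊(1 - κ) * lamT E T x * x ^ 2⌋₊ + 1 ≤ b' := hmb'
    have h5 : (m : ℝ) + (⌊(1 - κ) * lamT E T x * x ^ 2⌋₊ : ℝ) + 1 ≤ b' := by exact_mod_cast h4
    have h6 := Nat.lt_floor_add_one ((1 - κ) * lamT E T x * x ^ 2)
    have h7 : (b : ℝ) ≤ m := by exact_mod_cast hbm
    rw [hP]
    linarith
  have hlogx : 1 ≤ Real.log x := by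
    rw [Real.le_log_iff_exp_le hx0]
    exact hx1
  have hP2 : g / Real.log x ≤ P := by
    rw [hP, hg]
    unfold lamT
    have hL3 : 3 ≤ Real.log (1 / delX E T x) := by
      rw [one_div, Real.log_inv]
      have := Real.log_le_log hs0 hδ3
      rw [Real.log_exp] at this
      linarith
    have hLx : Real.log (1 / delX E T x) ≤ Real.log x := by
      apply Real.log_le_log (by positivity)
      rw [div_le_iff₀ hs0]
      have := hxS.2
      rw [div_le_iff₀ hx0] at this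
      linarith
    apply div_le_div_of_nonneg_left (by positivity) (by linarith) hLx
  -- log b
  obtain ⟨t, ht⟩ : ∃ t : ℝ, t = Real.log b := ⟨_, rfl⟩
  have hbR : (16 : ℝ) < b := by exact_mod_cast h16
  have hte : Real.exp 1 ≤ t := by
    rw [ht, Real.le_log_iff_exp_le (by linarith)]
    have h8 : Real.exp (Real.exp 1) ≤ Real.exp (2.7182818286) :=
      Real.exp_le_exp.2 Real.exp_one_lt_d9.le
    have h9 : Real.exp (2.7182818286) ≤ 16 := by
      have h10 : (2.7182818286 : ℝ) ≤ Real.log 16 := by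
        have h11 : Real.log 16 = 4 * Real.log 2 := by
          rw [show (16 : ℝ) = 2 ^ 4 by norm_num, Real.log_pow]
          norm_num
        have := Real.log_two_gt_d9
        rw [h11]
        linarith
      rwa [Real.le_log_iff_exp_le (by norm_num)] at h10
    linarith
  have ht0 : 0 < t := lt_of_lt_of_le (Real.exp_pos 1) hte
  have htx : t ≤ (1 + κ) * x := by
    rw [ht, Real.log_le_iff_le_exp (by linarith)]
    have : (b : ℝ) ≤ m := by exact_mod_cast hbm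
    exact this.trans hm2
  have hmono : t ^ 2 / Real.log t ≤ ((1 + κ) * x) ^ 2 / Real.log x := by
    -- `log t ≥ (t / T) log T` for `e ≤ t ≤ T`
    obtain ⟨T, hT⟩ : ∃ T : ℝ, T = (1 + κ) * x := ⟨_, rfl⟩
    rw [← hT] at htx ⊢
    have hT0 : 0 < T := lt_of_lt_of_le ht0 htx
    have hlt : 1 ≤ Real.log t := by
      rw [Real.le_log_iff_exp_le ht0]
      exact hte
    have hxT : x ≤ T := by rw [hT]; nlinarith
    have hlTx : Real.log x ≤ Real.log T := Real.log_le_log hx0 hxT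
    have hanti := Real.log_div_self_antitoneOn (show t ∈ {x | Real.exp 1 ≤ x} from hte)
      (show T ∈ {x | Real.exp 1 ≤ x} from hte.trans htx) htx
    simp only at hanti
    rw [div_le_div_iff₀ hT0 ht0] at hanti
    have hlT : 1 ≤ Real.log T := hlogx.trans hlTx
    rw [div_le_div_iff₀ (by linarith) (by linarith)]
    calc t ^ 2 * Real.log x ≤ t ^ 2 * Real.log T := by gcongr
      _ = t * (Real.log T * t) := by ring
      _ ≤ t * (Real.log t * T) := by gcongr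
      _ = (t * T) * Real.log t := by ring
      _ ≤ (T * T) * Real.log t := by gcongr
      _ = T ^ 2 * Real.log t := by ring
  rcases le_or_gt (g - η) 0 with hneg | hpos
  · have hlt : 0 < Real.log t := by
      have : 1 ≤ Real.log t := by
        rw [Real.le_log_iff_exp_le ht0]
        exact hte
      linarith
    have h12 : (g - η) * (t ^ 2 / Real.log t) ≤ 0 :=
      mul_nonpos_of_nonpos_of_nonneg hneg (by positivity)
    have h13 : 0 ≤ (b' : ℝ) - b := by
      have h14 : b ≤ b' := by omega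
      have : (b : ℝ) ≤ b' := by exact_mod_cast h14
      linarith
    rw [← ht]
    linarith
  · rw [← ht]
    have hx2 : 0 ≤ x ^ 2 / Real.log x := by positivity
    calc (g - η) * (t ^ 2 / Real.log t) ≤ (g - η) * (((1 + κ) * x) ^ 2 / Real.log x) :=
          mul_le_mul_of_nonneg_left hmono hpos.le
      _ = ((g - η) * (1 + κ) ^ 2) * (x ^ 2 / Real.log x) := by ring
      _ ≤ ((1 - κ) ^ 2 * g) * (x ^ 2 / Real.log x) := mul_le_mul_of_nonneg_right hκd hx2
      _ ≤ ((1 - κ) * g) * (x ^ 2 / Real.log x) := by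
          apply mul_le_mul_of_nonneg_right _ hx2
          apply mul_le_mul_of_nonneg_right _ hg0.le
          nlinarith
      _ = (1 - κ) * (g / Real.log x) * x ^ 2 := by ring
      _ ≤ (1 - κ) * P * x ^ 2 := by
          apply mul_le_mul_of_nonneg_right _ (by positivity)
          apply mul_le_mul_of_nonneg_left hP2 (by linarith)
      _ ≤ (b' : ℝ) - b := hgap

end Pool.Agent.LibThinT
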