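import Pool.Agent.LibThinT.Var
import Pool.Agent.LibThin21.R6L
import Pool.Agent.LibThin21.R7

/-!
The total weight of the rows with a bad load somewhere.
-/

namespace Pool.Agent.LibThinT

open Filter Topology
open Pool.Agent.LibThin21 Pool.Agent.LibMaier

open Classical in
/-- the primes `p ≤ X ^ (1/3)` of `E` with `T p > (log X) ^ 8`, `X = exp x` -/
noncomputable def PX (E : Set ℕ) (T : ℕ → ℕ) (x : ℝ) : Finset ℕ :=
  (EP E 0 (Real.exp (x / 3))).filter (fun p => x ^ 8 < (T p : ℝ))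

/-- the sum of `1 / p` over these primes -/
noncomputable def delX (E : Set ℕ) (T : ℕ → ℕ) (x : ℝ) : ℝ := ∑ p ∈ PX E T x, 1 / (p : ℝ)

lemma mem_PX {E : Set ℕ} {T : ℕ → ℕ} {x : ℝ} {p : ℕ} : p ∈ PX E T x ↔
    (p.Prime ∧ p ∈ E ∧ (p : ℝ) ≤ Real.exp (x / 3)) ∧ x ^ 8 < (T p : ℝ) := by
  unfold PX
  rw [Finset.mem_filter, mem_EP (Real.exp_pos _).le]
  constructor
  · rintro ⟨⟨h1, h2, -, h4⟩, h5⟩
    exact ⟨⟨h1, h2, h4⟩, h5⟩
  · rintro ⟨⟨h1, h2, h4⟩, h5⟩
    exact ⟨⟨h1, h2, by exact_mod_cast h1.pos, h4⟩, h5⟩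

lemma PX_card (E : Set ℕ) (T : ℕ → ℕ) {x : ℝ} (hx : 0 ≤ x) :
    ((PX E T x).card : ℝ) ≤ 2 * Real.exp (x / 3) := by
  classical
  have h1 : (PX E T x).card ≤ ⌊Real.exp (x / 3)⌋₊ + 1 := by
    unfold PX EP
    refine (Finset.card_filter_le _ _).trans ((Finset.card_filter_le _ _).trans ?_)
    rw [Finset.card_range]
  have h2 : ((⌊Real.exp (x / 3)⌋₊ : ℕ) : ℝ) ≤ Real.exp (x / 3) := Nat.floor_le (Real.exp_pos _).le
  have h3 : (1 : ℝ) ≤ Real.exp (x / 3) := Real.one_le_exp (by positivity)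
  have h4 : ((PX E T x).card : ℝ) ≤ ((⌊Real.exp (x / 3)⌋₊ : ℕ) : ℝ) + 1 := by exact_mod_cast h1
  linarith

lemma PX_facts {E : Set ℕ} {T : ℕ → ℕ} (hT : ∀ p : ℕ, p.Prime → p ∈ E → T p ≤ p) {x : ℝ} :
    ∀ p ∈ PX E T x, p.Prime ∧ p ∈ E ∧ 1 ≤ T p ∧ T p ≤ p ∧ x ^ 8 ≤ (T p : ℝ) ∧
      (p : ℝ) ≤ Real.exp (x / 3) := by
  intro p hp
  rw [mem_PX] at hp
  obtain ⟨⟨h1, h2, h3⟩, h4⟩ := hp
  refine ⟨h1, h2, ?_, hT p h1 h2, h4.le, h3⟩
  have h5 : (0 : ℝ) < T p := lt_of_le_of_lt (by positivity) h4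
  exact_mod_cast h5

/-- some position of the row `k` has a bad load -/
def BadRow (T : ℕ → ℕ) (P : Finset ℕ) (t δ : ℝ) (h q c k : ℕ) : Prop :=
  ∃ i ∈ Finset.Icc 1 h, t < |load T P (k * q + c + i) - δ|

open Classical in
theorem bad_weight {E : Set ℕ} {T : ℕ → ℕ} (hT : ∀ p : ℕ, p.Prime → p ∈ E → T p ≤ p) {ε Lam v0 : ℝ} (hε : 0 < ε)
    (hε1 : ε < 1 / 100) (hv0 : 0 ≤ v0) (hLam : 0 < Lam) :
    ∀ᶠ x : ℝ in atTop, 1 / x ≤ delX E T x → ∀ z p0 q k1 k2 : ℕ, GoodScale ε Lam v0 x z p0 q k1 k2 →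
      ∀ lam : ℝ, lam ≤ Lam → ∀ c : ℕ,
      ∑ k ∈ (Finset.Ico k1 k2).filter (fun k => BadRow T (PX E T x) (ε * delX E T x) (delX E T x)
        ⌊lam * x ^ 2⌋₊ q c k), Wt q x k ≤ ε / 2 := by
  have hb1 : Tendsto (fun x : ℝ => Real.exp ((1 / 4 : ℝ) * x) / x ^ 5) atTop atTop := by
    have h1 : Tendsto (fun y : ℝ => Real.exp y / y ^ 5) atTop atTop :=
      Real.tendsto_exp_div_pow_atTop 5
    have h2 : Tendsto (fun x : ℝ => (1 / 4 : ℝ) * x) atTop atTop :=
      tendsto_id.const_mul_atTop (by norm_num)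
    have h3 := (h1.comp h2).const_mul_atTop (show (0 : ℝ) < 1 / 1024 by norm_num)
    refine h3.congr fun x => ?_
    simp only [Function.comp_apply]
    rw [mul_pow]
    rcases eq_or_ne x 0 with rfl | hx
    · simp
    · field_simp
      ring
  filter_upwards [GoodScale.sizes (lam := Lam) hε hε1 hv0 hLam,
    hb1.eventually_ge_atTop 1, eventually_ge_atTop (1 : ℝ), eventually_ge_atTop (Real.exp 1),
    eventually_ge_atTop (Lam * (14 + Real.exp (2 * v0 + 3)) / ε ^ 2 / (ε / 2))]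
    with x hsz hx5 hx1 hxe hxbig hδx z p0 q k1 k2 hG lam hlam c
  obtain ⟨hk1, hk1e, -, -, hk2, hqbig, -, -⟩ := hsz z p0 q k1 k2 hG
  have hx0 : 0 < x := by linarith
  obtain ⟨P, hPd⟩ : ∃ P, P = PX E T x := ⟨_, rfl⟩
  obtain ⟨δ, hδd⟩ : ∃ δ, δ = delX E T x := ⟨_, rfl⟩
  rw [← hPd, ← hδd]
  have hPT : ∀ p ∈ P, p.Prime ∧ p ∈ E ∧ 1 ≤ T p ∧ T p ≤ p ∧ x ^ 8 ≤ (T p : ℝ) ∧
      (p : ℝ) ≤ Real.exp (x / 3) := by
    rw [hPd]
    exact PX_facts hT
  rw [← hδd] at hδx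
  have hδP : δ = ∑ p ∈ P, 1 / (p : ℝ) := by rw [hδd, hPd]; rfl
  have hδ0 : 0 < δ := lt_of_lt_of_le (by positivity) hδx
  have hcard : (P.card : ℝ) ≤ 2 * Real.exp (x / 3) := by rw [hPd]; exact PX_card E T hx0.le
  have hP4 : ∀ p ∈ P, p.Prime ∧ ¬ p ∣ q ∧ 1 ≤ T p ∧ T p ≤ p := by
    intro p hp
    obtain ⟨h1, h2, h3, h4, h5, h6⟩ := hPT p hp
    refine ⟨h1, ?_, h3, h4⟩
    intro hpq
    have hq0 : q ≠ 0 := by
      rintro rfl
      have : Lam * x ^ 2 + 1 ≤ 0 := by simpa using hqbig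
      have : 0 ≤ Lam * x ^ 2 := by positivity
      linarith
    have h8 : p ∈ q.primeFactors := Nat.mem_primeFactors.2 ⟨h1, hpq, hq0⟩
    have h9 : (p : ℝ) ≤ z := by exact_mod_cast hG.prime_le h8
    have hlog : 1 ≤ Real.log x := by
      rw [Real.le_log_iff_exp_le hx0]
      exact hxe
    have hzx : (z : ℝ) ≤ x := by
      have e1 := hG.hzx
      have e2 : (z : ℝ) ≤ z * Real.log x := by
        have : (0 : ℝ) ≤ z := Nat.cast_nonneg z
        nlinarith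
      have e3 : ε ^ 3 * x ≤ 1 * x := by
        apply mul_le_mul_of_nonneg_right _ hx0.le
        have : ε ^ 3 ≤ 1 ^ 3 := pow_le_pow_left₀ hε.le (by linarith) 3
        simpa using this
      linarith
    have hx2 : (2 : ℝ) ≤ x := by
      have := Real.add_one_le_exp (1 : ℝ)
      linarith
    have h10 : (T p : ℝ) ≤ p := by exact_mod_cast h4
    have h11 : x < x ^ 8 := by
      calc x < x ^ 2 := by nlinarith
        _ ≤ x ^ 8 := pow_le_pow_right₀ hx1 (by norm_num)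
    linarith
  obtain ⟨N, hN⟩ : ∃ N, N = k2 - k1 := ⟨_, rfl⟩
  have hk12 : k1 + N = k2 := by have := hG.hk12; omega
  obtain ⟨B, hB⟩ : ∃ B : ℝ, B = ((P.card : ℝ) ^ 2 + 2 * δ * P.card + (N * δ + P.card) / x ^ 8) /
    (ε * δ) ^ 2 := ⟨_, rfl⟩
  have hbad : ∀ i : ℕ, (((Finset.Ico k1 k2).filter
      (fun k => ε * δ < |load T P (k * q + c + i) - δ|)).card : ℝ) ≤ B := by
    intro i
    have h1 := bad_rows (T := T) (P := P) (q := q) (c + i) k1 N hP4 (L := x ^ 8) (δ := δ) (ε := ε)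
      (by positivity) (fun p hp => (hPT p hp).2.2.2.2.1) hδP hδ0 hε
    rw [hk12] at h1
    simp only [← add_assoc] at h1
    rw [hB]
    exact h1
  have hk1pos : (0 : ℝ) < k1 := by exact_mod_cast hk1
  have hB0 : 0 ≤ B := (Nat.cast_nonneg _).trans (hbad 0)
  have hq1 : 1 ≤ q := by
    rcases Nat.eq_zero_or_pos q with h | h
    · exfalso
      rw [h] at hqbig
      have : 0 ≤ Lam * x ^ 2 := by positivity
      simp at hqbig
      linarith
    · exact h
  have hsum : ∑ k ∈ (Finset.Ico k1 k2).filter (fun k => BadRow T P (ε * δ) δ ⌊lam * x ^ 2⌋₊ q c k), Wt q x k ≤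
      (⌊lam * x ^ 2⌋₊ : ℝ) * (B * (1 / k1)) := by
    calc ∑ k ∈ (Finset.Ico k1 k2).filter (fun k => BadRow T P (ε * δ) δ ⌊lam * x ^ 2⌋₊ q c k), Wt q x k
        ≤ ∑ _k ∈ (Finset.Ico k1 k2).filter (fun k => BadRow T P (ε * δ) δ ⌊lam * x ^ 2⌋₊ q c k), (1 / (k1 : ℝ)) := by
          apply Finset.sum_le_sum
          intro k hk
          have hk' := (Finset.mem_Ico.1 (Finset.mem_filter.1 hk).1).1
          refine (Wt_le_inv hq1 (hk1.trans hk') x).trans ?_
          apply one_div_le_one_div_of_le hk1pos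
          exact_mod_cast hk'
      _ = (((Finset.Ico k1 k2).filter (fun k => BadRow T P (ε * δ) δ ⌊lam * x ^ 2⌋₊ q c k)).card : ℝ) * (1 / k1) := by
          rw [Finset.sum_const, nsmul_eq_mul]
      _ ≤ ((⌊lam * x ^ 2⌋₊ : ℝ) * B) * (1 / k1) := by
          apply mul_le_mul_of_nonneg_right _ (by positivity)
          have hsub : (Finset.Ico k1 k2).filter (fun k => BadRow T P (ε * δ) δ ⌊lam * x ^ 2⌋₊ q c k) ⊆
              (Finset.Icc 1 ⌊lam * x ^ 2⌋₊).biUnion (fun i => (Finset.Ico k1 k2).filter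
                (fun k => ε * δ < |load T P (k * q + c + i) - δ|)) := by
            intro k hk
            rw [Finset.mem_filter] at hk
            obtain ⟨hk1', i, hi, hik⟩ := hk
            rw [Finset.mem_biUnion]
            exact ⟨i, hi, Finset.mem_filter.2 ⟨hk1', hik⟩⟩
          have h2 := (Finset.card_le_card hsub).trans Finset.card_biUnion_le
          have h3 : (((Finset.Ico k1 k2).filter (fun k => BadRow T P (ε * δ) δ ⌊lam * x ^ 2⌋₊ q c k)).card : ℝ) ≤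
              ∑ i ∈ Finset.Icc 1 ⌊lam * x ^ 2⌋₊, (((Finset.Ico k1 k2).filter
                (fun k => ε * δ < |load T P (k * q + c + i) - δ|)).card : ℝ) := by exact_mod_cast h2
          refine h3.trans ((Finset.sum_le_sum fun i _ => hbad i).trans ?_)
          rw [Finset.sum_const, Nat.card_Icc, Nat.add_sub_cancel, nsmul_eq_mul]
      _ = _ := by ring
  refine hsum.trans ?_
  have hh : (⌊lam * x ^ 2⌋₊ : ℝ) ≤ Lam * x ^ 2 := by
    rcases le_or_gt 0 lam with h | h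
    · refine (Nat.floor_le (by positivity)).trans ?_
      gcongr
    · rw [Nat.floor_of_nonpos (by nlinarith [sq_nonneg x])]
      simp only [Nat.cast_zero]
      positivity
  -- B / k1
  have hδcard : δ ≤ P.card := by
    rw [hδP]
    calc ∑ p ∈ P, 1 / (p : ℝ) ≤ ∑ _p ∈ P, (1 : ℝ) := by
          apply Finset.sum_le_sum
          intro p hp
          have : (1 : ℝ) ≤ p := by exact_mod_cast (hP4 p hp).1.one_lt.le
          rw [div_le_one (by linarith)]
          exact this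
      _ = P.card := by simp
  have hNk : (N : ℝ) ≤ Real.exp (2 * v0 + 3) * k1 := by
    refine le_trans ?_ hk2
    have : N ≤ k2 := by omega
    exact_mod_cast this
  obtain ⟨C, hC⟩ : ∃ C, C = Real.exp (2 * v0 + 3) := ⟨_, rfl⟩
  rw [← hC] at hNk
  rw [← hC] at hxbig
  have hC0 : 0 < C := by rw [hC]; exact Real.exp_pos _
  have hnum : (P.card : ℝ) ^ 2 + 2 * δ * P.card + (N * δ + P.card) / x ^ 8 ≤
      14 * Real.exp (2 * x / 3) + N * δ / x ^ 8 := by
    have e1 : (P.card : ℝ) ^ 2 ≤ 4 * Real.exp (2 * x / 3) := by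
      calc (P.card : ℝ) ^ 2 ≤ (2 * Real.exp (x / 3)) ^ 2 := by gcongr
        _ = 4 * Real.exp (2 * x / 3) := by
            rw [mul_pow, ← Real.exp_nat_mul]
            norm_num
            ring_nf
    have e2 : 2 * δ * P.card ≤ 2 * (P.card : ℝ) ^ 2 := by
      have : (0 : ℝ) ≤ P.card := Nat.cast_nonneg _
      nlinarith
    have e3 : (P.card : ℝ) / x ^ 8 ≤ 2 * Real.exp (2 * x / 3) := by
      have h1 : (1 : ℝ) ≤ x ^ 8 := one_le_pow₀ hx1
      have h2 : (P.card : ℝ) / x ^ 8 ≤ P.card := div_le_self (Nat.cast_nonneg _) h1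
      have h3 : Real.exp (x / 3) ≤ Real.exp (2 * x / 3) := Real.exp_le_exp.2 (by linarith)
      linarith
    rw [add_div]
    linarith
  have hδ2 : 1 / (ε * δ) ^ 2 ≤ x ^ 2 / ε ^ 2 := by
    rw [div_le_div_iff₀ (by positivity) (by positivity)]
    have e1 : 1 ≤ δ * x := by
      rw [div_le_iff₀ hx0] at hδx
      exact hδx
    have e2 : 1 ≤ (δ * x) ^ 2 := one_le_pow₀ e1
    have e3 : 0 < ε ^ 2 := by positivity
    calc 1 * ε ^ 2 ≤ (δ * x) ^ 2 * ε ^ 2 := mul_le_mul_of_nonneg_right e2 e3.le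
      _ = x ^ 2 * (ε * δ) ^ 2 := by ring
  have hBk : B * (1 / k1) ≤ (14 + C) / (ε ^ 2 * x ^ 3) := by
    have e1 : B ≤ 14 * Real.exp (2 * x / 3) * (x ^ 2 / ε ^ 2) + (N / x ^ 8) * (x / ε ^ 2) := by
      rw [hB]
      have f1 : (14 * Real.exp (2 * x / 3) + N * δ / x ^ 8) / (ε * δ) ^ 2 =
          14 * Real.exp (2 * x / 3) * (1 / (ε * δ) ^ 2) + (N / x ^ 8) * (1 / (ε ^ 2 * δ)) := by
        field_simp
      have f2 : 1 / (ε ^ 2 * δ) ≤ x / ε ^ 2 := by
        rw [div_le_div_iff₀ (by positivity) (by positivity)]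
        have : 1 ≤ δ * x := by
          rw [div_le_iff₀ hx0] at hδx
          exact hδx
        have e3 : 0 < ε ^ 2 := by positivity
        nlinarith
      calc _ ≤ (14 * Real.exp (2 * x / 3) + N * δ / x ^ 8) / (ε * δ) ^ 2 := by gcongr
        _ = _ := f1
        _ ≤ _ := by gcongr
    have e2 : 14 * Real.exp (2 * x / 3) * (x ^ 2 / ε ^ 2) * (1 / k1) ≤ 14 / (ε ^ 2 * x ^ 3) := by
      have f1 : x ^ 5 * Real.exp (2 * x / 3) ≤ k1 := by
        refine le_trans ?_ hk1e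
        have g1 : x ^ 5 ≤ Real.exp ((1 / 4 : ℝ) * x) := by
          rw [le_div_iff₀ (by positivity)] at hx5
          linarith
        calc x ^ 5 * Real.exp (2 * x / 3) ≤ Real.exp ((1 / 4 : ℝ) * x) * Real.exp (2 * x / 3) :=
              mul_le_mul_of_nonneg_right g1 (Real.exp_pos _).le
          _ = Real.exp ((1 / 4 : ℝ) * x + 2 * x / 3) := (Real.exp_add _ _).symm
          _ ≤ Real.exp ((1 - 2 * ε) * x) := by
              apply Real.exp_le_exp.2
              nlinarith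
      rw [mul_one_div, div_le_div_iff₀ hk1pos (by positivity)]
      calc 14 * Real.exp (2 * x / 3) * (x ^ 2 / ε ^ 2) * (ε ^ 2 * x ^ 3) =
            14 * (x ^ 5 * Real.exp (2 * x / 3)) := by field_simp
        _ ≤ 14 * (k1 : ℝ) := by linarith
    have e3 : (N / x ^ 8) * (x / ε ^ 2) * (1 / k1) ≤ C / (ε ^ 2 * x ^ 3) := by
      have f1 : (N : ℝ) * (1 / k1) ≤ C := by
        rw [mul_one_div, div_le_iff₀ hk1pos]
        exact hNk
      calc (N / x ^ 8) * (x / ε ^ 2) * (1 / k1) = (N * (1 / k1)) * (1 / (ε ^ 2 * x ^ 7)) := by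
            field_simp
        _ ≤ C * (1 / (ε ^ 2 * x ^ 7)) := mul_le_mul_of_nonneg_right f1 (by positivity)
        _ ≤ C * (1 / (ε ^ 2 * x ^ 3)) := by
            apply mul_le_mul_of_nonneg_left _ hC0.le
            apply one_div_le_one_div_of_le (by positivity)
            apply mul_le_mul_of_nonneg_left _ (by positivity)
            exact pow_le_pow_right₀ hx1 (by norm_num)
        _ = C / (ε ^ 2 * x ^ 3) := by ring
    calc B * (1 / k1) ≤ (14 * Real.exp (2 * x / 3) * (x ^ 2 / ε ^ 2) + (N / x ^ 8) * (x / ε ^ 2)) *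
          (1 / k1) := mul_le_mul_of_nonneg_right e1 (by positivity)
      _ = 14 * Real.exp (2 * x / 3) * (x ^ 2 / ε ^ 2) * (1 / k1) +
          (N / x ^ 8) * (x / ε ^ 2) * (1 / k1) := by ring
      _ ≤ 14 / (ε ^ 2 * x ^ 3) + C / (ε ^ 2 * x ^ 3) := add_le_add e2 e3
      _ = (14 + C) / (ε ^ 2 * x ^ 3) := by ring
  calc (⌊lam * x ^ 2⌋₊ : ℝ) * (B * (1 / k1)) ≤ (Lam * x ^ 2) * ((14 + C) / (ε ^ 2 * x ^ 3)) := by
        apply mul_le_mul hh hBk _ (by positivity)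
        exact mul_nonneg hB0 (by positivity)
    _ = Lam * (14 + C) / ε ^ 2 / x := by field_simp
    _ ≤ ε / 2 := by
        rw [div_le_iff₀ hx0]
        rw [div_le_iff₀ (by positivity)] at hxbig
        linarith

end Pool.Agent.LibThinT
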