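import Pool.Agent.LibThinT.Scale
import Pool.Agent.LibThin21.R4

/-!
The centre of the window is determined by the classes modulo the primes dividing `q`.
-/

namespace Pool.Agent.LibThinT

open Filter Topology MeasureTheory ProbabilityTheory
open Pool.Agent.LibThin21

variable {Ω : Type*} [MeasurableSpace Ω] {μ : Measure Ω} [IsProbabilityMeasure μ] {E : Set ℕ}
  {T : ℕ → ℕ} {a : ℕ → Ω → ℕ}

theorem center_bound (hM : ModelT μ E T a) {q : ℕ} (hq : Squarefree q) {P : Finset ℕ}
    (hdisj : Disjoint q.primeFactors P) (R : ℕ → (P → ℕ) → Prop) {κ : ℝ}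
    (h : ∀ c < q, (∀ p ∈ q.primeFactors, p ∉ E → p ∣ c) →
      1 - κ ≤ μ.real {ω | R c (fun p => a p ω)}) :
    1 - κ ≤ μ.real {ω | ∃ c < q, (∀ p ∈ q.primeFactors, c ≡ a p ω [MOD p]) ∧
      (∀ p ∈ q.primeFactors, p ∉ E → p ∣ c) ∧ R c (fun p => a p ω)} := by
  classical
  set Q : Finset ℕ := q.primeFactors with hQ
  set A : ℕ → Set Ω := fun c => {ω | ∀ p ∈ Q, c ≡ a p ω [MOD p]} with hA
  set B : ℕ → Set Ω := fun c => {ω | R c (fun p => a p ω)} with hB
  set G : Set Ω := {ω | ∃ c < q, (∀ p ∈ Q, c ≡ a p ω [MOD p]) ∧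
      (∀ p ∈ Q, p ∉ E → p ∣ c) ∧ R c (fun p => a p ω)} with hG
  have hAe : ∀ c, A c = (fun ω (i : Q) => a i ω) ⁻¹' {f | ∀ i : Q, c ≡ f i [MOD (i : ℕ)]} := by
    intro c
    ext ω
    constructor
    · intro h i
      exact h i i.2
    · intro h p hp
      exact h ⟨p, hp⟩
  have hBe : ∀ c, B c = (fun ω (i : P) => a i ω) ⁻¹' {f | R c f} := fun c => rfl
  have hmeasP : Measurable (fun ω (i : P) => a i ω) := measurable_pi_lambda _ fun i => hM.meas i
  have hmeasQ : Measurable (fun ω (i : Q) => a i ω) := measurable_pi_lambda _ fun i => hM.meas i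
  have hAm : ∀ c, MeasurableSet (A c) := fun c => by
    rw [hAe]; exact hmeasQ (Set.to_countable _).measurableSet
  have hBm : ∀ c, MeasurableSet (B c) := fun c => by
    rw [hBe]; exact hmeasP (Set.to_countable _).measurableSet
  have hind := hM.indep.indepFun_finset Q P hdisj (fun i => hM.meas i)
  have hAB : ∀ c, μ.real (A c ∩ B c) = μ.real (A c) * μ.real (B c) := by
    intro c
    have e := hind.measure_inter_preimage_eq_mul {f | ∀ i : Q, c ≡ f i [MOD (i : ℕ)]} {f | R c f}
      (Set.to_countable _).measurableSet (Set.to_countable _).measurableSet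
    rw [← hAe, ← hBe] at e
    rw [measureReal_def, e, ENNReal.toReal_mul, ← measureReal_def, ← measureReal_def]
  have hAd : Set.PairwiseDisjoint (↑(Finset.range q)) A := by
    intro i hi j hj hij
    refine Set.disjoint_left.2 fun ω h1 h2 => hij ?_
    exact r4_unique hq (Finset.mem_range.1 (Finset.mem_coe.1 hi)) (Finset.mem_range.1 (Finset.mem_coe.1 hj))
      fun p hp => (h1 p hp).trans (h2 p hp).symm
  have hA1 : ∑ c ∈ Finset.range q, μ.real (A c) = 1 := by
    rw [← measureReal_biUnion_finset hAd (fun c _ => hAm c)]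
    have : (⋃ c ∈ Finset.range q, A c) = Set.univ := by
      refine Set.eq_univ_of_forall fun ω => ?_
      obtain ⟨c, hc, hc'⟩ := exists_center hq (fun p => a p ω)
      exact Set.mem_biUnion (Finset.mem_coe.2 (Finset.mem_range.2 hc)) hc'
    rw [this]
    simp
  -- the bound for one centre
  have h1 : ∀ c ∈ Finset.range q, (1 - κ) * μ.real (A c) ≤
      μ.real (A c ∩ G) := by
    intro c hc
    by_cases hcE : ∀ p ∈ Q, p ∉ E → p ∣ c
    · have e1 := mul_le_mul_of_nonneg_left (h c (Finset.mem_range.1 hc) hcE)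
        (measureReal_nonneg (μ := μ) (s := A c))
      have e2 : μ.real (A c ∩ B c) ≤ μ.real (A c ∩ G) := by
        refine measureReal_mono ?_
        rintro ω ⟨h1, h2⟩
        exact ⟨h1, c, Finset.mem_range.1 hc, h1, hcE, h2⟩
      rw [hAB] at e2
      linarith
    · push Not at hcE
      obtain ⟨p, hp, hpE, hpc⟩ := hcE
      have : A c = ∅ := by
        refine Set.eq_empty_iff_forall_notMem.2 fun ω hω => hpc ?_
        have := hω p hp
        rw [hM.zero p hpE ω] at this
        exact (Nat.modEq_zero_iff_dvd).1 this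
      rw [this]
      simp
  have h2 : ∑ c ∈ Finset.range q, μ.real (A c ∩ G) ≤ μ.real G := by
    have hGm : MeasurableSet G := by
      have : G = ⋃ c ∈ Finset.range q, (A c ∩ (if (∀ p ∈ Q, p ∉ E → p ∣ c) then B c else ∅)) := by
        ext ω
        simp only [Set.mem_iUnion, Finset.mem_range, hG]
        constructor
        · rintro ⟨c, hc, h1, h2, h3⟩
          refine ⟨c, hc, h1, ?_⟩
          rw [if_pos h2]
          exact h3
        · rintro ⟨c, hc, h1, h2⟩
          by_cases hcE : ∀ p ∈ Q, p ∉ E → p ∣ c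
          · rw [if_pos hcE] at h2
            exact ⟨c, hc, h1, hcE, h2⟩
          · rw [if_neg hcE] at h2
            exact absurd h2 (Set.notMem_empty _)
      rw [this]
      refine Finset.measurableSet_biUnion _ fun c _ => (hAm c).inter ?_
      split_ifs
      · exact hBm c
      · exact MeasurableSet.empty
    rw [← measureReal_biUnion_finset (fun i hi j hj hij =>
      (hAd hi hj hij).mono Set.inter_subset_left Set.inter_subset_left) (fun c _ => (hAm c).inter hGm)]
    refine measureReal_mono ?_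
    intro ω hω
    simp only [Set.mem_iUnion] at hω
    obtain ⟨c, _, hc⟩ := hω
    exact hc.2
  calc 1 - κ = ∑ c ∈ Finset.range q, (1 - κ) * μ.real (A c) := by
        rw [← Finset.mul_sum, hA1, mul_one]
    _ ≤ ∑ c ∈ Finset.range q, μ.real (A c ∩ G) := Finset.sum_le_sum h1
    _ ≤ μ.real G := h2

end Pool.Agent.LibThinT
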