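import Mathlib

/-!
Inequalities for products over finite sets (first and second order expansions).
-/

namespace Pool.Agent.LibThinT

open Finset

variable {α : Type*} [DecidableEq α]

/-- first order lower bound for `∏ (a + b)` -/
lemma prod_add_ge {V : Finset α} {a b : α → ℝ} (ha : ∀ v ∈ V, 0 ≤ a v) (hb : ∀ v ∈ V, 0 ≤ b v) :
    ∏ v ∈ V, a v + ∑ v ∈ V, b v * ∏ u ∈ V.erase v, a u ≤ ∏ v ∈ V, (a v + b v) := by
  induction V using Finset.induction_on with
  | empty => simp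
  | insert x V hx ih =>
    have ha' : ∀ v ∈ V, 0 ≤ a v := fun v hv => ha v (mem_insert_of_mem hv)
    have hb' : ∀ v ∈ V, 0 ≤ b v := fun v hv => hb v (mem_insert_of_mem hv)
    have hax := ha x (mem_insert_self x V)
    have hbx := hb x (mem_insert_self x V)
    have ih' := ih ha' hb'
    rw [prod_insert hx, prod_insert hx, sum_insert hx, erase_insert hx]
    have h1 : ∑ v ∈ V, b v * ∏ u ∈ (insert x V).erase v, a u =
        a x * ∑ v ∈ V, b v * ∏ u ∈ V.erase v, a u := by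
      rw [mul_sum]
      apply sum_congr rfl
      intro v hv
      have hvx : v ≠ x := fun h => hx (h ▸ hv)
      rw [erase_insert_of_ne hvx.symm, prod_insert (fun h => hx (mem_of_mem_erase h))]
      ring
    rw [h1]
    have h2 : 0 ≤ ∑ v ∈ V, b v * ∏ u ∈ V.erase v, a u :=
      sum_nonneg fun v hv => mul_nonneg (hb' v hv)
        (prod_nonneg fun u hu => ha' u (mem_of_mem_erase hu))
    have h3 := mul_le_mul_of_nonneg_left ih' (add_nonneg hax hbx)
    nlinarith [mul_nonneg hbx h2]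

/-- second order upper bound for `∏ (a + b)` -/
lemma prod_add_le {V : Finset α} {a b : α → ℝ} (ha : ∀ v ∈ V, 0 ≤ a v) (hb : ∀ v ∈ V, 0 ≤ b v) :
    ∏ v ∈ V, (a v + b v) ≤ ∏ v ∈ V, a v + ∑ v ∈ V, b v * ∏ u ∈ V.erase v, a u +
      ∑ q ∈ V.offDiag, b q.1 * b q.2 * ∏ u ∈ V \ {q.1, q.2}, (a u + b u) := by
  induction V using Finset.induction_on with
  | empty => simp
  | insert x V hx ih =>
    have ha' : ∀ v ∈ V, 0 ≤ a v := fun v hv => ha v (mem_insert_of_mem hv)
    have hb' : ∀ v ∈ V, 0 ≤ b v := fun v hv => hb v (mem_insert_of_mem hv)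
    have hax := ha x (mem_insert_self x V)
    have hbx := hb x (mem_insert_self x V)
    have ih' := ih ha' hb'
    obtain ⟨A, hA⟩ : ∃ A, A = ∏ v ∈ V, a v := ⟨_, rfl⟩
    obtain ⟨B, hB⟩ : ∃ B, B = ∑ v ∈ V, b v * ∏ u ∈ V.erase v, a u := ⟨_, rfl⟩
    obtain ⟨C, hC⟩ : ∃ C, C = ∑ q ∈ V.offDiag, b q.1 * b q.2 * ∏ u ∈ V \ {q.1, q.2}, (a u + b u) :=
      ⟨_, rfl⟩
    obtain ⟨D, hD⟩ : ∃ D, D = ∑ v ∈ V, b v * ∏ u ∈ V.erase v, (a u + b u) := ⟨_, rfl⟩
    rw [← hA, ← hB, ← hC] at ih'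
    have hBD : B ≤ D := by
      rw [hB, hD]
      apply sum_le_sum
      intro v hv
      apply mul_le_mul_of_nonneg_left _ (hb' v hv)
      apply prod_le_prod
      · intro u hu
        exact ha' u (mem_of_mem_erase hu)
      · intro u hu
        have := hb' u (mem_of_mem_erase hu)
        linarith
    have h1 : ∑ v ∈ V, b v * ∏ u ∈ (insert x V).erase v, a u = a x * B := by
      rw [hB, mul_sum]
      apply sum_congr rfl
      intro v hv
      have hvx : v ≠ x := fun h => hx (h ▸ hv)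
      rw [erase_insert_of_ne hvx.symm, prod_insert (fun h => hx (mem_of_mem_erase h))]
      ring
    have hoff : (a x + b x) * C + b x * D ≤ ∑ q ∈ (insert x V).offDiag,
        b q.1 * b q.2 * ∏ u ∈ (insert x V) \ {q.1, q.2}, (a u + b u) := by
      have hsub : V.offDiag ∪ ({x} ×ˢ V) ⊆ (insert x V).offDiag := by
        intro q hq
        rw [mem_union, mem_offDiag, mem_product, mem_singleton] at hq
        rw [mem_offDiag]
        rcases hq with ⟨h1, h2, h3⟩ | ⟨h1, h2⟩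
        · exact ⟨mem_insert_of_mem h1, mem_insert_of_mem h2, h3⟩
        · refine ⟨by rw [h1]; exact mem_insert_self x V, mem_insert_of_mem h2, ?_⟩
          intro h4
          exact hx (by rw [← h1, h4]; exact h2)
      have hdisj : Disjoint V.offDiag ({x} ×ˢ V) := by
        rw [disjoint_left]
        intro q hq hq'
        rw [mem_offDiag] at hq
        rw [mem_product, mem_singleton] at hq'
        exact hx (hq'.1 ▸ hq.1)
      have hnn : ∀ q ∈ (insert x V).offDiag,
          0 ≤ b q.1 * b q.2 * ∏ u ∈ (insert x V) \ {q.1, q.2}, (a u + b u) := by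
        intro q hq
        rw [mem_offDiag] at hq
        apply mul_nonneg (mul_nonneg (hb _ hq.1) (hb _ hq.2.1))
        apply prod_nonneg
        intro u hu
        exact add_nonneg (ha u (mem_sdiff.1 hu).1) (hb u (mem_sdiff.1 hu).1)
      refine le_trans ?_ (sum_le_sum_of_subset_of_nonneg hsub fun q hq _ => hnn q hq)
      rw [sum_union hdisj]
      apply add_le_add
      · rw [hC, mul_sum]
        apply sum_le_sum
        intro q hq
        rw [mem_offDiag] at hq
        have hxq : x ∉ V \ {q.1, q.2} := fun h => hx (mem_sdiff.1 h).1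
        have hins : (insert x V) \ {q.1, q.2} = insert x (V \ {q.1, q.2}) := by
          ext u
          simp only [mem_sdiff, mem_insert, mem_singleton]
          constructor
          · rintro ⟨h1 | h1, h2⟩
            · exact Or.inl h1
            · exact Or.inr ⟨h1, h2⟩
          · rintro (h1 | ⟨h1, h2⟩)
            · refine ⟨Or.inl h1, ?_⟩
              rintro (h2 | h2)
              · exact hx (by rw [← h1, h2]; exact hq.1)
              · exact hx (by rw [← h1, h2]; exact hq.2.1)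
            · exact ⟨Or.inr h1, h2⟩
        rw [hins, prod_insert hxq]
        apply le_of_eq
        ring
      · rw [hD, mul_sum, singleton_product, sum_map]
        apply sum_le_sum
        intro v hv
        have hvx : v ≠ x := fun h => hx (h ▸ hv)
        have hset : (insert x V) \ {x, v} = V.erase v := by
          ext u
          simp only [mem_sdiff, mem_insert, mem_singleton, mem_erase]
          constructor
          · rintro ⟨h1 | h1, h2⟩
            · exact absurd (Or.inl h1) h2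
            · exact ⟨fun h3 => h2 (Or.inr h3), h1⟩
          · rintro ⟨h1, h2⟩
            refine ⟨Or.inr h2, ?_⟩
            rintro (h3 | h3)
            · exact hx (h3 ▸ h2)
            · exact h1 h3
        simp only [Function.Embedding.coeFn_mk]
        rw [hset]
        apply le_of_eq
        ring
    rw [prod_insert hx, prod_insert hx, sum_insert hx, erase_insert hx, h1, ← hA]
    have h3 := mul_le_mul_of_nonneg_left ih' (add_nonneg hax hbx)
    have h4 := mul_le_mul_of_nonneg_left hBD hbx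
    nlinarith

/-- the step of the induction for the upper bound -/
lemma step_upper {V : Finset α} {y w : α → ℝ} (hy0 : ∀ v ∈ V, 0 ≤ y v) (hy1 : ∀ v ∈ V, y v ≤ 1)
    (hw : ∀ v ∈ V, 0 ≤ w v) :
    (1 - ∑ v ∈ V, w v) * ∏ v ∈ V, y v + ∑ v ∈ V, w v * ∏ u ∈ V.erase v, y u ≤
      ∏ v ∈ V, (y v + w v * (1 - y v)) := by
  have h1 := prod_add_ge (V := V) (a := y) (b := fun v => w v * (1 - y v)) hy0
    (fun v hv => mul_nonneg (hw v hv) (by linarith [hy1 v hv]))
  refine le_trans (le_of_eq ?_) h1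
  have h2 : ∀ v ∈ V, w v * (1 - y v) * ∏ u ∈ V.erase v, y u =
      w v * ∏ u ∈ V.erase v, y u - w v * ∏ u ∈ V, y u := by
    intro v hv
    rw [← mul_prod_erase V y hv]
    ring
  rw [sum_congr rfl h2, sum_sub_distrib, ← sum_mul]
  ring

/-- the step of the induction for the lower bound -/
lemma step_lower {V : Finset α} {y w : α → ℝ} (hy0 : ∀ v ∈ V, 0 ≤ y v) (hy1 : ∀ v ∈ V, y v ≤ 1)
    (hw : ∀ v ∈ V, 0 ≤ w v) :
    ∏ v ∈ V, (y v + w v * (1 - y v)) -
      ∑ q ∈ V.offDiag, w q.1 * w q.2 * ∏ u ∈ V \ {q.1, q.2}, (y u + w u * (1 - y u)) ≤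
      (1 - ∑ v ∈ V, w v) * ∏ v ∈ V, y v + ∑ v ∈ V, w v * ∏ u ∈ V.erase v, y u := by
  have h1 := prod_add_le (V := V) (a := y) (b := fun v => w v * (1 - y v)) hy0
    (fun v hv => mul_nonneg (hw v hv) (by linarith [hy1 v hv]))
  have h2 : ∀ v ∈ V, w v * (1 - y v) * ∏ u ∈ V.erase v, y u =
      w v * ∏ u ∈ V.erase v, y u - w v * ∏ u ∈ V, y u := by
    intro v hv
    rw [← mul_prod_erase V y hv]
    ring
  rw [sum_congr rfl h2, sum_sub_distrib, ← sum_mul] at h1
  have h3 : ∑ q ∈ V.offDiag, w q.1 * (1 - y q.1) * (w q.2 * (1 - y q.2)) *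
        ∏ u ∈ V \ {q.1, q.2}, (y u + w u * (1 - y u)) ≤
      ∑ q ∈ V.offDiag, w q.1 * w q.2 * ∏ u ∈ V \ {q.1, q.2}, (y u + w u * (1 - y u)) := by
    apply sum_le_sum
    intro q hq
    rw [mem_offDiag] at hq
    apply mul_le_mul_of_nonneg_right
    · have e1 := hw _ hq.1
      have e2 := hw _ hq.2.1
      have e3 : w q.1 * (1 - y q.1) ≤ w q.1 := by nlinarith [hy0 _ hq.1]
      have e4 : w q.2 * (1 - y q.2) ≤ w q.2 := by nlinarith [hy0 _ hq.2.1]
      exact mul_le_mul e3 e4 (mul_nonneg e2 (by linarith [hy1 _ hq.2.1])) e1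
    · apply prod_nonneg
      intro u hu
      have hu' := (mem_sdiff.1 hu).1
      exact add_nonneg (hy0 u hu') (mul_nonneg (hw u hu') (by linarith [hy1 u hu']))
  linarith

/-- propagation of the error term -/
lemma step_err {V : Finset α} {y w : α → ℝ} {c : α → α → ℝ} (hy0 : ∀ v ∈ V, 0 ≤ y v)
    (hy1 : ∀ v ∈ V, y v ≤ 1) (hw : ∀ v ∈ V, 0 ≤ w v) (_hW : ∑ v ∈ V, w v ≤ 1)
    (hc : ∀ u v, 0 ≤ c u v) :
    (1 - ∑ v ∈ V, w v) * ∑ q ∈ V.offDiag, c q.1 q.2 * ∏ u ∈ V \ {q.1, q.2}, y u +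
      ∑ v ∈ V, w v * ∑ q ∈ (V.erase v).offDiag, c q.1 q.2 * ∏ u ∈ (V.erase v) \ {q.1, q.2}, y u ≤
      ∑ q ∈ V.offDiag, c q.1 q.2 * ∏ u ∈ V \ {q.1, q.2}, (y u + w u * (1 - y u)) := by
  have hswap : ∑ v ∈ V, w v * ∑ q ∈ (V.erase v).offDiag,
        c q.1 q.2 * ∏ u ∈ (V.erase v) \ {q.1, q.2}, y u =
      ∑ q ∈ V.offDiag, c q.1 q.2 *
        ∑ v ∈ V \ {q.1, q.2}, w v * ∏ u ∈ (V \ {q.1, q.2}).erase v, y u := by
    simp only [mul_sum]
    rw [sum_comm' (t' := V.offDiag) (s' := fun q => V \ {q.1, q.2})]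
    · apply sum_congr rfl
      intro q _
      apply sum_congr rfl
      intro v _
      have hset : (V.erase v) \ {q.1, q.2} = (V \ {q.1, q.2}).erase v := by
        ext u
        simp only [mem_sdiff, mem_erase]
        tauto
      rw [hset]
      ring
    · intro v q
      simp only [mem_offDiag, mem_erase, mem_sdiff, mem_insert, mem_singleton, not_or]
      constructor
      · rintro ⟨h1, ⟨h2, h3⟩, ⟨h4, h5⟩, h6⟩
        exact ⟨⟨h1, fun h => h2 h.symm, fun h => h4 h.symm⟩, h3, h5, h6⟩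
      · rintro ⟨⟨h1, h2, h3⟩, h4, h5, h6⟩
        exact ⟨h1, ⟨fun h => h2 h.symm, h4⟩, ⟨fun h => h3 h.symm, h5⟩, h6⟩
  rw [hswap, mul_sum, ← sum_add_distrib]
  apply sum_le_sum
  intro q hq
  have hsub : V \ {q.1, q.2} ⊆ V := sdiff_subset
  have h1 := step_upper (V := V \ {q.1, q.2}) (fun v hv => hy0 v (hsub hv))
    (fun v hv => hy1 v (hsub hv)) (fun v hv => hw v (hsub hv))
  have h2 : ∑ v ∈ V \ {q.1, q.2}, w v ≤ ∑ v ∈ V, w v :=
    sum_le_sum_of_subset_of_nonneg hsub fun v hv _ => hw v hv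
  have h3 : 0 ≤ ∏ u ∈ V \ {q.1, q.2}, y u := prod_nonneg fun u hu => hy0 u (hsub hu)
  have h4 : (1 - ∑ v ∈ V, w v) * ∏ u ∈ V \ {q.1, q.2}, y u ≤
      (1 - ∑ v ∈ V \ {q.1, q.2}, w v) * ∏ u ∈ V \ {q.1, q.2}, y u :=
    mul_le_mul_of_nonneg_right (by linarith) h3
  calc (1 - ∑ v ∈ V, w v) * (c q.1 q.2 * ∏ u ∈ V \ {q.1, q.2}, y u) +
        c q.1 q.2 * ∑ v ∈ V \ {q.1, q.2}, w v * ∏ u ∈ (V \ {q.1, q.2}).erase v, y u
      = c q.1 q.2 * ((1 - ∑ v ∈ V, w v) * ∏ u ∈ V \ {q.1, q.2}, y u +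
        ∑ v ∈ V \ {q.1, q.2}, w v * ∏ u ∈ (V \ {q.1, q.2}).erase v, y u) := by ring
    _ ≤ c q.1 q.2 * ∏ u ∈ V \ {q.1, q.2}, (y u + w u * (1 - y u)) := by
        apply mul_le_mul_of_nonneg_left _ (hc _ _)
        linarith

end Pool.Agent.LibThinT
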