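import Pool.Agent.LibThinT.Defs
import Pool.Agent.LibThinT.Prod

/-!
Covering probabilities for displaced classes.
-/

namespace Pool.Agent.LibThinT

open Filter Topology MeasureTheory ProbabilityTheory
open Pool.Agent.LibThin21

variable {Ω : Type*} [MeasurableSpace Ω] {μ : Measure Ω} [IsProbabilityMeasure μ] {E : Set ℕ}
  {T : ℕ → ℕ} {a : ℕ → Ω → ℕ}

lemma measurableSet_covT (ha : ∀ p, Measurable (a p)) (P V : Finset ℕ) :
    MeasurableSet {ω | ∀ v ∈ V, ∃ p ∈ P, v ≡ a p ω [MOD p]} := by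
  have h : {ω | ∀ v ∈ V, ∃ p ∈ P, v ≡ a p ω [MOD p]} =
      ⋂ v ∈ V, ⋃ p ∈ P, (a p) ⁻¹' {n | v ≡ n [MOD p]} := by
    ext ω
    simp
  rw [h]
  exact Finset.measurableSet_biInter V fun v _ => Finset.measurableSet_biUnion P fun p _ =>
    (ha p) (MeasurableSet.of_discrete)

lemma cov_empty' (V : Finset ℕ) : cov μ a ∅ V = if V = ∅ then 1 else 0 := by
  unfold cov
  by_cases hV : V = ∅
  · subst hV
    simp
  · rw [if_neg hV]
    obtain ⟨v, hv⟩ := Finset.nonempty_iff_ne_empty.2 hV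
    have : {ω | ∀ v ∈ V, ∃ p ∈ (∅ : Finset ℕ), v ≡ a p ω [MOD p]} = (∅ : Set Ω) := by
      refine Set.eq_empty_iff_forall_notMem.2 fun ω hω => ?_
      obtain ⟨p, hp, _⟩ := hω v hv
      exact absurd hp (Finset.notMem_empty p)
    rw [this, measureReal_empty]

theorem covT_insert (hM : ModelT μ E T a) {P V : Finset ℕ} {p : ℕ} (hp : p.Prime) (hpE : p ∈ E)
    (hT : 1 ≤ T p) (hpP : p ∉ P) :
    cov μ a (insert p P) V =
      (1 / (T p : ℝ)) * ∑ r ∈ Finset.range (T p), cov μ a P (V.filter (fun v => ¬ v ≡ r [MOD p])) := by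
  classical
  unfold cov
  set A : Set Ω := {ω | ∀ v ∈ V, ∃ p' ∈ insert p P, v ≡ a p' ω [MOD p']} with hA
  have hAm : MeasurableSet A := measurableSet_covT hM.meas _ _
  set B : ℕ → Set Ω := fun r => {ω | ∀ v ∈ V.filter (fun v => ¬ v ≡ r [MOD p]),
    ∃ p' ∈ P, v ≡ a p' ω [MOD p']} with hB
  set C : ℕ → Set Ω := fun r => {ω | a p ω = r} with hC
  have hCm : ∀ r, MeasurableSet (C r) := fun r => (hM.meas p) (measurableSet_singleton r)
  have hp0 : (0 : ℝ) < T p := by exact_mod_cast hT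
  have hCr : ∀ r ∈ Finset.range (T p), μ.real (C r) = 1 / (T p : ℝ) := by
    intro r hr
    rw [measureReal_def, hC]
    change (μ {ω | a p ω = r}).toReal = _
    rw [hM.unif p hp hpE r (Finset.mem_range.1 hr)]
    simp
  have hCd : Set.PairwiseDisjoint (↑(Finset.range (T p))) C := by
    intro i _ j _ hij
    refine Set.disjoint_left.2 fun ω h1 h2 => hij ?_
    exact (show a p ω = i from h1).symm.trans (show a p ω = j from h2)
  set D : Set Ω := ⋃ r ∈ Finset.range (T p), C r with hD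
  have hDm : MeasurableSet D := Finset.measurableSet_biUnion _ fun r _ => hCm r
  have hD1 : μ.real D = 1 := by
    rw [hD, measureReal_biUnion_finset hCd (fun r _ => hCm r), Finset.sum_congr rfl hCr,
      Finset.sum_const, Finset.card_range, nsmul_eq_mul]
    field_simp
  have hDc : μ.real (A \ D) = 0 := by
    have h1 : μ.real (A \ D) ≤ μ.real Dᶜ := measureReal_mono (fun ω hω => hω.2)
    have h2 : μ.real Dᶜ = 0 := by
      rw [probReal_compl_eq_one_sub hDm, hD1, sub_self]
    exact le_antisymm (h1.trans h2.le) measureReal_nonneg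
  have hAD : μ.real A = μ.real (A ∩ D) := by
    have := measureReal_inter_add_sdiff (μ := μ) (s := A) (t := D) hDm
    rw [hDc, add_zero] at this
    exact this.symm
  have hAD2 : A ∩ D = ⋃ r ∈ Finset.range (T p), (A ∩ C r) := by
    rw [hD, Set.inter_iUnion₂]
  have hACd : Set.PairwiseDisjoint (↑(Finset.range (T p))) (fun r => A ∩ C r) := by
    intro i hi j hj hij
    exact (hCd hi hj hij).mono Set.inter_subset_right Set.inter_subset_right
  have h1 : ∀ r, A ∩ C r = B r ∩ C r := by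
    intro r
    ext ω
    constructor
    · rintro ⟨h1, h2⟩
      refine ⟨?_, h2⟩
      intro v hv
      rw [Finset.mem_filter] at hv
      obtain ⟨p', hp', hv'⟩ := h1 v hv.1
      rw [Finset.mem_insert] at hp'
      rcases hp' with rfl | hp'
      · exact absurd ((show a p' ω = r from h2) ▸ hv') hv.2
      · exact ⟨p', hp', hv'⟩
    · rintro ⟨h1, h2⟩
      refine ⟨?_, h2⟩
      intro v hv
      by_cases hvr : v ≡ r [MOD p]
      · exact ⟨p, Finset.mem_insert_self _ _, by rw [show a p ω = r from h2]; exact hvr⟩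
      · obtain ⟨p', hp', hv'⟩ := h1 v (Finset.mem_filter.2 ⟨hv, hvr⟩)
        exact ⟨p', Finset.mem_insert_of_mem hp', hv'⟩
  have hind := hM.indep.indepFun_finset {p} P (by simpa using hpP) (fun i => hM.meas i)
  have h2 : ∀ r ∈ Finset.range (T p), μ.real (A ∩ C r) = 1 / (T p : ℝ) * μ.real (B r) := by
    intro r hr
    rw [h1 r]
    have e1 : C r = (fun ω (i : ({p} : Finset ℕ)) => a i ω) ⁻¹'
        {f | f ⟨p, Finset.mem_singleton_self p⟩ = r} := by
      ext ω
      rfl
    have e2 : B r = (fun ω (i : P) => a i ω) ⁻¹'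
        {f | ∀ v ∈ V.filter (fun v => ¬ v ≡ r [MOD p]), ∃ i : P, v ≡ f i [MOD (i : ℕ)]} := by
      ext ω
      constructor
      · intro h v hv
        obtain ⟨p', hp', hv'⟩ := h v hv
        exact ⟨⟨p', hp'⟩, hv'⟩
      · intro h v hv
        obtain ⟨⟨p', hp'⟩, hv'⟩ := h v hv
        exact ⟨p', hp', hv'⟩
    have e3 := hind.measure_inter_preimage_eq_mul
      {f | f ⟨p, Finset.mem_singleton_self p⟩ = r}
      {f | ∀ v ∈ V.filter (fun v => ¬ v ≡ r [MOD p]), ∃ i : P, v ≡ f i [MOD (i : ℕ)]}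
      (Set.to_countable _).measurableSet (Set.to_countable _).measurableSet
    rw [← e1, ← e2] at e3
    rw [Set.inter_comm, measureReal_def, e3, ENNReal.toReal_mul, ← measureReal_def, ← measureReal_def,
      hCr r hr]
  rw [hAD, hAD2, measureReal_biUnion_finset hACd (fun r _ => hAm.inter (hCm r)),
    Finset.sum_congr rfl h2, ← Finset.mul_sum]

lemma wt_nonneg (T : ℕ → ℕ) (p v : ℕ) : 0 ≤ wt T p v := by
  unfold wt
  split_ifs
  · positivity
  · exact le_rfl

lemma wt_le (T : ℕ → ℕ) (p v : ℕ) : wt T p v ≤ 1 / (T p : ℝ) := by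
  unfold wt
  split_ifs
  · exact le_rfl
  · positivity

lemma wt_le_one (T : ℕ → ℕ) (p v : ℕ) : wt T p v ≤ 1 := by
  refine (wt_le T p v).trans ?_
  rcases Nat.eq_zero_or_pos (T p) with h | h
  · rw [h]; simp
  · rw [div_le_one (by exact_mod_cast h)]
    exact_mod_cast h

/-- one more prime, which removes at most one element of `V` -/
theorem cov_step (hM : ModelT μ E T a) {P V : Finset ℕ} {p : ℕ} (hp : p.Prime) (hpE : p ∈ E)
    (hT : 1 ≤ T p) (hTp : T p ≤ p) (hpP : p ∉ P) (hV : ∀ v ∈ V, ∀ w ∈ V, v ≡ w [MOD p] → v = w) :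
    cov μ a (insert p P) V =
      (1 - ∑ v ∈ V, wt T p v) * cov μ a P V + ∑ v ∈ V, wt T p v * cov μ a P (V.erase v) := by
  classical
  rw [covT_insert hM hp hpE hT hpP]
  have hT0 : (0 : ℝ) < T p := by exact_mod_cast hT
  obtain ⟨V', hV'⟩ : ∃ V', V' = V.filter (fun v => v % p < T p) := ⟨_, rfl⟩
  have hinj : Set.InjOn (fun v : ℕ => v % p) (V' : Set ℕ) := by
    intro v hv w hw h
    rw [Finset.mem_coe, hV', Finset.mem_filter] at hv hw
    exact hV v hv.1 w hw.1 h
  have hfil : ∀ v ∈ V', V.filter (fun u => ¬ u ≡ v % p [MOD p]) = V.erase v := by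
    intro v hv
    rw [hV', Finset.mem_filter] at hv
    ext u
    rw [Finset.mem_filter, Finset.mem_erase]
    constructor
    · rintro ⟨h1, h2⟩
      refine ⟨?_, h1⟩
      rintro rfl
      exact h2 (Nat.mod_modEq u p).symm
    · rintro ⟨h1, h2⟩
      refine ⟨h2, fun h3 => h1 ?_⟩
      exact hV u h2 v hv.1 (h3.trans (Nat.mod_modEq v p))
  have hnone : ∀ r ∈ Finset.range (T p), r ∉ V'.image (fun v => v % p) →
      V.filter (fun u => ¬ u ≡ r [MOD p]) = V := by
    intro r hr hr'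
    rw [Finset.filter_eq_self]
    intro u hu h
    apply hr'
    rw [Finset.mem_image]
    have hrp : r < p := lt_of_lt_of_le (Finset.mem_range.1 hr) hTp
    have h1 : u % p = r := by
      have h2 : u % p = r % p := h
      rw [Nat.mod_eq_of_lt hrp] at h2
      exact h2
    refine ⟨u, ?_, h1⟩
    rw [hV', Finset.mem_filter]
    exact ⟨hu, by rw [h1]; exact Finset.mem_range.1 hr⟩
  have hsub : V'.image (fun v => v % p) ⊆ Finset.range (T p) := by
    intro r hr
    rw [Finset.mem_image] at hr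
    obtain ⟨v, hv, rfl⟩ := hr
    rw [hV', Finset.mem_filter] at hv
    exact Finset.mem_range.2 hv.2
  have hsum : ∑ r ∈ Finset.range (T p), (cov μ a P (V.filter (fun v => ¬ v ≡ r [MOD p])) - cov μ a P V) =
      ∑ v ∈ V', (cov μ a P (V.erase v) - cov μ a P V) := by
    rw [← Finset.sum_subset hsub, Finset.sum_image hinj]
    · apply Finset.sum_congr rfl
      intro v hv
      rw [hfil v hv]
    · intro r hr hr'
      rw [hnone r hr hr', sub_self]
  have h1 : ∑ r ∈ Finset.range (T p), cov μ a P (V.filter (fun v => ¬ v ≡ r [MOD p])) =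
      T p * cov μ a P V + ∑ v ∈ V', (cov μ a P (V.erase v) - cov μ a P V) := by
    rw [← hsum, Finset.sum_sub_distrib, Finset.sum_const, Finset.card_range, nsmul_eq_mul]
    ring
  have h2 : ∀ f : ℕ → ℝ, ∑ v ∈ V, wt T p v * f v = (1 / (T p : ℝ)) * ∑ v ∈ V', f v := by
    intro f
    rw [hV', Finset.sum_filter, Finset.mul_sum]
    apply Finset.sum_congr rfl
    intro v _
    unfold wt
    split_ifs <;> ring
  have h3 := h2 (fun _ => 1)
  have h4 := h2 (fun v => cov μ a P (V.erase v))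
  simp only [mul_one] at h3
  rw [h1, h3, h4, Finset.sum_sub_distrib, Finset.sum_const, Finset.sum_const, nsmul_eq_mul,
    nsmul_eq_mul]
  field_simp
  ring

/-- at most one element of `V` in each class: the weights sum to at most `1` -/
lemma sum_wt_le {V : Finset ℕ} {p : ℕ} (hT : 1 ≤ T p)
    (hV : ∀ v ∈ V, ∀ w ∈ V, v ≡ w [MOD p] → v = w) : ∑ v ∈ V, wt T p v ≤ 1 := by
  classical
  have hT0 : (0 : ℝ) < T p := by exact_mod_cast hT
  have hinj : Set.InjOn (fun v : ℕ => v % p) ((V.filter (fun v => v % p < T p) : Finset ℕ) : Set ℕ) := by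
    intro v hv w hw h
    rw [Finset.mem_coe, Finset.mem_filter] at hv hw
    exact hV v hv.1 w hw.1 h
  have hcard : (V.filter (fun v => v % p < T p)).card ≤ T p := by
    calc (V.filter (fun v => v % p < T p)).card =
          ((V.filter (fun v => v % p < T p)).image (fun v => v % p)).card :=
          (Finset.card_image_of_injOn hinj).symm
      _ ≤ (Finset.range (T p)).card := by
          apply Finset.card_le_card
          intro r hr
          rw [Finset.mem_image] at hr
          obtain ⟨v, hv, rfl⟩ := hr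
          exact Finset.mem_range.2 (Finset.mem_filter.1 hv).2
      _ = T p := Finset.card_range _
  unfold wt
  rw [← Finset.sum_filter, Finset.sum_const, nsmul_eq_mul, mul_one_div, div_le_one hT0]
  exact_mod_cast hcard

lemma yy_nonneg (T : ℕ → ℕ) (P : Finset ℕ) (v : ℕ) : 0 ≤ yy T P v := by
  unfold yy
  have : ∏ p ∈ P, (1 - wt T p v) ≤ 1 := Finset.prod_le_one
    (fun p _ => by linarith [wt_le_one T p v]) (fun p _ => by linarith [wt_nonneg T p v])
  linarith

lemma yy_le_one (T : ℕ → ℕ) (P : Finset ℕ) (v : ℕ) : yy T P v ≤ 1 := by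
  unfold yy
  have : 0 ≤ ∏ p ∈ P, (1 - wt T p v) :=
    Finset.prod_nonneg (fun p _ => by linarith [wt_le_one T p v])
  linarith

lemma yy_insert (T : ℕ → ℕ) {P : Finset ℕ} {p : ℕ} (hpP : p ∉ P) (v : ℕ) :
    yy T (insert p P) v = yy T P v + wt T p v * (1 - yy T P v) := by
  unfold yy
  rw [Finset.prod_insert hpP]
  ring

lemma yy_mono (T : ℕ → ℕ) {P P' : Finset ℕ} (h : P ⊆ P') (v : ℕ) : yy T P v ≤ yy T P' v := by
  unfold yy
  have h1 : ∏ p ∈ P' \ P, (1 - wt T p v) ≤ 1 := Finset.prod_le_one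
    (fun p _ => by linarith [wt_le_one T p v]) (fun p _ => by linarith [wt_nonneg T p v])
  have h2 : 0 ≤ ∏ p ∈ P, (1 - wt T p v) :=
    Finset.prod_nonneg (fun p _ => by linarith [wt_le_one T p v])
  have h3 : ∏ p ∈ P', (1 - wt T p v) ≤ ∏ p ∈ P, (1 - wt T p v) := by
    rw [← Finset.prod_sdiff h]
    exact mul_le_of_le_one_left h2 h1
  linarith

/-- negative dependence -/
theorem cov_le_T (hM : ModelT μ E T a) {P V : Finset ℕ}
    (hP : ∀ p ∈ P, p.Prime ∧ p ∈ E ∧ 1 ≤ T p ∧ T p ≤ p)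
    (hV : ∀ p ∈ P, ∀ v ∈ V, ∀ w ∈ V, v ≡ w [MOD p] → v = w) :
    cov μ a P V ≤ ∏ v ∈ V, yy T P v := by
  classical
  induction P using Finset.induction_on generalizing V with
  | empty =>
    rw [cov_empty']
    split_ifs with h
    · subst h
      simp
    · exact Finset.prod_nonneg fun v _ => yy_nonneg T _ v
  | insert p P hp ih =>
    have hpp := hP p (Finset.mem_insert_self p P)
    have hP' : ∀ p' ∈ P, p'.Prime ∧ p' ∈ E ∧ 1 ≤ T p' ∧ T p' ≤ p' := fun p' hp' =>
      hP p' (Finset.mem_insert_of_mem hp')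
    have hVp := hV p (Finset.mem_insert_self p P)
    have hV' : ∀ p' ∈ P, ∀ v ∈ V, ∀ w ∈ V, v ≡ w [MOD p'] → v = w := fun p' hp' =>
      hV p' (Finset.mem_insert_of_mem hp')
    rw [cov_step hM hpp.1 hpp.2.1 hpp.2.2.1 hpp.2.2.2 hp hVp]
    have h1 := sum_wt_le hpp.2.2.1 hVp
    have h2 := step_upper (V := V) (y := yy T P) (w := wt T p) (fun v _ => yy_nonneg T P v)
      (fun v _ => yy_le_one T P v) (fun v _ => wt_nonneg T p v)
    have h3 : ∏ v ∈ V, yy T (insert p P) v = ∏ v ∈ V, (yy T P v + wt T p v * (1 - yy T P v)) :=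
      Finset.prod_congr rfl fun v _ => yy_insert T hp v
    rw [h3]
    refine le_trans (add_le_add ?_ ?_) h2
    · exact mul_le_mul_of_nonneg_left (ih hP' hV') (by linarith)
    · apply Finset.sum_le_sum
      intro v _
      apply mul_le_mul_of_nonneg_left _ (wt_nonneg T p v)
      exact ih hP' fun p' hp' u hu w hw =>
        hV' p' hp' u (Finset.mem_of_mem_erase hu) w (Finset.mem_of_mem_erase hw)

/-- the lower bound -/
theorem le_cov_T (hM : ModelT μ E T a) {P V : Finset ℕ}
    (hP : ∀ p ∈ P, p.Prime ∧ p ∈ E ∧ 1 ≤ T p ∧ T p ≤ p)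
    (hV : ∀ p ∈ P, ∀ v ∈ V, ∀ w ∈ V, v ≡ w [MOD p] → v = w) :
    ∏ v ∈ V, yy T P v - ∑ q ∈ V.offDiag, (∑ p ∈ P, wt T p q.1 * wt T p q.2) *
      ∏ u ∈ V \ {q.1, q.2}, yy T P u ≤ cov μ a P V := by
  classical
  induction P using Finset.induction_on generalizing V with
  | empty =>
    rw [cov_empty']
    split_ifs with h
    · subst h
      simp
    · obtain ⟨v, hv⟩ := Finset.nonempty_iff_ne_empty.2 h
      rw [Finset.prod_eq_zero hv (by unfold yy; simp)]
      simp
  | insert p P hp ih =>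
    have hpp := hP p (Finset.mem_insert_self p P)
    have hP' : ∀ p' ∈ P, p'.Prime ∧ p' ∈ E ∧ 1 ≤ T p' ∧ T p' ≤ p' := fun p' hp' =>
      hP p' (Finset.mem_insert_of_mem hp')
    have hVp := hV p (Finset.mem_insert_self p P)
    have hV' : ∀ p' ∈ P, ∀ v ∈ V, ∀ w ∈ V, v ≡ w [MOD p'] → v = w := fun p' hp' =>
      hV p' (Finset.mem_insert_of_mem hp')
    rw [cov_step hM hpp.1 hpp.2.1 hpp.2.2.1 hpp.2.2.2 hp hVp]
    have h1 := sum_wt_le hpp.2.2.1 hVp
    have h2 := step_lower (V := V) (y := yy T P) (w := wt T p) (fun v _ => yy_nonneg T P v)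
      (fun v _ => yy_le_one T P v) (fun v _ => wt_nonneg T p v)
    have h3 := step_err (V := V) (y := yy T P) (w := wt T p)
      (c := fun u v => ∑ p' ∈ P, wt T p' u * wt T p' v) (fun v _ => yy_nonneg T P v)
      (fun v _ => yy_le_one T P v) (fun v _ => wt_nonneg T p v) h1
      (fun u v => Finset.sum_nonneg fun p' _ => mul_nonneg (wt_nonneg T p' u) (wt_nonneg T p' v))
    have hyy : ∀ S : Finset ℕ, ∏ v ∈ S, yy T (insert p P) v =
        ∏ v ∈ S, (yy T P v + wt T p v * (1 - yy T P v)) := fun S =>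
      Finset.prod_congr rfl fun v _ => yy_insert T hp v
    simp only [hyy]
    have h4 : ∑ q ∈ V.offDiag, (∑ p' ∈ insert p P, wt T p' q.1 * wt T p' q.2) *
          ∏ u ∈ V \ {q.1, q.2}, (yy T P u + wt T p u * (1 - yy T P u)) =
        ∑ q ∈ V.offDiag, wt T p q.1 * wt T p q.2 *
          ∏ u ∈ V \ {q.1, q.2}, (yy T P u + wt T p u * (1 - yy T P u)) +
        ∑ q ∈ V.offDiag, (∑ p' ∈ P, wt T p' q.1 * wt T p' q.2) *
          ∏ u ∈ V \ {q.1, q.2}, (yy T P u + wt T p u * (1 - yy T P u)) := by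
      rw [← Finset.sum_add_distrib]
      apply Finset.sum_congr rfl
      intro q _
      rw [Finset.sum_insert hp]
      ring
    rw [h4]
    -- the induction hypotheses
    have e1 := mul_le_mul_of_nonneg_left (ih hP' hV') (show 0 ≤ 1 - ∑ v ∈ V, wt T p v by linarith)
    have e2 : ∑ v ∈ V, wt T p v * (∏ u ∈ V.erase v, yy T P u -
          ∑ q ∈ (V.erase v).offDiag, (∑ p' ∈ P, wt T p' q.1 * wt T p' q.2) *
            ∏ u ∈ (V.erase v) \ {q.1, q.2}, yy T P u) ≤
        ∑ v ∈ V, wt T p v * cov μ a P (V.erase v) := by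
      apply Finset.sum_le_sum
      intro v _
      apply mul_le_mul_of_nonneg_left _ (wt_nonneg T p v)
      exact ih hP' fun p' hp' u hu w hw =>
        hV' p' hp' u (Finset.mem_of_mem_erase hu) w (Finset.mem_of_mem_erase hw)
    simp only [mul_sub, Finset.sum_sub_distrib] at e1 e2
    linarith

end Pool.Agent.LibThinT
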