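import Pool.Agent.LibThinT.Cov

/-!
One row from below, two rows from above.
-/

namespace Pool.Agent.LibThinT

open Filter Topology MeasureTheory ProbabilityTheory
open Pool.Agent.LibThin21

variable {Ω : Type*} [MeasurableSpace Ω] {μ : Measure Ω} [IsProbabilityMeasure μ] {E : Set ℕ}
  {T : ℕ → ℕ} {a : ℕ → Ω → ℕ}

/-- lower bound for one row -/
theorem cov_row (hM : ModelT μ E T a) {P V : Finset ℕ}
    (hP : ∀ p ∈ P, p.Prime ∧ p ∈ E ∧ 1 ≤ T p ∧ T p ≤ p)
    (hV : ∀ p ∈ P, ∀ v ∈ V, ∀ w ∈ V, v ≡ w [MOD p] → v = w) {β L S : ℝ} (hβ : 0 < β)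
    (hy : ∀ v ∈ V, β ≤ yy T P v) (hL : 0 < L) (hT : ∀ p ∈ P, L ≤ (T p : ℝ))
    (hS : ∀ v ∈ V, load T P v ≤ S) (hS0 : 0 ≤ S) :
    (∏ v ∈ V, yy T P v) * (1 - (V.card : ℝ) ^ 2 * S / (L * β ^ 2)) ≤ cov μ a P V := by
  classical
  have h1 := le_cov_T hM hP hV
  have hprod0 : 0 ≤ ∏ v ∈ V, yy T P v := Finset.prod_nonneg fun v _ => yy_nonneg T P v
  have h2 : ∀ q ∈ V.offDiag, (∑ p ∈ P, wt T p q.1 * wt T p q.2) *
      ∏ u ∈ V \ {q.1, q.2}, yy T P u ≤ (S / L) * ((∏ v ∈ V, yy T P v) / β ^ 2) := by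
    intro q hq
    rw [Finset.mem_offDiag] at hq
    have e1 : ∑ p ∈ P, wt T p q.1 * wt T p q.2 ≤ S / L := by
      calc ∑ p ∈ P, wt T p q.1 * wt T p q.2 ≤ ∑ p ∈ P, wt T p q.1 * (1 / L) := by
            apply Finset.sum_le_sum
            intro p hp
            apply mul_le_mul_of_nonneg_left _ (wt_nonneg T p _)
            exact (wt_le T p _).trans (one_div_le_one_div_of_le hL (hT p hp))
        _ = load T P q.1 * (1 / L) := by rw [← Finset.sum_mul]; rfl
        _ ≤ S * (1 / L) := mul_le_mul_of_nonneg_right (hS _ hq.1) (by positivity)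
        _ = S / L := by ring
    have e2 : (∏ u ∈ V \ {q.1, q.2}, yy T P u) * β ^ 2 ≤ ∏ v ∈ V, yy T P v := by
      have hsub : ({q.1, q.2} : Finset ℕ) ⊆ V := by
        intro u hu
        rw [Finset.mem_insert, Finset.mem_singleton] at hu
        rcases hu with rfl | rfl
        · exact hq.1
        · exact hq.2.1
      rw [← Finset.prod_sdiff hsub, Finset.prod_pair hq.2.2]
      apply mul_le_mul_of_nonneg_left _ (Finset.prod_nonneg fun u _ => yy_nonneg T P u)
      rw [sq]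
      exact mul_le_mul (hy _ hq.1) (hy _ hq.2.1) hβ.le (yy_nonneg T P _)
    have e3 : ∏ u ∈ V \ {q.1, q.2}, yy T P u ≤ (∏ v ∈ V, yy T P v) / β ^ 2 := by
      rw [le_div_iff₀ (by positivity)]
      exact e2
    exact mul_le_mul e1 e3 (Finset.prod_nonneg fun u _ => yy_nonneg T P u) (by positivity)
  have h3 : ∑ q ∈ V.offDiag, (∑ p ∈ P, wt T p q.1 * wt T p q.2) *
      ∏ u ∈ V \ {q.1, q.2}, yy T P u ≤
      (V.card : ℝ) ^ 2 * ((S / L) * ((∏ v ∈ V, yy T P v) / β ^ 2)) := by
    calc _ ≤ ∑ _q ∈ V.offDiag, (S / L) * ((∏ v ∈ V, yy T P v) / β ^ 2) := Finset.sum_le_sum h2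
      _ = (V.offDiag.card : ℝ) * ((S / L) * ((∏ v ∈ V, yy T P v) / β ^ 2)) := by
          rw [Finset.sum_const, nsmul_eq_mul]
      _ ≤ (V.card : ℝ) ^ 2 * ((S / L) * ((∏ v ∈ V, yy T P v) / β ^ 2)) := by
          apply mul_le_mul_of_nonneg_right _ (by positivity)
          have : V.offDiag.card ≤ V.card ^ 2 := by
            rw [Finset.offDiag_card, sq]
            exact Nat.sub_le _ _
          exact_mod_cast this
  refine le_trans (le_of_eq ?_) (le_trans (sub_le_sub_left h3 _) h1)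
  field_simp

/-- two rows -/
theorem cov_two_T (hM : ModelT μ E T a) {P0 P1 V : Finset ℕ} (hdisj : Disjoint P0 P1)
    (hP0 : ∀ p ∈ P0, p.Prime ∧ p ∈ E ∧ 1 ≤ T p ∧ T p ≤ p)
    (hP1 : ∀ p ∈ P1, p.Prime ∧ p ∈ E ∧ 1 ≤ T p ∧ T p ≤ p)
    (hV0 : ∀ p ∈ P0, ∀ v ∈ V, ∀ w ∈ V, v ≡ w [MOD p] → v = w)
    (hV1 : ∀ p ∈ P1, ∀ r : ℕ, (V.filter (fun v => v ≡ r [MOD p])).card ≤ 2)
    {β : ℝ} (hβ : 0 < β) (hβ1 : β ≤ 1) (hy : ∀ v ∈ V, β ≤ yy T P0 v) :
    cov μ a (P0 ∪ P1) V ≤ (∏ v ∈ V, yy T P0 v) * ∏ p ∈ P1, (1 + (∑ v ∈ V, wt T p v) / β ^ 2) := by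
  classical
  suffices h : ∀ V' ⊆ V, cov μ a (P0 ∪ P1) V' ≤
      (∏ v ∈ V', yy T P0 v) * ∏ p ∈ P1, (1 + (∑ v ∈ V, wt T p v) / β ^ 2) from h V subset_rfl
  induction P1 using Finset.induction_on with
  | empty =>
    intro V' hV'
    rw [Finset.union_empty, Finset.prod_empty, mul_one]
    exact cov_le_T hM hP0 fun p hp v hv w hw => hV0 p hp v (hV' hv) w (hV' hw)
  | insert p P1 hp ih =>
    intro V' hV'
    have hpp := hP1 p (Finset.mem_insert_self p P1)
    have hdisj' : Disjoint P0 P1 := hdisj.mono_right (Finset.subset_insert p P1)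
    have hpP0 : p ∉ P0 := fun h => (Finset.disjoint_left.1 hdisj h) (Finset.mem_insert_self p P1)
    have hpU : p ∉ P0 ∪ P1 := by
      rw [Finset.mem_union]
      rintro (h | h)
      · exact hpP0 h
      · exact hp h
    have ih' := ih hdisj' (fun p' hp' => hP1 p' (Finset.mem_insert_of_mem hp'))
      (fun p' hp' => hV1 p' (Finset.mem_insert_of_mem hp'))
    rw [Finset.union_insert, covT_insert hM hpp.1 hpp.2.1 hpp.2.2.1 hpU, Finset.prod_insert hp]
    have hT0 : (0 : ℝ) < T p := by exact_mod_cast hpp.2.2.1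
    obtain ⟨Q, hQ⟩ : ∃ Q : ℝ, Q = ∏ p ∈ P1, (1 + (∑ v ∈ V, wt T p v) / β ^ 2) := ⟨_, rfl⟩
    obtain ⟨Y, hY⟩ : ∃ Y : ℝ, Y = ∏ v ∈ V', yy T P0 v := ⟨_, rfl⟩
    have hQ0 : 0 ≤ Q := by
      rw [hQ]
      apply Finset.prod_nonneg
      intro p' _
      have : 0 ≤ ∑ v ∈ V, wt T p' v := Finset.sum_nonneg fun v _ => wt_nonneg T p' v
      positivity
    have hY0 : 0 ≤ Y := by
      rw [hY]
      exact Finset.prod_nonneg fun v _ => yy_nonneg T _ v
    rw [← hQ, ← hY]
    -- each class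
    have hclass : ∀ r ∈ Finset.range (T p), cov μ a (P0 ∪ P1) (V'.filter (fun v => ¬ v ≡ r [MOD p])) ≤
        Y * Q + (if (V.filter (fun v => v ≡ r [MOD p])).Nonempty then Y * Q / β ^ 2 else 0) := by
      intro r _
      have h1 := ih' (V'.filter (fun v => ¬ v ≡ r [MOD p]))
        ((Finset.filter_subset _ _).trans hV')
      rw [← hQ] at h1
      have hsplit : (∏ v ∈ V'.filter (fun v => v ≡ r [MOD p]), yy T P0 v) *
          ∏ v ∈ V'.filter (fun v => ¬ v ≡ r [MOD p]), yy T P0 v = Y := by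
        rw [hY]
        exact Finset.prod_filter_mul_prod_filter_not V' _ _
      obtain ⟨Z, hZ⟩ : ∃ Z : ℝ, Z = ∏ v ∈ V'.filter (fun v => ¬ v ≡ r [MOD p]), yy T P0 v := ⟨_, rfl⟩
      rw [← hZ] at h1 hsplit
      have hZ0 : 0 ≤ Z := by
        rw [hZ]
        exact Finset.prod_nonneg fun v _ => yy_nonneg T _ v
      by_cases hne : (V.filter (fun v => v ≡ r [MOD p])).Nonempty
      · rw [if_pos hne]
        have hcard : (V'.filter (fun v => v ≡ r [MOD p])).card ≤ 2 :=
          (Finset.card_le_card (Finset.filter_subset_filter _ hV')).trans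
            (hV1 p (Finset.mem_insert_self p P1) r)
        have hb : β ^ 2 ≤ ∏ v ∈ V'.filter (fun v => v ≡ r [MOD p]), yy T P0 v := by
          calc β ^ 2 ≤ β ^ (V'.filter (fun v => v ≡ r [MOD p])).card :=
                pow_le_pow_of_le_one hβ.le hβ1 hcard
            _ = ∏ _v ∈ V'.filter (fun v => v ≡ r [MOD p]), β := by rw [Finset.prod_const]
            _ ≤ ∏ v ∈ V'.filter (fun v => v ≡ r [MOD p]), yy T P0 v := by
                apply Finset.prod_le_prod (fun _ _ => hβ.le)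
                intro v hv
                exact hy v (hV' (Finset.mem_filter.1 hv).1)
        have h2 : β ^ 2 * Z ≤ Y := by
          rw [← hsplit]
          exact mul_le_mul_of_nonneg_right hb hZ0
        have h3 : Z ≤ Y / β ^ 2 := by
          rw [le_div_iff₀ (by positivity)]
          linarith
        have h4 : Z * Q ≤ Y / β ^ 2 * Q := mul_le_mul_of_nonneg_right h3 hQ0
        have h5 : 0 ≤ Y * Q := mul_nonneg hY0 hQ0
        have h6 : Y / β ^ 2 * Q = Y * Q / β ^ 2 := by ring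
        linarith
      · rw [if_neg hne, add_zero]
        have hfe : V'.filter (fun v => v ≡ r [MOD p]) = ∅ := by
          rw [Finset.not_nonempty_iff_eq_empty] at hne
          apply Finset.subset_empty.1
          rw [← hne]
          exact Finset.filter_subset_filter _ hV'
        rw [hfe, Finset.prod_empty, one_mul] at hsplit
        rw [hsplit] at h1
        exact h1
    have hcount : (((Finset.range (T p)).filter
        (fun r => (V.filter (fun v => v ≡ r [MOD p])).Nonempty)).card : ℝ) ≤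
        T p * ∑ v ∈ V, wt T p v := by
      have h1 : T p * ∑ v ∈ V, wt T p v = ((V.filter (fun v => v % p < T p)).card : ℝ) := by
        unfold wt
        rw [← Finset.sum_filter, Finset.sum_const, nsmul_eq_mul]
        field_simp
      rw [h1]
      have h2 : (Finset.range (T p)).filter (fun r => (V.filter (fun v => v ≡ r [MOD p])).Nonempty) ⊆
          (V.filter (fun v => v % p < T p)).image (fun v => v % p) := by
        intro r hr
        rw [Finset.mem_filter, Finset.mem_range] at hr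
        obtain ⟨hr1, v, hv⟩ := hr
        rw [Finset.mem_filter] at hv
        have h3 : v % p = r := by
          have h4 : v % p = r % p := hv.2
          rw [Nat.mod_eq_of_lt (lt_of_lt_of_le hr1 hpp.2.2.2)] at h4
          exact h4
        rw [Finset.mem_image]
        exact ⟨v, Finset.mem_filter.2 ⟨hv.1, by rw [h3]; exact hr1⟩, h3⟩
      exact_mod_cast (Finset.card_le_card h2).trans Finset.card_image_le
    have hsum : ∑ r ∈ Finset.range (T p), cov μ a (P0 ∪ P1) (V'.filter (fun v => ¬ v ≡ r [MOD p])) ≤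
        T p * (Y * Q) + (T p * ∑ v ∈ V, wt T p v) * (Y * Q / β ^ 2) := by
      refine (Finset.sum_le_sum hclass).trans ?_
      rw [Finset.sum_add_distrib, Finset.sum_const, Finset.card_range, nsmul_eq_mul,
        ← Finset.sum_filter, Finset.sum_const, nsmul_eq_mul]
      have : 0 ≤ Y * Q / β ^ 2 := by positivity
      have := mul_le_mul_of_nonneg_right hcount this
      linarith
    calc (1 / (T p : ℝ)) * ∑ r ∈ Finset.range (T p),
          cov μ a (P0 ∪ P1) (V'.filter (fun v => ¬ v ≡ r [MOD p]))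
        ≤ (1 / (T p : ℝ)) * (T p * (Y * Q) + (T p * ∑ v ∈ V, wt T p v) * (Y * Q / β ^ 2)) :=
          mul_le_mul_of_nonneg_left hsum (by positivity)
      _ = Y * ((1 + (∑ v ∈ V, wt T p v) / β ^ 2) * Q) := by
          field_simp

end Pool.Agent.LibThinT
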