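import Pool.Agent.LibThin21.Defs
import Pool.Agent.LibThin21.Conv

/-!
# The sieve of Eratosthenes with displaced classes at a sparse set of primes: definitions
-/

namespace Pool.Agent.LibThinT

open Filter Topology MeasureTheory ProbabilityTheory
open Pool.Agent.LibThin21
open scoped ENNReal

/-- The random model: independent classes; `a p` is uniform on `{0, ..., T p - 1}` for the primes
`p ∈ E`, and `0` for `p ∉ E`. -/
structure ModelT {Ω : Type*} [MeasurableSpace Ω] (μ : Measure Ω) (E : Set ℕ) (T : ℕ → ℕ)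
    (a : ℕ → Ω → ℕ) : Prop where
  meas : ∀ p, Measurable (a p)
  indep : iIndepFun a μ
  unif : ∀ p : ℕ, p.Prime → p ∈ E → ∀ r : ℕ, r < T p → μ {ω | a p ω = r} = (T p : ℝ≥0∞)⁻¹
  zero : ∀ p : ℕ, p ∉ E → ∀ ω, a p ω = 0

/-- Admissible lengths: `1 ≤ T p ≤ p`, and `T p ≥ (log p) ^ 13` for the large primes of `E`. -/
structure Adm (E : Set ℕ) (T : ℕ → ℕ) : Prop where
  one_le : ∀ p : ℕ, p.Prime → p ∈ E → 1 ≤ T p
  le_self : ∀ p : ℕ, p.Prime → p ∈ E → T p ≤ p
  large : ∀ᶠ p : ℕ in atTop, p.Prime → p ∈ E → Real.log p ^ 13 ≤ (T p : ℝ)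

/-- The probability that `p` removes `v`: `1 / T p` if `v mod p < T p`, and `0` otherwise. -/
noncomputable def wt (T : ℕ → ℕ) (p v : ℕ) : ℝ := if v % p < T p then 1 / (T p : ℝ) else 0

/-- `S(v) = ∑_{p ∈ P} wt p v`. -/
noncomputable def load (T : ℕ → ℕ) (P : Finset ℕ) (v : ℕ) : ℝ := ∑ p ∈ P, wt T p v

/-- The probability that some prime of `P` removes `v`. -/
noncomputable def yy (T : ℕ → ℕ) (P : Finset ℕ) (v : ℕ) : ℝ := 1 - ∏ p ∈ P, (1 - wt T p v)

/-- `δ'(X)`, `X = exp x`: the sum of `1 / p` over the primes of `E` with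
`X ^ (1/100) < p ≤ X ^ (1/40)`. -/
noncomputable def delT (E : Set ℕ) (x : ℝ) : ℝ := SE E (Real.exp (x / 100)) (Real.exp (x / 40))

end Pool.Agent.LibThinT
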