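import Pool.Agent.LibThinT.Defs

/-!
The random model with displaced classes exists.
-/

namespace Pool.Agent.LibThinT

open Filter Topology MeasureTheory ProbabilityTheory
open Pool.Agent.LibThin21
open scoped ENNReal

open Classical in
/-- the law of `a p` -/
noncomputable def lawT (E : Set ℕ) (T : ℕ → ℕ) (p : ℕ) : Measure ℕ :=
  if p.Prime ∧ p ∈ E ∧ 1 ≤ T p then (T p : ℝ≥0∞)⁻¹ • ∑ r ∈ Finset.range (T p), Measure.dirac r
  else Measure.dirac 0

instance isProb_lawT (E : Set ℕ) (T : ℕ → ℕ) (p : ℕ) : IsProbabilityMeasure (lawT E T p) := by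
  unfold lawT
  split_ifs with h
  · constructor
    rw [Measure.smul_apply, Measure.finsetSum_apply]
    simp only [measure_univ, Finset.sum_const, Finset.card_range, smul_eq_mul, nsmul_eq_mul, mul_one]
    apply ENNReal.inv_mul_cancel
    · have : T p ≠ 0 := by have := h.2.2; omega
      exact_mod_cast this
    · exact ENNReal.natCast_ne_top (T p)
  · infer_instance

lemma lawT_singleton {E : Set ℕ} {T : ℕ → ℕ} {p r : ℕ} (hp : p.Prime) (hpE : p ∈ E) (hr : r < T p) :
    lawT E T p {r} = (T p : ℝ≥0∞)⁻¹ := by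
  unfold lawT
  rw [if_pos ⟨hp, hpE, by omega⟩, Measure.smul_apply, Measure.finsetSum_apply]
  have h1 : ∑ i ∈ Finset.range (T p), (Measure.dirac i : Measure ℕ) {r} = 1 := by
    rw [Finset.sum_eq_single r]
    · simp
    · intro b _ hbr
      rw [Measure.dirac_apply' _ (MeasurableSet.singleton r)]
      exact Set.indicator_of_notMem (by simpa using hbr) _
    · intro h
      exact absurd (Finset.mem_range.2 hr) h
  rw [h1, smul_eq_mul, mul_one]

theorem exists_modelT (E : Set ℕ) (T : ℕ → ℕ) : ∃ (Ω : Type) (_ : MeasurableSpace Ω)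
    (μ : Measure Ω) (_ : IsProbabilityMeasure μ) (a : ℕ → Ω → ℕ), ModelT μ E T a := by
  classical
  refine ⟨ℕ → ℕ, inferInstance, Measure.infinitePi (lawT E T), inferInstance,
    fun p ω => if p ∈ E then ω p else 0, ?_⟩
  have hX : ∀ p : ℕ, Measurable (fun x : ℕ => if p ∈ E then x else 0) := fun p =>
    measurable_from_top
  refine ⟨fun p => (hX p).comp (measurable_pi_apply p), ?_, ?_, ?_⟩
  · exact iIndepFun_infinitePi (P := lawT E T) (X := fun (p : ℕ) (x : ℕ) => if p ∈ E then x else 0) hX
  · intro p hp hpE r hr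
    have h1 : {ω : ℕ → ℕ | (if p ∈ E then ω p else 0) = r} = (fun ω : ℕ → ℕ => ω p) ⁻¹' {r} := by
      ext ω
      simp [hpE]
    rw [h1, ← Measure.map_apply (measurable_pi_apply p) (MeasurableSet.singleton r),
      Measure.infinitePi_map_eval, lawT_singleton hp hpE hr]
  · intro p hpE ω
    simp [hpE]

end Pool.Agent.LibThinT
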