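import Pool.Agent.LibThinT.Slow
import Pool.Agent.LibThinT.Exist

/-!
The windows in terms of `Φ`; comparison with the case `T p = p`.
-/

namespace Pool.Agent.LibThinT

open Filter Topology MeasureTheory ProbabilityTheory
open Pool.Agent.LibMaier Pool.Agent.LibThin21 Pool.Agent.LibThin91

variable {Ω : Type*} [MeasurableSpace Ω] {μ : Measure Ω} [IsProbabilityMeasure μ] {E : Set ℕ}
  {T : ℕ → ℕ} {a : ℕ → Ω → ℕ}

lemma Phi_le_lam {s : ℝ} (h0 : 0 < s) (h3 : s ≤ Real.exp (-3)) :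
    Phi s ≤ 2 * Real.exp (-Real.eulerMascheroniConstant) / Real.log (1 / s) := by
  have hL3 : 3 ≤ Real.log (1 / s) := by
    rw [one_div, Real.log_inv]
    have := Real.log_le_log h0 h3
    rw [Real.log_exp] at this
    linarith
  unfold Phi
  apply div_le_div_of_nonneg_left (by positivity) (by linarith)
  have h1 : 1 - Real.exp (-s) ≤ s := by
    have := Real.add_one_le_exp (-s)
    linarith
  have h2 : 0 < 1 - Real.exp (-s) := by
    have := exp_neg_lt_one h0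
    linarith
  have h4 : Real.log (1 / s) ≤ Real.log (1 / (1 - Real.exp (-s))) := by
    apply Real.log_le_log (by positivity)
    exact one_div_le_one_div_of_le h2 h1
  have h5 : 1 ≤ Real.exp s := Real.one_le_exp h0.le
  calc Real.log (1 / s) ≤ Real.log (1 / (1 - Real.exp (-s))) := h4
    _ = 1 * Real.log (1 / (1 - Real.exp (-s))) := (one_mul _).symm
    _ ≤ Real.exp s * Real.log (1 / (1 - Real.exp (-s))) :=
        mul_le_mul_of_nonneg_right h5 (by linarith)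

/-- the windows in terms of `Φ` -/
theorem scalesPhi (hS : Summable (rE E)) (hT : ∀ p : ℕ, p.Prime → p ∈ E → T p ≤ p)
    (hM : ModelT μ E T a) {η : ℝ} (hη : 0 < η) :
    ∃ V : ℝ, ∀ᶠ x : ℝ in atTop, 1 / x ≤ delX E T x →
      1 - η ≤ μ.real {ω | ∃ m : ℕ, Real.exp (x - V) ≤ m ∧ m ≤ Real.exp (x + V) ∧
        sifted (fun p => a p ω) ∩ Set.Ioc m (m + ⌊(1 - η) * Phi (delX E T x) * x ^ 2⌋₊) = ∅} := by
  rcases le_or_gt 1 η with h1 | hη1
  · refine ⟨0, Eventually.of_forall fun x _ => ?_⟩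
    exact le_trans (by linarith) measureReal_nonneg
  obtain ⟨V, hV⟩ := scalesT hS hT hM hη
  refine ⟨V, ?_⟩
  filter_upwards [hV, delX_tendsto hT hS (Real.exp_pos (-3)), eventually_gt_atTop (0 : ℝ)]
    with x hx hδ3 hx0 hd
  have hs0 : 0 < delX E T x := lt_of_lt_of_le (by positivity) hd
  refine (hx hd).trans (measureReal_mono ?_ (measure_ne_top _ _))
  rintro ω ⟨m, hm1, hm2, hm3⟩
  refine ⟨m, hm1, hm2, ?_⟩
  apply Set.eq_empty_of_subset_empty
  rw [← hm3]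
  rintro j ⟨hj, hj1, hj2⟩
  refine ⟨hj, hj1, hj2.trans ?_⟩
  have hfl : ⌊(1 - η) * Phi (delX E T x) * x ^ 2⌋₊ ≤ ⌊(1 - η) * lamT E T x * x ^ 2⌋₊ := by
    apply Nat.floor_mono
    have h5 : Phi (delX E T x) ≤ lamT E T x := Phi_le_lam hs0 hδ3
    have h6 : 0 < 1 - η := by linarith
    gcongr
  omega

/-- the gaps -/
theorem gapsT (hS : Summable (rE E)) (hT : ∀ p : ℕ, p.Prime → p ∈ E → T p ≤ p)
    (hM : ModelT μ E T a) (hinf : ∀ᵐ ω ∂μ, (sifted (fun p => a p ω)).Infinite)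
    (hfreq : ∃ᶠ x : ℝ in atTop, 1 / x ≤ delX E T x) :
    ∀ᵐ ω ∂μ, ∀ η : ℝ, 0 < η → ∃ᶠ b : ℕ in atTop, b ∈ sifted (fun p => a p ω) ∧
      ∃ b' ∈ sifted (fun p => a p ω), (∀ j, b < j → j < b' → j ∉ sifted (fun p => a p ω)) ∧
        (2 * Real.exp (-Real.eulerMascheroniConstant) - η) *
          (Real.log b ^ 2 / Real.log (Real.log b)) ≤ (b' : ℝ) - b := by
  have hS' : ∃ᶠ x : ℝ in atTop, x ∈ (Set.univ : Set ℝ) ∧ 1 / x ≤ delX E T x :=
    hfreq.mono fun x hx => ⟨Set.mem_univ x, hx⟩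
  filter_upwards [hinf, ae_scalesT hS hT hM hS'] with ω h1 h2 η hη
  exact gaps_of_windows h1 hT hS h2 hη

/-- For every `f → ∞` and `ε > 0` there is a set `E` of primes with `∑ 1 / p ≤ ε` such that for all
lengths `T p ≥ (log p) ^ 9` the gaps exceed `(log b)² / f b` infinitely often, almost surely. -/
theorem slow {f : ℕ → ℝ} (hf : Tendsto f atTop atTop) {ε : ℝ} (hε : 0 < ε) :
    ∃ E : Set ℕ, Summable (rE E) ∧ ∑' p, rE E p ≤ ε ∧
      ∀ (T : ℕ → ℕ), (∀ p : ℕ, p.Prime → p ∈ E → T p ≤ p) →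
        (∀ᶠ p : ℕ in atTop, p.Prime → p ∈ E → Real.log p ^ 9 ≤ (T p : ℝ)) →
        ∀ (Ω : Type) [MeasurableSpace Ω] (μ : Measure Ω) [IsProbabilityMeasure μ] (a : ℕ → Ω → ℕ),
        ModelT μ E T a → (∀ᵐ ω ∂μ, (sifted (fun p => a p ω)).Infinite) →
        ∀ᵐ ω ∂μ, ∃ᶠ b : ℕ in atTop, b ∈ sifted (fun p => a p ω) ∧
          ∃ b' ∈ sifted (fun p => a p ω), (∀ j, b < j → j < b' → j ∉ sifted (fun p => a p ω)) ∧
            Real.log b ^ 2 / f b ≤ (b' : ℝ) - b := by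
  obtain ⟨E, hS, hle, x, t, hx, hxt⟩ := exists_slow hf hε
  refine ⟨E, hS, hle, ?_⟩
  intro T hT hTl Ω _ μ _ a hM hinf
  have hdd := delT_le_delX hTl
  have hS' : ∃ᶠ y : ℝ in atTop, y ∈ Set.range x ∧ 1 / y ≤ delX E T y := by
    rw [frequently_atTop]
    intro A
    obtain ⟨k, hk1, hk2⟩ := ((hx.eventually_ge_atTop A).and (hx.eventually hdd)).exists
    obtain ⟨-, h2, h3, -⟩ := hxt k
    exact ⟨x k, hk1, ⟨k, rfl⟩, (h2.trans h3).trans hk2⟩
  filter_upwards [hinf, ae_scalesT hS hT hM hS'] with ω h1 h2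
  exact gaps_slow h1 hT hS hdd hxt h2

/-- the case `T p = p` -/
lemma delX_eq_del (hTp : ∀ p : ℕ, p.Prime → p ∈ E → T p = p) {x : ℝ} : delX E T x = del E x := by
  unfold delX del SE
  apply Finset.sum_congr _ fun _ _ => rfl
  ext p
  rw [mem_PX, mem_EP (Real.exp_pos _).le]
  constructor
  · rintro ⟨⟨h1, h2, h3⟩, h4⟩
    rw [hTp p h1 h2] at h4
    exact ⟨h1, h2, h4, h3⟩
  · rintro ⟨h1, h2, h3, h4⟩
    refine ⟨⟨h1, h2, h4⟩, ?_⟩
    rw [hTp p h1 h2]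
    exact h3

lemma model_of_T (hTp : ∀ p : ℕ, p.Prime → p ∈ E → T p = p) (hM : ModelT μ E T a) :
    Model μ E a := by
  refine ⟨hM.meas, hM.indep, ?_, hM.zero⟩
  intro p hp hpE r hr
  have h1 := hM.unif p hp hpE r (by rw [hTp p hp hpE]; exact hr)
  rw [h1, hTp p hp hpE]

end Pool.Agent.LibThinT
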