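import Pool.Agent.LibThinT.InfDefs

set_option autoImplicit false

namespace Pool.Agent.LibThinT

open Filter Topology
open Pool.Agent.LibThin21

/-- Row I01. Brun-Titchmarsh. `N` is large in terms of `e` (say `N ≥ e ^ 20`, and more). Let `P` be the
filtered set; if it is empty: trivial. Take `π0 ∈ P`; all `π ∈ P` satisfy `e π ≡ e π0 [MOD p]`, so `π ≡ π0 [MOD p]`
(`p ∤ e`, `Nat.ModEq.cancel_left_of_coprime`). Apply `LSieve.brun_titchmarsh P _ M X p π0 0` with `X = N / e / p + 1` (so that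
`π ≤ N / e < p * X`), `M = ⌊(N : ℝ) ^ (1/5 : ℝ)⌋₊`: `M ^ 2 ≤ N ^ (2/5) < N ^ (1/2) / e ≤ N / (e p) < X`, and `M < π` as
`M ^ 4 ≤ N < π ^ 4`. So `#P * log M ≤ 18 (p / (p-1)) X ≤ 36 X ≤ 72 N / (e p)` (`e p ≤ e √N ≤ N`), and
`log M ≥ (1/6) log N` for large `N`. -/
theorem bt_one (e : ℕ) (he : 1 ≤ e) : ∀ᶠ N : ℕ in atTop, ∀ p : ℕ, p.Prime → ¬ p ∣ e → p ^ 2 ≤ N →
    ∀ s : ℕ, (((Pr e N).filter (fun π => e * π ≡ s [MOD p])).card : ℝ) ≤
      432 / ((e : ℝ) * p) * ((N : ℝ) / Real.log N) := by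
  have hcast : Tendsto (fun N : ℕ => (N : ℝ)) atTop atTop := tendsto_natCast_atTop_atTop
  have hlog : Tendsto (fun N : ℕ => Real.log (N : ℝ)) atTop atTop :=
    Real.tendsto_log_atTop.comp hcast
  have hr : Tendsto (fun N : ℕ => (N : ℝ) ^ (1 / 5 : ℝ)) atTop atTop :=
    (tendsto_rpow_atTop (by norm_num)).comp hcast
  filter_upwards [hr.eventually_ge_atTop ((e : ℝ) ^ 2 + 2), hlog.eventually_ge_atTop
    (30 * Real.log 2), hlog.eventually_ge_atTop 1, eventually_ge_atTop 1] with N hN1 hN2 hN3 hN4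
  intro p hp hpe hpN s
  have hN0 : (0 : ℝ) < N := by exact_mod_cast hN4
  have he0 : (0 : ℝ) < e := by exact_mod_cast he
  have hp0 : (0 : ℝ) < p := by exact_mod_cast hp.pos
  set r : ℝ := (N : ℝ) ^ (1 / 5 : ℝ) with hrdef
  have hr5 : r ^ 5 = N := by
    rw [hrdef, ← Real.rpow_natCast, ← Real.rpow_mul hN0.le]
    norm_num
  have hr2 : 2 ≤ r := by nlinarith
  have hre : (e : ℝ) ^ 2 ≤ r := by linarith
  have hr0 : 0 < r := by linarith
  set P : Finset ℕ := (Pr e N).filter (fun π => e * π ≡ s [MOD p]) with hP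
  have hrhs : 0 ≤ 432 / ((e : ℝ) * p) * ((N : ℝ) / Real.log N) := by positivity
  rcases P.eq_empty_or_nonempty with hemp | ⟨π0, hπ0⟩
  · rw [hemp]
    simpa using hrhs
  have hPmem : ∀ π ∈ P, π.Prime ∧ N < π ^ 4 ∧ e * π ≤ N ∧ e * π ≡ s [MOD p] := by
    intro π hπ
    rw [hP, Finset.mem_filter, mem_Pr he] at hπ
    exact ⟨hπ.1.1, hπ.1.2.1, hπ.1.2.2, hπ.2⟩
  set M : ℕ := ⌊r⌋₊ with hM
  set X : ℕ := N / e / p + 1 with hX
  have hMr : (M : ℝ) ≤ r := Nat.floor_le hr0.le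
  have hMr2 : r < (M : ℝ) + 1 := Nat.lt_floor_add_one r
  have hMh : r / 2 ≤ (M : ℝ) := by linarith
  have hM0 : (0 : ℝ) < M := by linarith
  -- `r ^ 2 * e * p ≤ N`
  have hpN' : (p : ℝ) ^ 2 ≤ r ^ 5 := by
    rw [hr5]
    exact_mod_cast hpN
  have h1 : r ^ 2 * (e * p) ≤ N := by
    rw [← hr5]
    have h2 : (r ^ 2 * (e * p)) ^ 2 ≤ (r ^ 5) ^ 2 := by
      calc (r ^ 2 * (e * p)) ^ 2 = r ^ 4 * ((e : ℝ) ^ 2 * (p : ℝ) ^ 2) := by ring
        _ ≤ r ^ 4 * (r * r ^ 5) := by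
            apply mul_le_mul_of_nonneg_left _ (by positivity)
            exact mul_le_mul hre hpN' (by positivity) hr0.le
        _ = (r ^ 5) ^ 2 := by ring
    exact (sq_le_sq₀ (by positivity) (by positivity)).1 h2
  have hep : (e : ℝ) * p ≤ N := by
    have : (e : ℝ) * p ≤ r ^ 2 * (e * p) := by
      have h3 : (1 : ℝ) ≤ r ^ 2 := by nlinarith
      have h4 : (0 : ℝ) ≤ e * p := by positivity
      nlinarith
    linarith
  have hXr : (N : ℝ) / (e * p) < X := by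
    rw [div_lt_iff₀ (by positivity)]
    have h5 : N < (e * p) * (N / (e * p) + 1) := Nat.lt_mul_div_succ N (Nat.mul_pos (by omega) hp.pos)
    rw [← Nat.div_div_eq_div_mul] at h5
    have h6 : ((N : ℕ) : ℝ) < ((e * p * (N / e / p + 1) : ℕ) : ℝ) := by exact_mod_cast h5
    rw [hX]
    push_cast at h6 ⊢
    linarith
  have hXu : (X : ℝ) ≤ 2 * ((N : ℝ) / (e * p)) := by
    have h5 : ((N / e / p : ℕ) : ℝ) ≤ (N : ℝ) / (e * p) := by
      rw [Nat.div_div_eq_div_mul]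
      have := @Nat.cast_div_le ℝ _ _ _ N (e * p)
      push_cast at this
      exact this
    have h6 : (1 : ℝ) ≤ (N : ℝ) / (e * p) := by
      rw [le_div_iff₀ (by positivity)]
      linarith
    rw [hX]
    push_cast
    linarith
  have hMX : M ^ 2 < X := by
    have h7 : ((M ^ 2 : ℕ) : ℝ) < (X : ℝ) := by
      push_cast
      have h8 : r ^ 2 ≤ (N : ℝ) / (e * p) := by
        rw [le_div_iff₀ (by positivity)]
        exact h1
      have h9 : (M : ℝ) ^ 2 ≤ r ^ 2 := pow_le_pow_left₀ hM0.le hMr 2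
      linarith
    exact_mod_cast h7
  have hPM : ∀ π ∈ P, M < π := by
    intro π hπ
    obtain ⟨_, h2, _, _⟩ := hPmem π hπ
    by_contra hcon
    push Not at hcon
    have h3 : π ^ 4 ≤ M ^ 4 := Nat.pow_le_pow_left hcon 4
    have h4 : ((M ^ 4 : ℕ) : ℝ) ≤ (N : ℝ) := by
      push_cast
      rw [← hr5]
      calc (M : ℝ) ^ 4 ≤ r ^ 4 := pow_le_pow_left₀ hM0.le hMr 4
        _ ≤ r ^ 5 := pow_le_pow_right₀ (by linarith) (by norm_num)
    have h5 : M ^ 4 ≤ N := by exact_mod_cast h4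
    omega
  have hcop : Nat.Coprime p e := (Nat.Prime.coprime_iff_not_dvd hp).2 hpe
  have hρ : ∀ π ∈ P, π ≡ π0 [MOD p] := by
    intro π hπ
    obtain ⟨_, _, _, h4⟩ := hPmem π hπ
    obtain ⟨_, _, _, h4'⟩ := hPmem π0 hπ0
    exact Nat.ModEq.cancel_left_of_coprime hcop (h4.trans h4'.symm)
  have hA : ∀ π ∈ P, 0 ≤ π ∧ π < 0 + p * X := by
    intro π hπ
    refine ⟨Nat.zero_le _, ?_⟩
    obtain ⟨_, _, h3, _⟩ := hPmem π hπ
    have h4 : π ≤ N / e := by
      rw [Nat.le_div_iff_mul_le (by omega), mul_comm]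
      exact h3
    have h5 : N / e < p * (N / e / p + 1) := Nat.lt_mul_div_succ (N / e) hp.pos
    rw [hX]
    omega
  have hbt := LSieve.brun_titchmarsh P (fun π hπ => (hPmem π hπ).1) M X p π0 0 hMX hPM hp.pos hρ hA
  have hφ : (p : ℝ) / (p.totient : ℝ) ≤ 2 := by
    rw [Nat.totient_prime hp]
    have h2p : 2 ≤ p := hp.two_le
    have h3 : ((p - 1 : ℕ) : ℝ) = (p : ℝ) - 1 := by
      rw [Nat.cast_sub (by omega)]
      simp
    rw [h3]
    have h4 : (2 : ℝ) ≤ p := by exact_mod_cast h2p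
    rw [div_le_iff₀ (by linarith)]
    linarith
  have hlogM : (1 / 6) * Real.log N ≤ Real.log M := by
    have h2 : Real.log (r / 2) ≤ Real.log M := Real.log_le_log (by positivity) hMh
    rw [Real.log_div hr0.ne' (by norm_num), hrdef, Real.log_rpow hN0] at h2
    linarith
  have hfin : (P.card : ℝ) * ((1 / 6) * Real.log N) ≤ 72 * ((N : ℝ) / (e * p)) := by
    calc (P.card : ℝ) * ((1 / 6) * Real.log N) ≤ P.card * Real.log M :=
          mul_le_mul_of_nonneg_left hlogM (Nat.cast_nonneg _)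
      _ ≤ 18 * (p / p.totient) * X := hbt
      _ ≤ 18 * 2 * (2 * ((N : ℝ) / (e * p))) := by
          apply mul_le_mul _ hXu (Nat.cast_nonneg _) (by norm_num)
          linarith
      _ = 72 * ((N : ℝ) / (e * p)) := by ring
  have hl0 : 0 < Real.log N := by linarith
  have heq : 432 / ((e : ℝ) * p) * ((N : ℝ) / Real.log N) =
      (72 * ((N : ℝ) / (e * p))) / ((1 / 6) * Real.log N) := by
    field_simp
    norm_num
  rw [heq, le_div_iff₀ (by positivity)]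
  exact hfin

end Pool.Agent.LibThinT
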