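import Pool.Agent.LibThinT.I01

set_option autoImplicit false

namespace Pool.Agent.LibThinT

open Filter Topology
open Pool.Agent.LibThin21

/-- the class of `e π` modulo `p` is not `0` -/
private lemma i02_pos {e N p π : ℕ} (he : 1 ≤ e) (hN : e ^ 4 ≤ N) (hp : p.Prime) (hpe : ¬ p ∣ e)
    (hπ : π ∈ Pr e N) (hpp : p ^ 2 ≤ e * π) : 1 ≤ e * π % p := by
  obtain ⟨h1, h2, h3⟩ := (mem_Pr he).1 hπ
  have h4 : e < π := lt_of_pow_lt_pow_left₀ 4 (Nat.zero_le _) (lt_of_le_of_lt hN h2)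
  have h5 : p ^ 2 < π ^ 2 := by
    refine lt_of_le_of_lt hpp ?_
    rw [pow_two]
    exact Nat.mul_lt_mul_of_pos_right h4 h1.pos
  have h6 : p < π := lt_of_pow_lt_pow_left₀ 2 (Nat.zero_le _) h5
  have h7 : ¬ p ∣ π := by
    intro h
    have := (Nat.prime_dvd_prime_iff_eq hp h1).1 h
    omega
  have h8 : ¬ p ∣ e * π := by
    intro h
    rcases (Nat.Prime.dvd_mul hp).1 h with h | h
    · exact hpe h
    · exact h7 h
  rw [Nat.dvd_iff_mod_eq_zero] at h8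
  omega

/-- Row I02. One `e` and one prime `p`: take `N` as in `bt_one` and `N ≥ e ^ 4`. For `π ∈ Pr e N` with
`p ^ 2 ≤ e * π`: `e < π` (`e ^ 4 ≤ N < π ^ 4`), so `p ^ 2 < π ^ 2`, `p ≠ π`, `p ∤ e π`, `e π % p ∈ [1, p - 1]`. If `wt T p (e π) ≠ 0`
then `s = e π % p ∈ [1, T p)` and `wt = 1 / T p`. So the sum is at most `(1 / T p) * ∑_{s ∈ [1, T p)} #{π : e π ≡ s [MOD p]}`
(each term `bt_one`; if there is such a `π` then `p ^ 2 ≤ e π ≤ N`). -/
theorem load_one (e : ℕ) (he : 1 ≤ e) : ∀ᶠ N : ℕ in atTop, ∀ p : ℕ, p.Prime → ¬ p ∣ e →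
    ∀ T : ℕ → ℕ, 1 ≤ T p →
    ∑ π ∈ (Pr e N).filter (fun π => p ^ 2 ≤ e * π), wt T p (e * π) ≤
      432 / ((e : ℝ) * p) * ((N : ℝ) / Real.log N) := by
  filter_upwards [bt_one e he, eventually_ge_atTop (e ^ 4), eventually_ge_atTop 1]
    with N hbt hNe hN1 p hp hpe T hT
  have hlog : 0 ≤ Real.log (N : ℝ) := Real.log_natCast_nonneg N
  obtain ⟨B, hB⟩ : ∃ B : ℝ, B = 432 / ((e : ℝ) * p) * ((N : ℝ) / Real.log N) := ⟨_, rfl⟩
  have hB0 : 0 ≤ B := by rw [hB]; positivity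
  rw [← hB]
  rcases ((Pr e N).filter (fun π => p ^ 2 ≤ e * π)).eq_empty_or_nonempty with h0 | ⟨π0, hπ0⟩
  · rw [h0, Finset.sum_empty]
    exact hB0
  have hpN : p ^ 2 ≤ N := by
    rw [Finset.mem_filter] at hπ0
    exact le_trans hπ0.2 ((mem_Pr he).1 hπ0.1).2.2
  have hT0 : (0 : ℝ) < T p := by exact_mod_cast hT
  have hT1 : (0 : ℝ) ≤ 1 / (T p : ℝ) := by positivity
  -- the sum over the classes
  have h1 : ∀ π ∈ (Pr e N).filter (fun π => p ^ 2 ≤ e * π), wt T p (e * π) ≤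
      ∑ s ∈ Finset.Ico 1 (T p), if e * π % p = s then 1 / (T p : ℝ) else 0 := by
    intro π hπ
    rw [Finset.mem_filter] at hπ
    have h2 := i02_pos he hNe hp hpe hπ.1 hπ.2
    rw [Finset.sum_ite_eq]
    unfold wt
    by_cases h3 : e * π % p < T p
    · rw [if_pos h3, if_pos (Finset.mem_Ico.2 ⟨h2, h3⟩)]
    · rw [if_neg h3]
      split_ifs
      · exact hT1
      · exact le_refl _
  refine (Finset.sum_le_sum h1).trans ?_
  rw [Finset.sum_comm]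
  have h4 : ∀ s ∈ Finset.Ico 1 (T p), (∑ π ∈ (Pr e N).filter (fun π => p ^ 2 ≤ e * π),
      if e * π % p = s then 1 / (T p : ℝ) else 0) ≤ 1 / (T p : ℝ) * B := by
    intro s _
    rw [← Finset.sum_filter, Finset.sum_const, nsmul_eq_mul, mul_comm]
    refine mul_le_mul_of_nonneg_left ?_ hT1
    rw [hB]
    refine le_trans ?_ (hbt p hp hpe hpN s)
    rw [Nat.cast_le]
    refine Finset.card_le_card fun π hπ => ?_
    rw [Finset.mem_filter, Finset.mem_filter] at hπ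
    rw [Finset.mem_filter]
    refine ⟨hπ.1.1, ?_⟩
    unfold Nat.ModEq
    rw [← hπ.2, Nat.mod_mod]
  refine (Finset.sum_le_sum h4).trans ?_
  rw [Finset.sum_const, Nat.card_Ico, nsmul_eq_mul]
  have h5 : ((T p - 1 : ℕ) : ℝ) ≤ T p := by
    rw [Nat.cast_le]
    omega
  calc ((T p - 1 : ℕ) : ℝ) * (1 / (T p : ℝ) * B) ≤ (T p : ℝ) * (1 / (T p : ℝ) * B) :=
        mul_le_mul_of_nonneg_right h5 (mul_nonneg hT1 hB0)
    _ = B := by field_simp

end Pool.Agent.LibThinT
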