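import Pool.Agent.LibThinT.I02

set_option autoImplicit false

namespace Pool.Agent.LibThinT

open Filter Topology
open Pool.Agent.LibThin21

private lemma i02b_sum_le {α β : Type} (s : Finset α) (t : Finset β) (f : α → β)
    (hf : ∀ b ∈ t, ∃ a ∈ s, f a = b) (g : β → ℝ) (hg : ∀ b, 0 ≤ g b) :
    ∑ b ∈ t, g b ≤ ∑ a ∈ s, g (f a) := by
  classical
  have h : t ⊆ s.image f := fun b hb => Finset.mem_image.2 (hf b hb)
  calc ∑ b ∈ t, g b ≤ ∑ b ∈ s.image f, g b :=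
        Finset.sum_le_sum_of_subset_of_nonneg h (fun b _ _ => hg b)
    _ ≤ ∑ a ∈ s, g (f a) := by
        rw [← Finset.sum_fiberwise_of_maps_to (s := s) (g := f) (t := s.image f)
          (fun a ha => Finset.mem_image_of_mem f ha)]
        apply Finset.sum_le_sum
        intro b hb
        obtain ⟨a, ha, rfl⟩ := Finset.mem_image.1 hb
        exact Finset.single_le_sum (f := fun x => g (f x)) (fun x _ => hg _)
          (Finset.mem_filter.2 ⟨ha, rfl⟩)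

private lemma i02b_wt_nonneg (T : ℕ → ℕ) (p v : ℕ) : 0 ≤ wt T p v := by
  unfold wt
  split_ifs
  · positivity
  · exact le_rfl

/-- The sum over `n ∈ Ls F N` is at most the sum over the pairs `(e, π)` (`Ls` is a union of images; all terms are
nonnegative). `p ∈ EP E y (√n)` means `p` prime, `p ∈ E`, `y < p`, `p ^ 2 ≤ n` (`mem_EP`, `Real.le_sqrt`). Exchange the sums, extend
the range of `p` to `EP E y (√N)` (`n ≤ N`) and use `load_one` (finitely many `e`; `p > y` does not divide `e`). -/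
theorem load_sum {E : Set ℕ} {T : ℕ → ℕ} (hT : Len E T) (F : Finset ℕ) (y : ℕ)
    (hF : ∀ e ∈ F, 1 ≤ e ∧ ∀ p : ℕ, p.Prime → p ∣ e → p ≤ y) :
    ∀ᶠ N : ℕ in atTop, ∑ n ∈ Ls F N, ∑ p ∈ EP E y (Real.sqrt n), wt T p n ≤
      432 * (∑ e ∈ F, 1 / (e : ℝ)) * SE E y (Real.sqrt N) * ((N : ℝ) / Real.log N) := by
  have hev : ∀ᶠ N : ℕ in atTop, ∀ e ∈ F, ∀ p : ℕ, p.Prime → ¬ p ∣ e → ∀ T : ℕ → ℕ, 1 ≤ T p →
      ∑ π ∈ (Pr e N).filter (fun π => p ^ 2 ≤ e * π), wt T p (e * π) ≤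
        432 / ((e : ℝ) * p) * ((N : ℝ) / Real.log N) :=
    (Filter.eventually_all_finset F).2 (fun e he => load_one e (hF e he).1)
  filter_upwards [hev] with N hN
  have h1 : ∑ n ∈ Ls F N, ∑ p ∈ EP E y (Real.sqrt n), wt T p n ≤
      ∑ x ∈ F.sigma (fun e => Pr e N), ∑ p ∈ EP E y (Real.sqrt ((x.1 * x.2 : ℕ) : ℝ)),
        wt T p (x.1 * x.2) := by
    apply i02b_sum_le (F.sigma (fun e => Pr e N)) (Ls F N) (fun x => x.1 * x.2) _
      (fun n : ℕ => ∑ p ∈ EP E y (Real.sqrt n), wt T p n)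
    · intro n
      exact Finset.sum_nonneg (fun p _ => i02b_wt_nonneg T p n)
    · intro n hn
      unfold Ls at hn
      rw [Finset.mem_biUnion] at hn
      obtain ⟨e, he, hn⟩ := hn
      rw [Finset.mem_image] at hn
      obtain ⟨π, hπ, rfl⟩ := hn
      exact ⟨⟨e, π⟩, Finset.mem_sigma.2 ⟨he, hπ⟩, rfl⟩
  refine h1.trans ?_
  rw [Finset.sum_sigma]
  have h2 : ∀ e ∈ F, ∑ π ∈ Pr e N, ∑ p ∈ EP E y (Real.sqrt ((e * π : ℕ) : ℝ)), wt T p (e * π) ≤
      ∑ p ∈ EP E y (Real.sqrt N), 432 / ((e : ℝ) * p) * ((N : ℝ) / Real.log N) := by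
    intro e he
    have h3 : ∀ π ∈ Pr e N, ∑ p ∈ EP E y (Real.sqrt ((e * π : ℕ) : ℝ)), wt T p (e * π) =
        ∑ p ∈ EP E y (Real.sqrt N), if p ^ 2 ≤ e * π then wt T p (e * π) else 0 := by
      intro π hπ
      rw [← Finset.sum_filter]
      apply Finset.sum_congr _ (fun _ _ => rfl)
      ext p
      rw [Finset.mem_filter, mem_EP (Real.sqrt_nonneg _), mem_EP (Real.sqrt_nonneg _)]
      have hle : e * π ≤ N := ((mem_Pr (hF e he).1).1 hπ).2.2
      have h4 : (p : ℝ) ≤ Real.sqrt ((e * π : ℕ) : ℝ) ↔ p ^ 2 ≤ e * π := by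
        rw [Real.le_sqrt (Nat.cast_nonneg _) (Nat.cast_nonneg _)]
        exact_mod_cast Iff.rfl
      have h5 : (p : ℝ) ≤ Real.sqrt (N : ℝ) ↔ p ^ 2 ≤ N := by
        rw [Real.le_sqrt (Nat.cast_nonneg _) (Nat.cast_nonneg _)]
        exact_mod_cast Iff.rfl
      rw [h4, h5]
      constructor
      · rintro ⟨a, b, c, d⟩
        exact ⟨⟨a, b, c, d.trans hle⟩, d⟩
      · rintro ⟨⟨a, b, c, _⟩, d⟩
        exact ⟨a, b, c, d⟩
    rw [Finset.sum_congr rfl h3, Finset.sum_comm]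
    apply Finset.sum_le_sum
    intro p hp
    rw [mem_EP (Real.sqrt_nonneg _)] at hp
    rw [← Finset.sum_filter]
    apply hN e he p hp.1 _ T (hT p hp.1 hp.2.1).1
    intro hdvd
    have h6 : p ≤ y := (hF e he).2 p hp.1 hdvd
    have h7 : (y : ℝ) < p := hp.2.2.1
    have h8 : y < p := by exact_mod_cast h7
    omega
  refine (Finset.sum_le_sum h2).trans (le_of_eq ?_)
  unfold SE
  have h9 : ∀ e ∈ F, ∑ p ∈ EP E y (Real.sqrt N), 432 / ((e : ℝ) * p) * ((N : ℝ) / Real.log N) =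
      432 * (1 / (e : ℝ)) * (∑ p ∈ EP E y (Real.sqrt N), 1 / (p : ℝ)) * ((N : ℝ) / Real.log N) := by
    intro e _
    rw [Finset.mul_sum, Finset.sum_mul]
    apply Finset.sum_congr rfl
    intro p _
    congr 1
    rw [div_mul_eq_div_div]
    ring
  rw [Finset.sum_congr rfl h9, ← Finset.sum_mul, ← Finset.sum_mul, ← Finset.mul_sum]

end Pool.Agent.LibThinT
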