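import Pool.Agent.LibThinT.InfDefs

set_option autoImplicit false

namespace Pool.Agent.LibThinT

open Filter Topology
open Pool.Agent.LibThin21

/-- Row I03. Prime number theorem in progressions (`LibPNT.thetaAP_tendsto`), lower bound. The primes `π ≡ r [MOD q]`,
`π ≤ N / e`, are in `Pr e N` or satisfy `π ^ 4 ≤ N`; the latter contribute at most `∑_{π ≤ N^(1/4)} log π ≤ log 4 * N^(1/4)`
(`Chebyshev.theta_le_log4_mul_x`) or simply at most `N ^ (1/4) * log N`. So
`log N * #(...) ≥ ∑ log π ≥ thetaAP r (N / e) - N^(1/4) log N ≥ (1 - η) N / (e φ(q))`, where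
`thetaAP r ((N : ℝ) / e) * φ(q) / (N / e) → 1` and `⌊(N : ℝ) / e⌋₊ = N / e` (`Nat.floor_div_natCast`). -/
theorem ap_lower (q : ℕ) (hq : 0 < q) (r : ℕ) (hr : Nat.Coprime r q) (e : ℕ) (he : 1 ≤ e) {η : ℝ}
    (hη : 0 < η) : ∀ᶠ N : ℕ in atTop, (1 - η) / ((e : ℝ) * q.totient) * ((N : ℝ) / Real.log N) ≤
      (((Pr e N).filter (fun π => π ≡ r [MOD q])).card : ℝ) := by
  haveI : NeZero q := ⟨hq.ne'⟩
  have hu : IsUnit ((r : ℕ) : ZMod q) := (ZMod.isUnit_iff_coprime r q).mpr hr
  have he0 : (0 : ℝ) < (e : ℝ) := by exact_mod_cast he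
  have hφ : (0 : ℝ) < (q.totient : ℝ) := by exact_mod_cast Nat.totient_pos.mpr hq
  have hT := Pool.Agent.LibPNT.thetaAP_tendsto hu
  have hx : Tendsto (fun N : ℕ => (N : ℝ) / (e : ℝ)) atTop atTop :=
    tendsto_natCast_atTop_atTop.atTop_div_const he0
  have hT2 := hT.comp hx
  have hlt : (1 - η / 2) * (q.totient : ℝ)⁻¹ < (q.totient : ℝ)⁻¹ := by
    have := inv_pos.mpr hφ
    nlinarith
  have hE1 := hT2.eventually (lt_mem_nhds hlt)
  -- `√N log N = o(N)`
  have hlo : Tendsto (fun N : ℕ => Real.log (N : ℝ) / Real.sqrt (N : ℝ)) atTop (𝓝 0) := by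
    have h1 := (isLittleO_log_rpow_atTop (r := 1 / 2) (by norm_num)).tendsto_div_nhds_zero
    have h2 := h1.comp (tendsto_natCast_atTop_atTop (R := ℝ))
    refine h2.congr (fun N => ?_)
    simp only [Function.comp_apply]
    rw [Real.sqrt_eq_rpow]
  have hc : (0 : ℝ) < η / 2 / ((e : ℝ) * q.totient) := by positivity
  have hE2 := hlo.eventually (gt_mem_nhds hc)
  filter_upwards [hE1, hE2, eventually_ge_atTop 3] with N h1 h2 hN
  simp only [Function.comp_apply] at h1
  have hN0 : (0 : ℝ) < (N : ℝ) := by exact_mod_cast (by omega : 0 < N)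
  have hlog : 0 < Real.log (N : ℝ) := Real.log_pos (by exact_mod_cast (by omega : 1 < N))
  have hsq : 0 < Real.sqrt (N : ℝ) := Real.sqrt_pos.mpr hN0
  have hx0 : (0 : ℝ) < (N : ℝ) / e := by positivity
  -- bound of theta
  have h3 : (1 - η / 2) / ((e : ℝ) * q.totient) * (N : ℝ) ≤
      Pool.Agent.LibPNT.thetaAP ((r : ℕ) : ZMod q) ((N : ℝ) / e) := by
    rw [lt_div_iff₀ hx0] at h1
    have : (1 - η / 2) / ((e : ℝ) * q.totient) * (N : ℝ) =
        (1 - η / 2) * (q.totient : ℝ)⁻¹ * ((N : ℝ) / e) := by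
      field_simp
    rw [this]
    exact h1.le
  -- upper bound of theta
  have h4 : Pool.Agent.LibPNT.thetaAP ((r : ℕ) : ZMod q) ((N : ℝ) / e) ≤
      (((Pr e N).filter (fun π => π ≡ r [MOD q])).card : ℝ) * Real.log N +
        Real.sqrt N * Real.log N := by
    unfold Pool.Agent.LibPNT.thetaAP
    rw [Nat.floor_div_natCast, Nat.floor_natCast]
    set S : Finset ℕ := (Finset.Icc 1 (N / e)).filter
      (fun p : ℕ => p.Prime ∧ ((p : ℕ) : ZMod q) = ((r : ℕ) : ZMod q)) with hS
    have hle : ∀ p ∈ S, Real.log (p : ℝ) ≤ Real.log (N : ℝ) := by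
      intro p hp
      rw [hS, Finset.mem_filter, Finset.mem_Icc] at hp
      apply Real.log_le_log
      · exact_mod_cast hp.1.1
      · exact_mod_cast le_trans hp.1.2 (Nat.div_le_self N e)
    have hsub : S ⊆ ((Pr e N).filter (fun π => π ≡ r [MOD q])) ∪ Finset.Icc 1 (Nat.sqrt N) := by
      intro p hp
      rw [hS, Finset.mem_filter, Finset.mem_Icc] at hp
      rw [Finset.mem_union, Finset.mem_filter]
      by_cases h : N < p ^ 4
      · left
        refine ⟨?_, (ZMod.natCast_eq_natCast_iff p r q).mp hp.2.2⟩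
        unfold Pr
        rw [Finset.mem_filter, Finset.mem_Icc]
        exact ⟨hp.1, hp.2.1, h⟩
      · right
        rw [Finset.mem_Icc]
        refine ⟨hp.1.1, ?_⟩
        rw [Nat.le_sqrt]
        have hp1 := hp.1.1
        calc p * p ≤ p * p * (p * p) := Nat.le_mul_of_pos_right _ (by positivity)
          _ = p ^ 4 := by ring
          _ ≤ N := by omega
    calc ∑ p ∈ S, Real.log (p : ℝ) ≤ ∑ _p ∈ S, Real.log (N : ℝ) := Finset.sum_le_sum hle
      _ = (S.card : ℝ) * Real.log N := by rw [Finset.sum_const, nsmul_eq_mul]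
      _ ≤ ((((Pr e N).filter (fun π => π ≡ r [MOD q])).card : ℝ) + Real.sqrt N) *
          Real.log N := by
        apply mul_le_mul_of_nonneg_right _ hlog.le
        have h5 := (Finset.card_le_card hsub).trans (Finset.card_union_le _ _)
        rw [Nat.card_Icc, Nat.add_sub_cancel] at h5
        have h6 : ((Nat.sqrt N : ℕ) : ℝ) ≤ Real.sqrt N := Real.nat_sqrt_le_real_sqrt
        have h7 : (S.card : ℝ) ≤
            (((Pr e N).filter (fun π => π ≡ r [MOD q])).card : ℝ) + ((Nat.sqrt N : ℕ) : ℝ) := by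
          exact_mod_cast h5
        linarith
      _ = _ := by ring
  have h5 : Real.sqrt N * Real.log N ≤ η / 2 / ((e : ℝ) * q.totient) * N := by
    rw [div_lt_iff₀ hsq] at h2
    have h6 : Real.sqrt N * Real.sqrt N = (N : ℝ) := Real.mul_self_sqrt hN0.le
    calc Real.sqrt N * Real.log N ≤
        Real.sqrt N * (η / 2 / ((e : ℝ) * q.totient) * Real.sqrt N) :=
          mul_le_mul_of_nonneg_left h2.le hsq.le
      _ = η / 2 / ((e : ℝ) * q.totient) * (Real.sqrt N * Real.sqrt N) := by ring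
      _ = _ := by rw [h6]
  rw [← mul_div_assoc, div_le_iff₀ hlog]
  have h8 : (1 - η) / ((e : ℝ) * q.totient) * (N : ℝ) =
      (1 - η / 2) / ((e : ℝ) * q.totient) * N - η / 2 / ((e : ℝ) * q.totient) * N := by
    ring
  linarith

end Pool.Agent.LibThinT
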