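import Pool.Agent.LibThinT.InfDefs

set_option autoImplicit false

namespace Pool.Agent.LibThinT

open Filter Topology
open Pool.Agent.LibThin21

private theorem i03b_split (q : ℕ) (r : ℕ) {t : ℝ} (ht0 : 0 < t) (ht1 : t < 1) (N : ℕ) (hN : 2 ≤ N) :
    (((Pr 1 N).filter (fun π => π ≡ r [MOD q])).card : ℝ) ≤
      (N : ℝ) ^ (1 - t) + LibPNT.thetaAP (r : ZMod q) (N : ℝ) / ((1 - t) * Real.log N) := by
  classical
  have hN2 : (2 : ℝ) ≤ N := by exact_mod_cast hN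
  have hN0 : (0 : ℝ) < N := by linarith
  have hlog : 0 < Real.log N := Real.log_pos (by linarith)
  have hpow : (0 : ℝ) ≤ (N : ℝ) ^ (1 - t) := Real.rpow_nonneg hN0.le _
  have h1 := Finset.card_filter_add_card_filter_not (s := (Pr 1 N).filter (fun π => π ≡ r [MOD q]))
    (fun π : ℕ => (π : ℝ) ≤ (N : ℝ) ^ (1 - t))
  have hA : ((((Pr 1 N).filter (fun π => π ≡ r [MOD q])).filter
      (fun π : ℕ => (π : ℝ) ≤ (N : ℝ) ^ (1 - t))).card : ℝ) ≤ (N : ℝ) ^ (1 - t) := by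
    have h2 : ((Pr 1 N).filter (fun π => π ≡ r [MOD q])).filter
        (fun π : ℕ => (π : ℝ) ≤ (N : ℝ) ^ (1 - t)) ⊆ Finset.Icc 1 ⌊(N : ℝ) ^ (1 - t)⌋₊ := by
      intro π hπ
      obtain ⟨h3, h4⟩ := Finset.mem_filter.1 hπ
      obtain ⟨h5, -⟩ := Finset.mem_filter.1 h3
      rw [Finset.mem_Icc]
      exact ⟨((mem_Pr le_rfl).1 h5).1.one_lt.le, Nat.le_floor h4⟩
    have h3 := Finset.card_le_card h2
    rw [Nat.card_Icc, Nat.add_sub_cancel] at h3
    calc ((((Pr 1 N).filter (fun π => π ≡ r [MOD q])).filter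
      (fun π : ℕ => (π : ℝ) ≤ (N : ℝ) ^ (1 - t))).card : ℝ) ≤ (⌊(N : ℝ) ^ (1 - t)⌋₊ : ℝ) := by
          exact_mod_cast h3
      _ ≤ (N : ℝ) ^ (1 - t) := Nat.floor_le hpow
  have hB : ((((Pr 1 N).filter (fun π => π ≡ r [MOD q])).filter
      (fun π : ℕ => ¬ (π : ℝ) ≤ (N : ℝ) ^ (1 - t))).card : ℝ) * ((1 - t) * Real.log N) ≤
      LibPNT.thetaAP (r : ZMod q) (N : ℝ) := by
    rw [← nsmul_eq_mul, ← Finset.sum_const]
    unfold LibPNT.thetaAP
    rw [Nat.floor_natCast]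
    refine (Finset.sum_le_sum (g := fun π : ℕ => Real.log π) fun π hπ => ?_).trans
      (Finset.sum_le_sum_of_subset_of_nonneg ?_ fun π hπ _ => ?_)
    · have h2 := (Finset.mem_filter.1 hπ).2
      push Not at h2
      have h3 := Real.log_le_log (Real.rpow_pos_of_pos hN0 _) h2.le
      rw [Real.log_rpow hN0] at h3
      exact h3
    · intro π hπ
      obtain ⟨h3, -⟩ := Finset.mem_filter.1 hπ
      obtain ⟨h5, h6⟩ := Finset.mem_filter.1 h3
      obtain ⟨h7, -, h8⟩ := (mem_Pr le_rfl).1 h5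
      rw [Finset.mem_filter, Finset.mem_Icc]
      rw [one_mul] at h8
      exact ⟨⟨h7.one_lt.le, h8⟩, h7, (ZMod.natCast_eq_natCast_iff _ _ _).2 h6⟩
    · obtain ⟨h3, -⟩ := Finset.mem_filter.1 hπ
      exact Real.log_nonneg (by exact_mod_cast (Finset.mem_Icc.1 h3).1)
  have hc : 0 < (1 - t) * Real.log N := mul_pos (by linarith) hlog
  have hB' := (le_div_iff₀ hc).2 hB
  have h1' : ((((Pr 1 N).filter (fun π => π ≡ r [MOD q])).card : ℕ) : ℝ) =
      ((((Pr 1 N).filter (fun π => π ≡ r [MOD q])).filter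
      (fun π : ℕ => (π : ℝ) ≤ (N : ℝ) ^ (1 - t))).card : ℝ) +
      ((((Pr 1 N).filter (fun π => π ≡ r [MOD q])).filter
      (fun π : ℕ => ¬ (π : ℝ) ≤ (N : ℝ) ^ (1 - t))).card : ℝ) := by
    exact_mod_cast h1.symm
  rw [h1']
  exact add_le_add hA hB'

/-- Upper bound (`e = 1`). Let `δ > 0` be small in terms of `η`: the primes `π ≤ N ^ (1 - δ)` are at most
`N ^ (1 - δ) = o(N / log N)`, the others have `log π ≥ (1 - δ) log N`, so their number is at most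
`thetaAP r N / ((1 - δ) log N)`. -/
theorem ap_upper (q : ℕ) (hq : 0 < q) (r : ℕ) (hr : Nat.Coprime r q) {η : ℝ}
    (hη : 0 < η) : ∀ᶠ N : ℕ in atTop, (((Pr 1 N).filter (fun π => π ≡ r [MOD q])).card : ℝ) ≤
      (1 + η) / (q.totient : ℝ) * ((N : ℝ) / Real.log N) := by
  haveI : NeZero q := ⟨hq.ne'⟩
  have ha : IsUnit (r : ZMod q) := (ZMod.isUnit_iff_coprime r q).2 hr
  have hφ : (0 : ℝ) < q.totient := by exact_mod_cast Nat.totient_pos.2 hq
  have hφi : (0 : ℝ) < (q.totient : ℝ)⁻¹ := inv_pos.2 hφ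
  obtain ⟨t, ht0, ht1, ht2⟩ : ∃ t : ℝ, 0 < t ∧ t ≤ 1 / 4 ∧ 4 * t ≤ η :=
    ⟨min η 1 / 4, by positivity, by linarith [min_le_right η 1], by linarith [min_le_left η 1]⟩
  have h1 : Tendsto (fun N : ℕ => LibPNT.thetaAP (r : ZMod q) (N : ℝ) / (N : ℝ)) atTop
      (𝓝 ((q.totient : ℝ)⁻¹)) := (LibPNT.thetaAP_tendsto ha).comp tendsto_natCast_atTop_atTop
  have h2 : Tendsto (fun N : ℕ => Real.log (N : ℝ) / (N : ℝ) ^ t) atTop (𝓝 0) :=
    (isLittleO_log_rpow_atTop ht0).tendsto_div_nhds_zero.comp tendsto_natCast_atTop_atTop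
  have e1 := h1.eventually (gt_mem_nhds (show (q.totient : ℝ)⁻¹ < (1 + t) * (q.totient : ℝ)⁻¹ by
    nlinarith))
  have e2 := h2.eventually (gt_mem_nhds (show (0 : ℝ) < t * (q.totient : ℝ)⁻¹ by positivity))
  filter_upwards [e1, e2, eventually_ge_atTop 2] with N hN1 hN2 hN
  have hNr : (2 : ℝ) ≤ N := by exact_mod_cast hN
  have hN0 : (0 : ℝ) < N := by linarith
  have hlog : 0 < Real.log N := Real.log_pos (by linarith)
  refine (i03b_split q r ht0 (by linarith) N hN).trans ?_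
  have hx : 0 < (N : ℝ) / Real.log N := div_pos hN0 hlog
  have b1 : (N : ℝ) ^ (1 - t) ≤ t * (q.totient : ℝ)⁻¹ * ((N : ℝ) / Real.log N) := by
    rw [Real.rpow_sub hN0, Real.rpow_one, mul_div_assoc', div_le_div_iff₀ (Real.rpow_pos_of_pos hN0 _) hlog]
    rw [div_lt_iff₀ (Real.rpow_pos_of_pos hN0 _)] at hN2
    have := mul_le_mul_of_nonneg_left hN2.le hN0.le
    linarith
  have b2 : LibPNT.thetaAP (r : ZMod q) (N : ℝ) / ((1 - t) * Real.log N) ≤
      (1 + 3 * t) * (q.totient : ℝ)⁻¹ * ((N : ℝ) / Real.log N) := by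
    rw [div_lt_iff₀ hN0] at hN1
    have h3 : (1 + t) ≤ (1 + 3 * t) * (1 - t) := by nlinarith
    rw [div_le_iff₀ (mul_pos (by linarith) hlog)]
    have h4 : (1 + 3 * t) * (q.totient : ℝ)⁻¹ * ((N : ℝ) / Real.log N) * ((1 - t) * Real.log N) =
        ((1 + 3 * t) * (1 - t)) * ((q.totient : ℝ)⁻¹ * N) := by
      field_simp
    rw [h4]
    have h5 := mul_le_mul_of_nonneg_right h3 (show 0 ≤ (q.totient : ℝ)⁻¹ * N by positivity)
    linarith
  have b3 : (1 + 4 * t) * (q.totient : ℝ)⁻¹ * ((N : ℝ) / Real.log N) ≤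
      (1 + η) / (q.totient : ℝ) * ((N : ℝ) / Real.log N) := by
    rw [div_eq_mul_inv]
    refine mul_le_mul_of_nonneg_right (mul_le_mul_of_nonneg_right (by linarith) hφi.le) hx.le
  have b4 : t * (q.totient : ℝ)⁻¹ * ((N : ℝ) / Real.log N) +
      (1 + 3 * t) * (q.totient : ℝ)⁻¹ * ((N : ℝ) / Real.log N) =
      (1 + 4 * t) * (q.totient : ℝ)⁻¹ * ((N : ℝ) / Real.log N) := by ring
  linarith

end Pool.Agent.LibThinT
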