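import Pool.Agent.LibThinT.InfDefs

set_option autoImplicit false

namespace Pool.Agent.LibThinT

open Filter Topology
open Pool.Agent.LibThin21

lemma ti04_hasSum (P : Finset ℕ) (hP : ∀ p ∈ P, p.Prime) :
    HasSum (Set.indicator (Nat.factoredNumbers P) (fun n : ℕ => (n : ℝ)⁻¹)) (LSieve.V P) := by
  let f : ℕ →* ℝ :=
    { toFun := fun n => ((n : ℝ))⁻¹
      map_one' := by simp
      map_mul' := fun a b => by push_cast; rw [mul_inv] }
  have hf : ∀ n : ℕ, f n = (n : ℝ)⁻¹ := fun n => rfl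
  have h := (EulerProduct.summable_and_hasSum_factoredNumbers_prod_filter_prime_geometric (f := f)
    (fun {p} hp => by
      rw [hf, norm_inv, Real.norm_natCast]
      exact inv_lt_one_of_one_lt₀ (by exact_mod_cast hp.one_lt)) P).2
  have hprod : ∏ p ∈ P with p.Prime, (1 - f p)⁻¹ = LSieve.V P := by
    rw [Finset.filter_true_of_mem hP]
    unfold LSieve.V
    apply Finset.prod_congr rfl
    intro p hp
    have hp2 : (2 : ℝ) ≤ p := by exact_mod_cast (hP p hp).two_le
    rw [hf]
    have : (p : ℝ) ≠ 0 := by linarith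
    have h3 : (p : ℝ) - 1 ≠ 0 := by linarith
    rw [show (1 - (p : ℝ)⁻¹) = ((p : ℝ) - 1) / p by field_simp]
    rw [inv_div]
  rw [hprod] at h
  rw [← hasSum_subtype_iff_indicator]
  exact h

/-- Row I04a. `∑ 1 / e` over the integers `e` with the same prime factors as the squarefree `g` is `1 / φ(g)`: `e = g m`,
`m ∈ Nat.factoredNumbers g.primeFactors`, `∑ 1 / m = ∏_{p ∣ g} (1 - 1/p)⁻¹ = g / φ(g)`
(`EulerProduct.summable_and_hasSum_factoredNumbers_prod_filter_prime_geometric`, as in `LibThin21.sum_inv_le_prod`, and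
`LSieve.V_primeFactors`). Some finite set has sum `≥ (1 - η) / φ(g)` (`HasSum` to a finite set; pass from the subtype to
`Finset ℕ` by `Finset.map` or `image`). -/
theorem rad_sum {g : ℕ} (hg : Squarefree g) {η : ℝ} (hη : 0 < η) :
    ∃ F : Finset ℕ, (∀ e ∈ F, 1 ≤ e ∧ g ∣ e ∧ ∀ p : ℕ, p.Prime → p ∣ e → p ∣ g) ∧
      (1 - η) / (g.totient : ℝ) ≤ ∑ e ∈ F, 1 / (e : ℝ) := by
  classical
  have hg0 : g ≠ 0 := hg.ne_zero
  have hgp : 0 < g := Nat.pos_of_ne_zero hg0
  have hφ : (0 : ℝ) < g.totient := by exact_mod_cast Nat.totient_pos.2 hgp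
  have hgR : (0 : ℝ) < g := by exact_mod_cast hgp
  have hV : LSieve.V g.primeFactors = g / g.totient := LSieve.V_primeFactors g hgp
  have hVp : 0 < LSieve.V g.primeFactors := by rw [hV]; positivity
  have hlt : (1 - η) * LSieve.V g.primeFactors < LSieve.V g.primeFactors := by nlinarith
  obtain ⟨s, hs⟩ := ((ti04_hasSum g.primeFactors
    (fun p hp => Nat.prime_of_mem_primeFactors hp)).eventually (lt_mem_nhds hlt)).exists
  refine ⟨(s.filter (fun m => m ∈ Nat.factoredNumbers g.primeFactors)).image (fun m => g * m), ?_, ?_⟩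
  · intro e he
    rw [Finset.mem_image] at he
    obtain ⟨m, hm, rfl⟩ := he
    rw [Finset.mem_filter] at hm
    have hm2 := hm.2
    have hm0 : m ≠ 0 := Nat.ne_zero_of_mem_factoredNumbers hm2
    refine ⟨Nat.mul_pos hgp (Nat.pos_of_ne_zero hm0), dvd_mul_right g m, ?_⟩
    intro p hp hpe
    rcases (hp.dvd_mul).1 hpe with h | h
    · exact h
    · have h1 := (Nat.mem_factoredNumbers'.1 hm2) p hp h
      exact Nat.dvd_of_mem_primeFactors h1
  · rw [Finset.sum_image (fun a _ b _ hab => Nat.eq_of_mul_eq_mul_left hgp hab)]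
    have h1 : ∑ m ∈ s.filter (fun m => m ∈ Nat.factoredNumbers g.primeFactors), 1 / ((g * m : ℕ) : ℝ) =
        1 / (g : ℝ) * ∑ m ∈ s, Set.indicator (Nat.factoredNumbers g.primeFactors) (fun n : ℕ => (n : ℝ)⁻¹) m := by
      rw [Finset.sum_filter, Finset.mul_sum]
      refine Finset.sum_congr rfl fun m _ => ?_
      by_cases hm : m ∈ Nat.factoredNumbers g.primeFactors
      · rw [if_pos hm, Set.indicator_of_mem hm]
        push_cast
        rw [one_div, one_div, mul_inv]
      · rw [if_neg hm, Set.indicator_of_notMem hm, mul_zero]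
    rw [h1]
    have h2 : (1 - η) / (g.totient : ℝ) = 1 / (g : ℝ) * ((1 - η) * LSieve.V g.primeFactors) := by
      rw [hV]
      field_simp
    rw [h2]
    exact mul_le_mul_of_nonneg_left hs.le (by positivity)

end Pool.Agent.LibThinT
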