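import Pool.Agent.LibThinT.I03
import Pool.Agent.LibThinT.I04

set_option autoImplicit false

namespace Pool.Agent.LibThinT

open Filter Topology
open Pool.Agent.LibThin21

private theorem i04b_res {h e c : ℕ} (hh : 0 < h) (heh : Nat.Coprime e h) (hch : Nat.Coprime c h) :
    ∃ r : ℕ, e * r ≡ c [MOD h] ∧ Nat.Coprime r h := by
  obtain ⟨r0, hr0⟩ : ∃ r0 : ℕ, e * r0 ≡ 1 [MOD h] := by
    rcases Nat.eq_or_lt_of_le (Nat.succ_le_of_lt hh) with h1 | h1
    · refine ⟨0, ?_⟩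
      have : h = 1 := h1.symm
      subst this
      exact Nat.modEq_one
    · obtain ⟨m, _, hm⟩ := Nat.exists_mul_mod_eq_one_of_coprime heh h1
      refine ⟨m, ?_⟩
      rw [Nat.ModEq, hm, Nat.mod_eq_of_lt h1]
  refine ⟨r0 * c, ?_, ?_⟩
  · have h2 : e * r0 * c ≡ 1 * c [MOD h] := hr0.mul_right c
    rwa [mul_assoc, one_mul] at h2
  · have h2 : e * (r0 * c) ≡ c [MOD h] := by
      have h3 : e * r0 * c ≡ 1 * c [MOD h] := hr0.mul_right c
      rwa [mul_assoc, one_mul] at h3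
    have h3 : Nat.Coprime (e * (r0 * c)) h := by
      have h4 : Nat.gcd (e * (r0 * c)) h = Nat.gcd c h := Nat.ModEq.gcd_eq h2
      rw [Nat.Coprime, h4]
      exact hch
    exact Nat.Coprime.coprime_mul_left h3

/-- Row I04b. `g = gcd(c, Q)`, `h = Q / g` coprime to `g` (`Q` squarefree) and to `c`. `F` = the set of `rad_sum` for `g` (with
`η / 2`). For `e ∈ F`: `e` is coprime to `h`, so there is `r` with `e r ≡ c [MOD h]`, `r` coprime to `h`; the `π ≡ r [MOD h]` satisfy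
`e π ≡ c [MOD h]` and `e π ≡ 0 ≡ c [MOD g]`, so `e π ≡ c [MOD Q]`. By `ap_lower` (`q = h`) the sum is at least
`∑_e (1 - η/2) / (e φ(h)) * N / log N ≥ (1 - η/2)^2 / (φ(g) φ(h)) * N / log N`, `φ(g) φ(h) = φ(Q)`. (If `η ≥ 1` the left side is
`≤ 0`: take `F = ∅`.) -/
theorem class_one {Q : ℕ} (hQ : Squarefree Q) (c : ℕ) {η : ℝ} (hη : 0 < η) :
    ∃ F : Finset ℕ, (∀ e ∈ F, 1 ≤ e ∧ ∀ p : ℕ, p.Prime → p ∣ e → p ∣ Q) ∧
      ∀ᶠ N : ℕ in atTop, (1 - η) / (Q.totient : ℝ) * ((N : ℝ) / Real.log N) ≤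
        ∑ e ∈ F, (((Pr e N).filter (fun π => e * π ≡ c [MOD Q])).card : ℝ) := by
  have hX : ∀ N : ℕ, 0 ≤ (N : ℝ) / Real.log N := fun N =>
    div_nonneg (Nat.cast_nonneg N) (Real.log_natCast_nonneg N)
  rcases le_or_gt 1 η with h1 | h1
  · refine ⟨∅, by simp, Filter.Eventually.of_forall (fun N => ?_)⟩
    rw [Finset.sum_empty]
    refine mul_nonpos_of_nonpos_of_nonneg ?_ (hX N)
    exact div_nonpos_of_nonpos_of_nonneg (by linarith) (Nat.cast_nonneg _)
  have hQ0 : 0 < Q := Nat.pos_of_ne_zero hQ.ne_zero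
  obtain ⟨h, hgh⟩ : Nat.gcd c Q ∣ Q := Nat.gcd_dvd_right c Q
  have hgc : Nat.gcd c Q ∣ c := Nat.gcd_dvd_left c Q
  have hgQ : ∀ p, p ∣ c → p ∣ Q → p ∣ Nat.gcd c Q := fun p h2 h3 => Nat.dvd_gcd h2 h3
  generalize Nat.gcd c Q = g at *
  have hg0 : 0 < g := Nat.pos_of_dvd_of_pos ⟨h, hgh⟩ hQ0
  have hh0 : 0 < h := by
    rcases Nat.eq_zero_or_pos h with h2 | h2
    · rw [h2, mul_zero] at hgh
      omega
    · exact h2
  have hcop : Nat.Coprime g h := by
    rw [hgh] at hQ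
    exact Nat.coprime_of_squarefree_mul hQ
  have hsqg : Squarefree g := hQ.squarefree_of_dvd ⟨h, hgh⟩
  have hch : Nat.Coprime c h := by
    rw [Nat.coprime_iff_gcd_eq_one]
    by_contra hne
    obtain ⟨p, hp, hpd⟩ := Nat.exists_prime_and_dvd hne
    have h3 : p ∣ c := hpd.trans (Nat.gcd_dvd_left _ _)
    have h4 : p ∣ h := hpd.trans (Nat.gcd_dvd_right _ _)
    have h5 : p ∣ g := hgQ p h3 (h4.trans ⟨g, by rw [hgh, mul_comm]⟩)
    have h6 : p ∣ Nat.gcd g h := Nat.dvd_gcd h5 h4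
    rw [Nat.coprime_iff_gcd_eq_one.1 hcop] at h6
    exact hp.one_lt.ne' (Nat.dvd_one.1 h6)
  obtain ⟨F, hF, hsum⟩ := rad_sum hsqg (half_pos hη)
  have heh : ∀ e ∈ F, Nat.Coprime e h := by
    intro e he
    rw [Nat.coprime_iff_gcd_eq_one]
    by_contra hne
    obtain ⟨p, hp, hpd⟩ := Nat.exists_prime_and_dvd hne
    have h3 : p ∣ e := hpd.trans (Nat.gcd_dvd_left _ _)
    have h4 : p ∣ h := hpd.trans (Nat.gcd_dvd_right _ _)
    have h5 : p ∣ g := (hF e he).2.2 p hp h3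
    have h6 : p ∣ Nat.gcd g h := Nat.dvd_gcd h5 h4
    rw [Nat.coprime_iff_gcd_eq_one.1 hcop] at h6
    exact hp.one_lt.ne' (Nat.dvd_one.1 h6)
  refine ⟨F, fun e he => ⟨(hF e he).1, fun p hp hpe => ((hF e he).2.2 p hp hpe).trans ⟨h, hgh⟩⟩, ?_⟩
  have hev : ∀ e ∈ F, ∀ᶠ N : ℕ in atTop, (1 - η / 2) / ((e : ℝ) * h.totient) * ((N : ℝ) / Real.log N) ≤
      (((Pr e N).filter (fun π => e * π ≡ c [MOD Q])).card : ℝ) := by
    intro e he
    obtain ⟨r, hr1, hr2⟩ := i04b_res hh0 (heh e he) hch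
    filter_upwards [ap_lower h hh0 r hr2 e (hF e he).1 (half_pos hη)] with N hN
    refine hN.trans ?_
    have hsub : (Pr e N).filter (fun π => π ≡ r [MOD h]) ⊆ (Pr e N).filter (fun π => e * π ≡ c [MOD Q]) := by
      intro π hπ
      rw [Finset.mem_filter] at hπ ⊢
      refine ⟨hπ.1, ?_⟩
      rw [hgh]
      apply (Nat.modEq_and_modEq_iff_modEq_mul hcop).1
      constructor
      · have h3 : e * π ≡ 0 [MOD g] :=
          (Nat.modEq_zero_iff_dvd).2 (((hF e he).2.1).trans (dvd_mul_right e π))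
        have h4 : c ≡ 0 [MOD g] := (Nat.modEq_zero_iff_dvd).2 hgc
        exact h3.trans h4.symm
      · exact (hπ.2.mul_left e).trans hr1
    exact_mod_cast Finset.card_le_card hsub
  have hev2 : ∀ᶠ N : ℕ in atTop, ∀ e ∈ F, (1 - η / 2) / ((e : ℝ) * h.totient) * ((N : ℝ) / Real.log N) ≤
      (((Pr e N).filter (fun π => e * π ≡ c [MOD Q])).card : ℝ) := by
    rw [Filter.eventually_all_finset]
    exact hev
  filter_upwards [hev2] with N hN
  have hφh : 0 < (h.totient : ℝ) := by exact_mod_cast Nat.totient_pos.2 hh0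
  have hφg : 0 < (g.totient : ℝ) := by exact_mod_cast Nat.totient_pos.2 hg0
  have hφ : (Q.totient : ℝ) = g.totient * h.totient := by
    rw [hgh, Nat.totient_mul hcop]
    push_cast
    ring
  have hη2 : 0 ≤ 1 - η / 2 := by linarith
  calc (1 - η) / (Q.totient : ℝ) * ((N : ℝ) / Real.log N)
      ≤ ((1 - η / 2) / h.totient * ((1 - η / 2) / g.totient)) * ((N : ℝ) / Real.log N) := by
        refine mul_le_mul_of_nonneg_right ?_ (hX N)
        rw [hφ, div_mul_div_comm, mul_comm (h.totient : ℝ)]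
        refine div_le_div_of_nonneg_right ?_ (by positivity)
        nlinarith [sq_nonneg η]
    _ ≤ ((1 - η / 2) / h.totient * ∑ e ∈ F, 1 / (e : ℝ)) * ((N : ℝ) / Real.log N) := by
        refine mul_le_mul_of_nonneg_right ?_ (hX N)
        exact mul_le_mul_of_nonneg_left hsum (div_nonneg hη2 hφh.le)
    _ = ∑ e ∈ F, (1 - η / 2) / ((e : ℝ) * h.totient) * ((N : ℝ) / Real.log N) := by
        rw [Finset.mul_sum, Finset.sum_mul]
        refine Finset.sum_congr rfl (fun e he => ?_)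
        rw [div_mul_div_comm, mul_one, mul_comm (e : ℝ)]
    _ ≤ ∑ e ∈ F, (((Pr e N).filter (fun π => e * π ≡ c [MOD Q])).card : ℝ) :=
        Finset.sum_le_sum hN

end Pool.Agent.LibThinT
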