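import Pool.Agent.LibThinT.InfDefs

set_option autoImplicit false

namespace Pool.Agent.LibThinT

open Filter Topology
open Pool.Agent.LibThin21

private theorem i05_unique {e e' N π π' : ℕ} (he : 1 ≤ e) (he' : 1 ≤ e') (h2 : e' ^ 4 ≤ N)
    (hp : π ∈ Pr e N) (hp' : π' ∈ Pr e' N) (h : e * π = e' * π') : e = e' ∧ π = π' := by
  obtain ⟨h3, h4, _⟩ := (mem_Pr he).1 hp
  obtain ⟨h5, h6, _⟩ := (mem_Pr he').1 hp'
  have h7 : π ∣ e' * π' := ⟨e, by rw [← h, mul_comm]⟩
  have h8 : π = π' := by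
    rcases (h3.dvd_mul).1 h7 with h9 | h9
    · exfalso
      have h10 : π ≤ e' := Nat.le_of_dvd (by omega) h9
      have h11 : π ^ 4 ≤ e' ^ 4 := Nat.pow_le_pow_left h10 4
      omega
    · exact (Nat.prime_dvd_prime_iff_eq h3 h5).1 h9
  subst h8
  exact ⟨Nat.eq_of_mul_eq_mul_right h3.pos h, rfl⟩

/-- Row I05. For `N ≥ e ^ 4` for all `e ∈ F` the representation `n = e π` is unique: `e π = e' π'` with primes `π, π'` larger
than all elements of `F`: `π ∣ e' π'`, so `π = π'`. Hence `Ls` is a disjoint union and `π ↦ e π` is injective. -/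
theorem card_Ls {F : Finset ℕ} (hF : ∀ e ∈ F, 1 ≤ e) {N : ℕ} (hN : ∀ e ∈ F, e ^ 4 ≤ N) (P : ℕ → Prop)
    [DecidablePred P] : ((Ls F N).filter P).card =
      ∑ e ∈ F, ((Pr e N).filter (fun π => P (e * π))).card := by
  unfold Ls
  rw [Finset.filter_biUnion, Finset.card_biUnion]
  · refine Finset.sum_congr rfl (fun e he => ?_)
    rw [Finset.filter_image, Finset.card_image_of_injective]
    intro a b hab
    exact Nat.eq_of_mul_eq_mul_left (hF e he) hab
  · intro e he e' he' hne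
    rw [Function.onFun] at *
    rw [Finset.disjoint_left]
    intro n hn hn'
    rw [Finset.mem_filter, Finset.mem_image] at hn hn'
    obtain ⟨⟨π, hπ, h1⟩, _⟩ := hn
    obtain ⟨⟨π', hπ', h2⟩, _⟩ := hn'
    exact hne (i05_unique (hF e he) (hF e' he') (hN e' he') hπ hπ' (h1.trans h2.symm)).1

end Pool.Agent.LibThinT
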