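import Pool.Agent.LibThinT.I04b
import Pool.Agent.LibThinT.I05

set_option autoImplicit false

namespace Pool.Agent.LibThinT

open Filter Topology
open Pool.Agent.LibThin21

/-- All classes at once: take the union `F` of the sets of `class_one` for `c < Q`; enlarging `F` enlarges the sum over `e`
(nonnegative terms); then `card_Ls`. -/
theorem class_count {Q : ℕ} (hQ : Squarefree Q) {η : ℝ} (hη : 0 < η) :
    ∃ F : Finset ℕ, (∀ e ∈ F, 1 ≤ e ∧ ∀ p : ℕ, p.Prime → p ∣ e → p ∣ Q) ∧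
      ∀ᶠ N : ℕ in atTop, ∀ c < Q, (1 - η) / (Q.totient : ℝ) * ((N : ℝ) / Real.log N) ≤
        (((Ls F N).filter (fun n => n ≡ c [MOD Q])).card : ℝ) := by
  choose F h1 h2 using fun c : ℕ => class_one hQ c hη
  have hF : ∀ e ∈ (Finset.range Q).biUnion F, 1 ≤ e ∧ ∀ p : ℕ, p.Prime → p ∣ e → p ∣ Q := by
    intro e he
    rw [Finset.mem_biUnion] at he
    obtain ⟨c, _, hc⟩ := he
    exact h1 c e hc
  refine ⟨(Finset.range Q).biUnion F, hF, ?_⟩
  have hA : ∀ᶠ N : ℕ in atTop, ∀ e ∈ (Finset.range Q).biUnion F, e ^ 4 ≤ N := by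
    rw [Filter.eventually_all_finset]
    intro e _
    exact eventually_ge_atTop (e ^ 4)
  have hB : ∀ᶠ N : ℕ in atTop, ∀ c ∈ Finset.range Q,
      (1 - η) / (Q.totient : ℝ) * ((N : ℝ) / Real.log N) ≤
        ∑ e ∈ F c, (((Pr e N).filter (fun π => e * π ≡ c [MOD Q])).card : ℝ) := by
    rw [Filter.eventually_all_finset]
    intro c _
    exact h2 c
  filter_upwards [hA, hB] with N hN1 hN2 c hc
  have hc' : c ∈ Finset.range Q := Finset.mem_range.2 hc
  rw [card_Ls (fun e he => (hF e he).1) hN1 (fun n => n ≡ c [MOD Q])]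
  push_cast
  refine (hN2 c hc').trans ?_
  apply Finset.sum_le_sum_of_subset_of_nonneg
  · intro e he
    exact Finset.mem_biUnion.2 ⟨c, hc', he⟩
  · intro e _ _
    positivity

end Pool.Agent.LibThinT
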