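import Pool.Agent.LibThinT.InfDefs
import Pool.Agent.LibThin21.R4

set_option autoImplicit false

namespace Pool.Agent.LibThinT

open Filter Topology
open Pool.Agent.LibThin21

open Classical in
/-- Row I06. `Q` squarefree. With `c0 < Q`, `c0 ≡ α p [MOD p]` for `p ∣ Q` (`LibThin21.exists_center`), the condition says that
`c + (Q - c0)` is coprime to `Q`; `c ↦ c + (Q - c0)` maps `range Q` onto `Ico (Q - c0) (Q - c0 + Q)`
(`Nat.filter_coprime_Ico_eq_totient`). -/
theorem card_good {Q : ℕ} (hQ : Squarefree Q) (α : ℕ → ℕ) :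
    ((Finset.range Q).filter (fun c => ∀ p ∈ Q.primeFactors, ¬ c ≡ α p [MOD p])).card =
      Q.totient := by
  obtain ⟨c0, hc0, hc0'⟩ := exists_center hQ α
  have hQ0 : Q ≠ 0 := hQ.ne_zero
  -- the condition is coprimality of `c + (Q - c0)` to `Q`
  have key : ∀ c : ℕ, (∀ p ∈ Q.primeFactors, ¬ c ≡ α p [MOD p]) ↔
      Nat.Coprime Q (c + (Q - c0)) := by
    intro c
    constructor
    · intro h
      by_contra hco
      obtain ⟨p, hp, hpQ, hpc⟩ := Nat.Prime.not_coprime_iff_dvd.1 hco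
      have hpm : p ∈ Q.primeFactors := Nat.mem_primeFactors.2 ⟨hp, hpQ, hQ0⟩
      apply h p hpm
      refine Nat.ModEq.trans ?_ (hc0' p hpm)
      have h1 : c + (Q - c0) + c0 ≡ 0 + c0 [MOD p] :=
        Nat.ModEq.add_right c0 ((Nat.modEq_zero_iff_dvd).2 hpc)
      have h2 : c + (Q - c0) + c0 = c + Q := by omega
      rw [h2, Nat.zero_add] at h1
      have h3 : c + Q ≡ c + 0 [MOD p] :=
        Nat.ModEq.add_left c ((Nat.modEq_zero_iff_dvd).2 hpQ)
      rw [Nat.add_zero] at h3
      exact h3.symm.trans h1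
    · intro hco p hpm hcp
      have hp := Nat.prime_of_mem_primeFactors hpm
      have hpQ := Nat.dvd_of_mem_primeFactors hpm
      have h1 : c ≡ c0 [MOD p] := hcp.trans (hc0' p hpm).symm
      have h2 : c + (Q - c0) ≡ c0 + (Q - c0) [MOD p] := Nat.ModEq.add_right _ h1
      have h3 : c0 + (Q - c0) = Q := by omega
      rw [h3] at h2
      have h4 : p ∣ c + (Q - c0) :=
        (Nat.modEq_zero_iff_dvd).1 (h2.trans ((Nat.modEq_zero_iff_dvd).2 hpQ))
      exact Nat.Prime.not_coprime_iff_dvd.2 ⟨p, hp, hpQ, h4⟩ hco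
  rw [← Nat.filter_coprime_Ico_eq_totient Q (Q - c0)]
  have himg : ((Finset.range Q).filter (fun c => ∀ p ∈ Q.primeFactors, ¬ c ≡ α p [MOD p])).image
      (fun c => c + (Q - c0)) =
      (Finset.Ico (Q - c0) (Q - c0 + Q)).filter (Nat.Coprime Q) := by
    ext n
    simp only [Finset.mem_image, Finset.mem_filter, Finset.mem_range, Finset.mem_Ico]
    constructor
    · rintro ⟨c, ⟨hc, h⟩, rfl⟩
      exact ⟨⟨by omega, by omega⟩, (key c).1 h⟩
    · rintro ⟨⟨h1, h2⟩, h3⟩
      refine ⟨n - (Q - c0), ⟨by omega, (key _).2 ?_⟩, by omega⟩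
      have : n - (Q - c0) + (Q - c0) = n := by omega
      rw [this]
      exact h3
  rw [← himg, Finset.card_image_of_injective _ (fun a b h => by simpa using h)]

end Pool.Agent.LibThinT
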