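import Pool.Agent.LibThinT.InfDefs
import Pool.Agent.LibThin21.D0

set_option autoImplicit false

namespace Pool.Agent.LibThinT

open Filter Topology
open Pool.Agent.LibThin21

/-- `QE E y` is squarefree with prime factors `EP E 0 y`. -/
theorem QE_facts (E : Set ℕ) (y : ℕ) : Squarefree (QE E y) ∧ (QE E y).primeFactors = EP E 0 y := by
  have hpr : ∀ p ∈ EP E 0 y, p.Prime := fun p hp => ((mem_EP (Nat.cast_nonneg y)).1 hp).1
  constructor
  · unfold QE
    refine Finset.squarefree_prod_of_pairwise_isCoprime ?_ ?_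
    · intro p hp q hq hpq
      simp only [Function.onFun]
      exact Nat.coprime_iff_isRelPrime.1 ((Nat.coprime_primes (hpr p hp) (hpr q hq)).2 hpq)
    · intro p hp
      exact (hpr p hp).squarefree
  · unfold QE
    exact Nat.primeFactors_prod hpr

/-- Row I07. An element `n = e π` of `Ls F N` has `n ≤ N`, `n ≥ π`, `N < π ^ 4`, and no prime factor `p ∉ E` with `p ^ 2 ≤ n`
(`p ∣ e` would give `p ∈ E`; `p = π` would give `π ^ 2 ≤ e π`, but `e < π` by `e ^ 4 ≤ N < π ^ 4`). -/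
theorem Ls_subset_Sv {E : Set ℕ} {y : ℕ} {F : Finset ℕ}
    (hF : ∀ e ∈ F, 1 ≤ e ∧ ∀ p : ℕ, p.Prime → p ∣ e → p ∣ QE E y) {N : ℕ}
    (hN : ∀ e ∈ F, e ^ 4 ≤ N) : Ls F N ⊆ Sv E N ∧ ∀ n ∈ Ls F N, N < n ^ 4 := by
  have key : ∀ n ∈ Ls F N, ∃ e ∈ F, ∃ π ∈ Pr e N, e * π = n := by
    intro n hn
    unfold Ls at hn
    rw [Finset.mem_biUnion] at hn
    obtain ⟨e, he, hn⟩ := hn
    rw [Finset.mem_image] at hn
    obtain ⟨π, hπ, h⟩ := hn
    exact ⟨e, he, π, hπ, h⟩
  constructor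
  · intro n hn
    obtain ⟨e, he, π, hπ, rfl⟩ := key n hn
    obtain ⟨he1, hep⟩ := hF e he
    rw [mem_Pr he1] at hπ
    obtain ⟨hπp, hπ4, hπN⟩ := hπ
    rw [mem_Sv]
    refine ⟨⟨?_, hπN⟩, ?_⟩
    · exact Nat.one_le_iff_ne_zero.2 (Nat.mul_ne_zero (by omega) hπp.ne_zero)
    · intro p hp hpE hp2 hdvd
      have heπ : e < π := by
        have h1 : e ^ 4 < π ^ 4 := lt_of_le_of_lt (hN e he) hπ4
        exact lt_of_pow_lt_pow_left₀ 4 (Nat.zero_le _) h1
      rcases (Nat.Prime.dvd_mul hp).1 hdvd with h | h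
      · have h2 := hep p hp h
        have h3 : p ∈ (QE E y).primeFactors :=
          Nat.mem_primeFactors.2 ⟨hp, h2, (QE_facts E y).1.ne_zero⟩
        rw [(QE_facts E y).2, mem_EP (Nat.cast_nonneg y)] at h3
        exact hpE h3.2.1
      · have h4 : p = π := (Nat.prime_dvd_prime_iff_eq hp hπp).1 h
        subst h4
        have h5 : p ^ 2 ≤ e * p := hp2
        rw [sq] at h5
        have h6 : p ≤ e := Nat.le_of_mul_le_mul_right h5 hp.pos
        omega
  · intro n hn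
    obtain ⟨e, he, π, hπ, rfl⟩ := key n hn
    obtain ⟨he1, hep⟩ := hF e he
    rw [mem_Pr he1] at hπ
    refine lt_of_lt_of_le hπ.2.1 ?_
    exact Nat.pow_le_pow_left (Nat.le_mul_of_pos_left π (by omega)) 4

end Pool.Agent.LibThinT
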