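import Pool.Agent.LibThinT.I06
import Pool.Agent.LibThinT.I07a

set_option autoImplicit false

namespace Pool.Agent.LibThinT

open Filter Topology
open Pool.Agent.LibThin21

/-- The sifted set, from below, for EVERY choice of classes. Let `Q = QE E y`. The good classes `c < Q` (no `c ≡ α p [MOD p]`,
`p ∣ Q`) are `φ(Q)` (`card_good`), each contains at least `(1 - η)/φ(Q) * N / log N` elements of `Ls F N`, disjoint for different
`c` (`n % Q`). Such an element `n` is in `sifted α` unless `n ≡ α p` for some `p ∈ EP E y (√n)`: let `p` be prime, `p ^ 2 ≤ n`,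
`n ≡ α p [MOD p]`; if `p ∉ E` then `α p = 0`, `p ∣ n`, contradiction with `Ls_subset_Sv`; if `p ∈ E`, `p ≤ y`: `p ∣ Q` and the class
is not good. -/
theorem count_lower {E : Set ℕ} {y : ℕ} {F : Finset ℕ} {η : ℝ} {N : ℕ} {α : ℕ → ℕ}
    (hα : ∀ p : ℕ, p ∉ E → α p = 0)
    (hF : ∀ e ∈ F, 1 ≤ e ∧ ∀ p : ℕ, p.Prime → p ∣ e → p ∣ QE E y) (hN : ∀ e ∈ F, e ^ 4 ≤ N)
    (hc : ∀ c < QE E y, (1 - η) / ((QE E y).totient : ℝ) * ((N : ℝ) / Real.log N) ≤
      (((Ls F N).filter (fun n => n ≡ c [MOD QE E y])).card : ℝ)) :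
    (1 - η) * ((N : ℝ) / Real.log N) ≤ cnt α N + bad E F y α N := by
  classical
  obtain ⟨hQ, hQf⟩ := QE_facts E y
  set Q : ℕ := QE E y with hQdef
  have hQ0 : Q ≠ 0 := hQ.ne_zero
  have hφ : (0 : ℝ) < (Q.totient : ℝ) := by
    exact_mod_cast Nat.totient_pos.2 (Nat.pos_of_ne_zero hQ0)
  set G : Finset ℕ := (Finset.range Q).filter (fun c => ∀ p ∈ Q.primeFactors, ¬ c ≡ α p [MOD p])
    with hG
  have hGc : G.card = Q.totient := by
    rw [hG]
    exact card_good hQ α
  -- the sum over the good classes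
  have h1 : (1 - η) * ((N : ℝ) / Real.log N) ≤
      ∑ c ∈ G, (((Ls F N).filter (fun n => n ≡ c [MOD Q])).card : ℝ) := by
    calc (1 - η) * ((N : ℝ) / Real.log N)
        = ∑ _c ∈ G, (1 - η) / (Q.totient : ℝ) * ((N : ℝ) / Real.log N) := by
          rw [Finset.sum_const, hGc, nsmul_eq_mul]
          field_simp
      _ ≤ _ := by
          refine Finset.sum_le_sum fun c hcG => ?_
          exact hc c (Finset.mem_range.1 (Finset.mem_filter.1 hcG).1)
  -- the classes are disjoint
  have h2 : ∑ c ∈ G, (((Ls F N).filter (fun n => n ≡ c [MOD Q])).card : ℝ) =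
      ((G.biUnion (fun c => (Ls F N).filter (fun n => n ≡ c [MOD Q]))).card : ℝ) := by
    rw [Finset.card_biUnion]
    · push_cast
      rfl
    · intro c hc c' hc2 hne
      rw [Function.onFun, Finset.disjoint_left]
      intro n hn hn'
      apply hne
      have e1 := (Finset.mem_filter.1 hn).2
      have e2 := (Finset.mem_filter.1 hn').2
      have e3 : c ≡ c' [MOD Q] := e1.symm.trans e2
      have l1 : c < Q := Finset.mem_range.1 (Finset.mem_filter.1 hc).1
      have l2 : c' < Q := Finset.mem_range.1 (Finset.mem_filter.1 hc2).1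
      exact Nat.ModEq.eq_of_lt_of_lt e3 l1 l2
  -- inclusion
  have h3 : G.biUnion (fun c => (Ls F N).filter (fun n => n ≡ c [MOD Q])) ⊆
      (Finset.Icc 1 N).filter (fun n => n ∈ sifted α) ∪
      (Ls F N).filter (fun n : ℕ => ∃ p ∈ EP E y (Real.sqrt n), n ≡ α p [MOD p]) := by
    intro n hn
    rw [Finset.mem_biUnion] at hn
    obtain ⟨c, hcG, hn⟩ := hn
    rw [Finset.mem_filter] at hn
    obtain ⟨hnL, hnc⟩ := hn
    rw [Finset.mem_union]
    by_cases hb : ∃ p ∈ EP E y (Real.sqrt n), n ≡ α p [MOD p]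
    · right
      exact Finset.mem_filter.2 ⟨hnL, hb⟩
    · left
      have hS := mem_Sv.1 ((Ls_subset_Sv hF hN).1 hnL)
      refine Finset.mem_filter.2 ⟨Finset.mem_Icc.2 hS.1, ?_⟩
      intro p hp hpn hmod
      by_cases hpE : p ∈ E
      · by_cases hpy : (y : ℝ) < (p : ℝ)
        · apply hb
          refine ⟨p, ?_, hmod⟩
          rw [mem_EP (Real.sqrt_nonneg _)]
          refine ⟨hp, hpE, hpy, ?_⟩
          apply Real.le_sqrt_of_sq_le
          exact_mod_cast hpn
        · have hpQ : p ∈ Q.primeFactors := by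
            rw [hQf, mem_EP (Nat.cast_nonneg y)]
            refine ⟨hp, hpE, ?_, not_lt.1 hpy⟩
            exact_mod_cast hp.pos
          have hg := (Finset.mem_filter.1 hcG).2 p hpQ
          apply hg
          have e1 : n ≡ c [MOD p] := hnc.of_dvd (Nat.dvd_of_mem_primeFactors hpQ)
          exact e1.symm.trans hmod
      · rw [hα p hpE] at hmod
        exact hS.2 p hp hpE hpn ((Nat.modEq_zero_iff_dvd).1 hmod)
  have h4 : ((G.biUnion (fun c => (Ls F N).filter (fun n => n ≡ c [MOD Q]))).card : ℝ) ≤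
      cnt α N + bad E F y α N := by
    have := (Finset.card_le_card h3).trans (Finset.card_union_le _ _)
    have h5 : ((G.biUnion (fun c => (Ls F N).filter (fun n => n ≡ c [MOD Q]))).card : ℝ) ≤
        (((Finset.Icc 1 N).filter (fun n => n ∈ sifted α)).card : ℝ) +
        (((Ls F N).filter (fun n : ℕ => ∃ p ∈ EP E y (Real.sqrt n), n ≡ α p [MOD p])).card : ℝ) := by
      exact_mod_cast this
    unfold cnt bad
    refine h5.trans (le_of_eq ?_)
    congr!
  linarith [h1.trans (h2.le.trans h4)]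

end Pool.Agent.LibThinT
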