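import Pool.Agent.LibThinT.I06
import Pool.Agent.LibThinT.I07a

set_option autoImplicit false

namespace Pool.Agent.LibThinT

open Filter Topology
open Pool.Agent.LibThin21

/-- The sifted set, from above, for EVERY choice of classes: `sifted α ∩ [1, N] ⊆ Sv E N` and it contains no element of
`Ls F N` in a class `c < Q` which is not good (`n ≡ α p [MOD p]` with `p ∣ Q`, `p ≤ y`, `p ^ 2 ≤ n` since
`y ^ 8 ≤ N < n ^ 4`); there are `Q - φ(Q)` such classes. -/
theorem count_upper {E : Set ℕ} {y : ℕ} {F : Finset ℕ} {η : ℝ} {N : ℕ} {α : ℕ → ℕ}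
    (hα : ∀ p : ℕ, p ∉ E → α p = 0)
    (hF : ∀ e ∈ F, 1 ≤ e ∧ ∀ p : ℕ, p.Prime → p ∣ e → p ∣ QE E y) (hN : ∀ e ∈ F, e ^ 4 ≤ N)
    (hy : y ^ 8 ≤ N)
    (hc : ∀ c < QE E y, (1 - η) / ((QE E y).totient : ℝ) * ((N : ℝ) / Real.log N) ≤
      (((Ls F N).filter (fun n => n ≡ c [MOD QE E y])).card : ℝ)) :
    cnt α N + (((QE E y : ℕ) : ℝ) / ((QE E y).totient : ℝ) - 1) * (1 - η) *
      ((N : ℝ) / Real.log N) ≤ ((Sv E N).card : ℝ) := by
  classical
  obtain ⟨hsq, hpf⟩ := QE_facts E y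
  obtain ⟨hLsub, hLpow⟩ := Ls_subset_Sv hF hN
  have hQ0 : 0 < QE E y := Nat.pos_of_ne_zero hsq.ne_zero
  have hφ : 0 < (QE E y).totient := Nat.totient_pos.2 hQ0
  have hφR : (0 : ℝ) < (QE E y).totient := by exact_mod_cast hφ
  obtain ⟨G, hGcard, hGmem⟩ : ∃ G : Finset ℕ, G.card = (QE E y).totient ∧
      ∀ c, c ∈ G ↔ c < QE E y ∧ ∀ p ∈ (QE E y).primeFactors, ¬ c ≡ α p [MOD p] :=
    ⟨_, card_good hsq α, fun c => by rw [Finset.mem_filter, Finset.mem_range]⟩
  obtain ⟨S, hScard, hSmem⟩ : ∃ S : Finset ℕ, cnt α N = (S.card : ℝ) ∧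
      ∀ n, n ∈ S ↔ (1 ≤ n ∧ n ≤ N) ∧ n ∈ sifted α :=
    ⟨_, rfl, fun n => by rw [Finset.mem_filter, Finset.mem_Icc]⟩
  have hGsub : G ⊆ Finset.range (QE E y) := fun c hc => Finset.mem_range.2 ((hGmem c).1 hc).1
  have hBcard : (((Finset.range (QE E y) \ G).card : ℕ) : ℝ) =
      ((QE E y : ℕ) : ℝ) - ((QE E y).totient : ℝ) := by
    have h1 := Finset.card_sdiff_add_card_eq_card hGsub
    rw [hGcard, Finset.card_range] at h1
    have h2 : (((Finset.range (QE E y) \ G).card : ℕ) : ℝ) + ((QE E y).totient : ℝ) =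
        ((QE E y : ℕ) : ℝ) := by exact_mod_cast h1
    linarith
  -- the union of the bad classes
  have hUcard : ((Finset.range (QE E y) \ G).biUnion
      (fun c => (Ls F N).filter (fun n => n ≡ c [MOD QE E y]))).card =
      ∑ c ∈ Finset.range (QE E y) \ G, ((Ls F N).filter (fun n => n ≡ c [MOD QE E y])).card := by
    apply Finset.card_biUnion
    intro c hc c' hc' hne
    refine Finset.disjoint_left.2 ?_
    intro n hn hn'
    rw [Finset.mem_filter] at hn hn'
    apply hne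
    have h1 : c ≡ c' [MOD QE E y] := hn.2.symm.trans hn'.2
    have h2 := Finset.mem_range.1 (Finset.mem_sdiff.1 (Finset.mem_coe.1 hc)).1
    have h3 := Finset.mem_range.1 (Finset.mem_sdiff.1 (Finset.mem_coe.1 hc')).1
    exact Nat.ModEq.eq_of_lt_of_lt h1 h2 h3
  have hdisj : Disjoint S ((Finset.range (QE E y) \ G).biUnion
      (fun c => (Ls F N).filter (fun n => n ≡ c [MOD QE E y]))) := by
    rw [Finset.disjoint_left]
    intro n hnS hnU
    obtain ⟨c, hc, hn⟩ := Finset.mem_biUnion.1 hnU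
    rw [Finset.mem_filter] at hn
    rw [Finset.mem_sdiff, Finset.mem_range, hGmem] at hc
    have h1 : ∃ p ∈ (QE E y).primeFactors, c ≡ α p [MOD p] := by
      by_contra hcon
      push Not at hcon
      exact hc.2 ⟨hc.1, hcon⟩
    obtain ⟨p, hp, hcp⟩ := h1
    have hpd : p ∣ QE E y := Nat.dvd_of_mem_primeFactors hp
    have hpp : p.Prime := Nat.prime_of_mem_primeFactors hp
    have hpy : p ≤ y := by
      rw [hpf] at hp
      unfold EP at hp
      rw [Finset.mem_filter, Finset.mem_range, Nat.floor_natCast] at hp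
      omega
    have hn4 := hLpow n hn.1
    have hyn : y ^ 2 < n := by
      have h2 : (y ^ 2) ^ 4 < n ^ 4 := by
        rw [← pow_mul]
        exact lt_of_le_of_lt hy hn4
      exact lt_of_pow_lt_pow_left₀ 4 (Nat.zero_le _) h2
    have hpn : p ^ 2 ≤ n := (Nat.pow_le_pow_left hpy 2).trans hyn.le
    exact ((hSmem n).1 hnS).2 p hpp hpn ((hn.2.of_dvd hpd).trans hcp)
  have hSub : S ∪ (Finset.range (QE E y) \ G).biUnion
      (fun c => (Ls F N).filter (fun n => n ≡ c [MOD QE E y])) ⊆ Sv E N := by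
    apply Finset.union_subset
    · intro n hn
      rw [hSmem] at hn
      rw [mem_Sv]
      refine ⟨hn.1, fun p hp hpE hpn hdvd => hn.2 p hp hpn ?_⟩
      rw [hα p hpE]
      exact (Nat.modEq_zero_iff_dvd).2 hdvd
    · intro n hn
      obtain ⟨c, _, hn'⟩ := Finset.mem_biUnion.1 hn
      exact hLsub (Finset.mem_filter.1 hn').1
  have hle := Finset.card_le_card hSub
  rw [Finset.card_union_of_disjoint hdisj, hUcard] at hle
  have hleR : (S.card : ℝ) + ∑ c ∈ Finset.range (QE E y) \ G,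
      (((Ls F N).filter (fun n => n ≡ c [MOD QE E y])).card : ℝ) ≤ ((Sv E N).card : ℝ) := by
    exact_mod_cast hle
  have hsum : ∑ c ∈ Finset.range (QE E y) \ G,
      (1 - η) / ((QE E y).totient : ℝ) * ((N : ℝ) / Real.log N) ≤
      ∑ c ∈ Finset.range (QE E y) \ G,
        (((Ls F N).filter (fun n => n ≡ c [MOD QE E y])).card : ℝ) :=
    Finset.sum_le_sum fun c hcm =>
      hc c (Finset.mem_range.1 (Finset.mem_sdiff.1 hcm).1)
  rw [Finset.sum_const, nsmul_eq_mul, hBcard] at hsum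
  have he : (((QE E y : ℕ) : ℝ) / ((QE E y).totient : ℝ) - 1) * (1 - η) *
      ((N : ℝ) / Real.log N) = (((QE E y : ℕ) : ℝ) - ((QE E y).totient : ℝ)) *
        ((1 - η) / ((QE E y).totient : ℝ) * ((N : ℝ) / Real.log N)) := by
    have : ((QE E y).totient : ℝ) / ((QE E y).totient : ℝ) = 1 := div_self hφR.ne'
    rw [← this]
    ring
  rw [hScard, he]
  linarith

end Pool.Agent.LibThinT
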