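import Pool.Agent.LibThinT.I07a
import Pool.Agent.LibThin21.Conv
import Pool.Agent.LibThin21.D4
import Pool.Agent.LibThin21.S3

set_option autoImplicit false

namespace Pool.Agent.LibThinT

open Filter Topology
open Pool.Agent.LibThin21

private lemma i08_SE_max (E : Set ℕ) (u v : ℝ) : SE E u v = SE E u (max v 0) := by
  have h : ⌊max v 0⌋₊ = ⌊v⌋₊ := by
    rcases le_total 0 v with h | h
    · rw [max_eq_left h]
    · rw [max_eq_right h, Nat.floor_zero, Nat.floor_of_nonpos h]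
  unfold SE EP
  rw [h]

/-- Row I08a. Tail of the convergent sum (see the proof of `LibThin21.thin_of_summable`: `summable_iff_vanishing_norm`). -/
theorem tail_small {E : Set ℕ} (hs : Summable (rE E)) {ε : ℝ} (hε : 0 < ε) :
    ∃ y : ℕ, ∀ v : ℝ, SE E y v ≤ ε := by
  obtain ⟨s, h1⟩ := summable_iff_vanishing_norm.1 hs ε hε
  obtain ⟨M, hM⟩ : ∃ M : ℕ, ∀ p ∈ s, p ≤ M := ⟨s.sup id, fun p hp => Finset.le_sup (f := id) hp⟩
  refine ⟨M, fun v => ?_⟩
  have hv : 0 ≤ max v 0 := le_max_right _ _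
  rw [i08_SE_max, SE_eq_rE E hv]
  have h2 : Disjoint (EP E (M : ℝ) (max v 0)) s := by
    rw [Finset.disjoint_left]
    intro p hp hps
    rw [mem_EP hv] at hp
    have h3 : (p : ℝ) ≤ (M : ℝ) := by exact_mod_cast hM p hps
    linarith [hp.2.2.1]
  have h3 := h1 _ h2
  exact (le_abs_self _).trans h3.le

private lemma i08_sub (E : Set ℕ) (y : ℕ) (v : ℝ) : EP E 0 v ⊆ EP E 0 y ∪ EP E y v := by
  classical
  intro p hp
  unfold EP at hp ⊢
  rw [Finset.mem_union, Finset.mem_filter, Finset.mem_filter]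
  rw [Finset.mem_filter] at hp
  rcases lt_or_ge (y : ℝ) (p : ℝ) with h | h
  · exact Or.inr ⟨hp.1, hp.2.1, hp.2.2.1, h⟩
  · refine Or.inl ⟨?_, hp.2⟩
    rw [Finset.mem_range, Nat.floor_natCast]
    have : p ≤ y := by exact_mod_cast h
    omega

/-- Row I08b. `V(EP E 0 v) ≤ V(EP E 0 y) * exp (2 SE E y v)`: `EP E 0 v ⊆ EP E 0 y ∪ EP E y v`, `LibThin21.V_union_le` (S3) or
directly, `LibThin21.V_le_exp`. And `V(EP E 0 y) ≤ exp (2 ∑' rE)`. -/
theorem V_facts {E : Set ℕ} (hs : Summable (rE E)) (y : ℕ) :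
    LSieve.V (EP E 0 y) = ((QE E y : ℕ) : ℝ) / ((QE E y).totient : ℝ) ∧
    LSieve.V (EP E 0 y) ≤ Real.exp (2 * ∑' p, rE E p) ∧
    ∀ v : ℝ, LSieve.V (EP E 0 v) ≤ LSieve.V (EP E 0 y) * Real.exp (2 * SE E y v) := by
  classical
  refine ⟨?_, ?_, fun v => ?_⟩
  · obtain ⟨-, hpf⟩ := QE_facts E y
    have hQ : 0 < QE E y := by
      unfold QE
      exact Finset.prod_pos fun p hp => (s3_EP_prime p hp).pos
    have h1 := Nat.totient_mul_prod_primeFactors (QE E y)
    rw [hpf] at h1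
    have h2 : ∏ p ∈ EP E 0 y, p = QE E y := rfl
    rw [h2] at h1
    have h3 : (QE E y).totient = ∏ p ∈ EP E 0 y, (p - 1) := by
      have h4 : (QE E y).totient * QE E y = (∏ p ∈ EP E 0 y, (p - 1)) * QE E y := by
        rw [h1, mul_comm]
      exact Nat.eq_of_mul_eq_mul_right hQ h4
    rw [h3]
    unfold LSieve.V QE
    rw [Finset.prod_div_distrib]
    push_cast
    congr 1
    refine Finset.prod_congr rfl fun p hp => ?_
    rw [Nat.cast_pred (s3_EP_prime p hp).pos]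
  · refine (s3_V_EP_le E 0 y).trans ?_
    apply Real.exp_le_exp.2
    have := SE_le_tsum hs (u := 0) (v := (y : ℝ)) (Nat.cast_nonneg y)
    linarith
  · have h1 : LSieve.V (EP E 0 v) ≤ LSieve.V (EP E 0 y ∪ EP E y v) := by
      refine LSieve.V_mono (i08_sub E y v) ?_
      intro p hp
      rcases Finset.mem_union.1 hp with h | h
      · exact s3_EP_prime p h
      · exact s3_EP_prime p h
    refine h1.trans ((V_union_le s3_EP_prime s3_EP_prime).trans ?_)
    have h2 : 0 < LSieve.V (EP E 0 y) := LSieve.V_pos s3_EP_prime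
    exact mul_le_mul_of_nonneg_left (s3_V_EP_le E y v) h2.le

/-- Row I08c. `LibThin21.sv_upper` for natural `N` (`x = log N`, `⌊exp (log N)⌋₊ = N`; `thin_of_summable`). -/
theorem sv_upper_nat {E : Set ℕ} (hs : Summable (rE E)) {η : ℝ} (hη : 0 < η) :
    ∀ᶠ N : ℕ in atTop, ((Sv E N).card : ℝ) ≤
      (1 + η) * LSieve.V (EP E 0 (N : ℝ)) * ((N : ℝ) / Real.log N) := by
  have h1 := sv_upper (thin_of_summable hs) hη
  have h2 : Tendsto (fun N : ℕ => Real.log (N : ℝ)) atTop atTop :=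
    Real.tendsto_log_atTop.comp tendsto_natCast_atTop_atTop
  filter_upwards [h2.eventually h1, eventually_ge_atTop 1] with N hN hN1
  have hN0 : (0 : ℝ) < N := by exact_mod_cast hN1
  rw [Real.exp_log hN0, Nat.floor_natCast] at hN
  exact hN

end Pool.Agent.LibThinT
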