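import Pool.Agent.LibThinT.I02b
import Pool.Agent.LibThinT.I05b
import Pool.Agent.LibThinT.I07
import Pool.Agent.LibThinT.I07b
import Pool.Agent.LibThinT.I08a

set_option autoImplicit false

namespace Pool.Agent.LibThinT

open Filter Topology
open Pool.Agent.LibThin21

/-- Row I08d. WLOG `η ≤ 1`. `A = exp (2 ∑' rE) ≥ 1`, `η1 = η / (8 A)`. `y` with `SE E y v ≤ min (η1 / 4) (η / (432 A))` for all `v`
(`tail_small`), so `exp (2 SE E y v) ≤ 1 + η1`. `F` of `class_count` (`Q = QE E y`, `η1`). Lower bound: `count_lower`. Upper bound: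
`count_upper`, `sv_upper_nat` (with `η1`) and `V_facts`: with `V = V(EP E 0 y) = Q/φ(Q) ≤ A`, `X = N / log N`:
`cnt ≤ (1 + η1)^2 V X - (V - 1) (1 - η1) X ≤ (1 + 4 η1 V) X ≤ (1 + η) X`. Load: `load_sum` and
`∑_{e ∈ F} 1 / e ≤ V ≤ A` (`LibThin21.sum_inv_le_prod` with `P = EP E 0 y`, `QE_facts`). -/
theorem exists_scale {E : Set ℕ} {T : ℕ → ℕ} (hT : Len E T) (hs : Summable (rE E)) {η : ℝ}
    (hη : 0 < η) : ∃ (y : ℕ) (F : Finset ℕ), ∀ᶠ N : ℕ in atTop,
      (∀ α : ℕ → ℕ, (∀ p : ℕ, p ∉ E → α p = 0) → cnt α N ≤ (1 + η) * ((N : ℝ) / Real.log N) ∧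
        (1 - η) * ((N : ℝ) / Real.log N) ≤ cnt α N + bad E F y α N) ∧
      ∑ n ∈ Ls F N, ∑ p ∈ EP E y (Real.sqrt n), wt T p n ≤ η * ((N : ℝ) / Real.log N) := by
  set S : ℝ := ∑' p, rE E p with hS
  have hS0 : 0 ≤ S := tsum_nonneg (rE_nonneg E)
  set A : ℝ := Real.exp (2 * S) with hA
  have hA1 : 1 ≤ A := Real.one_le_exp (by positivity)
  have hA0 : 0 < A := by linarith
  set η' : ℝ := min η 1 with hη'
  have hη'0 : 0 < η' := lt_min hη one_pos
  have hη'1 : η' ≤ 1 := min_le_right _ _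
  have hη'2 : η' ≤ η := min_le_left _ _
  set η1 : ℝ := η' / (8 * A) with hη1d
  have hη1 : 0 < η1 := by positivity
  have hη1A : η1 * A = η' / 8 := by
    rw [hη1d]
    field_simp
  have hη1le : η1 ≤ η' / 8 := by
    rw [← hη1A]
    exact le_mul_of_one_le_right hη1.le hA1
  obtain ⟨y, hy⟩ := tail_small hs (ε := min (η1 / 4) (η' / (432 * A)))
    (lt_min (by positivity) (by positivity))
  obtain ⟨hVQ, hVA, hVv⟩ := V_facts hs y
  obtain ⟨hQ1, hQ2⟩ := QE_facts E y
  set V : ℝ := LSieve.V (EP E 0 y) with hVd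
  have hEPp : ∀ p ∈ EP E 0 (y : ℝ), p.Prime := fun p hp =>
    ((mem_EP (Nat.cast_nonneg y)).1 hp).1
  have hV1 : 1 ≤ V := LSieve.one_le_V hEPp
  obtain ⟨F, hF, hcc⟩ := class_count hQ1 hη1
  have hQ0 : QE E y ≠ 0 := hQ1.ne_zero
  have hmemEP : ∀ p : ℕ, p.Prime → p ∣ QE E y → p ∈ EP E 0 (y : ℝ) := by
    intro p hp hpd
    rw [← hQ2]
    exact Nat.mem_primeFactors.2 ⟨hp, hpd, hQ0⟩
  have hFy : ∀ e ∈ F, 1 ≤ e ∧ ∀ p : ℕ, p.Prime → p ∣ e → p ≤ y := by
    intro e he
    refine ⟨(hF e he).1, fun p hp hpe => ?_⟩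
    have h1 := hmemEP p hp ((hF e he).2 p hp hpe)
    have h2 := ((mem_EP (Nat.cast_nonneg y)).1 h1).2.2.2
    exact_mod_cast h2
  have hsum : ∑ e ∈ F, 1 / (e : ℝ) ≤ V := by
    apply sum_inv_le_prod _ hEPp
    intro e he
    refine ⟨by have := (hF e he).1; omega, fun p hp hpe => hmemEP p hp ((hF e he).2 p hp hpe)⟩
  refine ⟨y, F, ?_⟩
  filter_upwards [hcc, load_sum hT F y hFy, sv_upper_nat hs hη1,
    eventually_ge_atTop (max (y ^ 8) (F.sup (fun e => e ^ 4))), eventually_ge_atTop 3]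
    with N h1 h2 h3 h4 h5
  have hy8 : y ^ 8 ≤ N := (le_max_left _ _).trans h4
  have he4 : ∀ e ∈ F, e ^ 4 ≤ N := fun e he =>
    (Finset.le_sup (f := fun e => e ^ 4) he).trans ((le_max_right _ _).trans h4)
  have hN3 : (3 : ℝ) ≤ N := by exact_mod_cast h5
  have hlog : 0 < Real.log N := Real.log_pos (by linarith)
  set X : ℝ := (N : ℝ) / Real.log N with hX
  have hX0 : 0 < X := by positivity
  refine ⟨fun α hα => ⟨?_, ?_⟩, ?_⟩
  · have hu := count_upper hα hF he4 hy8 h1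
    rw [← hVQ] at hu
    have h6 : LSieve.V (EP E 0 (N : ℝ)) ≤ V * (1 + η1) := by
      refine (hVv (N : ℝ)).trans ?_
      apply mul_le_mul_of_nonneg_left _ (by linarith)
      have h7 : SE E y (N : ℝ) ≤ η1 / 4 := (hy _).trans (min_le_left _ _)
      have h8 : 2 * SE E y (N : ℝ) ≤ η1 / 2 := by linarith
      calc Real.exp (2 * SE E y (N : ℝ)) ≤ Real.exp (η1 / 2) := Real.exp_le_exp.2 h8
        _ ≤ 1 + η1 := by
          have h9 : |η1 / 2| ≤ 1 := by
            rw [abs_of_pos (by positivity)]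
            linarith
          have h10 := Real.abs_exp_sub_one_le h9
          rw [abs_of_pos (show 0 < η1 / 2 by positivity)] at h10
          have h11 := (abs_le.1 h10).2
          linarith
    have h7 : ((Sv E N).card : ℝ) ≤ (1 + η1) * (V * (1 + η1)) * X := by
      refine h3.trans ?_
      gcongr
    have h8 : cnt α N ≤ ((1 + η1) * (V * (1 + η1)) - (V - 1) * (1 - η1)) * X := by
      have : (V - 1) * (1 - η1) * X = (V - 1) * (1 - η1) * X := rfl
      rw [sub_mul]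
      linarith
    refine h8.trans ?_
    apply mul_le_mul_of_nonneg_right _ hX0.le
    have h9 : V * η1 ≤ η' / 8 := by
      rw [← hη1A, mul_comm]
      exact mul_le_mul_of_nonneg_left hVA hη1.le
    have h10 : V * η1 ^ 2 ≤ V * η1 := by
      apply mul_le_mul_of_nonneg_left _ (by linarith)
      nlinarith
    nlinarith
  · have hl := count_lower hα hF he4 h1
    refine le_trans ?_ hl
    apply mul_le_mul_of_nonneg_right _ hX0.le
    linarith
  · refine h2.trans ?_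
    apply mul_le_mul_of_nonneg_right _ hX0.le
    have h6 : SE E y (Real.sqrt N) ≤ η' / (432 * A) := (hy _).trans (min_le_right _ _)
    have h7 : 0 ≤ SE E y (Real.sqrt N) := SE_nonneg _ _ _
    calc 432 * (∑ e ∈ F, 1 / (e : ℝ)) * SE E y (Real.sqrt N)
        ≤ 432 * A * (η' / (432 * A)) := by
          gcongr
          exact hsum.trans hVA
      _ = η' := by field_simp
      _ ≤ η := hη'2

end Pool.Agent.LibThinT
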