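import Pool.Agent.LibThinT.InfDefs

set_option autoImplicit false

namespace Pool.Agent.LibThinT

open Filter Topology MeasureTheory ProbabilityTheory
open Pool.Agent.LibThin21
open scoped ENNReal

variable {Ω : Type*} [MeasurableSpace Ω] {μ : Measure Ω} [IsProbabilityMeasure μ] {E : Set ℕ}
  {T : ℕ → ℕ} {a : ℕ → Ω → ℕ}

theorem i09_ae (hM : ModelT μ E T a) (hT : Len E T) {p : ℕ} (hp : p.Prime) (hE : p ∈ E) :
    ∀ᵐ ω ∂μ, a p ω < T p := by
  have hpos : 0 < T p := (hT p hp hE).1
  have hmeas : ∀ r, MeasurableSet {ω | a p ω = r} := fun r =>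
    hM.meas p (measurableSet_singleton r)
  have hU : {ω | a p ω < T p} = ⋃ r ∈ Finset.range (T p), {ω | a p ω = r} := by
    ext ω; simp
  have hmeasG : MeasurableSet {ω | a p ω < T p} := by
    rw [hU]
    exact Finset.measurableSet_biUnion _ (fun r _ => hmeas r)
  have hμ : μ {ω | a p ω < T p} = 1 := by
    rw [hU, measure_biUnion_finset]
    · rw [Finset.sum_congr rfl (fun r hr => hM.unif p hp hE r (Finset.mem_range.1 hr))]
      rw [Finset.sum_const, Finset.card_range, nsmul_eq_mul]
      apply ENNReal.mul_inv_cancel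
      · exact_mod_cast hpos.ne'
      · exact ENNReal.natCast_ne_top _
    · intro r _ s _ hrs
      rw [Function.onFun, Set.disjoint_left]
      intro ω h1 h2
      apply hrs
      rw [← (h1 : a p ω = r), (h2 : a p ω = s)]
    · intro r _
      exact hmeas r
  have h0 : μ ({ω | a p ω < T p}ᶜ) = 0 := (prob_compl_eq_zero_iff hmeasG).2 hμ
  exact h0

/-- Row I09a. The sets `{a p = r}`, `r < T p`, are disjoint with total probability `T p * (T p)⁻¹ = 1`, so `a p < T p` almost
surely. As `a p < T p ≤ p`: `n ≡ a p [MOD p]` iff `a p = n % p`, which has probability `1 / T p` if `n % p < T p` and `0`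
otherwise. -/
theorem prob_mod (hM : ModelT μ E T a) (hT : Len E T) {p : ℕ} (hp : p.Prime) (hE : p ∈ E) (n : ℕ) :
    μ.real {ω | n ≡ a p ω [MOD p]} = wt T p n := by
  have hle : T p ≤ p := (hT p hp hE).2
  have hG := i09_ae hM hT hp hE
  unfold wt
  split_ifs with h
  · have hS : {ω | n ≡ a p ω [MOD p]} =ᵐ[μ] {ω | a p ω = n % p} := by
      filter_upwards [hG] with ω hω
      apply propext
      change n % p = a p ω % p ↔ a p ω = n % p
      rw [Nat.mod_eq_of_lt (lt_of_lt_of_le hω hle)]
      exact eq_comm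
    rw [measureReal_congr hS, measureReal_def, hM.unif p hp hE _ h]
    simp
  · have hS : {ω | n ≡ a p ω [MOD p]} =ᵐ[μ] (∅ : Set Ω) := by
      filter_upwards [hG] with ω hω
      apply propext
      change n % p = a p ω % p ↔ False
      rw [Nat.mod_eq_of_lt (lt_of_lt_of_le hω hle)]
      constructor
      · intro he
        exact h (he ▸ hω)
      · exact False.elim
    rw [measureReal_congr hS]
    simp

end Pool.Agent.LibThinT
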