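import Pool.Agent.LibThinT.InfDefs

set_option autoImplicit false

namespace Pool.Agent.LibThinT

open Filter Topology MeasureTheory ProbabilityTheory
open Pool.Agent.LibThin21
open scoped ENNReal

variable {Ω : Type*} [MeasurableSpace Ω] {μ : Measure Ω} [IsProbabilityMeasure μ] {E : Set ℕ}
  {T : ℕ → ℕ} {a : ℕ → Ω → ℕ}

theorem i09b_sifted (ha : ∀ p, Measurable (a p)) (n : ℕ) :
    MeasurableSet {ω | n ∈ sifted (fun p => a p ω)} := by
  have h : {ω | n ∈ sifted (fun p => a p ω)} =
      ⋂ p : ℕ, {ω | p.Prime → p ^ 2 ≤ n → ¬ n ≡ a p ω [MOD p]} := by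
    ext ω
    simp [sifted]
  rw [h]
  refine MeasurableSet.iInter fun p => ?_
  by_cases h1 : p.Prime ∧ p ^ 2 ≤ n
  · have h2 : {ω | p.Prime → p ^ 2 ≤ n → ¬ n ≡ a p ω [MOD p]} =
        (a p) ⁻¹' {r | ¬ n ≡ r [MOD p]} := by
      ext ω
      constructor
      · intro h3
        exact h3 h1.1 h1.2
      · intro h3 _ _
        exact h3
    rw [h2]
    exact ha p (MeasurableSet.of_discrete)
  · have h2 : {ω | p.Prime → p ^ 2 ≤ n → ¬ n ≡ a p ω [MOD p]} = Set.univ := by
      ext ω
      simp only [Set.mem_univ, iff_true]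
      intro h3 h4
      exact absurd ⟨h3, h4⟩ h1
    rw [h2]
    exact MeasurableSet.univ

theorem i09b_removed (ha : ∀ p, Measurable (a p)) (s : Finset ℕ) (n : ℕ) :
    MeasurableSet {ω | ∃ p ∈ s, n ≡ a p ω [MOD p]} := by
  have h : {ω | ∃ p ∈ s, n ≡ a p ω [MOD p]} = ⋃ p ∈ s, (a p) ⁻¹' {r | n ≡ r [MOD p]} := by
    ext ω
    simp
  rw [h]
  exact Finset.measurableSet_biUnion _ fun p _ => ha p (MeasurableSet.of_discrete)

theorem i09b_le (s : Finset ℕ) (p : ℕ → Prop) {_ : DecidablePred p} :
    ((s.filter p).card : ℝ) ≤ (s.card : ℝ) := by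
  exact_mod_cast Finset.card_filter_le s p

open Classical in
theorem i09b_card (s : Finset ℕ) (A : ℕ → Set Ω) (hA : ∀ n, MeasurableSet (A n)) :
    Measurable (fun ω => (((s.filter (fun n => ω ∈ A n)).card : ℝ))) := by
  have h : (fun ω => (((s.filter (fun n => ω ∈ A n)).card : ℝ))) =
      fun ω => ∑ n ∈ s, (A n).indicator (fun _ => (1 : ℝ)) ω := by
    funext ω
    rw [Finset.card_filter]
    push_cast
    refine Finset.sum_congr rfl fun n _ => ?_
    by_cases h1 : ω ∈ A n
    · simp [h1]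
    · simp [h1]
  rw [h]
  exact Finset.measurable_sum s fun n _ => measurable_const.indicator (hA n)

/-- Row I09b. Measurability: finite sums of indicators; `{ω | n ∈ sifted (a · ω)}` is a countable intersection of
measurable sets (`LibThin21.D1_meas` in `LibThin21/D1.lean`; you may import it or copy it). -/
theorem measurable_cnt (ha : ∀ p, Measurable (a p)) (N : ℕ) :
    Measurable (fun ω => cnt (fun p => a p ω) N) :=
  i09b_card (Finset.Icc 1 N) (fun n => {ω | n ∈ sifted (fun p => a p ω)})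
    (fun n => i09b_sifted ha n)

theorem measurable_bad (ha : ∀ p, Measurable (a p)) (E : Set ℕ) (F : Finset ℕ) (y N : ℕ) :
    Measurable (fun ω => bad E F y (fun p => a p ω) N) := by
  have h := i09b_card (Ls F N) (fun n => {ω | ∃ p ∈ EP E y (Real.sqrt n), n ≡ a p ω [MOD p]})
    (fun n => i09b_removed ha (EP E y (Real.sqrt n)) n)
  refine (congrArg Measurable (funext fun ω => ?_)).mp h
  unfold bad
  refine congrArg (fun s : Finset ℕ => (s.card : ℝ)) ?_
  ext n
  simp only [Finset.mem_filter]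
  rfl

/-- bounded (`0 ≤ cnt ≤ N`) and measurable, hence integrable -/
theorem integrable_cnt (ha : ∀ p, Measurable (a p)) (N : ℕ) :
    Integrable (fun ω => cnt (fun p => a p ω) N) μ := by
  refine Integrable.of_bound (measurable_cnt ha N).aestronglyMeasurable
    ((Finset.Icc 1 N).card : ℝ) (Filter.Eventually.of_forall fun ω => ?_)
  unfold cnt
  rw [Real.norm_eq_abs, abs_of_nonneg (Nat.cast_nonneg _)]
  exact i09b_le _ _

theorem integrable_bad (ha : ∀ p, Measurable (a p)) (E : Set ℕ) (F : Finset ℕ) (y N : ℕ) :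
    Integrable (fun ω => bad E F y (fun p => a p ω) N) μ := by
  refine Integrable.of_bound (measurable_bad ha E F y N).aestronglyMeasurable
    ((Ls F N).card : ℝ) (Filter.Eventually.of_forall fun ω => ?_)
  unfold bad
  rw [Real.norm_eq_abs, abs_of_nonneg (Nat.cast_nonneg _)]
  exact i09b_le _ _

end Pool.Agent.LibThinT
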