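import Pool.Agent.LibThinT.I09
import Pool.Agent.LibThinT.I09b

set_option autoImplicit false

namespace Pool.Agent.LibThinT

open Filter Topology MeasureTheory ProbabilityTheory
open Pool.Agent.LibThin21
open scoped ENNReal

variable {Ω : Type*} [MeasurableSpace Ω] {μ : Measure Ω} [IsProbabilityMeasure μ] {E : Set ℕ}
  {T : ℕ → ℕ} {a : ℕ → Ω → ℕ}

/-- Union bound: the expectation is `∑_n μ {∃ p ∈ EP E y (√n), n ≡ a p} ≤ ∑_n ∑_p wt T p n` (`prob_mod`; compare
`LibThin21.integral_card_filter` in `LibThin21/D6.lean`). -/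
theorem expect_bad (hM : ModelT μ E T a) (hT : Len E T) (F : Finset ℕ) (y N : ℕ) :
    ∫ ω, bad E F y (fun p => a p ω) N ∂μ ≤
      ∑ n ∈ Ls F N, ∑ p ∈ EP E y (Real.sqrt n), wt T p n := by
  classical
  have hms : ∀ n p : ℕ, MeasurableSet {ω | n ≡ a p ω [MOD p]} := fun n p =>
    (hM.meas p) (MeasurableSet.of_discrete (s := {k : ℕ | n ≡ k [MOD p]}))
  have hint : ∀ n p : ℕ, Integrable
      ({ω | n ≡ a p ω [MOD p]}.indicator (fun _ => (1 : ℝ))) μ := fun n p =>
    (integrable_const (1 : ℝ)).indicator (hms n p)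
  have hpt : ∀ ω, bad E F y (fun p => a p ω) N ≤
      ∑ n ∈ Ls F N, ∑ p ∈ EP E y (Real.sqrt n),
        ({ω | n ≡ a p ω [MOD p]}.indicator (fun _ => (1 : ℝ))) ω := by
    intro ω
    have hind : ∀ n p : ℕ,
        0 ≤ ({ω | n ≡ a p ω [MOD p]}.indicator (fun _ => (1 : ℝ))) ω := fun n p =>
      Set.indicator_nonneg (fun _ _ => zero_le_one) ω
    unfold bad
    rw [Finset.card_filter]
    push_cast
    refine Finset.sum_le_sum fun n _ => ?_
    split_ifs with h
    · obtain ⟨p, hp, hnp⟩ := h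
      have h1 : ({ω | n ≡ a p ω [MOD p]}.indicator (fun _ => (1 : ℝ))) ω = 1 :=
        Set.indicator_of_mem (show ω ∈ {ω | n ≡ a p ω [MOD p]} from hnp) _
      refine (le_of_eq h1.symm).trans ?_
      exact Finset.single_le_sum (f := fun p =>
        ({ω | n ≡ a p ω [MOD p]}.indicator (fun _ => (1 : ℝ))) ω) (fun q _ => hind n q) hp
    · exact Finset.sum_nonneg fun p _ => hind n p
  have h1 : ∫ ω, bad E F y (fun p => a p ω) N ∂μ ≤
      ∫ ω, ∑ n ∈ Ls F N, ∑ p ∈ EP E y (Real.sqrt n),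
        ({ω | n ≡ a p ω [MOD p]}.indicator (fun _ => (1 : ℝ))) ω ∂μ := by
    refine integral_mono_of_nonneg (Filter.Eventually.of_forall fun ω => ?_) ?_
      (Filter.Eventually.of_forall hpt)
    · exact Nat.cast_nonneg _
    · exact integrable_finsetSum _ fun n _ => integrable_finsetSum _ fun p _ => hint n p
  refine h1.trans (le_of_eq ?_)
  rw [integral_finsetSum _ fun n _ => integrable_finsetSum _ fun p _ => hint n p]
  refine Finset.sum_congr rfl fun n _ => ?_
  rw [integral_finsetSum _ fun p _ => hint n p]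
  refine Finset.sum_congr rfl fun p hp => ?_
  unfold EP at hp
  rw [Finset.mem_filter] at hp
  rw [integral_indicator_const _ (hms n p), smul_eq_mul, mul_one]
  exact prob_mod hM hT hp.2.1 hp.2.2.1 n

end Pool.Agent.LibThinT
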