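import Pool.Agent.LibThinT.I08
import Pool.Agent.LibThinT.I09c

set_option autoImplicit false

namespace Pool.Agent.LibThinT

open Filter Topology MeasureTheory ProbabilityTheory
open Pool.Agent.LibThin21

variable {Ω : Type*} [MeasurableSpace Ω] {μ : Measure Ω} [IsProbabilityMeasure μ] {E : Set ℕ}
  {T : ℕ → ℕ} {a : ℕ → Ω → ℕ}

omit [IsProbabilityMeasure μ] in
private lemma i10_meas (hM : ModelT μ E T a) (y n : ℕ) :
    MeasurableSet {ω | ∃ p ∈ EP E y (Real.sqrt n), n ≡ a p ω [MOD p]} := by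
  have : {ω | ∃ p ∈ EP E y (Real.sqrt n), n ≡ a p ω [MOD p]} =
      ⋃ p ∈ EP E y (Real.sqrt n), (a p) ⁻¹' {x : ℕ | n ≡ x [MOD p]} := by
    ext ω
    simp
  rw [this]
  exact Finset.measurableSet_biUnion _ (fun p _ => hM.meas p (MeasurableSet.of_discrete))

private lemma i10_int (hM : ModelT μ E T a) (F : Finset ℕ) (y N : ℕ) :
    Integrable (fun ω => bad E F y (fun p => a p ω) N) μ := by
  classical
  have hfun : (fun ω => bad E F y (fun p => a p ω) N) = fun ω => ∑ n ∈ Ls F N,
      Set.indicator {ω | ∃ p ∈ EP E y (Real.sqrt n), n ≡ a p ω [MOD p]} (fun _ => (1 : ℝ)) ω := by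
    funext ω
    unfold bad
    rw [Finset.card_filter, Nat.cast_sum]
    refine Finset.sum_congr rfl (fun n _ => ?_)
    by_cases h : ∃ p ∈ EP E y (Real.sqrt n), n ≡ a p ω [MOD p]
    · rw [Set.indicator_of_mem (by exact h)]
      simp [h]
    · rw [Set.indicator_of_notMem (by exact h)]
      simp only [h, if_false, Nat.cast_zero]
  rw [hfun]
  exact integrable_finsetSum _ (fun n _ =>
    (integrable_const (1 : ℝ)).indicator (i10_meas hM y n))

/-- Row I10a. Given `ε`, take `η = ε / 3` in `exists_scale`. Write `X = N / log N > 0`, `c = cnt / X`, `z = bad / X ≥ 0`. Surely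
`1 - η - z ≤ c ≤ 1 + η`, so `|c - 1| ≤ η + z`; the expectation of `z` is `≤ η` (`expect_bad`). So the integral is `≤ 2 η < ε`. -/
theorem density_L1 (hM : ModelT μ E T a) (hT : Len E T) (hs : Summable (rE E)) :
    Tendsto (fun N : ℕ => ∫ ω, |cnt (fun p => a p ω) N * Real.log N / N - 1| ∂μ) atTop (𝓝 0) := by
  rw [Metric.tendsto_nhds]
  intro ε hε
  obtain ⟨y, F, hyF⟩ := exists_scale hT hs (show (0 : ℝ) < ε / 3 by positivity)
  filter_upwards [hyF, eventually_ge_atTop 3] with N hN hN3
  have hNR : (3 : ℝ) ≤ (N : ℝ) := by exact_mod_cast hN3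
  have hN0 : (0 : ℝ) < (N : ℝ) := by linarith
  have hlog : 0 < Real.log N := Real.log_pos (by linarith)
  set X : ℝ := (N : ℝ) / Real.log N with hX
  have hXpos : 0 < X := div_pos hN0 hlog
  have hnn : 0 ≤ ∫ ω, |cnt (fun p => a p ω) N * Real.log N / N - 1| ∂μ :=
    integral_nonneg (fun ω => abs_nonneg _)
  rw [Real.dist_eq, sub_zero, abs_of_nonneg hnn]
  have hbound : ∀ ω, |cnt (fun p => a p ω) N * Real.log N / N - 1| ≤
      ε / 3 + (bad E F y (fun p => a p ω) N) / X := by
    intro ω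
    obtain ⟨h1, h2⟩ := hN.1 (fun p => a p ω) (fun p hp => hM.zero p hp ω)
    have hb0 : 0 ≤ bad E F y (fun p => a p ω) N := by unfold bad; positivity
    have e1 : cnt (fun p => a p ω) N * Real.log N / N = cnt (fun p => a p ω) N / X := by
      rw [hX]; field_simp
    rw [e1]
    have hc1 : cnt (fun p => a p ω) N / X ≤ 1 + ε / 3 := by
      rw [div_le_iff₀ hXpos]; exact h1
    have hc2 : 1 - ε / 3 ≤ cnt (fun p => a p ω) N / X + bad E F y (fun p => a p ω) N / X := by
      rw [← add_div, le_div_iff₀ hXpos]; exact h2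
    have hb1 : 0 ≤ bad E F y (fun p => a p ω) N / X := div_nonneg hb0 hXpos.le
    rw [abs_le]
    constructor <;> linarith
  have hint : Integrable (fun ω => ε / 3 + (bad E F y (fun p => a p ω) N) / X) μ :=
    (integrable_const _).add ((i10_int hM F y N).div_const X)
  have hle : ∫ ω, |cnt (fun p => a p ω) N * Real.log N / N - 1| ∂μ ≤
      ∫ ω, (ε / 3 + (bad E F y (fun p => a p ω) N) / X) ∂μ :=
    integral_mono_of_nonneg (Eventually.of_forall (fun ω => abs_nonneg _)) hint
      (Eventually.of_forall hbound)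
  have heq : ∫ ω, (ε / 3 + (bad E F y (fun p => a p ω) N) / X) ∂μ =
      ε / 3 + (∫ ω, bad E F y (fun p => a p ω) N ∂μ) / X := by
    rw [integral_add (integrable_const _) ((i10_int hM F y N).div_const X)]
    congr 1
    · simp
    · exact integral_div X _
  have hz : (∫ ω, bad E F y (fun p => a p ω) N ∂μ) / X ≤ ε / 3 := by
    rw [div_le_iff₀ hXpos]
    exact (expect_bad hM hT F y N).trans hN.2
  calc _ ≤ _ := hle
    _ = _ := heq
    _ ≤ ε / 3 + ε / 3 := by linarith
    _ < ε := by linarith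

end Pool.Agent.LibThinT
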