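import Pool.Agent.LibThinT.I10

set_option autoImplicit false

namespace Pool.Agent.LibThinT

open Filter Topology MeasureTheory ProbabilityTheory
open Pool.Agent.LibThin21

variable {Ω : Type*} [MeasurableSpace Ω] {μ : Measure Ω} [IsProbabilityMeasure μ] {E : Set ℕ}
  {T : ℕ → ℕ} {a : ℕ → Ω → ℕ}

/-- Row I10b. `|(∫ cnt) log N / N - 1| ≤ ∫ |cnt log N / N - 1|`. -/
theorem density (hM : ModelT μ E T a) (hT : Len E T) (hs : Summable (rE E)) :
    Tendsto (fun N : ℕ => (∫ ω, cnt (fun p => a p ω) N ∂μ) * Real.log N / N) atTop (𝓝 1) := by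
  have hI := density_L1 hM hT hs
  rw [tendsto_iff_norm_sub_tendsto_zero]
  refine squeeze_zero (fun N => norm_nonneg _) (fun N => ?_) hI
  have hc : Integrable (fun ω => cnt (fun p => a p ω) N) μ := integrable_cnt hM.meas N
  have e : (∫ ω, cnt (fun p => a p ω) N ∂μ) * Real.log N / N - 1
      = ∫ ω, (cnt (fun p => a p ω) N * Real.log N / N - 1) ∂μ := by
    rw [integral_sub ((hc.mul_const _).div_const _) (integrable_const _), integral_div,
      integral_mul_const, integral_const]
    simp
  rw [e, Real.norm_eq_abs]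
  exact abs_integral_le_integral_abs

/-- Row I10c. Let `A m` be the event that no element of the sifted set is larger than `m` (measurable). On `A m`,
`cnt ≤ m`, so `cnt * log N / N ≤ 1/2` for `N ≥ N(m)` and the integrand of `density_L1` is `≥ 1/2`: `μ (A m) ≤ 2 ∫ |...| → 0`, so
`μ (A m) = 0`. The set is finite iff some `A m` holds. -/
theorem ae_infinite (hM : ModelT μ E T a) (hT : Len E T) (hs : Summable (rE E)) :
    ∀ᵐ ω ∂μ, (sifted (fun p => a p ω)).Infinite := by
  classical
  have hI := density_L1 hM hT hs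
  have hA : ∀ m : ℕ, μ {ω | ∀ n ∈ sifted (fun p => a p ω), n ≤ m} = 0 := by
    intro m
    have hcnt : ∀ ω, (∀ n ∈ sifted (fun p => a p ω), n ≤ m) → ∀ N : ℕ,
        cnt (fun p => a p ω) N ≤ m := by
      intro ω hω N
      unfold cnt
      have h1 : ((Finset.Icc 1 N).filter (fun n => n ∈ sifted (fun p => a p ω))) ⊆
          Finset.Icc 1 m := by
        intro n hn
        obtain ⟨h2, h3⟩ := Finset.mem_filter.1 hn
        exact Finset.mem_Icc.2 ⟨(Finset.mem_Icc.1 h2).1, hω n h3⟩
      have h2 := Finset.card_le_card h1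
      rw [Nat.card_Icc, Nat.add_sub_cancel] at h2
      exact_mod_cast h2
    have hlog : ∀ᶠ N : ℕ in atTop, (m : ℝ) * Real.log N / N ≤ 1 / 2 := by
      have h1 : Tendsto (fun x : ℝ => Real.log x / x) atTop (𝓝 0) :=
        Real.isLittleO_log_id_atTop.tendsto_div_nhds_zero
      have h2 : Tendsto (fun N : ℕ => (m : ℝ) * (Real.log N / N)) atTop (𝓝 ((m : ℝ) * 0)) :=
        (h1.comp tendsto_natCast_atTop_atTop).const_mul _
      rw [mul_zero] at h2
      have h3 := h2.eventually (Iio_mem_nhds (show (0 : ℝ) < 1 / 2 by norm_num))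
      filter_upwards [h3] with N hN
      have h4 : (m : ℝ) * (Real.log N / N) < 1 / 2 := hN
      rw [mul_div_assoc]
      exact h4.le
    have hlim : Tendsto (fun N : ℕ => 2 * ∫ ω, |cnt (fun p => a p ω) N * Real.log N / N - 1| ∂μ)
        atTop (𝓝 (2 * 0)) := hI.const_mul 2
    rw [mul_zero] at hlim
    have hle : ∀ᶠ N : ℕ in atTop, μ.real {ω | ∀ n ∈ sifted (fun p => a p ω), n ≤ m} ≤
        2 * ∫ ω, |cnt (fun p => a p ω) N * Real.log N / N - 1| ∂μ := by
      filter_upwards [hlog, eventually_ge_atTop 1] with N hN hN1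
      have hc : Integrable (fun ω => cnt (fun p => a p ω) N) μ := integrable_cnt hM.meas N
      have hf : Integrable (fun ω => |cnt (fun p => a p ω) N * Real.log N / N - 1|) μ :=
        (((hc.mul_const _).div_const _).sub (integrable_const _)).abs
      have h1 := mul_meas_ge_le_integral_of_nonneg (μ := μ)
        (f := fun ω => |cnt (fun p => a p ω) N * Real.log N / N - 1|)
        (Filter.Eventually.of_forall fun ω => abs_nonneg _) hf (1 / 2)
      have h2 : μ.real {ω | ∀ n ∈ sifted (fun p => a p ω), n ≤ m} ≤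
          μ.real {ω | 1 / 2 ≤ |cnt (fun p => a p ω) N * Real.log N / N - 1|} := by
        refine measureReal_mono ?_ (measure_ne_top _ _)
        intro ω hω
        have h3 := hcnt ω hω N
        have hlN : 0 ≤ Real.log (N : ℝ) := Real.log_nonneg (by exact_mod_cast hN1)
        have h4 : cnt (fun p => a p ω) N * Real.log N / N ≤ 1 / 2 := by
          refine le_trans ?_ hN
          exact div_le_div_of_nonneg_right (mul_le_mul_of_nonneg_right h3 hlN) (Nat.cast_nonneg _)
        show 1 / 2 ≤ |cnt (fun p => a p ω) N * Real.log N / N - 1|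
        rw [abs_sub_comm]
        refine le_trans ?_ (le_abs_self _)
        linarith
      linarith
    have h0 : μ.real {ω | ∀ n ∈ sifted (fun p => a p ω), n ≤ m} ≤ 0 := ge_of_tendsto hlim hle
    have h1 : μ.real {ω | ∀ n ∈ sifted (fun p => a p ω), n ≤ m} = 0 :=
      le_antisymm h0 measureReal_nonneg
    exact (measureReal_eq_zero_iff (measure_ne_top _ _)).1 h1
  rw [ae_iff]
  refine measure_mono_null ?_ (measure_iUnion_null hA)
  intro ω hω
  have hfin : (sifted (fun p => a p ω)).Finite := Set.not_infinite.1 hω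
  obtain ⟨m, hm⟩ := hfin.bddAbove
  exact Set.mem_iUnion.2 ⟨m, fun n hn => hm hn⟩

end Pool.Agent.LibThinT
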