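import Pool.Agent.LibThinT.I03b

set_option autoImplicit false

namespace Pool.Agent.LibThinT

open Filter Topology MeasureTheory ProbabilityTheory
open Pool.Agent.LibThin21

variable {Ω : Type*} [MeasurableSpace Ω] {μ : Measure Ω} [IsProbabilityMeasure μ] {E : Set ℕ}
  {T : ℕ → ℕ} {a : ℕ → Ω → ℕ}

/-- Row I11a. One fixed prime `p`. For `N > p ^ 4` the primes `n ∈ Pr 1 N` are `> p`, so `n % p ∈ [1, p - 1]`, and
`∑ wt = (1 / T p) ∑_{s ∈ [1, T p)} #{n ∈ Pr 1 N : n ≡ s [MOD p]} ≤ ((T p - 1) / T p) (1 + η) / (p - 1) * N / log N`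
(`ap_upper` with `q = p`, finitely many `s < p`), and `(T - 1) / (T (p - 1)) ≤ 1 / p` for `1 ≤ T ≤ p`. -/
theorem prime_load_one {p : ℕ} (hp : p.Prime) {T : ℕ → ℕ} (hT : 1 ≤ T p ∧ T p ≤ p) {η : ℝ}
    (hη : 0 < η) : ∀ᶠ N : ℕ in atTop, ∑ n ∈ Pr 1 N, wt T p n ≤
      (1 + η) / (p : ℝ) * ((N : ℝ) / Real.log N) := by
  classical
  obtain ⟨hT1, hTp⟩ := hT
  have hev : ∀ᶠ N : ℕ in atTop, ∀ s ∈ Finset.Ico 1 (T p),
      (((Pr 1 N).filter (fun π => π ≡ s [MOD p])).card : ℝ) ≤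
        (1 + η) / (p.totient : ℝ) * ((N : ℝ) / Real.log N) := by
    rw [Filter.eventually_all_finset]
    intro s hs
    obtain ⟨hs1, hs2⟩ := Finset.mem_Ico.1 hs
    refine ap_upper p hp.pos s ?_ hη
    have hlt : s < p := lt_of_lt_of_le hs2 hTp
    exact ((Nat.Prime.coprime_iff_not_dvd hp).2
      (Nat.not_dvd_of_pos_of_lt (by omega) hlt)).symm
  filter_upwards [hev, eventually_ge_atTop (p ^ 4), eventually_ge_atTop 2] with N hN hNp hN2
  have hTR : (0 : ℝ) < (T p : ℝ) := by exact_mod_cast hT1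
  have hpR : (1 : ℝ) < (p : ℝ) := by exact_mod_cast hp.one_lt
  have hX : 0 ≤ (N : ℝ) / Real.log N := by
    have : 0 ≤ Real.log (N : ℝ) := Real.log_nonneg (by exact_mod_cast (by omega : 1 ≤ N))
    positivity
  have hle : ∀ n ∈ Pr 1 N, wt T p n =
      ∑ s ∈ Finset.Ico 1 (T p), (if n ≡ s [MOD p] then 1 / (T p : ℝ) else 0) := by
    intro n hn
    obtain ⟨hn1, hn2, hn3⟩ := (mem_Pr le_rfl).1 hn
    have hpn : p < n := by
      by_contra hcon
      push Not at hcon
      have := Nat.pow_le_pow_left hcon 4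
      omega
    have hmod : n % p ≠ 0 := by
      intro h0
      have hdvd : p ∣ n := Nat.dvd_of_mod_eq_zero h0
      rcases (Nat.dvd_prime hn1).1 hdvd with h | h
      · exact hp.one_lt.ne' h
      · omega
    unfold wt
    by_cases hlt : n % p < T p
    · rw [if_pos hlt, Finset.sum_eq_single (n % p)]
      · rw [if_pos (Nat.mod_modEq n p).symm]
      · intro s hs hne
        rw [if_neg]
        intro hcon
        apply hne
        have h1 : n % p = s % p := hcon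
        have h2 : s < p := lt_of_lt_of_le (Finset.mem_Ico.1 hs).2 hTp
        rw [Nat.mod_eq_of_lt h2] at h1
        exact h1.symm
      · intro hcon
        exact absurd (Finset.mem_Ico.2 ⟨by omega, hlt⟩) hcon
    · rw [if_neg hlt]
      symm
      refine Finset.sum_eq_zero fun s hs => ?_
      rw [if_neg]
      intro hcon
      apply hlt
      have h1 : n % p = s % p := hcon
      have h2 : s < p := lt_of_lt_of_le (Finset.mem_Ico.1 hs).2 hTp
      rw [Nat.mod_eq_of_lt h2] at h1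
      rw [h1]
      exact (Finset.mem_Ico.1 hs).2
  have h1 : ∑ n ∈ Pr 1 N, wt T p n = ∑ s ∈ Finset.Ico 1 (T p),
      (((Pr 1 N).filter (fun π => π ≡ s [MOD p])).card : ℝ) * (1 / (T p : ℝ)) := by
    rw [Finset.sum_congr rfl hle, Finset.sum_comm]
    refine Finset.sum_congr rfl fun s hs => ?_
    rw [← Finset.sum_filter, Finset.sum_const, nsmul_eq_mul]
  rw [h1]
  have h2 : ∑ s ∈ Finset.Ico 1 (T p),
      (((Pr 1 N).filter (fun π => π ≡ s [MOD p])).card : ℝ) * (1 / (T p : ℝ)) ≤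
      ∑ s ∈ Finset.Ico 1 (T p),
        ((1 + η) / (p.totient : ℝ) * ((N : ℝ) / Real.log N)) * (1 / (T p : ℝ)) :=
    Finset.sum_le_sum fun s hs => mul_le_mul_of_nonneg_right (hN s hs) (by positivity)
  refine h2.trans ?_
  rw [Finset.sum_const, Nat.card_Ico, nsmul_eq_mul, Nat.totient_prime hp,
    Nat.cast_sub hT1, Nat.cast_sub hp.one_lt.le, Nat.cast_one]
  have hTp' : (T p : ℝ) ≤ (p : ℝ) := by exact_mod_cast hTp
  have hp1 : (0 : ℝ) < (p : ℝ) - 1 := by linarith
  have key : ((T p : ℝ) - 1) * (1 / (T p : ℝ)) * (1 / ((p : ℝ) - 1)) ≤ 1 / (p : ℝ) := by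
    rw [mul_one_div, mul_one_div, div_div, div_le_div_iff₀ (by positivity) (by linarith)]
    nlinarith
  calc ((T p : ℝ) - 1) * ((1 + η) / ((p : ℝ) - 1) * ((N : ℝ) / Real.log N) * (1 / (T p : ℝ)))
      = (((T p : ℝ) - 1) * (1 / (T p : ℝ)) * (1 / ((p : ℝ) - 1))) *
        ((1 + η) * ((N : ℝ) / Real.log N)) := by ring
    _ ≤ 1 / (p : ℝ) * ((1 + η) * ((N : ℝ) / Real.log N)) :=
        mul_le_mul_of_nonneg_right key (by positivity)
    _ = (1 + η) / (p : ℝ) * ((N : ℝ) / Real.log N) := by ring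

end Pool.Agent.LibThinT
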