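import Pool.Agent.LibThinT.I02b
import Pool.Agent.LibThinT.I08a
import Pool.Agent.LibThinT.I11a

set_option autoImplicit false

namespace Pool.Agent.LibThinT

open Filter Topology MeasureTheory ProbabilityTheory
open Pool.Agent.LibThin21

variable {Ω : Type*} [MeasurableSpace Ω] {μ : Measure Ω} [IsProbabilityMeasure μ] {E : Set ℕ}
  {T : ℕ → ℕ} {a : ℕ → Ω → ℕ}

private lemma i11b_wt_nonneg (T : ℕ → ℕ) (p v : ℕ) : 0 ≤ wt T p v := by
  unfold wt
  split_ifs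
  · positivity
  · exact le_rfl

private lemma i11b_Ls (N : ℕ) : Ls {1} N = Pr 1 N := by
  unfold Ls
  rw [Finset.singleton_biUnion]
  have : (fun π : ℕ => 1 * π) = id := by funext π; simp
  rw [this, Finset.image_id]

/-- Row I11b. Split `EP E 0 (√n)` at `y` (`tail_small`, `SE E y v ≤ η / 1000`): the primes `p ≤ y` by `prime_load_one` (drop the
condition `p ≤ √n`, nonnegative terms, exchange the sums; `∑_{p ∈ E, p ≤ y} 1/p ≤ ∑' rE`), the primes `p > y` by `load_sum` with `F = {1}`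
(`Ls {1} N = Pr 1 N`). -/
theorem prime_load (hT : Len E T) (hs : Summable (rE E)) {η : ℝ} (hη : 0 < η) :
    ∀ᶠ N : ℕ in atTop, ∑ n ∈ Pr 1 N, ∑ p ∈ EP E 0 (Real.sqrt n), wt T p n ≤
      (∑' p, rE E p + η) * ((N : ℝ) / Real.log N) := by
  obtain ⟨y, hy⟩ := tail_small hs (show (0 : ℝ) < η / 1000 by positivity)
  set S : ℝ := ∑' p, rE E p with hS
  have hS0 : 0 ≤ S := tsum_nonneg (rE_nonneg E)
  set η1 : ℝ := η / (2 * (S + 1)) with hη1
  have hη1pos : 0 < η1 := by positivity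
  have hη1S : η1 * S ≤ η / 2 := by
    rw [hη1, div_mul_eq_mul_div, div_le_iff₀ (by positivity)]
    nlinarith
  have hall : ∀ᶠ N : ℕ in atTop, ∀ p ∈ EP E 0 (y : ℝ), ∑ n ∈ Pr 1 N, wt T p n ≤
      (1 + η1) / (p : ℝ) * ((N : ℝ) / Real.log N) := by
    rw [Filter.eventually_all_finset]
    intro p hp
    rw [mem_EP (Nat.cast_nonneg y)] at hp
    exact prime_load_one hp.1 (hT p hp.1 hp.2.1) hη1pos
  have hload := load_sum hT {1} y (by
    intro e he
    rw [Finset.mem_singleton] at he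
    subst he
    refine ⟨le_rfl, fun p hp hd => ?_⟩
    exact absurd (Nat.dvd_one.1 hd) hp.one_lt.ne')
  filter_upwards [hall, hload] with N h1 h2
  set X : ℝ := (N : ℝ) / Real.log N with hX
  have hX0 : 0 ≤ X := div_nonneg (Nat.cast_nonneg N) (Real.log_natCast_nonneg N)
  rw [i11b_Ls] at h2
  have hA : ∑ n ∈ Pr 1 N, ∑ p ∈ EP E 0 (y : ℝ), wt T p n ≤ (1 + η1) * S * X := by
    rw [Finset.sum_comm]
    calc ∑ p ∈ EP E 0 (y : ℝ), ∑ n ∈ Pr 1 N, wt T p n
        ≤ ∑ p ∈ EP E 0 (y : ℝ), (1 + η1) / (p : ℝ) * X := Finset.sum_le_sum h1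
      _ = (1 + η1) * SE E 0 (y : ℝ) * X := by
          unfold SE
          rw [Finset.mul_sum, Finset.sum_mul]
          refine Finset.sum_congr rfl (fun p _ => ?_)
          ring
      _ ≤ (1 + η1) * S * X := by
          have := SE_le_tsum hs (u := 0) (v := (y : ℝ)) (Nat.cast_nonneg y)
          gcongr
  have hB : ∑ n ∈ Pr 1 N, ∑ p ∈ EP E (y : ℝ) (Real.sqrt n), wt T p n ≤ η / 2 * X := by
    refine h2.trans ?_
    have h3 := hy (Real.sqrt N)
    have h4 : 432 * (∑ e ∈ ({1} : Finset ℕ), 1 / (e : ℝ)) * SE E (y : ℝ) (Real.sqrt N) ≤ η / 2 := by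
      rw [Finset.sum_singleton]
      simp only [Nat.cast_one, div_one, mul_one]
      nlinarith
    exact mul_le_mul_of_nonneg_right h4 hX0
  have hsplit : ∀ n : ℕ, ∑ p ∈ EP E 0 (Real.sqrt n), wt T p n ≤
      ∑ p ∈ EP E 0 (y : ℝ), wt T p n + ∑ p ∈ EP E (y : ℝ) (Real.sqrt n), wt T p n := by
    intro n
    classical
    have hsub : EP E 0 (Real.sqrt n) ⊆ EP E 0 (y : ℝ) ∪ EP E (y : ℝ) (Real.sqrt n) := by
      intro p hp
      rw [mem_EP (Real.sqrt_nonneg _)] at hp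
      rw [Finset.mem_union, mem_EP (Nat.cast_nonneg y), mem_EP (Real.sqrt_nonneg _)]
      rcases le_or_gt (p : ℝ) (y : ℝ) with h | h
      · exact Or.inl ⟨hp.1, hp.2.1, hp.2.2.1, h⟩
      · exact Or.inr ⟨hp.1, hp.2.1, h, hp.2.2.2⟩
    calc ∑ p ∈ EP E 0 (Real.sqrt n), wt T p n
        ≤ ∑ p ∈ EP E 0 (y : ℝ) ∪ EP E (y : ℝ) (Real.sqrt n), wt T p n :=
          Finset.sum_le_sum_of_subset_of_nonneg hsub (fun p _ _ => i11b_wt_nonneg T p n)
      _ ≤ _ := by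
          rw [← Finset.sum_union_inter]
          have : 0 ≤ ∑ p ∈ EP E 0 (y : ℝ) ∩ EP E (y : ℝ) (Real.sqrt n), wt T p n :=
            Finset.sum_nonneg (fun p _ => i11b_wt_nonneg T p n)
          linarith
  calc ∑ n ∈ Pr 1 N, ∑ p ∈ EP E 0 (Real.sqrt n), wt T p n
      ≤ ∑ n ∈ Pr 1 N, (∑ p ∈ EP E 0 (y : ℝ), wt T p n +
          ∑ p ∈ EP E (y : ℝ) (Real.sqrt n), wt T p n) := Finset.sum_le_sum (fun n _ => hsplit n)
    _ = ∑ n ∈ Pr 1 N, ∑ p ∈ EP E 0 (y : ℝ), wt T p n +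
          ∑ n ∈ Pr 1 N, ∑ p ∈ EP E (y : ℝ) (Real.sqrt n), wt T p n := Finset.sum_add_distrib
    _ ≤ (1 + η1) * S * X + η / 2 * X := add_le_add hA hB
    _ ≤ (S + η) * X := by
        have : (1 + η1) * S + η / 2 ≤ S + η := by nlinarith
        calc (1 + η1) * S * X + η / 2 * X = ((1 + η1) * S + η / 2) * X := by ring
          _ ≤ (S + η) * X := mul_le_mul_of_nonneg_right this hX0

end Pool.Agent.LibThinT
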