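import Pool.Agent.LibThinT.I09
import Pool.Agent.LibThinT.I09b

set_option autoImplicit false

namespace Pool.Agent.LibThinT

open Filter Topology MeasureTheory ProbabilityTheory
open Pool.Agent.LibThin21

variable {Ω : Type*} [MeasurableSpace Ω] {μ : Measure Ω} [IsProbabilityMeasure μ] {E : Set ℕ}
  {T : ℕ → ℕ} {a : ℕ → Ω → ℕ}

/-- Row I11c. A prime `n` stays in the sifted set unless `n ≡ a p` for some `p ∈ EP E 0 (√n)` (for `p ∉ E`, `p ^ 2 ≤ n`: `a p = 0` and
`p ∤ n`); union bound and `prob_mod`. -/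
theorem prime_stays (hM : ModelT μ E T a) (hT : Len E T) {n : ℕ} (hn : n.Prime) :
    1 - ∑ p ∈ EP E 0 (Real.sqrt n), wt T p n ≤ μ.real {ω | n ∈ sifted (fun p => a p ω)} := by
  have hsub : {ω | n ∈ sifted (fun p => a p ω)}ᶜ ⊆
      ⋃ p ∈ EP E 0 (Real.sqrt n), {ω | n ≡ a p ω [MOD p]} := by
    intro ω hω
    have h1 : n ∉ sifted (fun p => a p ω) := hω
    unfold sifted at h1
    simp only [Set.mem_ofPred_eq, not_forall, not_not] at h1
    obtain ⟨p, hp, hpn, hmod⟩ := h1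
    simp only [Set.mem_iUnion, Set.mem_ofPred_eq]
    refine ⟨p, ?_, hmod⟩
    rw [mem_EP (Real.sqrt_nonneg _)]
    have hE : p ∈ E := by
      by_contra hE
      rw [hM.zero p hE ω] at hmod
      have h2 : p ∣ n := (Nat.modEq_zero_iff_dvd).1 hmod
      have h3 : p = n := (Nat.prime_dvd_prime_iff_eq hp hn).1 h2
      subst h3
      nlinarith [hp.two_le]
    refine ⟨hp, hE, ?_, ?_⟩
    · exact_mod_cast hp.pos
    · apply Real.le_sqrt_of_sq_le
      exact_mod_cast hpn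
  have h4 : μ.real ({ω | n ∈ sifted (fun p => a p ω)}ᶜ) ≤ ∑ p ∈ EP E 0 (Real.sqrt n), wt T p n := by
    calc μ.real ({ω | n ∈ sifted (fun p => a p ω)}ᶜ)
        ≤ μ.real (⋃ p ∈ EP E 0 (Real.sqrt n), {ω | n ≡ a p ω [MOD p]}) := measureReal_mono hsub (measure_ne_top _ _)
      _ ≤ ∑ p ∈ EP E 0 (Real.sqrt n), μ.real {ω | n ≡ a p ω [MOD p]} :=
          measureReal_biUnion_finset_le _ _
      _ = ∑ p ∈ EP E 0 (Real.sqrt n), wt T p n := by
          refine Finset.sum_congr rfl fun p hp => ?_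
          rw [mem_EP (Real.sqrt_nonneg _)] at hp
          exact prob_mod hM hT hp.1 hp.2.1 n
  have h5 : (1 : ℝ) ≤ μ.real {ω | n ∈ sifted (fun p => a p ω)} +
      μ.real ({ω | n ∈ sifted (fun p => a p ω)}ᶜ) := by
    have h6 := measureReal_union_le (μ := μ) {ω | n ∈ sifted (fun p => a p ω)}
      ({ω | n ∈ sifted (fun p => a p ω)}ᶜ)
    rw [Set.union_compl_self, probReal_univ] at h6
    exact h6
  linarith

end Pool.Agent.LibThinT
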