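import Pool.Agent.LibThinT.I10b
import Pool.Agent.LibThinT.I11b
import Pool.Agent.LibThinT.I11c
import Pool.Agent.LibThinT.I03
import Pool.Agent.LibThin21.D6

set_option autoImplicit false

namespace Pool.Agent.LibThinT

open Filter Topology MeasureTheory ProbabilityTheory
open Pool.Agent.LibThin21

variable {Ω : Type*} [MeasurableSpace Ω] {μ : Measure Ω} [IsProbabilityMeasure μ] {E : Set ℕ}
  {T : ℕ → ℕ} {a : ℕ → Ω → ℕ}

open Classical in
lemma symm_bound (ha : ∀ p, Measurable (a p)) (N : ℕ) :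
    ∫ ω, (((Finset.Icc 1 N).filter
      (fun n => ¬ (n ∈ sifted (fun p => a p ω) ↔ n.Prime))).card : ℝ) ∂μ ≤
      ∫ ω, cnt (fun p => a p ω) N ∂μ + (Nat.primeCounting N : ℝ) -
        2 * ∑ n ∈ Pr 1 N, μ.real {ω | n ∈ sifted (fun p => a p ω)} := by
  have hmeas : ∀ n, MeasurableSet {ω | ¬ (n ∈ sifted (fun p => a p ω) ↔ n.Prime)} := by
    intro n
    by_cases hn : n.Prime
    · have h1 : {ω | ¬ (n ∈ sifted (fun p => a p ω) ↔ n.Prime)} =
          {ω | n ∈ sifted (fun p => a p ω)}ᶜ := by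
        ext ω
        simp [hn]
      rw [h1]
      exact (D1_meas ha n).compl
    · have h1 : {ω | ¬ (n ∈ sifted (fun p => a p ω) ↔ n.Prime)} =
          {ω | n ∈ sifted (fun p => a p ω)} := by
        ext ω
        simp [hn]
      rw [h1]
      exact D1_meas ha n
  have h1 := integral_card_filter (μ := μ) (S := Finset.Icc 1 N)
    (fun n => {ω | ¬ (n ∈ sifted (fun p => a p ω) ↔ n.Prime)}) hmeas
  have h2 := integral_card_filter (μ := μ) (S := Finset.Icc 1 N)
    (fun n => {ω | n ∈ sifted (fun p => a p ω)}) (fun n => D1_meas ha n)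
  simp only [Set.mem_setOf_eq] at h1 h2
  have h2' : ∫ ω, cnt (fun p => a p ω) N ∂μ =
      ∑ n ∈ Finset.Icc 1 N, μ.real {ω | n ∈ sifted (fun p => a p ω)} := by
    unfold cnt
    rw [← h2]
  rw [h1, h2']
  set P : Finset ℕ := (Finset.Icc 1 N).filter Nat.Prime with hP
  have h3 : (Nat.primeCounting N : ℝ) = ∑ n ∈ Finset.Icc 1 N, (if n.Prime then (1 : ℝ) else 0) := by
    rw [← Finset.sum_filter, Finset.sum_const, nsmul_eq_mul, mul_one]
    congr 1
    rw [Nat.primeCounting, Nat.primeCounting', Nat.count_eq_card_filter_range]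
    congr 1
    ext n
    simp only [Finset.mem_filter, Finset.mem_range, Finset.mem_Icc]
    constructor
    · rintro ⟨h4, h5⟩
      exact ⟨⟨h5.one_lt.le, by omega⟩, h5⟩
    · rintro ⟨⟨h4, h5⟩, h6⟩
      exact ⟨by omega, h6⟩
  have h4 : ∑ n ∈ Pr 1 N, μ.real {ω | n ∈ sifted (fun p => a p ω)} ≤
      ∑ n ∈ Finset.Icc 1 N, (if n.Prime then μ.real {ω | n ∈ sifted (fun p => a p ω)} else 0) := by
    rw [← Finset.sum_filter]
    apply Finset.sum_le_sum_of_subset_of_nonneg
    · intro n hn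
      obtain ⟨h5, _, h6⟩ := (mem_Pr le_rfl).1 hn
      rw [Finset.mem_filter, Finset.mem_Icc]
      exact ⟨⟨h5.one_lt.le, by omega⟩, h5⟩
    · intro n _ _
      exact measureReal_nonneg
  have h5 : ∑ n ∈ Finset.Icc 1 N, μ.real {ω | ¬ (n ∈ sifted (fun p => a p ω) ↔ n.Prime)} =
      ∑ n ∈ Finset.Icc 1 N, μ.real {ω | n ∈ sifted (fun p => a p ω)} +
        ∑ n ∈ Finset.Icc 1 N, (if n.Prime then (1 : ℝ) else 0) -
        2 * ∑ n ∈ Finset.Icc 1 N,
          (if n.Prime then μ.real {ω | n ∈ sifted (fun p => a p ω)} else 0) := by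
    rw [Finset.mul_sum, ← Finset.sum_add_distrib, ← Finset.sum_sub_distrib]
    apply Finset.sum_congr rfl
    intro n _
    by_cases hn : n.Prime
    · have h6 : {ω | ¬ (n ∈ sifted (fun p => a p ω) ↔ n.Prime)} =
          {ω | n ∈ sifted (fun p => a p ω)}ᶜ := by
        ext ω
        simp [hn]
      rw [h6, probReal_compl_eq_one_sub (D1_meas ha n), if_pos hn, if_pos hn]
      ring
    · have h6 : {ω | ¬ (n ∈ sifted (fun p => a p ω) ↔ n.Prime)} =
          {ω | n ∈ sifted (fun p => a p ω)} := by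
        ext ω
        simp [hn]
      rw [h6, if_neg hn, if_neg hn]
      ring
  rw [h5, h3]
  linarith

open Classical in
/-- Row I11d. `#(B Δ primes) = cnt + π(N) - 2 #(B ∩ primes)`. Expectations: `∫ cnt ≤ (1 + η/5) X` (`density`, `X = N / log N`),
`π(N) ≤ (1 + η/5) X` (`LibPNT.primeCounting_tendsto`), and, by `prime_stays`,
`E #(B ∩ primes) ≥ ∑_{n ∈ Pr 1 N} μ.real {n ∈ B} ≥ #(Pr 1 N) - (∑' rE + η/5) X ≥ (1 - η/5 - ∑' rE - η/5) X`
(`ap_lower` with `q = 1`, `e = 1`; `prime_load`). Compare `LibThin21.symm_diff`. -/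
theorem symm_diff (hM : ModelT μ E T a) (hT : Len E T) (hs : Summable (rE E)) {η : ℝ}
    (hη : 0 < η) : ∀ᶠ N : ℕ in atTop, (∫ ω, (((Finset.Icc 1 N).filter
      (fun n => ¬ (n ∈ sifted (fun p => a p ω) ↔ n.Prime))).card : ℝ) ∂μ) * Real.log N / N ≤
        2 * ∑' p, rE E p + η := by
  set σ := ∑' p, rE E p with hσ
  have hpnt : Tendsto (fun N : ℕ => (Nat.primeCounting N : ℝ) * Real.log N / N) atTop (𝓝 1) := by
    have h1 := LibPNT.primeCounting_tendsto.comp (tendsto_natCast_atTop_atTop (R := ℝ))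
    refine h1.congr fun N => ?_
    simp only [Function.comp_apply, Nat.floor_natCast]
  have h6 : (1 : ℝ) < 1 + η / 6 := by linarith
  have hd := density hM hT hs
  filter_upwards [hd.eventually_le_const h6, hpnt.eventually_le_const h6,
    prime_load (T := T) hT hs (η := η / 6) (by positivity),
    ap_lower 1 one_pos 0 (Nat.coprime_one_right 0) 1 le_rfl (η := η / 6) (by positivity),
    eventually_ge_atTop 3] with N h1 h2 h3 h4 hN3
  have hN3' : (3 : ℝ) ≤ (N : ℝ) := by exact_mod_cast hN3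
  have hN0 : (0 : ℝ) < (N : ℝ) := by linarith
  have hl : 0 < Real.log (N : ℝ) := Real.log_pos (by linarith)
  have hX0 : 0 < Real.log (N : ℝ) / N := by positivity
  -- from below for the primes
  have h5 : ((Pr 1 N).filter (fun π => π ≡ 0 [MOD 1])) = Pr 1 N := by
    apply Finset.filter_true_of_mem
    intro n _
    exact Nat.modEq_one
  rw [h5] at h4
  simp only [Nat.cast_one, one_mul, Nat.totient_one, div_one] at h4
  have h7 : ((Pr 1 N).card : ℝ) - ∑ n ∈ Pr 1 N, ∑ p ∈ EP E 0 (Real.sqrt n), wt T p n ≤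
      ∑ n ∈ Pr 1 N, μ.real {ω | n ∈ sifted (fun p => a p ω)} := by
    have h8 : ((Pr 1 N).card : ℝ) = ∑ n ∈ Pr 1 N, (1 : ℝ) := by simp
    rw [h8, ← Finset.sum_sub_distrib]
    apply Finset.sum_le_sum
    intro n hn
    exact prime_stays hM hT ((mem_Pr le_rfl).1 hn).1
  have h8 := symm_bound (μ := μ) hM.meas N
  have h9 := mul_le_mul_of_nonneg_right h8 hX0.le
  have h10 : (N : ℝ) / Real.log N * (Real.log N / N) = 1 := by
    field_simp
  have h11 : (∑ n ∈ Pr 1 N, μ.real {ω | n ∈ sifted (fun p => a p ω)}) * (Real.log N / N) ≥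
      (1 - η / 6) - (σ + η / 6) := by
    have h12 : ((1 - η / 6) - (σ + η / 6)) * ((N : ℝ) / Real.log N) ≤
        ∑ n ∈ Pr 1 N, μ.real {ω | n ∈ sifted (fun p => a p ω)} := by
      rw [sub_mul]
      linarith
    have h13 := mul_le_mul_of_nonneg_right h12 hX0.le
    rw [mul_assoc, h10, mul_one] at h13
    exact h13
  calc _ = (∫ ω, (((Finset.Icc 1 N).filter
      (fun n => ¬ (n ∈ sifted (fun p => a p ω) ↔ n.Prime))).card : ℝ) ∂μ) * (Real.log N / N) := by
        rw [mul_div_assoc]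
    _ ≤ _ := h9
    _ = (∫ ω, cnt (fun p => a p ω) N ∂μ) * Real.log N / N +
        (Nat.primeCounting N : ℝ) * Real.log N / N -
        2 * ((∑ n ∈ Pr 1 N, μ.real {ω | n ∈ sifted (fun p => a p ω)}) * (Real.log N / N)) := by
        ring
    _ ≤ _ := by linarith

end Pool.Agent.LibThinT
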