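import Pool.Agent.LibThinT.Defs
import Pool.Agent.LibThin21.S1
import Pool.Agent.LibThin21.S4
import Pool.Agent.LibPNT.PNT

/-!
The sieve with displaced classes: density, infinity, symmetric difference. Definitions.
No straight double quotes, no tactic `convert`, no macros.
-/

set_option autoImplicit false

namespace Pool.Agent.LibThinT

open Filter Topology MeasureTheory ProbabilityTheory
open Pool.Agent.LibThin21

/-- the primes `π` with `N < π ^ 4` and `e * π ≤ N` -/
noncomputable def Pr (e N : ℕ) : Finset ℕ :=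
  (Finset.Icc 1 (N / e)).filter (fun π => π.Prime ∧ N < π ^ 4)

lemma mem_Pr {e N π : ℕ} (he : 1 ≤ e) : π ∈ Pr e N ↔ π.Prime ∧ N < π ^ 4 ∧ e * π ≤ N := by
  unfold Pr
  rw [Finset.mem_filter, Finset.mem_Icc, Nat.le_div_iff_mul_le (by omega)]
  constructor
  · rintro ⟨⟨_, h2⟩, h3, h4⟩
    exact ⟨h3, h4, by rw [mul_comm]; exact h2⟩
  · rintro ⟨h1, h2, h3⟩
    exact ⟨⟨h1.one_lt.le, by rw [mul_comm]; exact h3⟩, h1, h2⟩

/-- the integers `e * π ≤ N`, `e ∈ F`, `π` prime, `N < π ^ 4` -/
noncomputable def Ls (F : Finset ℕ) (N : ℕ) : Finset ℕ :=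
  F.biUnion (fun e => (Pr e N).image (fun π => e * π))

/-- the product of the primes of `E` up to `y` -/
noncomputable def QE (E : Set ℕ) (y : ℕ) : ℕ := ∏ p ∈ EP E 0 y, p

/-- the set of admissible lengths without lower bound -/
def Len (E : Set ℕ) (T : ℕ → ℕ) : Prop := ∀ p : ℕ, p.Prime → p ∈ E → 1 ≤ T p ∧ T p ≤ p

open Classical in
/-- number of elements of the sifted set up to `N` -/
noncomputable def cnt (α : ℕ → ℕ) (N : ℕ) : ℝ :=
  (((Finset.Icc 1 N).filter (fun n => n ∈ sifted α)).card : ℝ)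

open Classical in
/-- number of elements of `Ls F N` removed by a prime of `E` larger than `y` -/
noncomputable def bad (E : Set ℕ) (F : Finset ℕ) (y : ℕ) (α : ℕ → ℕ) (N : ℕ) : ℝ :=
  (((Ls F N).filter (fun n : ℕ => ∃ p ∈ EP E y (Real.sqrt n), n ≡ α p [MOD p])).card : ℝ)

end Pool.Agent.LibThinT
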