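import Mathlib

/-!
Weighted second moment inequality: the events may have different probabilities.
-/

namespace Pool.Agent.LibThinT

open Filter Topology MeasureTheory ProbabilityTheory

variable {Ω : Type*} [MeasurableSpace Ω] {μ : Measure Ω} [IsProbabilityMeasure μ]

theorem second_moment_w {ι : Type*} (s : Finset ι) (w : ι → ℝ) (G : ι → Set Ω)
    (hG : ∀ k ∈ s, MeasurableSet (G k)) {Pm η W wm : ℝ} (hP : 0 < Pm) (hη0 : 0 ≤ η)
    (hw : ∀ k ∈ s, 0 ≤ w k) (hwm : ∀ k ∈ s, w k ≤ wm) (hW : ∑ k ∈ s, w k = W) (hW0 : 0 < W)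
    (h1 : ∀ k ∈ s, Pm ≤ μ.real (G k))
    (h2 : ∀ k ∈ s, ∀ l ∈ s, k ≠ l →
      μ.real (G k ∩ G l) ≤ (1 + η) * (μ.real (G k) * μ.real (G l))) :
    1 - η - wm / (W * Pm) ≤ μ.real (⋃ k ∈ s, G k) := by
  classical
  obtain ⟨x, hx⟩ : ∃ x : ι → Ω → ℝ, x = fun k => (G k).indicator (fun _ => (1 : ℝ)) := ⟨_, rfl⟩
  obtain ⟨U, hUdef⟩ : ∃ U : Set Ω, U = ⋃ k ∈ s, G k := ⟨_, rfl⟩
  rw [← hUdef]
  have hU : MeasurableSet U := by
    rw [hUdef]
    exact Finset.measurableSet_biUnion s hG
  obtain ⟨u, hu⟩ : ∃ u : ι → ℝ, u = fun k => w k / μ.real (G k) := ⟨_, rfl⟩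
  have hpos : ∀ k ∈ s, 0 < μ.real (G k) := fun k hk => lt_of_lt_of_le hP (h1 k hk)
  have hu0 : ∀ k ∈ s, 0 ≤ u k := fun k hk => by
    rw [hu]
    exact div_nonneg (hw k hk) (hpos k hk).le
  have hup : ∀ k ∈ s, u k * μ.real (G k) = w k := fun k hk => by
    rw [hu]
    exact div_mul_cancel₀ _ (hpos k hk).ne'
  have hxx : ∀ k l : ι, ∀ ω, x k ω * x l ω = (G k ∩ G l).indicator (fun _ => (1 : ℝ)) ω := by
    intro k l ω
    by_cases h1 : ω ∈ G k <;> by_cases h2 : ω ∈ G l <;> simp [hx, h1, h2]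
  have hint : ∀ k ∈ s, Integrable (x k) μ := fun k hk => by
    rw [hx]
    exact (integrable_const 1).indicator (hG k hk)
  have hint2 : ∀ k ∈ s, ∀ l ∈ s, Integrable (fun ω => x k ω * x l ω) μ := by
    intro k hk l hl
    simp only [hxx]
    exact (integrable_const 1).indicator ((hG k hk).inter (hG l hl))
  have hix : ∀ k ∈ s, ∫ ω, x k ω ∂μ = μ.real (G k) := by
    intro k hk
    rw [hx, integral_indicator_const (1 : ℝ) (hG k hk), smul_eq_mul, mul_one]
  have hixx : ∀ k ∈ s, ∀ l ∈ s, ∫ ω, x k ω * x l ω ∂μ = μ.real (G k ∩ G l) := by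
    intro k hk l hl
    simp only [hxx]
    rw [integral_indicator_const (1 : ℝ) ((hG k hk).inter (hG l hl)), smul_eq_mul, mul_one]
  have hS1 : Integrable (fun ω => ∑ k ∈ s, u k * x k ω) μ :=
    integrable_finsetSum _ fun k hk => (hint k hk).const_mul _
  have hS2 : Integrable (fun ω => ∑ k ∈ s, ∑ l ∈ s, u k * u l * (x k ω * x l ω)) μ :=
    integrable_finsetSum _ fun k hk => integrable_finsetSum _ fun l hl => (hint2 k hk l hl).const_mul _
  have hE1 : ∫ ω, ∑ k ∈ s, u k * x k ω ∂μ = W := by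
    rw [integral_finsetSum _ (fun k hk => (hint k hk).const_mul _), ← hW]
    exact Finset.sum_congr rfl fun k hk => by rw [integral_const_mul, hix k hk, hup k hk]
  have hE2 : ∫ ω, ∑ k ∈ s, ∑ l ∈ s, u k * u l * (x k ω * x l ω) ∂μ =
      ∑ k ∈ s, ∑ l ∈ s, u k * u l * μ.real (G k ∩ G l) := by
    rw [integral_finsetSum _ (fun k hk => integrable_finsetSum _ fun l hl =>
      (hint2 k hk l hl).const_mul _)]
    refine Finset.sum_congr rfl fun k hk => ?_
    rw [integral_finsetSum _ (fun l hl => (hint2 k hk l hl).const_mul _)]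
    exact Finset.sum_congr rfl fun l hl => by rw [integral_const_mul, hixx k hk l hl]
  obtain ⟨k0, hk0⟩ : s.Nonempty := by
    by_contra hne
    rw [Finset.not_nonempty_iff_eq_empty] at hne
    rw [hne, Finset.sum_empty] at hW
    linarith
  have hwm0 : 0 ≤ wm := (hw k0 hk0).trans (hwm k0 hk0)
  have hWP : 0 < W * Pm := mul_pos hW0 hP
  -- second moment
  have hM2 : ∑ k ∈ s, ∑ l ∈ s, u k * u l * μ.real (G k ∩ G l) ≤
      wm / Pm * W + (1 + η) * W ^ 2 := by
    have h3 : ∀ k ∈ s, ∀ l ∈ s, u k * u l * μ.real (G k ∩ G l) ≤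
        (if k = l then w k * (wm / Pm) else 0) + w k * w l * (1 + η) := by
      intro k hk l hl
      by_cases hkl : k = l
      · subst hkl
        rw [if_pos rfl, Set.inter_self]
        have e1 : u k * u k * μ.real (G k) ≤ w k * (wm / Pm) := by
          have e2 : u k * u k * μ.real (G k) = w k * u k := by
            rw [mul_assoc, hup k hk, mul_comm]
          rw [e2]
          apply mul_le_mul_of_nonneg_left _ (hw k hk)
          rw [hu]
          exact div_le_div₀ hwm0 (hwm k hk) hP (h1 k hk)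
        have e2 : 0 ≤ w k * w k * (1 + η) := by
          have := hw k hk
          positivity
        linarith
      · rw [if_neg hkl, zero_add]
        have e3 := mul_le_mul_of_nonneg_left (h2 k hk l hl hkl) (mul_nonneg (hu0 k hk) (hu0 l hl))
        have e4 : u k * u l * ((1 + η) * (μ.real (G k) * μ.real (G l))) = w k * w l * (1 + η) := by
          rw [← hup k hk, ← hup l hl]
          ring
        rw [e4] at e3
        exact e3
    refine (Finset.sum_le_sum fun k hk => Finset.sum_le_sum fun l hl => h3 k hk l hl).trans ?_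
    have e3 : ∑ k ∈ s, ∑ l ∈ s, ((if k = l then w k * (wm / Pm) else 0) +
        w k * w l * (1 + η)) = wm / Pm * W + (1 + η) * W ^ 2 := by
      simp only [Finset.sum_add_distrib]
      congr 1
      · have : ∀ k ∈ s, (∑ l ∈ s, if k = l then w k * (wm / Pm) else 0) = w k * (wm / Pm) := by
          intro k hk
          rw [Finset.sum_ite_eq, if_pos hk]
        rw [Finset.sum_congr rfl this, ← Finset.sum_mul, hW]
        ring
      · have : ∀ k ∈ s, (∑ l ∈ s, w k * w l * (1 + η)) = w k * (W * (1 + η)) := by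
          intro k _
          rw [← Finset.sum_mul, ← Finset.mul_sum, hW]
          ring
        rw [Finset.sum_congr rfl this, ← Finset.sum_mul, hW]
        ring
    exact e3.le
  -- pointwise inequality
  obtain ⟨c, hc⟩ : ∃ c : ℝ, c = 1 / W := ⟨_, rfl⟩
  have hc0 : 0 < c := by rw [hc]; positivity
  have hpt : ∀ ω, 2 * c * (∑ k ∈ s, u k * x k ω) -
      c ^ 2 * (∑ k ∈ s, ∑ l ∈ s, u k * u l * (x k ω * x l ω)) ≤ U.indicator (fun _ => (1 : ℝ)) ω := by
    intro ω
    have e4 : ∑ k ∈ s, ∑ l ∈ s, u k * u l * (x k ω * x l ω) = (∑ k ∈ s, u k * x k ω) ^ 2 := by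
      rw [pow_two, Finset.sum_mul_sum]
      exact Finset.sum_congr rfl fun k _ => Finset.sum_congr rfl fun l _ => by ring
    rw [e4]
    by_cases hω : ω ∈ U
    · rw [Set.indicator_of_mem hω]
      nlinarith [sq_nonneg (1 - c * ∑ k ∈ s, u k * x k ω)]
    · rw [Set.indicator_of_notMem hω]
      have e5 : ∑ k ∈ s, u k * x k ω = 0 := by
        refine Finset.sum_eq_zero fun k hk => ?_
        have : ω ∉ G k := fun h => hω (by rw [hUdef]; exact Set.mem_biUnion hk h)
        simp [hx, this]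
      rw [e5]
      simp
  have hI : 2 * c * W -
      c ^ 2 * (∑ k ∈ s, ∑ l ∈ s, u k * u l * μ.real (G k ∩ G l)) ≤ μ.real U := by
    have e6 : ∫ ω, U.indicator (fun _ => (1 : ℝ)) ω ∂μ = μ.real U := by
      rw [integral_indicator_const (1 : ℝ) hU, smul_eq_mul, mul_one]
    rw [← hE1, ← hE2, ← e6, ← integral_const_mul, ← integral_const_mul,
      ← integral_sub (hS1.const_mul _) (hS2.const_mul _)]
    exact integral_mono ((hS1.const_mul _).sub (hS2.const_mul _)) ((integrable_const 1).indicator hU)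
      hpt
  have h6 : c ^ 2 * (∑ k ∈ s, ∑ l ∈ s, u k * u l * μ.real (G k ∩ G l)) ≤
      c ^ 2 * (wm / Pm * W + (1 + η) * W ^ 2) :=
    mul_le_mul_of_nonneg_left hM2 (by positivity)
  have h7 : 2 * c * W = 2 := by
    rw [hc]; field_simp
  have h8 : c ^ 2 * (wm / Pm * W + (1 + η) * W ^ 2) = wm / (W * Pm) + (1 + η) := by
    rw [hc]; field_simp
  linarith

end Pool.Agent.LibThinT
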