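import Pool.Agent.LibThinT.Cov2
import Pool.Agent.LibThinT.SM
import Pool.Agent.LibThin21.R6c

/-!
Several rows: with high probability one of them is completely hit.
-/

namespace Pool.Agent.LibThinT

open Filter Topology MeasureTheory ProbabilityTheory
open Pool.Agent.LibThin21

variable {Ω : Type*} [MeasurableSpace Ω] {μ : Measure Ω} [IsProbabilityMeasure μ] {E : Set ℕ}
  {T : ℕ → ℕ} {a : ℕ → Ω → ℕ}

/-- removing a few primes changes `yy` very little -/
lemma yy_sdiff (T : ℕ → ℕ) {P0 P1 : Finset ℕ} (hd : Disjoint P0 P1) {L : ℝ} (hL : 0 < L)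
    (hLT : ∀ p ∈ P1, L ≤ (T p : ℝ)) (v : ℕ) :
    yy T (P0 ∪ P1) v ≤ yy T P0 v + P1.card / L := by
  classical
  unfold yy
  rw [Finset.prod_union hd]
  have h1 : 1 - ∑ p ∈ P1, wt T p v ≤ ∏ p ∈ P1, (1 - wt T p v) :=
    one_sub_sum_le_prod P1 _ fun p _ => ⟨wt_nonneg T p v, wt_le_one T p v⟩
  have h2 : ∑ p ∈ P1, wt T p v ≤ P1.card / L := by
    calc ∑ p ∈ P1, wt T p v ≤ ∑ _p ∈ P1, 1 / L := by
          apply Finset.sum_le_sum
          intro p hp
          exact (wt_le T p v).trans (one_div_le_one_div_of_le hL (hLT p hp))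
      _ = P1.card / L := by rw [Finset.sum_const, nsmul_eq_mul]; ring
  obtain ⟨A, hA⟩ : ∃ A, A = ∏ p ∈ P0, (1 - wt T p v) := ⟨_, rfl⟩
  obtain ⟨B, hB⟩ : ∃ B, B = ∏ p ∈ P1, (1 - wt T p v) := ⟨_, rfl⟩
  have hA0 : 0 ≤ A := by
    rw [hA]
    exact Finset.prod_nonneg fun p _ => by linarith [wt_le_one T p v]
  have hA1 : A ≤ 1 := by
    rw [hA]
    exact Finset.prod_le_one (fun p _ => by linarith [wt_le_one T p v])
      (fun p _ => by linarith [wt_nonneg T p v])
  rw [← hA, ← hB]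
  rw [← hB] at h1
  have h3 : 1 - P1.card / L ≤ B := by linarith
  have h4 : 0 ≤ P1.card / L := by positivity
  nlinarith

open Classical in
theorem rows_core_T (hM : ModelT μ E T a) {P s : Finset ℕ}
    (hP : ∀ p ∈ P, p.Prime ∧ p ∈ E ∧ 1 ≤ T p ∧ T p ≤ p)
    {q c h K : ℕ} (R : ℕ → Finset ℕ) (hR : ∀ k ∈ s, R k ⊆ Finset.Icc 1 h)
    (hRK : ∀ k ∈ s, (R k).card ≤ K) (hhq : h < q) (hbig : ∀ p ∈ P, h < p)
    {w : ℕ → ℝ} {wm W η β L S τ Pm : ℝ} (hL : 0 < L) (hLT : ∀ p ∈ P, L ≤ (T p : ℝ))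
    (hη0 : 0 ≤ η) (hη1 : η ≤ 1 / 2) (hβ : 0 < β) (hβ1 : β ≤ 1)
    (hw : ∀ k ∈ s, 0 ≤ w k) (hwm : ∀ k ∈ s, w k ≤ wm) (hW : ∑ k ∈ s, w k = W) (hW0 : 0 < W)
    (hy : ∀ k ∈ s, ∀ i ∈ R k, 2 * β ≤ yy T P (k * q + c + i))
    (hS : ∀ k ∈ s, ∀ i ∈ R k, load T P (k * q + c + i) ≤ S) (hS0 : 0 ≤ S)
    (hPm : 0 < Pm) (hPm' : ∀ k ∈ s, 2 * Pm ≤ ∏ i ∈ R k, yy T P (k * q + c + i))
    (hcom : ∀ k ∈ s, ∀ l ∈ s, k ≠ l →
      ((P.filter (fun p => ∃ i ∈ Finset.Icc 1 h, ∃ j ∈ Finset.Icc 1 h,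
        k * q + c + i ≡ l * q + c + j [MOD p])).card : ℝ) ≤ τ)
    (hτ : τ / L ≤ β) (hone : (K : ℝ) ^ 2 * S / (L * β ^ 2) ≤ η / 8)
    (hexp : Real.exp (τ * (2 * K / L) / β ^ 2) ≤ 1 + η / 8) :
    1 - η - wm / (W * Pm) ≤
      μ.real (⋃ k ∈ s, {ω | ∀ i ∈ R k, ∃ p ∈ P, k * q + c + i ≡ a p ω [MOD p]}) := by
  obtain ⟨V, hV⟩ : ∃ V : ℕ → Finset ℕ, V = fun k => (R k).image (fun i => k * q + c + i) := ⟨_, rfl⟩
  obtain ⟨G, hG⟩ : ∃ G : ℕ → Set Ω, G = fun k => {ω | ∀ v ∈ V k, ∃ p ∈ P, v ≡ a p ω [MOD p]} :=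
    ⟨_, rfl⟩
  have hGeq : ∀ k, {ω | ∀ i ∈ R k, ∃ p ∈ P, k * q + c + i ≡ a p ω [MOD p]} = G k := by
    intro k
    ext ω
    simp only [hG, hV, Set.mem_ofPred_eq, Finset.mem_image, forall_exists_index, and_imp,
      forall_apply_eq_imp_iff₂]
  simp only [hGeq]
  have hprod : ∀ k, ∏ v ∈ V k, yy T P v = ∏ i ∈ R k, yy T P (k * q + c + i) := by
    intro k
    rw [hV]
    exact Finset.prod_image fun i _ j _ hij => Nat.add_left_cancel hij
  have hVcard : ∀ k ∈ s, (V k).card ≤ K := by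
    intro k hk
    rw [hV]
    exact Finset.card_image_le.trans (hRK k hk)
  have hVd : ∀ k ∈ s, ∀ p ∈ P, ∀ v ∈ V k, ∀ w ∈ V k, v ≡ w [MOD p] → v = w := fun k hk p hp => by
    rw [hV]
    exact row_distinct (hR k hk) (hbig p hp)
  have hyV : ∀ k ∈ s, ∀ v ∈ V k, 2 * β ≤ yy T P v := by
    intro k hk v hv
    rw [hV, Finset.mem_image] at hv
    obtain ⟨i, hi, rfl⟩ := hv
    exact hy k hk i hi
  have hSV : ∀ k ∈ s, ∀ v ∈ V k, load T P v ≤ S := by
    intro k hk v hv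
    rw [hV, Finset.mem_image] at hv
    obtain ⟨i, hi, rfl⟩ := hv
    exact hS k hk i hi
  have hGm : ∀ k, MeasurableSet (G k) := fun k => by
    rw [hG]
    exact measurableSet_covT hM.meas P (V k)
  have hGc : ∀ k, μ.real (G k) = cov μ a P (V k) := fun k => by
    rw [hG]
    rfl
  -- one row
  have hrow : ∀ k ∈ s, (∏ v ∈ V k, yy T P v) * (1 - η / 8) ≤ μ.real (G k) := by
    intro k hk
    rw [hGc]
    have h1 := cov_row (μ := μ) (a := a) hM hP (hVd k hk) hβ
      (fun v hv => le_trans (by linarith) (hyV k hk v hv)) hL hLT (hSV k hk) hS0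
    refine le_trans ?_ h1
    apply mul_le_mul_of_nonneg_left _ (Finset.prod_nonneg fun v _ => yy_nonneg T P v)
    have h2 : ((V k).card : ℝ) ≤ K := by exact_mod_cast hVcard k hk
    have h3 : ((V k).card : ℝ) ^ 2 * S / (L * β ^ 2) ≤ (K : ℝ) ^ 2 * S / (L * β ^ 2) := by gcongr
    linarith
  refine second_moment_w (μ := μ) s w G (fun k _ => hGm k) hPm hη0 hw hwm hW hW0 ?_ ?_
  · intro k hk
    refine le_trans ?_ (hrow k hk)
    rw [hprod]
    have h1 := hPm' k hk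
    have h2 : 2 * Pm * (1 - η / 8) ≤ (∏ i ∈ R k, yy T P (k * q + c + i)) * (1 - η / 8) :=
      mul_le_mul_of_nonneg_right h1 (by linarith)
    nlinarith
  · intro k hk l hl hkl
    obtain ⟨P1, hP1⟩ : ∃ P1, P1 = P.filter (fun p => ∃ i ∈ Finset.Icc 1 h, ∃ j ∈ Finset.Icc 1 h,
        k * q + c + i ≡ l * q + c + j [MOD p]) := ⟨_, rfl⟩
    obtain ⟨P0, hP0⟩ : ∃ P0, P0 = P.filter (fun p => ¬ ∃ i ∈ Finset.Icc 1 h, ∃ j ∈ Finset.Icc 1 h,
        k * q + c + i ≡ l * q + c + j [MOD p]) := ⟨_, rfl⟩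
    have hcom' := hcom k hk l hl hkl
    rw [← hP1] at hcom'
    have hd : Disjoint P0 P1 := by
      rw [hP0, hP1]
      exact (Finset.disjoint_filter_filter_not P P _).symm
    have hU : P0 ∪ P1 = P := by
      rw [hP0, hP1, Finset.union_comm]
      exact Finset.filter_union_filter_not_eq _ P
    have hP0s : P0 ⊆ P := by rw [hP0]; exact Finset.filter_subset _ _
    have hP1s : P1 ⊆ P := by rw [hP1]; exact Finset.filter_subset _ _
    have hint : G k ∩ G l = {ω | ∀ v ∈ V k ∪ V l, ∃ p ∈ P, v ≡ a p ω [MOD p]} := by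
      ext ω
      rw [hG]
      constructor
      · rintro ⟨h1, h2⟩ v hv
        rcases Finset.mem_union.1 hv with hv | hv
        · exact h1 v hv
        · exact h2 v hv
      · intro h1
        exact ⟨fun v hv => h1 v (Finset.mem_union_left _ hv),
          fun v hv => h1 v (Finset.mem_union_right _ hv)⟩
    have hcovU : μ.real (G k ∩ G l) = cov μ a (P0 ∪ P1) (V k ∪ V l) := by
      rw [hint, hU]
      rfl
    -- rows are disjoint
    have hmem : ∀ k' ∈ s, ∀ v ∈ V k', ∃ i ∈ Finset.Icc 1 h, v = k' * q + c + i := by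
      intro k' hk' v hv
      rw [hV, Finset.mem_image] at hv
      obtain ⟨i, hi, rfl⟩ := hv
      exact ⟨i, hR k' hk' hi, rfl⟩
    have hcross : ∀ p, p ∉ P1 → p ∈ P → ∀ v ∈ V k, ∀ w ∈ V l, ¬ v ≡ w [MOD p] := by
      intro p hp1 hp v hv w hw hvw
      apply hp1
      rw [hP1, Finset.mem_filter]
      obtain ⟨i, hi, rfl⟩ := hmem k hk v hv
      obtain ⟨j, hj, rfl⟩ := hmem l hl w hw
      exact ⟨hp, i, hi, j, hj, hvw⟩
    have hVdisj : Disjoint (V k) (V l) := by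
      rw [Finset.disjoint_left]
      intro v hv hw
      obtain ⟨i, hi, h1⟩ := hmem k hk v hv
      obtain ⟨j, hj, h2⟩ := hmem l hl v hw
      rw [Finset.mem_Icc] at hi hj
      rcases lt_or_gt_of_ne hkl with hlt | hgt
      · have h3 : (k + 1) * q ≤ l * q := Nat.mul_le_mul_right q hlt
        have h4 : (k + 1) * q = k * q + q := by ring
        omega
      · have h3 : (l + 1) * q ≤ k * q := Nat.mul_le_mul_right q hgt
        have h4 : (l + 1) * q = l * q + q := by ring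
        omega
    have hV0 : ∀ p ∈ P0, ∀ v ∈ V k ∪ V l, ∀ w ∈ V k ∪ V l, v ≡ w [MOD p] → v = w := by
      intro p hp v hv w hw hvw
      have hpP := hP0s hp
      have hp1 : p ∉ P1 := fun h1 => Finset.disjoint_left.1 hd hp h1
      rcases Finset.mem_union.1 hv with hv | hv <;> rcases Finset.mem_union.1 hw with hw | hw
      · exact hVd k hk p hpP v hv w hw hvw
      · exact absurd hvw (hcross p hp1 hpP v hv w hw)
      · exact absurd hvw.symm (hcross p hp1 hpP w hw v hv)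
      · exact hVd l hl p hpP v hv w hw hvw
    have hV1 : ∀ p ∈ P1, ∀ r : ℕ, ((V k ∪ V l).filter (fun v => v ≡ r [MOD p])).card ≤ 2 := by
      intro p hp r
      rw [Finset.filter_union]
      refine (Finset.card_union_le _ _).trans ?_
      have h1 : ∀ k' ∈ s, ((V k').filter (fun v => v ≡ r [MOD p])).card ≤ 1 := by
        intro k' hk'
        rw [Finset.card_le_one]
        intro v hv w hw
        rw [Finset.mem_filter] at hv hw
        exact hVd k' hk' p (hP1s hp) v hv.1 w hw.1 (hv.2.trans hw.2.symm)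
      have h2 := h1 k hk
      have h3 := h1 l hl
      omega
    have hτL : (P1.card : ℝ) / L ≤ β := by
      refine le_trans ?_ hτ
      gcongr
    have hyall : ∀ v ∈ V k ∪ V l, 2 * β ≤ yy T P v := by
      intro v hv
      rcases Finset.mem_union.1 hv with hv | hv
      · exact hyV k hk v hv
      · exact hyV l hl v hv
    have hy0 : ∀ v ∈ V k ∪ V l, β ≤ yy T P0 v := by
      intro v hv
      have h1 := yy_sdiff T hd hL (fun p hp => hLT p (hP1s hp)) v
      rw [hU] at h1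
      have h2 := hyall v hv
      linarith
    have htwo := cov_two_T (μ := μ) (a := a) hM hd (fun p hp => hP p (hP0s hp))
      (fun p hp => hP p (hP1s hp)) hV0 hV1 hβ hβ1 hy0
    rw [hcovU]
    refine htwo.trans ?_
    have hpr0 : ∏ v ∈ V k ∪ V l, yy T P0 v ≤
        (∏ v ∈ V k, yy T P v) * ∏ v ∈ V l, yy T P v := by
      rw [← Finset.prod_union hVdisj]
      apply Finset.prod_le_prod (fun v _ => yy_nonneg T P0 v)
      intro v _
      exact yy_mono T hP0s v
    have hVUc : ((V k ∪ V l).card : ℝ) ≤ 2 * K := by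
      have h1 := Finset.card_union_le (V k) (V l)
      have h2 := hVcard k hk
      have h3 := hVcard l hl
      have h4 : (V k ∪ V l).card ≤ 2 * K := by omega
      exact_mod_cast h4
    have hpr1 : ∏ p ∈ P1, (1 + (∑ v ∈ V k ∪ V l, wt T p v) / β ^ 2) ≤ 1 + η / 8 := by
      refine le_trans ?_ hexp
      have h1 : ∀ p ∈ P1, 1 + (∑ v ∈ V k ∪ V l, wt T p v) / β ^ 2 ≤
          Real.exp (2 * K / L / β ^ 2) := by
        intro p hp
        have h2 : ∑ v ∈ V k ∪ V l, wt T p v ≤ 2 * K / L := by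
          calc ∑ v ∈ V k ∪ V l, wt T p v ≤ ∑ _v ∈ V k ∪ V l, 1 / L := by
                apply Finset.sum_le_sum
                intro v _
                exact (wt_le T p v).trans (one_div_le_one_div_of_le hL (hLT p (hP1s hp)))
            _ = (V k ∪ V l).card / L := by rw [Finset.sum_const, nsmul_eq_mul]; ring
            _ ≤ 2 * K / L := by gcongr
        have h3 : (∑ v ∈ V k ∪ V l, wt T p v) / β ^ 2 ≤ 2 * K / L / β ^ 2 := by gcongr
        have h4 := Real.add_one_le_exp (2 * K / L / β ^ 2)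
        linarith
      calc ∏ p ∈ P1, (1 + (∑ v ∈ V k ∪ V l, wt T p v) / β ^ 2)
          ≤ ∏ _p ∈ P1, Real.exp (2 * K / L / β ^ 2) := by
            apply Finset.prod_le_prod _ h1
            intro p _
            have : 0 ≤ ∑ v ∈ V k ∪ V l, wt T p v := Finset.sum_nonneg fun v _ => wt_nonneg T p v
            positivity
        _ = Real.exp (P1.card * (2 * K / L / β ^ 2)) := by
            rw [Finset.prod_const, ← Real.exp_nat_mul]
        _ ≤ Real.exp (τ * (2 * K / L) / β ^ 2) := by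
            apply Real.exp_le_exp.2
            have e1 : τ * (2 * K / L) / β ^ 2 = τ * (2 * K / L / β ^ 2) := by ring
            rw [e1]
            exact mul_le_mul_of_nonneg_right hcom' (by positivity)
    obtain ⟨A, hA⟩ : ∃ A, A = ∏ v ∈ V k, yy T P v := ⟨_, rfl⟩
    obtain ⟨B, hB⟩ : ∃ B, B = ∏ v ∈ V l, yy T P v := ⟨_, rfl⟩
    have hA0 : 0 ≤ A := by rw [hA]; exact Finset.prod_nonneg fun v _ => yy_nonneg T P v
    have hB0 : 0 ≤ B := by rw [hB]; exact Finset.prod_nonneg fun v _ => yy_nonneg T P v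
    rw [← hA, ← hB] at hpr0
    have hrk := hrow k hk
    have hrl := hrow l hl
    rw [← hA] at hrk
    rw [← hB] at hrl
    have h1 : 0 ≤ A * (1 - η / 8) := mul_nonneg hA0 (by linarith)
    have h2 : (A * (1 - η / 8)) * (B * (1 - η / 8)) ≤ μ.real (G k) * μ.real (G l) :=
      mul_le_mul hrk hrl (mul_nonneg hB0 (by linarith)) measureReal_nonneg
    have h3 : 0 ≤ ∏ v ∈ V k ∪ V l, yy T P0 v := Finset.prod_nonneg fun v _ => yy_nonneg T P0 v
    have hAB : 0 ≤ A * B := mul_nonneg hA0 hB0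
    have hη8 : 1 + η / 8 ≤ (1 + η) * (1 - η / 8) ^ 2 := by
      nlinarith [mul_nonneg hη0 hη0, mul_nonneg (mul_nonneg hη0 hη0) hη0]
    calc (∏ v ∈ V k ∪ V l, yy T P0 v) * ∏ p ∈ P1, (1 + (∑ v ∈ V k ∪ V l, wt T p v) / β ^ 2)
        ≤ (A * B) * (1 + η / 8) := by
          apply mul_le_mul hpr0 hpr1 _ hAB
          apply Finset.prod_nonneg
          intro p _
          have : 0 ≤ ∑ v ∈ V k ∪ V l, wt T p v := Finset.sum_nonneg fun v _ => wt_nonneg T p v
          positivity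
      _ ≤ (A * B) * ((1 + η) * (1 - η / 8) ^ 2) := mul_le_mul_of_nonneg_left hη8 hAB
      _ = (1 + η) * ((A * (1 - η / 8)) * (B * (1 - η / 8))) := by ring
      _ ≤ (1 + η) * (μ.real (G k) * μ.real (G l)) := mul_le_mul_of_nonneg_left h2 (by linarith)

end Pool.Agent.LibThinT
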