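import Pool.Agent.LibThinT.Bad
import Pool.Agent.LibThinT.Rows

/-!
At a good scale, for every centre `c`, with probability `≥ 1 - ε` some row is completely hit.
-/

namespace Pool.Agent.LibThinT

open Filter Topology MeasureTheory ProbabilityTheory
open Pool.Agent.LibThin21 Pool.Agent.LibMaier

variable {Ω : Type*} [MeasurableSpace Ω] {μ : Measure Ω} [IsProbabilityMeasure μ] {E : Set ℕ}
  {T : ℕ → ℕ} {a : ℕ → Ω → ℕ}

lemma SE_tail {E : Set ℕ} (h : Summable (rE E)) {η : ℝ} (hη : 0 < η) :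
    ∃ M : ℝ, ∀ u v : ℝ, M ≤ u → 0 ≤ v → SE E u v ≤ η := by
  obtain ⟨s, hs⟩ := summable_iff_vanishing_norm.1 h η hη
  obtain ⟨M, hM⟩ : ∃ M : ℕ, ∀ p ∈ s, p ≤ M := ⟨s.sup id, fun p hp => Finset.le_sup (f := id) hp⟩
  refine ⟨M, fun u v hu hv => ?_⟩
  rw [SE_eq_rE E hv]
  have h1 := hs (EP E u v) (by
    rw [Finset.disjoint_left]
    intro p hp hps
    rw [mem_EP hv] at hp
    have h2 : (p : ℝ) ≤ (M : ℝ) := by exact_mod_cast hM p hps
    linarith [hp.2.2.1])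
  exact (le_abs_self _).trans h1.le

/-- `δ'(X) → 0` -/
lemma delX_tendsto {E : Set ℕ} {T : ℕ → ℕ} (hT : ∀ p : ℕ, p.Prime → p ∈ E → T p ≤ p)
    (h : Summable (rE E)) {η : ℝ} (hη : 0 < η) :
    ∀ᶠ x : ℝ in atTop, delX E T x ≤ η := by
  obtain ⟨M, hM⟩ := SE_tail h hη
  filter_upwards [eventually_ge_atTop (max M 1)] with x hx
  have hx1 : 1 ≤ x := (le_max_right _ _).trans hx
  have hMx : M ≤ x := (le_max_left _ _).trans hx
  refine le_trans ?_ (hM x (Real.exp (x / 3)) hMx (Real.exp_pos _).le)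
  unfold delX SE
  apply Finset.sum_le_sum_of_subset_of_nonneg
  · intro p hp
    obtain ⟨⟨h1, h2, h3⟩, h4⟩ := mem_PX.1 hp
    rw [mem_EP (Real.exp_pos _).le]
    refine ⟨h1, h2, ?_, h3⟩
    have h5 : (T p : ℝ) ≤ p := by exact_mod_cast hT p h1 h2
    have h6 : x ≤ x ^ 8 := by
      calc x = x ^ 1 := (pow_one x).symm
        _ ≤ x ^ 8 := pow_le_pow_right₀ hx1 (by norm_num)
    linarith
  · intro p _ _
    positivity

/-- few primes are common to two rows -/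
theorem common_card {ε lam v0 : ℝ} (hε : 0 < ε) (hε1 : ε < 1 / 100)
    (hv0 : 0 ≤ v0) (hlam : 0 < lam) :
    ∀ᶠ x : ℝ in atTop, ∀ z p0 q k1 k2 : ℕ, GoodScale ε lam v0 x z p0 q k1 k2 → ∀ c : ℕ,
      ∀ k ∈ Finset.Ico k1 k2, ∀ l ∈ Finset.Ico k1 k2, k ≠ l → ∀ F : Finset ℕ,
      (∀ p ∈ F, p.Prime ∧ ∃ i ∈ Finset.Icc 1 ⌊lam * x ^ 2⌋₊,
        ∃ j ∈ Finset.Icc 1 ⌊lam * x ^ 2⌋₊, k * q + c + i ≡ l * q + c + j [MOD p]) →
      (F.card : ℝ) ≤ (6 * lam + 3) * x ^ 3 := by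
  filter_upwards [GoodScale.sizes hε hε1 hv0 hlam, eventually_ge_atTop (1 : ℝ)] with x h2 hx1
  intro z p0 q k1 k2 hg c k hk l hl hkl F hF
  obtain ⟨hk1, -, -, hk2, -, hq, hve, -⟩ := h2 z p0 q k1 k2 hg
  have hx0 : (0 : ℝ) < x := by linarith
  obtain ⟨h, hh⟩ : ∃ h, h = ⌊lam * x ^ 2⌋₊ := ⟨_, rfl⟩
  rw [← hh] at hF
  have hhle : (h : ℝ) ≤ lam * x ^ 2 := by rw [hh]; exact Nat.floor_le (by positivity)
  have hhq : (h : ℤ) < q := by
    have : (h : ℝ) < q := by linarith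
    exact_mod_cast this
  rw [Finset.mem_Ico] at hk hl
  obtain ⟨D, hD⟩ : ∃ D : ℤ → ℕ, D = fun t => (((k : ℤ) - l) * q + t).natAbs := ⟨_, rfl⟩
  have hq0 : (0 : ℤ) < q := by have := Int.natCast_nonneg h; omega
  have hD0 : ∀ t ∈ Finset.Icc (-(h : ℤ)) h, D t ≠ 0 := by
    intro t ht h0
    rw [Finset.mem_Icc] at ht
    rw [hD] at h0
    simp only [Int.natAbs_eq_zero] at h0
    rcases lt_or_gt_of_ne hkl with hlt | hgt
    · have : ((k : ℤ) - l) ≤ -1 := by omega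
      nlinarith
    · have : 1 ≤ ((k : ℤ) - l) := by omega
      nlinarith
  have hDle : ∀ t ∈ Finset.Icc (-(h : ℤ)) h, ((D t : ℕ) : ℝ) ≤ Real.exp (2 * x) := by
    intro t ht
    rw [Finset.mem_Icc] at ht
    have b1 : |((k : ℤ) - l) * q + t| ≤ (k2 : ℤ) * q + q := by
      have c1 : |((k : ℤ) - l) * q| ≤ (k2 : ℤ) * q := by
        rw [abs_mul, abs_of_pos hq0]
        apply mul_le_mul_of_nonneg_right _ hq0.le
        rw [abs_le]
        constructor <;> omega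
      have c2 : |t| ≤ (q : ℤ) := by rw [abs_le]; constructor <;> omega
      exact (abs_add_le _ _).trans (add_le_add c1 c2)
    have b2 : ((D t : ℕ) : ℝ) ≤ (k2 : ℝ) * q + q := by
      have : ((D t : ℕ) : ℤ) ≤ (k2 : ℤ) * q + q := by
        rw [hD]; simp only [Int.natCast_natAbs]; exact b1
      exact_mod_cast this
    have b3 : (q : ℝ) ≤ (k2 : ℝ) * q := by
      have : (1 : ℝ) ≤ k2 := by exact_mod_cast (by omega : 1 ≤ k2)
      have hq' : (0 : ℝ) ≤ q := Nat.cast_nonneg q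
      nlinarith
    have e1 : (2 : ℝ) ≤ Real.exp 1 := by
      have := Real.add_one_le_exp (1 : ℝ); linarith
    calc ((D t : ℕ) : ℝ) ≤ 2 * ((k2 : ℝ) * q) := by linarith
      _ ≤ Real.exp 1 * Real.exp (x + (v0 + 1)) :=
        mul_le_mul e1 hk2 (by positivity) (Real.exp_pos 1).le
      _ = Real.exp (1 + (x + (v0 + 1))) := by rw [← Real.exp_add]
      _ ≤ Real.exp (2 * x) := Real.exp_le_exp.2 (by nlinarith)
  have hsub : F ⊆ (Finset.Icc (-(h : ℤ)) h).biUnion (fun t => (D t).primeFactors) := by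
    intro p hp
    obtain ⟨hpp, i, hi, j, hj, hmod⟩ := hF p hp
    rw [Finset.mem_Icc] at hi hj
    rw [Finset.mem_biUnion]
    have ht : ((i : ℤ) - j) ∈ Finset.Icc (-(h : ℤ)) h := by
      rw [Finset.mem_Icc]; constructor <;> omega
    refine ⟨(i : ℤ) - j, ht, ?_⟩
    rw [Nat.mem_primeFactors]
    refine ⟨hpp, ?_, hD0 _ ht⟩
    rw [← Int.natCast_dvd_natCast, hD]
    simp only [Int.natCast_natAbs, dvd_abs]
    have h3 := (Nat.modEq_iff_dvd.1 hmod.symm)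
    push_cast at h3
    have h4 : ((k : ℤ) - l) * q + ((i : ℤ) - j) = (k * q + c + i) - (l * q + c + j) := by ring
    rw [h4]
    exact h3
  have hcardF : (F.card : ℝ) ≤ (2 * h + 1) * (3 * x) := by
    have d1 : F.card ≤ ∑ t ∈ Finset.Icc (-(h : ℤ)) h, (D t).primeFactors.card :=
      (Finset.card_le_card hsub).trans Finset.card_biUnion_le
    have d2 : ((∑ t ∈ Finset.Icc (-(h : ℤ)) h, (D t).primeFactors.card : ℕ) : ℝ) ≤
        (2 * h + 1) * (3 * x) := by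
      push_cast
      calc ∑ t ∈ Finset.Icc (-(h : ℤ)) h, ((D t).primeFactors.card : ℝ)
          ≤ ∑ _t ∈ Finset.Icc (-(h : ℤ)) h, (3 * x) :=
            Finset.sum_le_sum (fun t ht => r6b_card (hD0 t ht) hx0.le (hDle t ht))
        _ = (2 * h + 1) * (3 * x) := by
            rw [Finset.sum_const, Int.card_Icc, nsmul_eq_mul]
            have : ((h : ℤ) + 1 - -(h : ℤ)).toNat = 2 * h + 1 := by omega
            rw [this]
            push_cast
            ring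
    exact (by exact_mod_cast d1 : (F.card : ℝ) ≤ _).trans d2
  have f1 : 2 * (h : ℝ) + 1 ≤ (2 * lam + 1) * x ^ 2 := by nlinarith
  have f2 : (2 * (h : ℝ) + 1) * (3 * x) ≤ ((2 * lam + 1) * x ^ 2) * (3 * x) :=
    mul_le_mul_of_nonneg_right f1 (by positivity)
  calc (F.card : ℝ) ≤ _ := hcardF
    _ ≤ _ := f2
    _ = (6 * lam + 3) * x ^ 3 := by ring

/-- the numerical conditions for large `x` -/
lemma numT {ε Lam C1 C2 : ℝ} (hε : 0 < ε) (hC1 : 0 < C1) (hC2 : 0 < C2) : ∀ᶠ x : ℝ in atTop,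
    2 ≤ x ∧ 1 ≤ Real.log x ∧ Real.log (2 * x) ≤ ε * x ∧
    Lam * x ^ 2 + 1 ≤ x ^ 8 ∧ 4 * C2 ≤ x ∧ 16 * C1 ^ 2 / x ^ 4 ≤ ε / 16 ∧
    Real.exp (32 * C1 * C2 / x ^ 2) ≤ 1 + ε / 16 ∧
    4 * Real.exp (-(2 * ε * x)) / ε ≤ ε / 2 := by
  have h1 : Tendsto (fun x : ℝ => Real.log x / x) atTop (𝓝 0) := by
    have := Real.isLittleO_log_id_atTop.tendsto_div_nhds_zero
    simpa using this
  have h2 : Tendsto (fun x : ℝ => 32 * C1 * C2 / x ^ 2) atTop (𝓝 0) :=
    tendsto_const_nhds.div_atTop (tendsto_pow_atTop (by norm_num))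
  have h3 : Tendsto (fun x : ℝ => Real.exp (32 * C1 * C2 / x ^ 2)) atTop (𝓝 1) := by
    have := (Real.continuous_exp.tendsto 0).comp h2
    simpa [Function.comp_def] using this
  have h4 : Tendsto (fun x : ℝ => Real.exp (-(2 * ε * x))) atTop (𝓝 0) := by
    apply Real.tendsto_exp_neg_atTop_nhds_zero.comp
    exact tendsto_id.const_mul_atTop (by positivity)
  have h5 : Tendsto (fun x : ℝ => 16 * C1 ^ 2 / x ^ 4) atTop (𝓝 0) :=
    tendsto_const_nhds.div_atTop (tendsto_pow_atTop (by norm_num))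
  filter_upwards [eventually_ge_atTop (2 : ℝ), eventually_ge_atTop (Real.exp 1),
    h1.eventually_le_const (show (0 : ℝ) < ε / 2 by positivity),
    eventually_ge_atTop (4 * C2), eventually_ge_atTop (Lam + 1),
    h5.eventually_le_const (show (0 : ℝ) < ε / 16 by positivity),
    h3.eventually_le_const (show (1 : ℝ) < 1 + ε / 16 by linarith),
    h4.eventually_le_const (show (0 : ℝ) < ε ^ 2 / 8 by positivity)] with x a1 a2 a3 a4 a5 a6 a7 a8
  have hx0 : 0 < x := by linarith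
  refine ⟨a1, ?_, ?_, ?_, a4, a6, a7, ?_⟩
  · rw [Real.le_log_iff_exp_le hx0]
    exact a2
  · rw [div_le_iff₀ hx0] at a3
    rw [Real.log_mul (by norm_num) hx0.ne']
    have e1 : Real.log 2 ≤ Real.log x := Real.log_le_log (by norm_num) a1
    linarith
  · have e1 : x ^ 3 ≤ x ^ 8 := pow_le_pow_right₀ (by linarith) (by norm_num)
    refine le_trans ?_ e1
    have e2 : 1 ≤ x ^ 2 := one_le_pow₀ (by linarith)
    calc Lam * x ^ 2 + 1 ≤ (Lam + 1) * x ^ 2 := by nlinarith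
      _ ≤ x * x ^ 2 := mul_le_mul_of_nonneg_right a5 (by positivity)
      _ = x ^ 3 := by ring
  · rw [div_le_iff₀ hε]
    nlinarith

/-- numerical facts about `y1 = (1 - 2 ε) δ` -/
lemma numY {ε δ x : ℝ} (hε : 0 < ε) (hε1 : ε < 1 / 100) (hδ0 : 0 < δ) (hδε : δ ≤ ε)
    (hδ3 : δ ≤ Real.exp (-3)) (hx0 : 0 < x) (hδx : 1 / x ≤ δ) {y1 : ℝ} (hy1 : y1 = (1 - 2 * ε) * δ) :
    0 < y1 ∧ y1 ≤ 1 ∧ 0 ≤ Real.log (1 / y1) ∧ Real.log (1 / y1) ≤ (1 + ε) * Real.log (1 / δ) ∧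
    Real.log (1 / y1) ≤ Real.log (2 * x) ∧ 0 ≤ Real.log (1 / δ) ∧ 2 * (1 / (4 * x)) ≤ y1 ∧
    Real.exp (-((1 - ε) * δ)) ≤ 1 - y1 := by
  have hy10 : 0 < y1 := by rw [hy1]; exact mul_pos (by linarith) hδ0
  have hy11 : y1 ≤ 1 := by rw [hy1]; nlinarith
  have hLδ : 3 ≤ Real.log (1 / δ) := by
    rw [one_div, Real.log_inv]
    have := Real.log_le_log hδ0 hδ3
    rw [Real.log_exp] at this
    linarith
  have e4 : (0 : ℝ) < 1 - 2 * ε := by linarith
  have e7 : 1 ≤ δ * x := by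
    rw [div_le_iff₀ hx0] at hδx
    exact hδx
  refine ⟨hy10, hy11, ?_, ?_, ?_, by linarith, ?_, ?_⟩
  · apply Real.log_nonneg
    rw [le_div_iff₀ hy10]
    linarith
  · have e2 : 1 / y1 = (1 / δ) * (1 / (1 - 2 * ε)) := by
      rw [hy1]
      field_simp
    rw [e2, Real.log_mul (by positivity) (by positivity)]
    have e5 := Real.log_le_sub_one_of_pos (show (0 : ℝ) < 1 / (1 - 2 * ε) by positivity)
    have e6 : 1 / (1 - 2 * ε) ≤ 1 + 3 * ε := by
      rw [div_le_iff₀ e4]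
      nlinarith
    nlinarith
  · apply Real.log_le_log (by positivity)
    rw [div_le_iff₀ hy10, hy1]
    nlinarith
  · have h1 : 2 * (1 / (4 * x)) = 1 / x * (1 / 2) := by field_simp; norm_num
    rw [h1, hy1]
    have h2 : 1 / x * (1 / 2) ≤ δ * (1 / 2) := mul_le_mul_of_nonneg_right hδx (by norm_num)
    nlinarith
  · obtain ⟨t, ht⟩ : ∃ t, t = (1 - ε) * δ := ⟨_, rfl⟩
    have ht0 : 0 < t := by rw [ht]; exact mul_pos (by linarith) hδ0
    have htδ : t ≤ δ := by rw [ht]; nlinarith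
    rw [← ht, Real.exp_neg]
    have h6 : 1 + t ≤ Real.exp t := by
      have := Real.add_one_le_exp t
      linarith
    have h7 : (Real.exp t)⁻¹ ≤ (1 + t)⁻¹ := inv_anti₀ (by linarith) h6
    refine h7.trans ?_
    have h8 : y1 ≤ t * (1 - t) := by
      rw [hy1, ht]
      have h9 : (1 - ε) * δ ≤ ε := by nlinarith
      have h10 : (1 - 2 * ε) * δ ≤ (1 - ε) * δ * (1 - ε) := by nlinarith [mul_pos (mul_pos hε hε) hδ0]
      have h11 : (1 - ε) * δ * (1 - ε) ≤ (1 - ε) * δ * (1 - (1 - ε) * δ) := by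
        apply mul_le_mul_of_nonneg_left (by linarith)
        exact mul_nonneg (by linarith) hδ0.le
      exact h10.trans h11
    have h9 : (1 + t)⁻¹ ≤ 1 - t * (1 - t) := by
      rw [inv_eq_one_div, div_le_iff₀ (by linarith)]
      have : (1 - t * (1 - t)) * (1 + t) = 1 + t ^ 3 := by ring
      rw [this]
      have : 0 ≤ t ^ 3 := by positivity
      linarith
    linarith

/-- the power -/
lemma numK {ε lam x R y1 L : ℝ} {K : ℕ} (hx0 : 0 < x) (hR0 : 0 ≤ R) (hKR' : (K : ℝ) ≤ R + 1)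
    (hRb : R * (1 + ε) ≤ (1 + 50 * ε) * (eg / 2) * (lam * x)) (hL : 0 ≤ L) (hy10 : 0 < y1)
    (hL0 : 0 ≤ Real.log (1 / y1)) (hL1 : Real.log (1 / y1) ≤ (1 + ε) * L)
    (hL2 : Real.log (1 / y1) ≤ Real.log (2 * x)) (hlx : Real.log (2 * x) ≤ ε * x)
    (hcond : (1 + 50 * ε) * (eg / 2) * lam * L ≤ 1 - 5 * ε) :
    Real.exp (-((1 - 4 * ε) * x)) ≤ y1 ^ K := by
  have e1 : y1 ^ K = Real.exp (-((K : ℝ) * Real.log (1 / y1))) := by
    rw [one_div, Real.log_inv, mul_neg, neg_neg, mul_comm, ← Real.rpow_def_of_pos hy10,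
      Real.rpow_natCast]
  rw [e1]
  apply Real.exp_le_exp.2
  apply neg_le_neg
  calc (K : ℝ) * Real.log (1 / y1) ≤ (R + 1) * Real.log (1 / y1) :=
        mul_le_mul_of_nonneg_right hKR' hL0
    _ = R * Real.log (1 / y1) + Real.log (1 / y1) := by ring
    _ ≤ R * ((1 + ε) * L) + Real.log (2 * x) :=
        add_le_add (mul_le_mul_of_nonneg_left hL1 hR0) hL2
    _ = (R * (1 + ε)) * L + Real.log (2 * x) := by ring
    _ ≤ ((1 + 50 * ε) * (eg / 2) * (lam * x)) * L + ε * x :=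
        add_le_add (mul_le_mul_of_nonneg_right hRb hL) hlx
    _ = x * ((1 + 50 * ε) * (eg / 2) * lam * L) + ε * x := by ring
    _ ≤ x * (1 - 5 * ε) + ε * x := by
        have := mul_le_mul_of_nonneg_left hcond hx0.le
        linarith
    _ = (1 - 4 * ε) * x := by ring

lemma numF {ε : ℝ} (hε : 0 < ε) (hε1 : ε < 1 / 100) : (1 + 30 * ε) * (1 + ε) ^ 6 ≤ 1 + 50 * ε := by
  have h2 : (1 + ε) ^ 2 ≤ 1 + 2.01 * ε := by nlinarith
  have h4 : (1 + ε) ^ 4 ≤ 1 + 4.1 * ε := by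
    have : (1 + ε) ^ 4 = ((1 + ε) ^ 2) * ((1 + ε) ^ 2) := by ring
    rw [this]
    have h0 : 0 ≤ (1 + ε) ^ 2 := by positivity
    nlinarith
  have h6 : (1 + ε) ^ 6 ≤ 1 + 7 * ε := by
    have : (1 + ε) ^ 6 = ((1 + ε) ^ 4) * ((1 + ε) ^ 2) := by ring
    rw [this]
    have h0 : 0 ≤ (1 + ε) ^ 4 := by positivity
    have h00 : 0 ≤ (1 + ε) ^ 2 := by positivity
    nlinarith
  nlinarith

open Classical in
theorem scale_probT (hS : Summable (rE E)) (hT : ∀ p : ℕ, p.Prime → p ∈ E → T p ≤ p) (hM : ModelT μ E T a) {ε Lam v0 : ℝ}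
    (hε : 0 < ε) (hε1 : ε < 1 / 100) (hv0 : 0 ≤ v0) (hLam : 0 < Lam)
    (hgw : 1 - ε ≤ ∫ v in (-v0)..v0, gw v) :
    ∀ᶠ x : ℝ in atTop, 1 / x ≤ delX E T x → ∀ z p0 q k1 k2 : ℕ, GoodScale ε Lam v0 x z p0 q k1 k2 →
      HC ε Lam x q → ∀ lam : ℝ, 1 / Real.log x ^ 2 ≤ lam → lam ≤ Lam →
      (1 + 50 * ε) * (eg / 2) * lam * Real.log (1 / delX E T x) ≤ 1 - 5 * ε →
      ∀ c : ℕ, c < q →
      1 - ε ≤ μ.real {ω | ∃ k ∈ Finset.Ico k1 k2, ∃ R : Finset ℕ, TT E q c k ⌊lam * x ^ 2⌋₊ ⊆ R ∧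
        ∀ i ∈ R, ∃ p ∈ PX E T x, k * q + c + i ≡ a p ω [MOD p]} := by
  have hE : Thin E := thin_of_summable hS
  obtain ⟨M, hMt⟩ := SE_tail hS (show (0 : ℝ) < ε / 4 by positivity)
  have hexp3 : (0 : ℝ) < min ε (Real.exp (-3)) := lt_min hε (Real.exp_pos _)
  have heg := eg_pos
  obtain ⟨C1, hC1⟩ : ∃ C1, C1 = eg * Lam + 1 := ⟨_, rfl⟩
  obtain ⟨C2, hC2⟩ : ∃ C2, C2 = 6 * Lam + 3 := ⟨_, rfl⟩
  have hC10 : 0 < C1 := by rw [hC1]; positivity
  have hC20 : 0 < C2 := by rw [hC2]; positivity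
  filter_upwards [numT (Lam := Lam) hε hC10 hC20, DQ_le (lam := Lam) (v0 := v0) hE hε hε1,
    GoodScale.sizes (lam := Lam) hε hε1 hv0 hLam,
    common_card (lam := Lam) hε hε1 hv0 hLam, bad_weight hT hε hε1 hv0 hLam,
    good_rows' hE hε hε1 hv0 hLam hgw, delX_tendsto hT hS hexp3,
    eventually_ge_atTop (max M 1)] with x hnum hDQ hsz hcc hbw hgr hδs hxM
  obtain ⟨hx2, hl1, hlx, hx12, hxC2, hn1, hn2, hn3⟩ := hnum
  intro hδx z p0 q k1 k2 hG hHC lam hlam1 hlam2 hcond c hc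
  have hx0 : 0 < x := by linarith
  have hlog0 : 0 < Real.log x := by linarith
  have hlam0 : 0 < lam := lt_of_lt_of_le (by positivity) hlam1
  obtain ⟨P, hPd⟩ : ∃ P, P = PX E T x := ⟨_, rfl⟩
  obtain ⟨δ, hδd⟩ : ∃ δ, δ = delX E T x := ⟨_, rfl⟩
  have hbw' := hbw hδx z p0 q k1 k2 hG lam hlam2 c
  rw [← hPd, ← hδd] at hbw'
  have hPT : ∀ p ∈ P, p.Prime ∧ p ∈ E ∧ 1 ≤ T p ∧ T p ≤ p ∧ x ^ 8 ≤ (T p : ℝ) ∧
      (p : ℝ) ≤ Real.exp (x / 3) := by
    rw [hPd]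
    exact PX_facts hT
  rw [← hδd] at hδx hcond hδs
  rw [← hPd]
  have hδ0 : 0 < δ := lt_of_lt_of_le (by positivity) hδx
  have hδε : δ ≤ ε := hδs.trans (min_le_left _ _)
  have hδ3 : δ ≤ Real.exp (-3) := hδs.trans (min_le_right _ _)
  obtain ⟨h, hh⟩ : ∃ h, h = ⌊lam * x ^ 2⌋₊ := ⟨_, rfl⟩
  rw [← hh] at hbw' ⊢
  obtain ⟨hk1, hk1e, -, -, -, hqbig, -, -⟩ := hsz z p0 q k1 k2 hG
  have hhL : (h : ℝ) ≤ Lam * x ^ 2 := by
    rw [hh]
    refine (Nat.floor_le (by positivity)).trans ?_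
    gcongr
  have hhH : h ≤ ⌊Lam * x ^ 2⌋₊ := Nat.le_floor hhL
  have hhq : h < q := by
    have h2 : (h : ℝ) < (q : ℝ) := by linarith
    exact_mod_cast h2
  have hbig : ∀ p ∈ P, h < p := by
    intro p hp
    obtain ⟨-, -, -, h4, h5, -⟩ := hPT p hp
    have h6 : (T p : ℝ) ≤ p := by exact_mod_cast h4
    have h7 : (h : ℝ) < p := by linarith
    exact_mod_cast h7
  have hP4 : ∀ p ∈ P, p.Prime ∧ p ∈ E ∧ 1 ≤ T p ∧ T p ≤ p := fun p hp => by
    obtain ⟨h1, h2, h3, h4, -, -⟩ := hPT p hp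
    exact ⟨h1, h2, h3, h4⟩
  have hLT : ∀ p ∈ P, x ^ 8 ≤ (T p : ℝ) := fun p hp => (hPT p hp).2.2.2.2.1
  -- the number of survivors
  obtain ⟨R, hR⟩ : ∃ R, R = (1 + 30 * ε) * (eg / 2) * (lam * x) * DQ E q x := ⟨_, rfl⟩
  have hD1 : 1 ≤ DQ E q x := one_le_DQ E q x
  have hD5 : DQ E q x ≤ (1 + ε) ^ 5 := by
    refine (hDQ z p0 q k1 k2 hG).trans ?_
    have h1 : LSieve.V (EP E (x ^ 8) (Real.exp (x / 3))) ≤ Real.exp (ε / 2) := by
      refine (s3_V_EP_le E _ _).trans (Real.exp_le_exp.2 ?_)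
      have h2 : x ≤ x ^ 8 := by
        calc x = x ^ 1 := (pow_one x).symm
          _ ≤ x ^ 8 := pow_le_pow_right₀ (by linarith) (by norm_num)
      have h3 := hMt (x ^ 8) (Real.exp (x / 3)) (((le_max_left _ _).trans hxM).trans h2)
        (Real.exp_pos _).le
      linarith
    have hexp : Real.exp (ε / 2) ≤ 1 + ε := by
      have h3 := Real.exp_bound_div_one_sub_of_interval (x := ε / 2) (by positivity) (by linarith)
      refine h3.trans ?_
      rw [div_le_iff₀ (by linarith)]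
      nlinarith
    calc (1 + ε) ^ 4 * LSieve.V (EP E (x ^ 8) (Real.exp (x / 3))) ≤ (1 + ε) ^ 4 * (1 + ε) :=
          mul_le_mul_of_nonneg_left (h1.trans hexp) (by positivity)
      _ = (1 + ε) ^ 5 := by ring
  have hfac := numF hε hε1
  have hR0 : 0 ≤ R := by
    rw [hR]
    have : 0 ≤ DQ E q x := by linarith
    positivity
  have hRb : R * (1 + ε) ≤ (1 + 50 * ε) * (eg / 2) * (lam * x) := by
    calc R * (1 + ε) ≤ ((1 + 30 * ε) * (eg / 2) * (lam * x) * (1 + ε) ^ 5) * (1 + ε) := by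
          apply mul_le_mul_of_nonneg_right _ (by linarith)
          rw [hR]
          exact mul_le_mul_of_nonneg_left hD5 (by positivity)
      _ = ((1 + 30 * ε) * (1 + ε) ^ 6) * ((eg / 2) * (lam * x)) := by ring
      _ ≤ (1 + 50 * ε) * ((eg / 2) * (lam * x)) := mul_le_mul_of_nonneg_right hfac (by positivity)
      _ = (1 + 50 * ε) * (eg / 2) * (lam * x) := by ring
  have hRx : R + 1 ≤ C1 * x := by
    have h1 : R ≤ R * (1 + ε) := by nlinarith
    have h2 : (1 + 50 * ε) * (eg / 2) ≤ eg := by nlinarith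
    have h3 : (1 + 50 * ε) * (eg / 2) * (lam * x) ≤ eg * (Lam * x) := by
      apply mul_le_mul h2 _ (by positivity) heg.le
      gcongr
    have h4 : C1 * x = eg * (Lam * x) + x := by rw [hC1]; ring
    linarith
  obtain ⟨K, hK⟩ : ∃ K, K = ⌈R⌉₊ := ⟨_, rfl⟩
  have hKR : R ≤ (K : ℝ) := by rw [hK]; exact Nat.le_ceil R
  have hKR' : (K : ℝ) ≤ R + 1 := by rw [hK]; exact (Nat.ceil_lt_add_one hR0).le
  have hKx : (K : ℝ) ≤ C1 * x := hKR'.trans hRx
  -- the rows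
  obtain ⟨s, hs⟩ : ∃ s, s = (Finset.Ico k1 k2).filter (fun k => ((TT E q c k h).card : ℝ) ≤ (K : ℝ) ∧
    ¬ BadRow T P (ε * δ) δ h q c k) := ⟨_, rfl⟩
  have hq1 : 1 ≤ q := by omega
  have hk1pos : (0 : ℝ) < k1 := by exact_mod_cast hk1
  have hWt : ∀ k ∈ Finset.Ico k1 k2, 0 ≤ Wt q x k := fun k hk =>
    Wt_nonneg hq1 (hk1.trans (Finset.mem_Ico.1 hk).1) x
  have hWs : ε / 2 ≤ ∑ k ∈ s, Wt q x k := by
    have h1 := hgr z p0 q k1 k2 hG hHC lam hlam1 hlam2 c hc K (by rw [← hR]; exact hKR)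
    rw [← hh] at h1
    have h2 : ∑ k ∈ (Finset.Ico k1 k2).filter (fun k => ((TT E q c k h).card : ℝ) ≤ (K : ℝ)), Wt q x k ≤
        ∑ k ∈ s, Wt q x k +
        ∑ k ∈ (Finset.Ico k1 k2).filter (fun k => BadRow T P (ε * δ) δ h q c k), Wt q x k := by
      have h3 : (Finset.Ico k1 k2).filter (fun k => ((TT E q c k h).card : ℝ) ≤ (K : ℝ)) ⊆
          s ∪ (Finset.Ico k1 k2).filter (fun k => BadRow T P (ε * δ) δ h q c k) := by
        intro k hk
        rw [Finset.mem_filter] at hk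
        by_cases hb : BadRow T P (ε * δ) δ h q c k
        · exact Finset.mem_union_right _ (Finset.mem_filter.2 ⟨hk.1, hb⟩)
        · apply Finset.mem_union_left
          rw [hs]
          exact Finset.mem_filter.2 ⟨hk.1, hk.2, hb⟩
      have hsI : s ⊆ Finset.Ico k1 k2 := by rw [hs]; exact Finset.filter_subset _ _
      have hbI : (Finset.Ico k1 k2).filter (fun k => BadRow T P (ε * δ) δ h q c k) ⊆
          Finset.Ico k1 k2 := Finset.filter_subset _ _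
      refine (Finset.sum_le_sum_of_subset_of_nonneg h3 fun k hk _ => hWt k ?_).trans ?_
      · rcases Finset.mem_union.1 hk with hk | hk
        · exact hsI hk
        · exact hbI hk
      · rw [← Finset.sum_union_inter]
        have : 0 ≤ ∑ k ∈ s ∩ (Finset.Ico k1 k2).filter (fun k => BadRow T P (ε * δ) δ h q c k),
            Wt q x k := Finset.sum_nonneg fun k hk => hWt k (hsI (Finset.mem_inter.1 hk).1)
        linarith
    linarith
  have hsI : ∀ k ∈ s, k ∈ Finset.Ico k1 k2 := fun k hk => by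
    rw [hs] at hk
    exact (Finset.mem_filter.1 hk).1
  have hwk : ∀ k ∈ s, k1 ≤ k := fun k hk => (Finset.mem_Ico.1 (hsI k hk)).1
  have hTTs : ∀ k, TT E q c k h ⊆ Finset.Icc 1 h := by
    intro k i hi
    unfold TT cols at hi
    rw [Finset.mem_filter, Finset.mem_filter] at hi
    exact hi.1.1
  have hload : ∀ k ∈ s, ∀ i ∈ TT E q c k h, |load T P (k * q + c + i) - δ| ≤ ε * δ := by
    intro k hk i hi
    rw [hs, Finset.mem_filter] at hk
    by_contra hcon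
    rw [not_le] at hcon
    exact hk.2.2 ⟨i, hTTs k hi, hcon⟩
  obtain ⟨y1, hy1⟩ : ∃ y1, y1 = (1 - 2 * ε) * δ := ⟨_, rfl⟩
  obtain ⟨hy10, hy11, hL0, hL1, hL2, hLδ, hyx, hexpy⟩ := numY hε hε1 hδ0 hδε hδ3 hx0 hδx hy1
  have hpow := numK hx0 hR0 hKR' hRb hLδ hy10 hL0 hL1 hL2 hlx hcond
  have hyy : ∀ k ∈ s, ∀ i ∈ TT E q c k h, y1 ≤ yy T P (k * q + c + i) := by
    intro k hk i hi
    obtain ⟨h1, h2⟩ := abs_le.1 (hload k hk i hi)
    unfold yy
    have h3 : ∏ p ∈ P, (1 - wt T p (k * q + c + i)) ≤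
        Real.exp (-load T P (k * q + c + i)) := by
      unfold load
      rw [← Finset.sum_neg_distrib, Real.exp_sum]
      apply Finset.prod_le_prod
      · intro p _
        linarith [wt_le_one T p (k * q + c + i)]
      · intro p _
        have := Real.add_one_le_exp (-wt T p (k * q + c + i))
        linarith
    have h4 : Real.exp (-load T P (k * q + c + i)) ≤ Real.exp (-((1 - ε) * δ)) :=
      Real.exp_le_exp.2 (by linarith)
    linarith
  have hcore := rows_core_T (μ := μ) (a := a) hM (P := P) (s := s) hP4 (q := q) (c := c) (h := h)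
    (K := K) (fun k => TT E q c k h) (fun k _ => hTTs k)
    (fun k hk => by
      rw [hs, Finset.mem_filter] at hk
      exact_mod_cast hk.2.1) hhq hbig
    (w := fun k => Wt q x k) (wm := 1 / (k1 : ℝ)) (W := ∑ k ∈ s, Wt q x k) (η := ε / 2)
    (β := 1 / (4 * x)) (L := x ^ 8) (S := 1) (τ := C2 * x ^ 3)
    (Pm := Real.exp (-((1 - 4 * ε) * x)) / 2) (by positivity) hLT (by positivity) (by linarith)
    (by positivity) (by rw [div_le_one (by positivity)]; linarith)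
    (fun k hk => Wt_nonneg hq1 (hk1.trans (hwk k hk)) x)
    (fun k hk => (Wt_le_inv hq1 (hk1.trans (hwk k hk)) x).trans (by
      apply one_div_le_one_div_of_le hk1pos
      exact_mod_cast hwk k hk)) rfl (by linarith)
    (fun k hk i hi => hyx.trans (hyy k hk i hi))
    (fun k hk i hi => by
      obtain ⟨h1, h2⟩ := abs_le.1 (hload k hk i hi)
      nlinarith) zero_le_one (by positivity)
    (fun k hk => by
      have h1 : y1 ^ K ≤ ∏ i ∈ TT E q c k h, yy T P (k * q + c + i) := by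
        have h2 : (TT E q c k h).card ≤ K := by
          rw [hs, Finset.mem_filter] at hk
          exact_mod_cast hk.2.1
        calc y1 ^ K ≤ y1 ^ (TT E q c k h).card := pow_le_pow_of_le_one hy10.le hy11 h2
          _ = ∏ _i ∈ TT E q c k h, y1 := by rw [Finset.prod_const]
          _ ≤ ∏ i ∈ TT E q c k h, yy T P (k * q + c + i) :=
              Finset.prod_le_prod (fun _ _ => hy10.le) (hyy k hk)
      have h4 : 2 * (Real.exp (-((1 - 4 * ε) * x)) / 2) = Real.exp (-((1 - 4 * ε) * x)) := by ring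
      rw [h4]
      exact hpow.trans h1)
    (fun k hk l hl hkl => by
      rw [hC2]
      apply hcc z p0 q k1 k2 hG c k (hsI k hk) l (hsI l hl) hkl
      intro p hp
      rw [Finset.mem_filter] at hp
      obtain ⟨hpP, i, hi, j, hj, hij⟩ := hp
      rw [Finset.mem_Icc] at hi hj
      exact ⟨(hP4 p hpP).1, i, Finset.mem_Icc.2 ⟨hi.1, hi.2.trans hhH⟩, j,
        Finset.mem_Icc.2 ⟨hj.1, hj.2.trans hhH⟩, hij⟩)
    (by
      rw [div_le_div_iff₀ (by positivity) (by positivity)]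
      have e1 : 4 * C2 * x ^ 4 ≤ x * x ^ 4 := mul_le_mul_of_nonneg_right hxC2 (by positivity)
      have e2 : x ^ 5 ≤ x ^ 8 := pow_le_pow_right₀ (by linarith) (by norm_num)
      calc C2 * x ^ 3 * (4 * x) = 4 * C2 * x ^ 4 := by ring
        _ ≤ x * x ^ 4 := e1
        _ = x ^ 5 := by ring
        _ ≤ 1 * x ^ 8 := by linarith)
    (by
      have e1 : (K : ℝ) ^ 2 ≤ (C1 * x) ^ 2 := by gcongr
      calc (K : ℝ) ^ 2 * 1 / (x ^ 8 * (1 / (4 * x)) ^ 2) ≤
            (C1 * x) ^ 2 * 1 / (x ^ 8 * (1 / (4 * x)) ^ 2) := by gcongr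
        _ = 16 * C1 ^ 2 / x ^ 4 := by field_simp; norm_num
        _ ≤ ε / 16 := hn1
        _ = ε / 2 / 8 := by ring)
    (by
      have e2 : C2 * x ^ 3 * (2 * K / x ^ 8) / (1 / (4 * x)) ^ 2 ≤ 32 * C1 * C2 / x ^ 2 := by
        calc C2 * x ^ 3 * (2 * K / x ^ 8) / (1 / (4 * x)) ^ 2 ≤
              C2 * x ^ 3 * (2 * (C1 * x) / x ^ 8) / (1 / (4 * x)) ^ 2 := by gcongr
          _ = 32 * C1 * C2 / x ^ 2 := by field_simp; norm_num
      refine (Real.exp_le_exp.2 e2).trans (hn2.trans ?_)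
      linarith)
  have hfin : 1 / (k1 : ℝ) / ((∑ k ∈ s, Wt q x k) * (Real.exp (-((1 - 4 * ε) * x)) / 2)) ≤ ε / 2 := by
    refine le_trans ?_ hn3
    have h1 : 1 / (k1 : ℝ) ≤ Real.exp (-((1 - 2 * ε) * x)) := by
      rw [Real.exp_neg, ← one_div]
      exact one_div_le_one_div_of_le (Real.exp_pos _) hk1e
    have h2 : ε / 2 * (Real.exp (-((1 - 4 * ε) * x)) / 2) ≤
        (∑ k ∈ s, Wt q x k) * (Real.exp (-((1 - 4 * ε) * x)) / 2) :=
      mul_le_mul_of_nonneg_right hWs (by positivity)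
    have h3 : 1 / (k1 : ℝ) / ((∑ k ∈ s, Wt q x k) * (Real.exp (-((1 - 4 * ε) * x)) / 2)) ≤
        Real.exp (-((1 - 2 * ε) * x)) / (ε / 2 * (Real.exp (-((1 - 4 * ε) * x)) / 2)) :=
      div_le_div₀ (Real.exp_pos _).le h1 (by positivity) h2
    refine h3.trans (le_of_eq ?_)
    have e1 : Real.exp (-((1 - 2 * ε) * x)) = Real.exp (-(2 * ε * x)) *
        Real.exp (-((1 - 4 * ε) * x)) := by
      rw [← Real.exp_add]
      congr 1
      ring
    rw [e1]
    have e2 := (Real.exp_pos (-((1 - 4 * ε) * x))).ne'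
    field_simp
    norm_num
  have hsub : (⋃ k ∈ s, {ω | ∀ i ∈ TT E q c k h, ∃ p ∈ P, k * q + c + i ≡ a p ω [MOD p]}) ⊆
      {ω | ∃ k ∈ Finset.Ico k1 k2, ∃ R : Finset ℕ, TT E q c k h ⊆ R ∧
        ∀ i ∈ R, ∃ p ∈ P, k * q + c + i ≡ a p ω [MOD p]} := by
    intro ω hω
    simp only [Set.mem_iUnion] at hω
    obtain ⟨k, hk, hkω⟩ := hω
    exact ⟨k, hsI k hk, TT E q c k h, subset_rfl, hkω⟩
  have hmono := measureReal_mono (μ := μ) hsub (measure_ne_top _ _)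
  linarith

end Pool.Agent.LibThinT
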