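import Pool.Agent.LibThinT.Ae
import Pool.Agent.LibThin21.Ex

/-!
Sets of primes with an arbitrarily small sum of reciprocals and almost Cramér-size gaps.
-/

namespace Pool.Agent.LibThinT

open Filter Topology MeasureTheory ProbabilityTheory
open Pool.Agent.LibMaier Pool.Agent.LibThin21 Pool.Agent.LibThin91

lemma mass_T : ∀ᶠ x : ℝ in atTop, 1 / 2 ≤ SE Set.univ (Real.exp (x / 100)) (Real.exp (x / 40)) := by
  obtain ⟨M, hM⟩ := mertens_second
  have t1 : Tendsto (fun x : ℝ => Real.exp (x / 40)) atTop atTop :=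
    Real.tendsto_exp_atTop.comp (tendsto_id.atTop_div_const (by norm_num))
  have t2 : Tendsto (fun x : ℝ => Real.exp (x / 100)) atTop atTop :=
    Real.tendsto_exp_atTop.comp (tendsto_id.atTop_div_const (by norm_num))
  have h3 := (hM.comp t1).sub (hM.comp t2)
  rw [sub_self] at h3
  have hlog : (3 : ℝ) / 5 ≤ Real.log (5 / 2) := by
    have h1 := Real.log_two_gt_d9
    have h2 : Real.log 2 ≤ Real.log (5 / 2) := Real.log_le_log (by norm_num) (by norm_num)
    linarith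
  filter_upwards [h3.eventually_const_le (show (-(1 / 10) : ℝ) < 0 by norm_num),
    eventually_gt_atTop (0 : ℝ)] with x hx hx0
  simp only [Function.comp_apply] at hx
  have hdiff : RN ⌊Real.exp (x / 40)⌋₊ - RN ⌊Real.exp (x / 100)⌋₊ ≤
      SE Set.univ (Real.exp (x / 100)) (Real.exp (x / 40)) :=
    RN_sub_le (Real.exp_pos _).le (Real.exp_pos _).le
  unfold DR at hx
  rw [Real.log_exp, Real.log_exp] at hx
  have h4 : Real.log (x / 40) - Real.log (x / 100) = Real.log (5 / 2) := by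
    rw [← Real.log_div (by positivity) (by positivity)]
    congr 1
    field_simp
    norm_num
  linarith

/-- the constant -/
noncomputable def gT : ℝ := 2 * Real.exp (-Real.eulerMascheroniConstant)

lemma gT_pos : 0 < gT := by unfold gT; positivity

/-- the blocks -/
theorem exists_slow {f : ℕ → ℝ} (hf : Tendsto f atTop atTop) {ε : ℝ} (hε : 0 < ε) :
    ∃ E : Set ℕ, Summable (rE E) ∧ ∑' p, rE E p ≤ ε ∧ ∃ x t : ℕ → ℝ, Tendsto x atTop atTop ∧
      ∀ k, 0 < t k ∧ 1 / x k ≤ t k ∧ t k ≤ delT E (x k) ∧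
        ∃ N : ℕ, (∀ n : ℕ, N ≤ n → 9 / (2 * gT) * Real.log (1 / t k) ≤ f n) ∧
          ∀ n : ℕ, n < N → (N : ℝ) + Real.log n ^ 2 / f n ≤ Real.exp (x k / 2) := by
  classical
  obtain ⟨t, ht⟩ : ∃ t : ℕ → ℝ, t = fun k => min ε 1 * (1 / 2) ^ (k + 2) := ⟨_, rfl⟩
  have hε1 : 0 < min ε 1 := lt_min hε one_pos
  have ht0 : ∀ k, 0 < t k := fun k => by rw [ht]; positivity
  have hN : ∀ k : ℕ, ∃ N : ℕ, ∀ n : ℕ, N ≤ n → 9 / (2 * gT) * Real.log (1 / t k) ≤ f n := fun k =>
    eventually_atTop.1 (hf.eventually_ge_atTop _)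
  choose N hN using hN
  have hMx : ∀ k : ℕ, ∃ M : ℝ, ∀ n : ℕ, n < N k → (N k : ℝ) + Real.log n ^ 2 / f n ≤ M := by
    intro k
    refine ⟨∑ n ∈ Finset.range (N k), |(N k : ℝ) + Real.log n ^ 2 / f n|, fun n hn => ?_⟩
    refine (le_abs_self _).trans ?_
    exact Finset.single_le_sum (f := fun n : ℕ => |(N k : ℝ) + Real.log n ^ 2 / f n|)
      (fun i _ => abs_nonneg _) (Finset.mem_range.2 hn)
  choose M hM using hMx
  have hex : ∀ k : ℕ, ∃ x : ℝ, (k : ℝ) ≤ x ∧ 1 / x ≤ t k ∧ M k ≤ Real.exp (x / 2) ∧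
      ∃ F : Finset ℕ, F ⊆ EP Set.univ (Real.exp (x / 100)) (Real.exp (x / 40)) ∧
        t k ≤ ∑ p ∈ F, 1 / (p : ℝ) ∧ ∑ p ∈ F, 1 / (p : ℝ) ≤ 2 * t k := by
    intro k
    have e1 : ∀ᶠ x : ℝ in atTop, 1 / x ≤ t k := by
      have h2 : Tendsto (fun x : ℝ => 1 / x) atTop (𝓝 0) := by
        simpa using tendsto_inv_atTop_zero
      exact (h2.eventually_lt_const (ht0 k)).mono fun x hx => hx.le
    have e2 : ∀ᶠ x : ℝ in atTop, M k ≤ Real.exp (x / 2) :=
      (Real.tendsto_exp_atTop.comp (tendsto_id.atTop_div_const (by norm_num))).eventually_ge_atTop _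
    have e3 : ∀ᶠ x : ℝ in atTop, 1 / t k ≤ Real.exp (x / 100) :=
      (Real.tendsto_exp_atTop.comp (tendsto_id.atTop_div_const (by norm_num))).eventually_ge_atTop _
    obtain ⟨x, h1, h2, h3, h4, h5⟩ := (e1.and (e2.and (e3.and (mass_T.and
      (eventually_ge_atTop (k : ℝ)))))).exists
    refine ⟨x, h5, h1, h2, ?_⟩
    have htk : t k ≤ 1 / 4 := by
      rw [ht]
      have h6 : (1 / 2 : ℝ) ^ (k + 2) ≤ 1 / 4 := by
        rw [pow_add]
        have : (1 / 2 : ℝ) ^ k ≤ 1 := pow_le_one₀ (by norm_num) (by norm_num)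
        nlinarith
      have h7 : min ε 1 ≤ 1 := min_le_right _ _
      have h8 : 0 ≤ (1 / 2 : ℝ) ^ (k + 2) := by positivity
      calc min ε 1 * (1 / 2) ^ (k + 2) ≤ 1 * (1 / 2) ^ (k + 2) := mul_le_mul_of_nonneg_right h7 h8
        _ ≤ 1 / 4 := by linarith
    obtain ⟨F, hF1, hF2, hF3⟩ := exists_subset_sum (f := fun p => 1 / (p : ℝ)) (t := t k)
      (ht0 k).le (EP Set.univ (Real.exp (x / 100)) (Real.exp (x / 40))) (fun p _ => by positivity)
      (fun p hp => by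
        rw [mem_EP (Real.exp_pos _).le] at hp
        have h9 : 1 / t k ≤ (p : ℝ) := h3.trans hp.2.2.1.le
        have htk0 := ht0 k
        rw [div_le_iff₀ htk0] at h9
        have hp0 : (0 : ℝ) < p := by exact_mod_cast hp.1.pos
        rw [div_le_iff₀ hp0]
        linarith) (by
        have h10 : SE Set.univ (Real.exp (x / 100)) (Real.exp (x / 40)) =
          ∑ p ∈ EP Set.univ (Real.exp (x / 100)) (Real.exp (x / 40)), 1 / (p : ℝ) := rfl
        linarith)
    exact ⟨F, hF1, hF2, hF3⟩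
  choose x hx1 hx2 hx3 F hF1 hF2 hF3 using hex
  obtain ⟨E, hE⟩ : ∃ E : Set ℕ, E = {p | ∃ k, p ∈ F k} := ⟨_, rfl⟩
  have hFmem : ∀ k, ∀ p ∈ F k, p.Prime ∧ Real.exp (x k / 100) < (p : ℝ) ∧
      (p : ℝ) ≤ Real.exp (x k / 40) := by
    intro k p hp
    have h1 := hF1 k hp
    rw [mem_EP (Real.exp_pos _).le] at h1
    exact ⟨h1.1, h1.2.2.1, h1.2.2.2⟩
  have hxtend : Tendsto x atTop atTop := tendsto_atTop_mono hx1 tendsto_natCast_atTop_atTop
  have hsumU : ∀ K : ℕ, ∑ p ∈ (Finset.range K).biUnion F, 1 / (p : ℝ) ≤ ε := by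
    intro K
    have h1 : ∀ K : ℕ, ∑ p ∈ (Finset.range K).biUnion F, 1 / (p : ℝ) ≤
        ∑ k ∈ Finset.range K, ∑ p ∈ F k, 1 / (p : ℝ) := by
      intro K
      induction K with
      | zero => simp
      | succ K ih =>
        rw [Finset.sum_range_succ, Finset.range_add_one, Finset.biUnion_insert]
        have h1 := Finset.sum_union_inter (s₁ := F K)
          (s₂ := (Finset.range K).biUnion F) (f := fun p : ℕ => 1 / (p : ℝ))
        have h2 : 0 ≤ ∑ p ∈ F K ∩ (Finset.range K).biUnion F, 1 / (p : ℝ) :=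
          Finset.sum_nonneg fun p _ => by positivity
        linarith
    have h2 : ∀ K : ℕ, ∑ k ∈ Finset.range K, 2 * t k = min ε 1 * (1 - (1 / 2) ^ K) := by
      intro K
      induction K with
      | zero => simp
      | succ K ih =>
        rw [Finset.sum_range_succ, ih, ht]
        simp only
        ring
    refine (h1 K).trans ((Finset.sum_le_sum fun k _ => hF3 k).trans ?_)
    rw [h2 K]
    have h3 : 0 ≤ (1 / 2 : ℝ) ^ K := by positivity
    have h4 : min ε 1 ≤ ε := min_le_left _ _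
    nlinarith
  have hbound : ∀ s : Finset ℕ, ∑ p ∈ s, rE E p ≤ ε := by
    intro s
    obtain ⟨m, hm⟩ : ∃ m : ℕ, ∀ p ∈ s, p ≤ m := ⟨s.sup id, fun p hp => Finset.le_sup (f := id) hp⟩
    have hev : ∀ᶠ k : ℕ in atTop, (m : ℝ) < Real.exp (x k / 100) :=
      (Real.tendsto_exp_atTop.comp (hxtend.atTop_div_const (by norm_num))).eventually_gt_atTop _
    obtain ⟨K, hK⟩ := eventually_atTop.1 hev
    have h1 : ∑ p ∈ s, rE E p = ∑ p ∈ s.filter (fun p => p.Prime ∧ p ∈ E), 1 / (p : ℝ) := by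
      rw [Finset.sum_filter]
      apply Finset.sum_congr rfl
      intro p _
      rfl
    rw [h1]
    refine le_trans ?_ (hsumU K)
    apply Finset.sum_le_sum_of_subset_of_nonneg
    · intro p hp
      rw [Finset.mem_filter] at hp
      have h2 := hp.2.2
      rw [hE] at h2
      obtain ⟨k, hk⟩ := h2
      rw [Finset.mem_biUnion]
      refine ⟨k, ?_, hk⟩
      rw [Finset.mem_range]
      by_contra hcon
      push Not at hcon
      have h3 := hK k hcon
      have h4 := (hFmem k p hk).2.1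
      have h5 : (p : ℝ) ≤ m := by exact_mod_cast hm p hp.1
      linarith
    · intro p _ _
      positivity
  have hsummable : Summable (rE E) := summable_of_sum_le (rE_nonneg E) hbound
  refine ⟨E, hsummable, hsummable.tsum_le_of_sum_le hbound, x, t, hxtend, fun k => ?_⟩
  refine ⟨ht0 k, hx2 k, ?_, N k, hN k, fun n hn => (hM k n hn).trans (hx3 k)⟩
  refine (hF2 k).trans ?_
  unfold delT SE
  apply Finset.sum_le_sum_of_subset_of_nonneg
  · intro p hp
    obtain ⟨h1, h2, h3⟩ := hFmem k p hp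
    rw [mem_EP (Real.exp_pos _).le]
    exact ⟨h1, by rw [hE]; exact ⟨k, hp⟩, h2, h3⟩
  · intro p _ _
    positivity

/-- the primes of `(X ^ (1/100), X ^ (1/40)]` are counted if `T p ≥ (log p) ^ 9` -/
lemma delT_le_delX {E : Set ℕ} {T : ℕ → ℕ}
    (hTl : ∀ᶠ p : ℕ in atTop, p.Prime → p ∈ E → Real.log p ^ 9 ≤ (T p : ℝ)) :
    ∀ᶠ x : ℝ in atTop, delT E x ≤ delX E T x := by
  obtain ⟨N0, hN0⟩ := eventually_atTop.1 hTl
  have h1 : Tendsto (fun x : ℝ => Real.exp (x / 100)) atTop atTop :=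
    Real.tendsto_exp_atTop.comp (tendsto_id.atTop_div_const (by norm_num))
  filter_upwards [h1.eventually_ge_atTop (N0 : ℝ), eventually_gt_atTop ((100 : ℝ) ^ 9),
    eventually_ge_atTop (1 : ℝ)] with x hx1 hx2 hx3
  unfold delT SE delX
  apply Finset.sum_le_sum_of_subset_of_nonneg
  · intro p hp
    rw [mem_EP (Real.exp_pos _).le] at hp
    obtain ⟨hpp, hpE, hp1, hp2⟩ := hp
    rw [mem_PX]
    refine ⟨⟨hpp, hpE, hp2.trans (Real.exp_le_exp.2 (by linarith))⟩, ?_⟩
    have hpN : N0 ≤ p := by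
      have : (N0 : ℝ) ≤ p := by linarith
      exact_mod_cast this
    refine lt_of_lt_of_le ?_ (hN0 p hpN hpp hpE)
    have h2 : x / 100 ≤ Real.log p := by
      rw [Real.le_log_iff_exp_le (by exact_mod_cast hpp.pos)]
      exact hp1.le
    have h3 : (x / 100) ^ 9 ≤ Real.log p ^ 9 := pow_le_pow_left₀ (by positivity) h2 9
    refine lt_of_lt_of_le ?_ h3
    rw [div_pow, lt_div_iff₀ (by positivity)]
    have h4 : x ^ 8 * (100 : ℝ) ^ 9 < x ^ 8 * x := mul_lt_mul_of_pos_left hx2 (by positivity)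
    calc x ^ 8 * (100 : ℝ) ^ 9 < x ^ 8 * x := h4
      _ = x ^ 9 := by ring
  · intro p _ _
    positivity

/-- the gaps -/
theorem gaps_slow {B : Set ℕ} (hB : B.Infinite) {E : Set ℕ} {T : ℕ → ℕ}
    (hT : ∀ p : ℕ, p.Prime → p ∈ E → T p ≤ p) (hSum : Summable (rE E))
    (hle : ∀ᶠ y : ℝ in atTop, delT E y ≤ delX E T y)
    {f : ℕ → ℝ} {x t : ℕ → ℝ}
    (hxt : ∀ k, 0 < t k ∧ 1 / x k ≤ t k ∧ t k ≤ delT E (x k) ∧
        ∃ N : ℕ, (∀ n : ℕ, N ≤ n → 9 / (2 * gT) * Real.log (1 / t k) ≤ f n) ∧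
          ∀ n : ℕ, n < N → (N : ℝ) + Real.log n ^ 2 / f n ≤ Real.exp (x k / 2))
    (hw : ∀ η : ℝ, 0 < η → ∃ᶠ y : ℝ in atTop, (y ∈ Set.range x ∧ 1 / y ≤ delX E T y) ∧
      ∃ m : ℕ, Real.exp ((1 - η) * y) ≤ m ∧ m ≤ Real.exp ((1 + η) * y) ∧
        B ∩ Set.Ioc m (m + ⌊(1 - η) * lamT E T y * y ^ 2⌋₊) = ∅) :
    ∃ᶠ b : ℕ in atTop, b ∈ B ∧ ∃ b' ∈ B, (∀ j, b < j → j < b' → j ∉ B) ∧
        Real.log b ^ 2 / f b ≤ (b' : ℝ) - b := by
  have hg := gT_pos
  rw [frequently_atTop]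
  intro N
  obtain ⟨b0, hb0B, hb0N⟩ := hB.exists_gt (max N 1)
  have h3 := hw (1 / 2) (by norm_num)
  obtain ⟨y, ⟨⟨⟨k, hk⟩, hyd⟩, m, hm1, hm2, hm3⟩, hy1, hyN, hδ3, hley⟩ := (h3.and_eventually
    ((eventually_ge_atTop (1 : ℝ)).and (((tendsto_id.const_mul_atTop
      (show (0 : ℝ) < 1 - 1 / 2 by norm_num)).eventually_ge_atTop (Real.log b0 + 1)).and
      ((delX_tendsto hT hSum (Real.exp_pos (-3))).and hle)))).exists
  have hyN' : Real.log b0 + 1 ≤ (1 - 1 / 2) * y := hyN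
  have hy0 : 0 < y := by linarith
  have hm0 : (0 : ℝ) < m := lt_of_lt_of_le (Real.exp_pos _) hm1
  have hb0m : b0 ≤ m := by
    have h5 : (b0 : ℝ) ≤ m := by
      refine le_trans ?_ hm1
      have : (0 : ℝ) < b0 := by
        have : 0 < b0 := lt_of_le_of_lt (Nat.zero_le _) hb0N
        exact_mod_cast this
      rw [← Real.log_le_iff_le_exp this]
      linarith
    exact_mod_cast h5
  obtain ⟨b, hbB, b', hb'B, hb0b, hbm, hmb', hcons⟩ := gap_of_window hB hb0B hb0m hm3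
  have hNb : N ≤ b := ((le_max_left N 1).trans hb0N.le).trans hb0b
  have h1b : 1 < b := lt_of_lt_of_le (lt_of_le_of_lt (le_max_right N 1) hb0N) hb0b
  refine ⟨b, hNb, hbB, b', hb'B, hcons, ?_⟩
  obtain ⟨ht0, hxt1, hxt2, Nk, hNk1, hNk2⟩ := hxt k
  rw [hk] at hxt1 hxt2 hNk2
  replace hxt2 := hxt2.trans hley
  have hbR : (b : ℝ) ≤ m := by exact_mod_cast hbm
  rcases lt_or_ge b Nk with hlt | hge
  · have h4 := hNk2 b hlt
    have h5 : Real.exp (y / 2) ≤ m := by
      have : (1 - 1 / 2) * y = y / 2 := by ring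
      rw [this] at hm1
      exact hm1
    have h6 : (m : ℝ) ≤ b' := by
      have : m ≤ b' := by omega
      exact_mod_cast this
    have h7 : (b : ℝ) ≤ Nk := by exact_mod_cast hlt.le
    linarith
  · have hs0 : 0 < delX E T y := lt_of_lt_of_le ht0 hxt2
    have hL3 : 3 ≤ Real.log (1 / delX E T y) := by
      rw [one_div, Real.log_inv]
      have := Real.log_le_log hs0 hδ3
      rw [Real.log_exp] at this
      linarith
    obtain ⟨L, hL⟩ : ∃ L : ℝ, L = Real.log (1 / t k) := ⟨_, rfl⟩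
    have hLL : Real.log (1 / delX E T y) ≤ L := by
      rw [hL]
      apply Real.log_le_log (by positivity)
      exact one_div_le_one_div_of_le ht0 hxt2
    have hL0 : 0 < L := by linarith
    have hlam : gT / L ≤ lamT E T y := by
      unfold lamT
      rw [show 2 * Real.exp (-Real.eulerMascheroniConstant) = gT from rfl]
      exact div_le_div_of_nonneg_left hg.le (by linarith) hLL
    have hgap : (1 / 2) * (gT / L) * y ^ 2 ≤ (b' : ℝ) - b := by
      have h4 : m + ⌊(1 - 1 / 2) * lamT E T y * y ^ 2⌋₊ + 1 ≤ b' := hmb'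
      have h5 : (m : ℝ) + (⌊(1 - 1 / 2) * lamT E T y * y ^ 2⌋₊ : ℝ) + 1 ≤ b' := by exact_mod_cast h4
      have h6 := Nat.lt_floor_add_one ((1 - 1 / 2) * lamT E T y * y ^ 2)
      have h8 : (1 / 2) * (gT / L) * y ^ 2 ≤ (1 - 1 / 2) * lamT E T y * y ^ 2 := by
        apply mul_le_mul_of_nonneg_right _ (by positivity)
        linarith
      linarith
    refine le_trans ?_ hgap
    have hfb := hNk1 b hge
    rw [← hL] at hfb
    have hfb0 : 0 < 9 / (2 * gT) * L := by positivity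
    have hlogb : Real.log b ≤ (1 + 1 / 2) * y := by
      rw [Real.log_le_iff_le_exp (by
        have : 0 < b := by omega
        exact_mod_cast this)]
      exact hbR.trans hm2
    have hlogb0 : 0 ≤ Real.log b := Real.log_natCast_nonneg b
    calc Real.log b ^ 2 / f b ≤ ((1 + 1 / 2) * y) ^ 2 / (9 / (2 * gT) * L) := by gcongr
      _ = (1 / 2) * (gT / L) * y ^ 2 := by
          field_simp
          norm_num

end Pool.Agent.LibThinT
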