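import Pool.Agent.LibThinT.Cov

/-!
The variance of the load over the rows.
-/

namespace Pool.Agent.LibThinT

open Filter Topology

lemma sum_period {f : ℕ → ℝ} {m : ℕ} (hf : ∀ k, f (k + m) = f k) (a : ℕ) :
    ∑ k ∈ Finset.Ico a (a + m), f k = ∑ k ∈ Finset.range m, f k := by
  induction a with
  | zero => rw [zero_add, Finset.range_eq_Ico]
  | succ a ih =>
    rw [← ih]
    have h1 : ∑ k ∈ Finset.Ico a (a + m + 1), f k = ∑ k ∈ Finset.Ico a (a + m), f k + f (a + m) :=
      Finset.sum_Ico_succ_top (by omega) f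
    have h2 : ∑ k ∈ Finset.Ico a (a + m + 1), f k = f a + ∑ k ∈ Finset.Ico (a + 1) (a + m + 1), f k :=
      Finset.sum_eq_sum_Ico_succ_bot (by omega) f
    have h3 : a + 1 + m = a + m + 1 := by ring
    rw [h3]
    have h4 := hf a
    linarith

lemma sum_periods {f : ℕ → ℝ} {m : ℕ} (hf : ∀ k, f (k + m) = f k) (a t : ℕ) :
    ∑ k ∈ Finset.Ico a (a + t * m), f k = t * ∑ k ∈ Finset.range m, f k := by
  induction t with
  | zero => simp
  | succ t ih =>
    have h1 : a + (t + 1) * m = (a + t * m) + m := by ring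
    rw [h1, ← Finset.sum_Ico_consecutive f (show a ≤ a + t * m by omega) (by omega), ih,
      sum_period hf]
    push_cast
    ring

lemma sum_period_le {f : ℕ → ℝ} {m : ℕ} (hm : 0 < m) (hf0 : ∀ k, 0 ≤ f k)
    (hf : ∀ k, f (k + m) = f k) {F : ℝ} (hF : ∑ k ∈ Finset.range m, f k ≤ F) (hF0 : 0 ≤ F) (a N : ℕ) :
    ∑ k ∈ Finset.Ico a (a + N), f k ≤ (N / m + 1) * F := by
  have hmR : (0 : ℝ) < m := by exact_mod_cast hm
  calc ∑ k ∈ Finset.Ico a (a + N), f k ≤ ∑ k ∈ Finset.Ico a (a + (N / m + 1) * m), f k := by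
        apply Finset.sum_le_sum_of_subset_of_nonneg _ fun k _ _ => hf0 k
        apply Finset.Ico_subset_Ico_right
        have := Nat.lt_div_mul_add (a := N) hm
        have h2 : (N / m + 1) * m = N / m * m + m := by ring
        omega
    _ = ((N / m + 1 : ℕ) : ℝ) * ∑ k ∈ Finset.range m, f k := sum_periods hf a _
    _ ≤ ((N / m + 1 : ℕ) : ℝ) * F := mul_le_mul_of_nonneg_left hF (Nat.cast_nonneg _)
    _ ≤ (N / m + 1) * F := by
        apply mul_le_mul_of_nonneg_right _ hF0
        push_cast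
        have : ((N / m : ℕ) : ℝ) ≤ (N : ℝ) / m := Nat.cast_div_le
        linarith

lemma le_sum_period {f : ℕ → ℝ} {m : ℕ} (hm : 0 < m) (hf0 : ∀ k, 0 ≤ f k)
    (hf : ∀ k, f (k + m) = f k) {F : ℝ} (hF : F ≤ ∑ k ∈ Finset.range m, f k) (hF0 : 0 ≤ F) (a N : ℕ) :
    (N / m - 1) * F ≤ ∑ k ∈ Finset.Ico a (a + N), f k := by
  have hmR : (0 : ℝ) < m := by exact_mod_cast hm
  calc (N / m - 1) * F ≤ ((N / m : ℕ) : ℝ) * F := by
        apply mul_le_mul_of_nonneg_right _ hF0
        have h1 := Nat.lt_div_mul_add (a := N) hm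
        have h2 : (N : ℝ) ≤ ((N / m : ℕ) : ℝ) * m + m := by exact_mod_cast h1.le
        have h3 : (N : ℝ) / m ≤ ((N / m : ℕ) : ℝ) + 1 := by
          rw [div_le_iff₀ hmR]
          linarith
        linarith
    _ ≤ ((N / m : ℕ) : ℝ) * ∑ k ∈ Finset.range m, f k := mul_le_mul_of_nonneg_left hF (Nat.cast_nonneg _)
    _ = ∑ k ∈ Finset.Ico a (a + (N / m) * m), f k := (sum_periods hf a _).symm
    _ ≤ ∑ k ∈ Finset.Ico a (a + N), f k := by
        apply Finset.sum_le_sum_of_subset_of_nonneg _ fun k _ _ => hf0 k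
        apply Finset.Ico_subset_Ico_right
        have := Nat.div_mul_le_self N m
        omega

lemma modEq_cancel {q b k l n : ℕ} (hq : Nat.Coprime n q) (h : k * q + b ≡ l * q + b [MOD n]) :
    k ≡ l [MOD n] := by
  have h1 : k * q ≡ l * q [MOD n] := Nat.ModEq.add_right_cancel' b h
  exact Nat.ModEq.cancel_right_of_coprime hq h1

lemma wt_period (T : ℕ → ℕ) (p q b : ℕ) (m : ℕ) (hm : p ∣ m) (k : ℕ) :
    wt T p ((k + m) * q + b) = wt T p (k * q + b) := by
  unfold wt
  have : ((k + m) * q + b) % p = (k * q + b) % p := by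
    obtain ⟨t, rfl⟩ := hm
    have : (k + p * t) * q + b = (k * q + b) + p * (t * q) := by ring
    rw [this, Nat.add_mul_mod_self_left]
  rw [this]

lemma sum_wt_range {T : ℕ → ℕ} {p q : ℕ} (b : ℕ) (hp : 0 < p) (hpq : Nat.Coprime p q) (hT : 1 ≤ T p)
    (hTp : T p ≤ p) : ∑ k ∈ Finset.range p, wt T p (k * q + b) = 1 := by
  classical
  have hT0 : (0 : ℝ) < T p := by exact_mod_cast hT
  have hinj : Set.InjOn (fun k : ℕ => (k * q + b) % p) (Finset.range p : Set ℕ) := by
    intro k hk l hl h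
    rw [Finset.mem_coe, Finset.mem_range] at hk hl
    exact Nat.ModEq.eq_of_lt_of_lt (modEq_cancel hpq h) hk hl
  have himg : (Finset.range p).image (fun k : ℕ => (k * q + b) % p) = Finset.range p := by
    apply Finset.eq_of_subset_of_card_le
    · intro r hr
      rw [Finset.mem_image] at hr
      obtain ⟨k, _, rfl⟩ := hr
      exact Finset.mem_range.2 (Nat.mod_lt _ hp)
    · rw [Finset.card_image_of_injOn hinj]
  have h1 : ∑ k ∈ Finset.range p, wt T p (k * q + b) =
      ∑ r ∈ (Finset.range p).image (fun k : ℕ => (k * q + b) % p), wt T p r := by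
    rw [Finset.sum_image hinj]
    apply Finset.sum_congr rfl
    intro k _
    unfold wt
    rw [Nat.mod_mod]
  rw [h1, himg]
  unfold wt
  rw [← Finset.sum_filter, Finset.sum_const, nsmul_eq_mul]
  have h2 : (Finset.range p).filter (fun r => r % p < T p) = Finset.range (T p) := by
    ext r
    rw [Finset.mem_filter, Finset.mem_range, Finset.mem_range]
    constructor
    · rintro ⟨h1, h2⟩
      rwa [Nat.mod_eq_of_lt h1] at h2
    · intro h
      have h3 : r < p := lt_of_lt_of_le h hTp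
      exact ⟨h3, by rwa [Nat.mod_eq_of_lt h3]⟩
  rw [h2, Finset.card_range]
  field_simp

lemma sum_wt_mul {T : ℕ → ℕ} {p p' q : ℕ} (b : ℕ) (hp : 0 < p) (hp' : 0 < p') (hpp : Nat.Coprime p p')
    (hpq : Nat.Coprime p q) (hpq' : Nat.Coprime p' q) (hT : 1 ≤ T p) (hT' : 1 ≤ T p') :
    ∑ k ∈ Finset.range (p * p'), wt T p (k * q + b) * wt T p' (k * q + b) ≤ 1 := by
  classical
  have hT0 : (0 : ℝ) < T p := by exact_mod_cast hT
  have hT0' : (0 : ℝ) < T p' := by exact_mod_cast hT'
  have h1 : ∑ k ∈ Finset.range (p * p'), wt T p (k * q + b) * wt T p' (k * q + b) =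
      ((((Finset.range (p * p')).filter (fun k => (k * q + b) % p < T p ∧ (k * q + b) % p' < T p')).card : ℕ) : ℝ)
        * (1 / (T p : ℝ) * (1 / (T p' : ℝ))) := by
    rw [← nsmul_eq_mul, ← Finset.sum_const, Finset.sum_filter]
    apply Finset.sum_congr rfl
    intro k _
    unfold wt
    by_cases h1 : (k * q + b) % p < T p <;> by_cases h2 : (k * q + b) % p' < T p' <;> simp [h1, h2]
  rw [h1]
  have h2 : ((Finset.range (p * p')).filter
      (fun k => (k * q + b) % p < T p ∧ (k * q + b) % p' < T p')).card ≤ T p * T p' := by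
    calc _ = (((Finset.range (p * p')).filter
          (fun k => (k * q + b) % p < T p ∧ (k * q + b) % p' < T p')).image
          (fun k => ((k * q + b) % p, (k * q + b) % p'))).card := by
          rw [Finset.card_image_of_injOn]
          intro k hk l hl h
          rw [Finset.mem_coe, Finset.mem_filter, Finset.mem_range] at hk hl
          simp only [Prod.mk.injEq] at h
          have e1 : k ≡ l [MOD p] := modEq_cancel hpq h.1
          have e2 : k ≡ l [MOD p'] := modEq_cancel hpq' h.2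
          have e3 : k ≡ l [MOD (p * p')] := (Nat.modEq_and_modEq_iff_modEq_mul hpp).1 ⟨e1, e2⟩
          exact Nat.ModEq.eq_of_lt_of_lt e3 hk.1 hl.1
      _ ≤ (Finset.range (T p) ×ˢ Finset.range (T p')).card := by
          apply Finset.card_le_card
          intro r hr
          rw [Finset.mem_image] at hr
          obtain ⟨k, hk, rfl⟩ := hr
          rw [Finset.mem_filter] at hk
          rw [Finset.mem_product, Finset.mem_range, Finset.mem_range]
          exact hk.2
      _ = T p * T p' := by rw [Finset.card_product, Finset.card_range, Finset.card_range]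
  have h3 : ((((Finset.range (p * p')).filter
      (fun k => (k * q + b) % p < T p ∧ (k * q + b) % p' < T p')).card : ℕ) : ℝ) ≤ T p * T p' := by
    exact_mod_cast h2
  calc _ ≤ ((T p : ℝ) * T p') * (1 / (T p : ℝ) * (1 / (T p' : ℝ))) :=
        mul_le_mul_of_nonneg_right h3 (by positivity)
    _ = 1 := by field_simp

/-- the variance of the load over the rows -/
theorem var_rows {T : ℕ → ℕ} {P : Finset ℕ} {q : ℕ} (b k1 N : ℕ)
    (hP : ∀ p ∈ P, p.Prime ∧ ¬ p ∣ q ∧ 1 ≤ T p ∧ T p ≤ p) {L δ : ℝ} (hL : 0 < L)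
    (hLT : ∀ p ∈ P, L ≤ (T p : ℝ)) (hδ : δ = ∑ p ∈ P, 1 / (p : ℝ)) :
    ∑ k ∈ Finset.Ico k1 (k1 + N), (load T P (k * q + b) - δ) ^ 2 ≤
      (P.card : ℝ) ^ 2 + 2 * δ * P.card + (N * δ + P.card) / L := by
  classical
  have hδ0 : 0 ≤ δ := by
    rw [hδ]
    exact Finset.sum_nonneg fun p _ => by positivity
  have hcop : ∀ p ∈ P, Nat.Coprime p q := fun p hp =>
    (Nat.Prime.coprime_iff_not_dvd (hP p hp).1).2 (hP p hp).2.1
  have hppos : ∀ p ∈ P, (0 : ℝ) < p := fun p hp => by exact_mod_cast (hP p hp).1.pos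
  -- first moment
  have h1 : N * δ - P.card ≤ ∑ k ∈ Finset.Ico k1 (k1 + N), load T P (k * q + b) := by
    unfold load
    rw [Finset.sum_comm, hδ, Finset.mul_sum]
    have e1 : (P.card : ℝ) = ∑ _p ∈ P, (1 : ℝ) := by simp
    rw [e1, ← Finset.sum_sub_distrib]
    apply Finset.sum_le_sum
    intro p hp
    have e2 := le_sum_period (f := fun k => wt T p (k * q + b)) (hP p hp).1.pos
      (fun k => wt_nonneg T p _) (fun k => wt_period T p q b p dvd_rfl k) (F := 1)
      (sum_wt_range b (hP p hp).1.pos (hcop p hp) (hP p hp).2.2.1 (hP p hp).2.2.2).ge zero_le_one k1 N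
    have e3 : (N : ℝ) * (1 / (p : ℝ)) = N / p := by ring
    rw [e3]
    linarith
  -- second moment
  have h2 : ∑ k ∈ Finset.Ico k1 (k1 + N), load T P (k * q + b) ^ 2 ≤
      N * δ ^ 2 + (P.card : ℝ) ^ 2 + (N * δ + P.card) / L := by
    have e0 : ∀ k, load T P (k * q + b) ^ 2 =
        ∑ p ∈ P, ∑ p' ∈ P, wt T p (k * q + b) * wt T p' (k * q + b) := by
      intro k
      unfold load
      rw [sq, Finset.sum_mul_sum]
    simp only [e0]
    have e1 : ∑ k ∈ Finset.Ico k1 (k1 + N), ∑ p ∈ P, ∑ p' ∈ P,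
          wt T p (k * q + b) * wt T p' (k * q + b) =
        ∑ p ∈ P, ∑ p' ∈ P, ∑ k ∈ Finset.Ico k1 (k1 + N),
          wt T p (k * q + b) * wt T p' (k * q + b) := by
      rw [Finset.sum_comm]
      apply Finset.sum_congr rfl
      intro p _
      rw [Finset.sum_comm]
    rw [e1]
    have e2 : ∀ p ∈ P, ∀ p' ∈ P, ∑ k ∈ Finset.Ico k1 (k1 + N),
          wt T p (k * q + b) * wt T p' (k * q + b) ≤
        (if p = p' then (N / p + 1) / L else 0) + (N * (1 / (p : ℝ) * (1 / (p' : ℝ))) + 1) := by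
      intro p hp p' hp'
      have hpos1 := hppos p hp
      have hpos2 := hppos p' hp'
      by_cases hpp : p = p'
      · subst hpp
        rw [if_pos rfl]
        have a1 : ∑ k ∈ Finset.Ico k1 (k1 + N), wt T p (k * q + b) * wt T p (k * q + b) ≤
            (1 / L) * ∑ k ∈ Finset.Ico k1 (k1 + N), wt T p (k * q + b) := by
          rw [Finset.mul_sum]
          apply Finset.sum_le_sum
          intro k _
          apply mul_le_mul_of_nonneg_right _ (wt_nonneg T p _)
          exact (wt_le T p _).trans (one_div_le_one_div_of_le hL (hLT p hp))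
        have a2 := sum_period_le (f := fun k => wt T p (k * q + b)) (hP p hp).1.pos
          (fun k => wt_nonneg T p _) (fun k => wt_period T p q b p dvd_rfl k) (F := 1)
          (sum_wt_range b (hP p hp).1.pos (hcop p hp) (hP p hp).2.2.1 (hP p hp).2.2.2).le
          zero_le_one k1 N
        rw [mul_one] at a2
        have a3 : (1 / L) * ∑ k ∈ Finset.Ico k1 (k1 + N), wt T p (k * q + b) ≤ (1 / L) * (N / p + 1) :=
          mul_le_mul_of_nonneg_left a2 (by positivity)
        have a4 : (1 / L) * ((N : ℝ) / p + 1) = (N / p + 1) / L := by ring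
        have a5 : 0 ≤ (N : ℝ) * (1 / (p : ℝ) * (1 / (p : ℝ))) + 1 := by positivity
        linarith
      · rw [if_neg hpp, zero_add]
        have hcop' : Nat.Coprime p p' := (Nat.coprime_primes (hP p hp).1 (hP p' hp').1).2 hpp
        have a2 := sum_period_le (f := fun k => wt T p (k * q + b) * wt T p' (k * q + b))
          (m := p * p') (Nat.mul_pos (hP p hp).1.pos (hP p' hp').1.pos)
          (fun k => mul_nonneg (wt_nonneg T p _) (wt_nonneg T p' _))
          (fun k => by
            rw [wt_period T p q b (p * p') (Nat.dvd_mul_right p p') k,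
              wt_period T p' q b (p * p') (Nat.dvd_mul_left p' p) k]) (F := 1)
          (sum_wt_mul b (hP p hp).1.pos (hP p' hp').1.pos hcop' (hcop p hp) (hcop p' hp')
            (hP p hp).2.2.1 (hP p' hp').2.2.1) zero_le_one k1 N
        rw [mul_one] at a2
        have a3 : (N : ℝ) / ((p * p' : ℕ) : ℝ) = N * (1 / (p : ℝ) * (1 / (p' : ℝ))) := by
          push_cast
          field_simp
        rw [a3] at a2
        exact a2
    refine (Finset.sum_le_sum fun p hp => Finset.sum_le_sum fun p' hp' => e2 p hp p' hp').trans ?_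
    have e3 : ∀ p ∈ P, ∑ p' ∈ P, ((if p = p' then ((N : ℝ) / p + 1) / L else 0) +
          (N * (1 / (p : ℝ) * (1 / (p' : ℝ))) + 1)) =
        ((N : ℝ) / p + 1) / L + (N * (1 / (p : ℝ)) * δ + P.card) := by
      intro p hp
      rw [Finset.sum_add_distrib, Finset.sum_ite_eq, if_pos hp, Finset.sum_add_distrib]
      congr 1
      rw [hδ, Finset.mul_sum]
      congr 1
      · apply Finset.sum_congr rfl
        intro p' _
        ring
      · simp
    rw [Finset.sum_congr rfl e3, Finset.sum_add_distrib, Finset.sum_add_distrib]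
    have e4 : ∑ p ∈ P, ((N : ℝ) / p + 1) / L = (N * δ + P.card) / L := by
      rw [← Finset.sum_div, Finset.sum_add_distrib]
      congr 1
      congr 1
      · rw [hδ, Finset.mul_sum]
        apply Finset.sum_congr rfl
        intro p _
        ring
      · simp
    have e5 : ∑ p ∈ P, (N : ℝ) * (1 / (p : ℝ)) * δ = N * δ ^ 2 := by
      rw [← Finset.sum_mul, ← Finset.mul_sum, ← hδ]
      ring
    have e6 : ∑ _p ∈ P, (P.card : ℝ) = (P.card : ℝ) ^ 2 := by
      rw [Finset.sum_const, nsmul_eq_mul]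
      ring
    rw [e4, e5, e6]
    linarith
  have h3 : ∑ k ∈ Finset.Ico k1 (k1 + N), (load T P (k * q + b) - δ) ^ 2 =
      ∑ k ∈ Finset.Ico k1 (k1 + N), load T P (k * q + b) ^ 2 -
        2 * δ * ∑ k ∈ Finset.Ico k1 (k1 + N), load T P (k * q + b) + N * δ ^ 2 := by
    have e1 : ∀ k ∈ Finset.Ico k1 (k1 + N), (load T P (k * q + b) - δ) ^ 2 =
        load T P (k * q + b) ^ 2 - 2 * δ * load T P (k * q + b) + δ ^ 2 := fun k _ => by ring
    rw [Finset.sum_congr rfl e1, Finset.sum_add_distrib, Finset.sum_sub_distrib, ← Finset.mul_sum,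
      Finset.sum_const, Nat.card_Ico, Nat.add_sub_cancel_left, nsmul_eq_mul]
  rw [h3]
  have h4 : 2 * δ * (N * δ - P.card) ≤
      2 * δ * ∑ k ∈ Finset.Ico k1 (k1 + N), load T P (k * q + b) :=
    mul_le_mul_of_nonneg_left h1 (by positivity)
  nlinarith

/-- the number of rows with a bad load at a given position -/
theorem bad_rows {T : ℕ → ℕ} {P : Finset ℕ} {q : ℕ} (b k1 N : ℕ)
    (hP : ∀ p ∈ P, p.Prime ∧ ¬ p ∣ q ∧ 1 ≤ T p ∧ T p ≤ p) {L δ ε : ℝ} (hL : 0 < L)
    (hLT : ∀ p ∈ P, L ≤ (T p : ℝ)) (hδ : δ = ∑ p ∈ P, 1 / (p : ℝ)) (hδ0 : 0 < δ) (hε : 0 < ε) :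
    (((Finset.Ico k1 (k1 + N)).filter (fun k => ε * δ < |load T P (k * q + b) - δ|)).card : ℝ) ≤
      ((P.card : ℝ) ^ 2 + 2 * δ * P.card + (N * δ + P.card) / L) / (ε * δ) ^ 2 := by
  classical
  have h1 := var_rows b k1 N hP hL hLT hδ
  rw [le_div_iff₀ (by positivity)]
  refine le_trans ?_ h1
  calc _ = ∑ _k ∈ (Finset.Ico k1 (k1 + N)).filter (fun k => ε * δ < |load T P (k * q + b) - δ|),
        (ε * δ) ^ 2 := by rw [Finset.sum_const, nsmul_eq_mul]
    _ ≤ ∑ k ∈ (Finset.Ico k1 (k1 + N)).filter (fun k => ε * δ < |load T P (k * q + b) - δ|),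
        (load T P (k * q + b) - δ) ^ 2 := by
        apply Finset.sum_le_sum
        intro k hk
        rw [Finset.mem_filter] at hk
        rw [← sq_abs (load T P (k * q + b) - δ)]
        have : 0 ≤ ε * δ := by positivity
        exact pow_le_pow_left₀ this hk.2.le 2
    _ ≤ ∑ k ∈ Finset.Ico k1 (k1 + N), (load T P (k * q + b) - δ) ^ 2 :=
        Finset.sum_le_sum_of_subset_of_nonneg (Finset.filter_subset _ _) fun k _ _ => sq_nonneg _

end Pool.Agent.LibThinT
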