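import Pool.Agent.LibThinT.Center
import Pool.Agent.LibThin91.H1
import Pool.Agent.LibThin91.F1
import Pool.Agent.LibThin91.F2
import Pool.Agent.LibThin21.R5
import Pool.Agent.LibThin21.R7

/-!
From the scales to long windows free of sifted elements, with windows of variable length.
-/

namespace Pool.Agent.LibThinT

open Filter Topology MeasureTheory ProbabilityTheory
open Pool.Agent.LibMaier Pool.Agent.LibThin21 Pool.Agent.LibThin91

variable {Ω : Type*} [MeasurableSpace Ω] {μ : Measure Ω} [IsProbabilityMeasure μ] {E : Set ℕ}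
  {T : ℕ → ℕ} {a : ℕ → Ω → ℕ}

theorem window_probT (hS : Summable (rE E)) (hT : ∀ p : ℕ, p.Prime → p ∈ E → T p ≤ p) (hM : ModelT μ E T a) {ε Lam : ℝ}
    (hε : 0 < ε) (hε1 : ε < 1 / 100) (hLam : 0 < Lam) : ∃ V : ℝ, ∀ᶠ x : ℝ in atTop,
      1 / x ≤ delX E T x → ∀ lam : ℝ, 1 / Real.log x ^ 2 ≤ lam → lam ≤ Lam →
      (1 + 50 * ε) * (eg / 2) * lam * Real.log (1 / delX E T x) ≤ 1 - 5 * ε →
      1 - ε ≤ μ.real {ω | ∃ m : ℕ, Real.exp (x - V) ≤ m ∧ m ≤ Real.exp (x + V) ∧
        sifted (fun p => a p ω) ∩ Set.Ioc m (m + ⌊lam * x ^ 2⌋₊) = ∅} := by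
  obtain ⟨v0, hv0, hgw⟩ := exists_v0 hε
  refine ⟨v0 + 1, ?_⟩
  have hx2 : ∀ᶠ x : ℝ in atTop, x ^ 2 ≤ Real.exp (x - (v0 + 1)) := by
    have h1 : Tendsto (fun x : ℝ => Real.exp x / x ^ 2) atTop atTop :=
      Real.tendsto_exp_div_pow_atTop 2
    filter_upwards [h1.eventually_ge_atTop (Real.exp (v0 + 1)), eventually_gt_atTop (0 : ℝ)] with x hx hx0
    rw [Real.exp_sub, le_div_iff₀ (Real.exp_pos _)]
    rw [le_div_iff₀ (by positivity)] at hx
    linarith
  filter_upwards [exists_goodScale_unif hε hε1 hv0 hLam, scale_probT hS hT hM hε hε1 hv0 hLam hgw,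
    hx2, eventually_ge_atTop (1 : ℝ), eventually_ge_atTop (3 * (v0 + 1) + 1),
    eventually_ge_atTop (Real.exp 1)] with x hgood hscale hx2' hx1 hxv hxe
  intro hδx lam hl1 hl2 hcond
  obtain ⟨z, p0, q, k1, k2, hG, hHC⟩ := hgood
  have hSc := hscale hδx z p0 q k1 k2 hG hHC lam hl1 hl2 hcond
  obtain ⟨P, hP⟩ : ∃ P, P = PX E T x := ⟨_, rfl⟩
  rw [← hP] at hSc
  have hPT : ∀ p ∈ P, p.Prime ∧ p ∈ E ∧ 1 ≤ T p ∧ T p ≤ p ∧ x ^ 8 ≤ (T p : ℝ) ∧
      (p : ℝ) ≤ Real.exp (x / 3) := by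
    rw [hP]
    exact PX_facts hT
  have hx0 : 0 < x := by linarith
  have hlogx : 1 ≤ Real.log x := by
    rw [Real.le_log_iff_exp_le hx0]
    exact hxe
  have hzx : (z : ℝ) ≤ x := by
    have h1 := hG.hzx
    have h2 : (z : ℝ) ≤ z * Real.log x := by
      have : (0 : ℝ) ≤ z := Nat.cast_nonneg z
      nlinarith
    have h3 : ε ^ 3 * x ≤ 1 * x := by
      apply mul_le_mul_of_nonneg_right _ hx0.le
      have : ε ^ 3 ≤ 1 ^ 3 := by
        apply pow_le_pow_left₀ hε.le
        linarith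
      simpa using this
    linarith
  have hq1 : 1 ≤ q := by
    rcases Nat.eq_zero_or_pos q with h | h
    · exfalso
      have h1 := hG.hq
      rw [h, zero_mul] at h1
      exact primorial_ne_zero z h1.symm
    · exact h
  have hk1q : (0 : ℝ) < (k1 : ℝ) * q := by
    rcases (mul_nonneg (Nat.cast_nonneg k1) (Nat.cast_nonneg q) :
      (0 : ℝ) ≤ (k1 : ℝ) * q).lt_or_eq with h | h
    · exact h
    · exfalso
      have h1 := hG.hl1
      rw [← h, Real.log_zero] at h1
      linarith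
  have hk1 : Real.exp (x - (v0 + 1)) ≤ (k1 : ℝ) * q := by
    rw [← Real.le_log_iff_exp_le hk1q]
    exact hG.hl1
  have hk2q : (0 : ℝ) < (k2 : ℝ) * q := by
    refine lt_of_lt_of_le hk1q ?_
    have : (k1 : ℝ) ≤ k2 := by exact_mod_cast hG.hk12
    gcongr
  have hk2 : (k2 : ℝ) * q ≤ Real.exp (x + (v0 + 1)) := by
    rw [← Real.log_le_iff_le_exp hk2q]
    exact hG.hl4
  have hdisj : Disjoint q.primeFactors P := by
    rw [Finset.disjoint_left]
    intro p hp hpP
    have h1 := hG.prime_le hp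
    obtain ⟨-, -, -, h4, h5, -⟩ := hPT p hpP
    have h2 : (p : ℝ) ≤ z := by exact_mod_cast h1
    have h6 : (T p : ℝ) ≤ p := by exact_mod_cast h4
    have h3 : x < x ^ 8 := by
      have hx2 : (2 : ℝ) ≤ x := by
        have := Real.add_one_le_exp (1 : ℝ)
        linarith
      calc x < x ^ 2 := by nlinarith
        _ ≤ x ^ 8 := pow_le_pow_right₀ hx1 (by norm_num)
    linarith
  classical
  let R : ℕ → (P → ℕ) → Prop := fun c α => ∃ k ∈ Finset.Ico k1 k2, ∃ T : Finset ℕ,
    TT E q c k ⌊lam * x ^ 2⌋₊ ⊆ T ∧ ∀ i ∈ T, ∃ p : P, k * q + c + i ≡ α p [MOD (p : ℕ)]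
  have hcb := center_bound (μ := μ) (a := a) hM hG.squarefree hdisj R (κ := ε) (by
    intro c hc _
    refine (hSc c hc).trans ?_
    apply measureReal_mono _ (measure_ne_top _ _)
    rintro ω ⟨k, hk, T, hT, hcov⟩
    refine ⟨k, hk, T, hT, fun i hi => ?_⟩
    obtain ⟨p, hp, hpi⟩ := hcov i hi
    exact ⟨⟨p, hp⟩, hpi⟩)
  refine hcb.trans ?_
  apply measureReal_mono _ (measure_ne_top _ _)
  rintro ω ⟨c, hc, hcong, -, k, hk, T, hT, hcov⟩
  rw [Finset.mem_Ico] at hk
  have hm1 : Real.exp (x - (v0 + 1)) ≤ ((k * q + c : ℕ) : ℝ) := by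
    refine hk1.trans ?_
    have h1 : k1 * q ≤ k * q + c := (Nat.mul_le_mul_right q hk.1).trans (Nat.le_add_right _ _)
    exact_mod_cast h1
  have hm2 : ((k * q + c : ℕ) : ℝ) ≤ (k2 : ℝ) * q := by
    have h1 : k * q + c ≤ k2 * q := by
      calc k * q + c ≤ k * q + q := by omega
        _ = (k + 1) * q := by ring
        _ ≤ k2 * q := Nat.mul_le_mul_right q hk.2
    exact_mod_cast h1
  have hsq : ∀ p : ℕ, (p : ℝ) ≤ Real.exp (x / 3) → p ^ 2 ≤ k * q + c := by
    intro p hp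
    have h1 : (p : ℝ) ^ 2 ≤ Real.exp (x - (v0 + 1)) := by
      calc (p : ℝ) ^ 2 ≤ Real.exp (x / 3) ^ 2 := by gcongr
        _ = Real.exp (2 * x / 3) := by
            rw [← Real.exp_nat_mul]
            congr 1
            push_cast
            ring
        _ ≤ Real.exp (x - (v0 + 1)) := by
            apply Real.exp_le_exp.2
            linarith
    have h2 : (p : ℝ) ^ 2 ≤ ((k * q + c : ℕ) : ℝ) := h1.trans hm1
    exact_mod_cast h2
  refine ⟨k * q + c, hm1, hm2.trans hk2, ?_⟩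
  apply window_empty (α := fun p => a p ω) (fun p hp => hM.zero p hp ω) hq1 (T := T) (P := P)
  · intro p hp
    obtain ⟨h1, -, -, -, -, h7⟩ := hPT p hp
    exact ⟨h1, hsq p h7⟩
  · intro p hp
    have h1 : (p : ℝ) ≤ z := by exact_mod_cast hG.prime_le hp
    have h2 : (p : ℝ) ^ 2 ≤ x ^ 2 := by
      have : (0 : ℝ) ≤ p := Nat.cast_nonneg p
      gcongr
      linarith
    have h3 : (p : ℝ) ^ 2 ≤ ((k * q + c : ℕ) : ℝ) := (h2.trans hx2').trans hm1
    exact_mod_cast h3
  · intro p hp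
    exact hcong p hp
  · exact hT
  · intro i hi
    obtain ⟨p, hp⟩ := hcov i hi
    exact ⟨p, p.2, hp⟩

/-- `λ(X) = 2 e^{-γ} / log (1 / δ'(X))`, `X = exp x` -/
noncomputable def lamT (E : Set ℕ) (T : ℕ → ℕ) (x : ℝ) : ℝ :=
  2 * Real.exp (-Real.eulerMascheroniConstant) / Real.log (1 / delX E T x)

/-- At every large scale `X = exp x` with `δ'(X) ≥ 1 / log X`, with probability at least `1 - η` there
is a window of length `(1 - η) λ(X) (log X)²` between `X / C` and `C X` which contains no element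
of the sifted set. -/
theorem scalesT (hS : Summable (rE E)) (hT : ∀ p : ℕ, p.Prime → p ∈ E → T p ≤ p) (hM : ModelT μ E T a) {η : ℝ} (hη : 0 < η) :
    ∃ V : ℝ, ∀ᶠ x : ℝ in atTop, 1 / x ≤ delX E T x →
      1 - η ≤ μ.real {ω | ∃ m : ℕ, Real.exp (x - V) ≤ m ∧ m ≤ Real.exp (x + V) ∧
        sifted (fun p => a p ω) ∩ Set.Ioc m (m + ⌊(1 - η) * lamT E T x * x ^ 2⌋₊) = ∅} := by
  rcases le_or_gt 1 η with h1 | hη1
  · refine ⟨0, Eventually.of_forall fun x _ => ?_⟩
    exact le_trans (by linarith) measureReal_nonneg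
  obtain ⟨ε, hεd⟩ : ∃ ε : ℝ, ε = η / 200 := ⟨_, rfl⟩
  have hε : 0 < ε := by rw [hεd]; positivity
  have hε1 : ε < 1 / 100 := by rw [hεd]; linarith
  obtain ⟨V, hV⟩ := window_probT hS hT hM hε hε1 (Lam := 1) one_pos
  refine ⟨V, ?_⟩
  have hg0 : 0 < (1 - η) * (2 * Real.exp (-Real.eulerMascheroniConstant)) := by
    have : 0 < 1 - η := by linarith
    positivity
  filter_upwards [hV, delX_tendsto hT hS (Real.exp_pos (-3)), eventually_ge_atTop (1 : ℝ),
    Real.tendsto_log_atTop.eventually_ge_atTop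
      (1 / ((1 - η) * (2 * Real.exp (-Real.eulerMascheroniConstant))))]
    with x hx hδ3 hx1 hlogx hdel
  have hx0 : 0 < x := by linarith
  have hs0 : 0 < delX E T x := lt_of_lt_of_le (by positivity) hdel
  have hL3 : 3 ≤ Real.log (1 / delX E T x) := by
    rw [one_div, Real.log_inv]
    have := Real.log_le_log hs0 hδ3
    rw [Real.log_exp] at this
    linarith
  have hLx : Real.log (1 / delX E T x) ≤ Real.log x := by
    apply Real.log_le_log (by positivity)
    rw [div_le_iff₀ hs0]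
    rw [div_le_iff₀ hx0] at hdel
    linarith
  obtain ⟨g, hg⟩ : ∃ g : ℝ, g = 2 * Real.exp (-Real.eulerMascheroniConstant) := ⟨_, rfl⟩
  have hg1 : g ≤ 2 := by
    rw [hg]
    have h2 : Real.exp (-Real.eulerMascheroniConstant) ≤ 1 := by
      rw [Real.exp_le_one_iff]
      have := Real.one_half_lt_eulerMascheroniConstant
      linarith
    linarith
  have hg00 : 0 < g := by rw [hg]; positivity
  have hlam : lamT E T x = g / Real.log (1 / delX E T x) := by rw [hg]; rfl
  obtain ⟨L, hL⟩ : ∃ L : ℝ, L = Real.log (1 / delX E T x) := ⟨_, rfl⟩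
  rw [← hL] at hL3 hLx hlam
  rw [← hg] at hlogx hg0
  have hL0 : 0 < L := by linarith
  have hη0 : 0 < 1 - η := by linarith
  have h3 := hx hdel ((1 - η) * lamT E T x) (by
      rw [hlam, ← mul_div_assoc, div_le_div_iff₀ (by
        have : 0 < Real.log x := by linarith
        positivity) hL0]
      have h4 : 1 ≤ Real.log x * ((1 - η) * g) := by
        rwa [div_le_iff₀ hg0] at hlogx
      have h5 : 0 < Real.log x := by linarith
      calc 1 * L ≤ Real.log x := by linarith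
        _ = 1 * Real.log x := by ring
        _ ≤ (Real.log x * ((1 - η) * g)) * Real.log x := mul_le_mul_of_nonneg_right h4 h5.le
        _ = (1 - η) * g * Real.log x ^ 2 := by ring) (by
      rw [hlam]
      have h4 : g / L ≤ 1 := by
        rw [div_le_one hL0]
        linarith
      have h5 : 0 < g / L := by positivity
      nlinarith) (by
      rw [hlam, ← hL]
      have h5 : eg * g = 2 := by
        rw [hg]
        have : eg * Real.exp (-Real.eulerMascheroniConstant) = 1 := by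
          unfold eg
          rw [← Real.exp_add]
          simp
        linarith
      calc (1 + 50 * ε) * (eg / 2) * ((1 - η) * (g / L)) * L =
            (1 + 50 * ε) * (1 - η) * ((eg * g) / 2) := by field_simp
        _ = (1 + 50 * ε) * (1 - η) := by rw [h5]; ring
        _ ≤ 1 - 5 * ε := by rw [hεd]; nlinarith)
  refine le_trans (by rw [hεd]; linarith) h3

end Pool.Agent.LibThinT
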